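import Pool.Agent.SPK.RingInt

/-! Aligning two families of cuts on at most three common points. -/

namespace SPK

open Finset

theorem exists_perm {α β : Type*} [Fintype α] [DecidableEq β] (f g : α → β)
    (h : ∀ b, Fintype.card {a // f a = b} = Fintype.card {a // g a = b}) :
    ∃ σ : α ≃ α, ∀ a, g (σ a) = f a := by
  classical
  let e : (Σ b, {a // f a = b}) ≃ (Σ b, {a // g a = b}) :=
    Equiv.sigmaCongrRight (fun b => Fintype.equivOfCardEq (h b))
  refine ⟨(Equiv.sigmaFiberEquiv f).symm.trans (e.trans (Equiv.sigmaFiberEquiv g)), ?_⟩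
  intro a
  simp only [Equiv.trans_apply]
  have h1 : (Equiv.sigmaFiberEquiv f).symm a = ⟨f a, ⟨a, rfl⟩⟩ := rfl
  rw [h1]
  simp only [e, Equiv.sigmaCongrRight_apply, Equiv.sigmaFiberEquiv]
  exact (Fintype.equivOfCardEq (h (f a)) ⟨a, rfl⟩).2

theorem small_cover {V : Type*} [DecidableEq V] (S : Finset V) (h : S.card ≤ 3)
    (hne : S.Nonempty) : ∃ x ∈ S, ∃ y ∈ S, ∃ z ∈ S, ∀ a ∈ S, a = x ∨ a = y ∨ a = z := by
  have hpos := Finset.card_pos.2 hne
  have h3 : S.card = 1 ∨ S.card = 2 ∨ S.card = 3 := by omega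
  rcases h3 with h1 | h1 | h1
  · obtain ⟨x, hx⟩ := Finset.card_eq_one.1 h1
    subst hx
    exact ⟨x, by simp, x, by simp, x, by simp, by simp⟩
  · obtain ⟨x, y, -, hx⟩ := Finset.card_eq_two.1 h1
    subst hx
    exact ⟨x, by simp, y, by simp, y, by simp, by simp⟩
  · obtain ⟨x, y, z, -, -, -, hx⟩ := Finset.card_eq_three.1 h1
    subst hx
    exact ⟨x, by simp, y, by simp, z, by simp, by simp⟩

/-- Number of colours separating two points. -/
def dist {V : Type*} {r : ℕ} (φ : Fin r → V → Bool) (x y : V) : ℤ := ∑ m, iz (φ m x ^^ φ m y)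

theorem dist_comm {V : Type*} {r : ℕ} (φ : Fin r → V → Bool) (x y : V) :
    dist φ x y = dist φ y x := by
  unfold dist
  apply Finset.sum_congr rfl
  intro m _
  rw [Bool.xor_comm]

theorem dist_self {V : Type*} {r : ℕ} (φ : Fin r → V → Bool) (x : V) :
    dist φ x x = 0 := by
  simp [dist]

theorem fibre_card {V : Type*} {r : ℕ} (φ : Fin r → V → Bool) (x y z : V) (p : Bool × Bool) :
    4 * (Fintype.card {m // ((φ m x ^^ φ m y), (φ m x ^^ φ m z)) = p} : ℤ) =
      2 * ((if p.1 then dist φ x y else (r : ℤ) - dist φ x y) +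
        (if p.2 then dist φ x z else (r : ℤ) - dist φ x z) +
        (if (p.1 ^^ p.2) then dist φ y z else (r : ℤ) - dist φ y z) - r) := by
  classical
  rw [Fintype.card_subtype, Finset.card_filter]
  push_cast
  have hr : (r : ℤ) = ∑ _m : Fin r, (1 : ℤ) := by simp
  unfold dist
  have key : ∀ (b : Bool) (F : Fin r → Bool),
      (if b then ∑ m, iz (F m) else (r : ℤ) - ∑ m, iz (F m)) = ∑ m, iz (F m == b) := by
    intro b F
    rcases b with _ | _
    · simp only [Bool.false_eq_true, if_false]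
      rw [hr, ← Finset.sum_sub_distrib]
      apply Finset.sum_congr rfl
      intro m _
      rcases F m with _ | _ <;> simp
    · simp
  rw [key, key, key, hr, ← Finset.sum_add_distrib, ← Finset.sum_add_distrib,
    ← Finset.sum_sub_distrib, Finset.mul_sum, Finset.mul_sum]
  apply Finset.sum_congr rfl
  intro m _
  obtain ⟨p1, p2⟩ := p
  rcases φ m x with _ | _ <;> rcases φ m y with _ | _ <;> rcases φ m z with _ | _ <;>
    rcases p1 with _ | _ <;> rcases p2 with _ | _ <;> simp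

theorem align {V : Type*} [DecidableEq V] {r : ℕ} (φ1 φ2 : Fin r → V → Bool) (S : Finset V)
    (hS : S.card ≤ 3) (h : ∀ x ∈ S, ∀ y ∈ S, x ≠ y → dist φ1 x y = dist φ2 x y) :
    ∃ (σ : Fin r ≃ Fin r) (ε : Fin r → Bool), ∀ m, ∀ x ∈ S, φ1 m x = (φ2 (σ m) x ^^ ε m) := by
  classical
  rcases S.eq_empty_or_nonempty with hS0 | hne
  · subst hS0
    exact ⟨Equiv.refl _, fun _ => false, by simp⟩
  obtain ⟨x, hx, y, hy, z, hz, hcov⟩ := small_cover S hS hne
  have h' : ∀ x ∈ S, ∀ y ∈ S, dist φ1 x y = dist φ2 x y := by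
    intro a ha b hb
    by_cases hab : a = b
    · subst hab
      rw [dist_self, dist_self]
    · exact h a ha b hb hab
  obtain ⟨σ, hσ⟩ := exists_perm (fun m => ((φ1 m x ^^ φ1 m y), (φ1 m x ^^ φ1 m z)))
    (fun m => ((φ2 m x ^^ φ2 m y), (φ2 m x ^^ φ2 m z))) (by
      intro p
      have h1 := fibre_card φ1 x y z p
      have h2 := fibre_card φ2 x y z p
      rw [h' x hx y hy, h' x hx z hz, h' y hy z hz] at h1
      have h3 : (4 : ℤ) * (Fintype.card {m // ((φ1 m x ^^ φ1 m y), (φ1 m x ^^ φ1 m z)) = p} : ℤ) =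
          4 * (Fintype.card {m // ((φ2 m x ^^ φ2 m y), (φ2 m x ^^ φ2 m z)) = p} : ℤ) := by
        rw [h1, h2]
      have h4 : (Fintype.card {m // ((φ1 m x ^^ φ1 m y), (φ1 m x ^^ φ1 m z)) = p} : ℤ) =
          (Fintype.card {m // ((φ2 m x ^^ φ2 m y), (φ2 m x ^^ φ2 m z)) = p} : ℤ) := by
        linarith
      exact_mod_cast h4)
  refine ⟨σ, fun m => φ1 m x ^^ φ2 (σ m) x, ?_⟩
  intro m a ha
  dsimp only
  have h1 := hσ m
  simp only [Prod.mk.injEq] at h1
  obtain ⟨h2, h3⟩ := h1
  rcases hcov a ha with h4 | h4 | h4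
  · subst h4
    rcases φ1 m a with _ | _ <;> rcases φ2 (σ m) a with _ | _ <;> rfl
  · subst h4
    revert h2
    rcases φ1 m a with _ | _ <;> rcases φ2 (σ m) a with _ | _ <;>
      rcases φ1 m x with _ | _ <;> rcases φ2 (σ m) x with _ | _ <;> simp
  · subst h4
    revert h3
    rcases φ1 m a with _ | _ <;> rcases φ2 (σ m) a with _ | _ <;>
      rcases φ1 m x with _ | _ <;> rcases φ2 (σ m) x with _ | _ <;> simp

/-- Distances do not change under recolouring and switching. -/
theorem dist_perm {V : Type*} {r : ℕ} (φ : Fin r → V → Bool) (σ : Fin r ≃ Fin r)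
    (ε : Fin r → Bool) (x y : V) :
    dist (fun m a => (φ (σ m) a ^^ ε m)) x y = dist φ x y := by
  unfold dist
  rw [← Equiv.sum_comp σ (fun m => iz (φ m x ^^ φ m y))]
  apply Finset.sum_congr rfl
  intro m _
  dsimp only
  rcases φ (σ m) x with _ | _ <;> rcases φ (σ m) y with _ | _ <;> rcases ε m with _ | _ <;> rfl

end SPK
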