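import Pool.Agent.SPK.Final

/-! Packing by cyclic intervals when deleting (and contracting) a set leaves a graph mapping to a
negative cycle. -/

namespace SPK

open Finset

variable {V E : Type*}

/-- Walks between vertices of `Z` look as if `Z` were one vertex (after switching by `ε`): positive
ones are even, negative ones have length at least `g` and the parity of `g`. -/
def SignedGraph.Safe (G : SignedGraph V E) (g : ℕ) (Z : Set V) (ε : V → Bool) : Prop :=
  ∀ (k : ℕ) (v : ℕ → V) (e : ℕ → E), v 0 ∈ Z → v k ∈ Z →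
    (∀ i < k, G.Joins (e i) (v i) (v (i + 1))) →
    (Even (negCount G.neg k e + (if ε (v 0) then 1 else 0) + (if ε (v k) then 1 else 0)) →
      Even k) ∧
    (Odd (negCount G.neg k e + (if ε (v 0) then 1 else 0) + (if ε (v k) then 1 else 0)) →
      g ≤ k ∧ Even (k + g))

theorem safe_SW {G : SignedGraph V E} {g : ℕ} {Z : Set V} {ε : V → Bool} (h : G.Safe g Z ε)
    (e0 : E) {k : ℕ} {z z' : V} (hz : z ∈ Z) (hz' : z' ∈ Z) {a b : Bool}
    (hw : SW G k (z, ε z ^^ a) (z', ε z' ^^ b)) :
    (a = b → k % 2 = 0) ∧ (a ≠ b → g ≤ k ∧ (k + g) % 2 = 0) := by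
  unfold SW at hw
  obtain ⟨v, e, h1, h2, h3, h4⟩ := Wlk.seq e0 hw
  simp only at h1 h2 h4
  have h5 := h k v e (by rw [h1]; exact hz) (by rw [h2]; exact hz') h3
  rw [h1, h2] at h5
  rw [Nat.even_iff, Nat.odd_iff, Nat.even_iff, Nat.even_iff] at h5
  constructor
  · rintro rfl
    apply h5.1
    revert h4
    rcases ε z with _ | _ <;> rcases ε z' with _ | _ <;> rcases a with _ | _ <;> simp <;> omega
  · intro hab
    apply h5.2
    revert h4
    rcases ε z with _ | _ <;> rcases ε z' with _ | _ <;> rcases a with _ | _ <;>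
      rcases b with _ | _ <;> simp at hab ⊢ <;> omega

/-- Completion of the metric after contracting a safe set. -/
theorem safe_metric [Fintype V] [DecidableEq V] (G : SignedGraph V E) (g : ℕ) (e0 : E)
    (hg2 : 2 ≤ g) (hlen : ∀ k p, SW G k p (bar p) → g ≤ k)
    (π : V × Bool → Bool) (hπ : ∀ p, π (bar p) = (π p ^^ decide (g % 2 = 1)))
    (hπw : ∀ k p q, SW G k p q → k % 2 = if (π p ^^ π q) then 1 else 0)
    (Z : Set V) (ε : V → Bool) (hZ : G.Safe g Z ε) :
    ∃ (π' : V × Bool → Bool) (d : V × Bool → V × Bool → ℕ), Good g π' d ∧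
      (∀ p q, d p q + d q (bar p) = g) ∧ (∀ k p q, SW G k p q → d p q ≤ k) ∧
      (∀ k p q, SW G k p q → k % 2 = if (π' p ^^ π' q) then 1 else 0) ∧
      ∀ z ∈ Z, ∀ z' ∈ Z, d (z, ε z) (z', ε z') = 0 := by
  classical
  let κ : V → Bool := fun x => decide (∃ z ∈ Z, (∃ k b, Wlk G k b x z) ∧ π (z, ε z) = true)
  have hκ : ∀ k b x y, Wlk G k b x y → κ x = κ y := by
    intro k b x y hw
    have : (∃ z ∈ Z, (∃ k b, Wlk G k b x z) ∧ π (z, ε z) = true) ↔
        (∃ z ∈ Z, (∃ k b, Wlk G k b y z) ∧ π (z, ε z) = true) := by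
      constructor
      · rintro ⟨z, hz, ⟨l, c, h⟩, h'⟩
        exact ⟨z, hz, ⟨_, _, hw.symm.trans h⟩, h'⟩
      · rintro ⟨z, hz, ⟨l, c, h⟩, h'⟩
        exact ⟨z, hz, ⟨_, _, hw.trans h⟩, h'⟩
    simp only [κ, this]
  have hπbar : ∀ z (b : Bool), π (z, !b) = (π (z, b) ^^ decide (g % 2 = 1)) := fun z b => hπ (z, b)
  have hcons : ∀ z ∈ Z, ∀ z' ∈ Z, ∀ k b, Wlk G k b z z' → π (z, ε z) = π (z', ε z') := by
    intro z hz z' hz' k b hw
    have hsw : SW G k (z, ε z ^^ false) (z', ε z' ^^ (ε z ^^ ε z' ^^ b)) := by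
      unfold SW
      have : ((ε z ^^ false) ^^ (ε z' ^^ (ε z ^^ ε z' ^^ b))) = b := by
        rcases ε z with _ | _ <;> rcases ε z' with _ | _ <;> rcases b with _ | _ <;> rfl
      simp only [this]
      exact hw
    have h1 := safe_SW hZ e0 hz hz' hsw
    have h2 := hπw _ _ _ hsw
    rw [Bool.xor_false] at h2
    rcases hj : (ε z ^^ ε z' ^^ b) with _ | _
    · rw [hj] at h1 h2
      have h3 := h1.1 rfl
      rw [Bool.xor_false] at h2
      revert h2
      rcases π (z, ε z) with _ | _ <;> rcases π (z', ε z') with _ | _ <;> simp <;> omega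
    · rw [hj] at h1 h2
      have h3 := h1.2 (by simp)
      rw [Bool.xor_true, hπbar] at h2
      revert h2
      rcases π (z, ε z) with _ | _ <;> rcases π (z', ε z') with _ | _ <;>
        by_cases hgo : g % 2 = 1 <;> simp [hgo] <;> omega
  let π' : V × Bool → Bool := fun p => π p ^^ κ p.1
  have hπz : ∀ z ∈ Z, π' (z, ε z) = false := by
    intro z hz
    simp only [π']
    have : κ z = π (z, ε z) := by
      rcases hp : π (z, ε z) with _ | _
      · simp only [κ, decide_eq_false_iff_not]
        rintro ⟨z', hz', ⟨k, b, hw⟩, h⟩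
        have := hcons z hz z' hz' k b hw
        rw [hp, h] at this
        exact absurd this (by simp)
      · simp only [κ, decide_eq_true_eq]
        exact ⟨z, hz, ⟨0, false, Wlk.nil z⟩, hp⟩
    rw [this, Bool.xor_self]
  have hπ' : ∀ p, π' (bar p) = (π' p ^^ decide (g % 2 = 1)) := by
    intro p
    simp only [π', hπ p]
    have : (bar p).1 = p.1 := rfl
    rw [this]
    rcases π p with _ | _ <;> rcases κ p.1 with _ | _ <;>
      rcases decide (g % 2 = 1) with _ | _ <;> rfl
  have hπw' : ∀ k p q, SW G k p q → k % 2 = if (π' p ^^ π' q) then 1 else 0 := by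
    intro k p q hw
    have h1 := hπw k p q hw
    have h2 := hκ _ _ _ _ hw
    simp only [π', h2]
    rw [h1]
    rcases π p with _ | _ <;> rcases π q with _ | _ <;> rcases κ q.1 with _ | _ <;> rfl
  have hπzj : ∀ z ∈ Z, ∀ j, π' (z, ε z ^^ j) = (j && decide (g % 2 = 1)) := by
    intro z hz j
    rcases j with _ | _
    · rw [Bool.xor_false, hπz z hz, Bool.false_and]
    · have := hπ' (z, ε z)
      rw [hπz z hz, Bool.false_xor] at this
      rw [Bool.xor_true, Bool.true_and]
      exact this
  -- the relation with jumps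
  let R : ℕ → V × Bool → V × Bool → Prop := fun k p q => SW G k p q ∨
    ∃ z1 z2 k1 l k2, ∃ j1 j2 : Bool, z1 ∈ Z ∧ z2 ∈ Z ∧ SW G k1 p (z1, ε z1 ^^ j1) ∧
      SW G k2 (z2, ε z2 ^^ j2) q ∧ k = k1 + l + k2 ∧
      (l % 2 = if (j1 ^^ j2) then g % 2 else 0) ∧ (j1 ≠ j2 → g ≤ l)
  have Rsym : ∀ k p q, R k p q → R k q p := by
    rintro k p q (h | ⟨z1, z2, k1, l, k2, j1, j2, hz1, hz2, h1, h2, hk, hl, hg⟩)
    · exact Or.inl h.symm
    · refine Or.inr ⟨z2, z1, k2, l, k1, j2, j1, hz2, hz1, h2.symm, h1.symm, by omega, ?_, ?_⟩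
      · rw [Bool.xor_comm]; exact hl
      · intro h; exact hg (Ne.symm h)
  have Rtr : ∀ k l p q s, R k p q → R l q s → R (k + l) p s := by
    rintro k k' p q s (h | ⟨z1, z2, k1, l, k2, j1, j2, hz1, hz2, h1, h2, hk, hl, hg⟩)
      (h' | ⟨z1', z2', k1', l', k2', j1', j2', hz1', hz2', h1', h2', hk', hl', hg'⟩)
    · exact Or.inl (h.trans h')
    · exact Or.inr ⟨z1', z2', k + k1', l', k2', j1', j2', hz1', hz2', h.trans h1', h2', by omega,
        hl', hg'⟩
    · exact Or.inr ⟨z1, z2, k1, l, k2 + k', j1, j2, hz1, hz2, h1, h2.trans h', by omega,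
        hl, hg⟩
    · have hmid := safe_SW hZ e0 hz2 hz1' (h2.trans h1')
      refine Or.inr ⟨z1, z2', k1, l + (k2 + k1') + l', k2', j1, j2', hz1, hz2', h1, h2',
        by omega, ?_, ?_⟩
      · by_cases hm : j2 = j1'
        · have h3 := hmid.1 hm
          subst hm
          revert hl hl'
          rcases j1 with _ | _ <;> rcases j2 with _ | _ <;> rcases j2' with _ | _ <;>
            simp <;> omega
        · have h3 := (hmid.2 hm).2
          revert hl hl' hm
          rcases j1 with _ | _ <;> rcases j2 with _ | _ <;> rcases j1' with _ | _ <;>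
            rcases j2' with _ | _ <;> simp <;> omega
      · intro hne
        by_cases e1 : j1 = j2
        · by_cases e2 : j2 = j1'
          · have e3 : j1' ≠ j2' := by rw [← e2, ← e1]; exact hne
            have := hg' e3
            omega
          · have := (hmid.2 e2).1
            omega
        · have := hg e1
          omega
  have Rbar : ∀ k p q, R k p q → R k (bar p) (bar q) := by
    rintro k p q (h | ⟨z1, z2, k1, l, k2, j1, j2, hz1, hz2, h1, h2, hk, hl, hg⟩)
    · exact Or.inl h.bar
    · have e : ∀ (z : V) (j : Bool), bar (z, ε z ^^ j) = (z, ε z ^^ !j) := by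
        intro z j
        simp only [bar]
        rcases ε z with _ | _ <;> rcases j with _ | _ <;> rfl
      refine Or.inr ⟨z1, z2, k1, l, k2, !j1, !j2, hz1, hz2, ?_, ?_, hk, ?_, ?_⟩
      · rw [← e]; exact h1.bar
      · rw [← e]; exact h2.bar
      · have : ((!j1) ^^ (!j2)) = (j1 ^^ j2) := by
          rcases j1 with _ | _ <;> rcases j2 with _ | _ <;> rfl
        rw [this]; exact hl
      · intro h
        exact hg (fun h' => h (by rw [h']))
  have Rπ : ∀ k p q, R k p q → k % 2 = if (π' p ^^ π' q) then 1 else 0 := by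
    rintro k p q (h | ⟨z1, z2, k1, l, k2, j1, j2, hz1, hz2, h1, h2, hk, hl, hg⟩)
    · exact hπw' k p q h
    · have a1 := hπw' _ _ _ h1
      have a2 := hπw' _ _ _ h2
      rw [hπzj z1 hz1] at a1
      rw [hπzj z2 hz2] at a2
      revert a1 a2 hl
      rcases π' p with _ | _ <;> rcases π' q with _ | _ <;> rcases j1 with _ | _ <;>
        rcases j2 with _ | _ <;> by_cases hgo : g % 2 = 1 <;> simp [hgo] <;> omega
  have Rlen : ∀ k p, R k p (bar p) → g ≤ k := by
    rintro k p (h | ⟨z1, z2, k1, l, k2, j1, j2, hz1, hz2, h1, h2, hk, hl, hg⟩)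
    · exact hlen k p h
    · by_cases hj : j1 = j2
      · have h3 := h2.bar
        rw [bar_bar] at h3
        have e : bar (z2, ε z2 ^^ j2) = (z2, ε z2 ^^ !j2) := by
          simp only [bar]
          rcases ε z2 with _ | _ <;> rcases j2 with _ | _ <;> rfl
        rw [e] at h3
        have h4 := (safe_SW hZ e0 hz2 hz1 (h3.trans h1)).2 (by
          rw [hj]; rcases j2 with _ | _ <;> simp)
        omega
      · have := hg hj
        omega
  obtain ⟨d, hd, hds, hle⟩ := abs_metric R g (by omega) π' hπ' (fun p => Or.inl (SW.refl G p))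
    Rsym Rtr Rbar Rπ Rlen
  refine ⟨π', d, hd, hds, fun k p q h => hle k p q (Or.inl h), hπw', ?_⟩
  intro z hz z' hz'
  have : R 0 (z, ε z) (z', ε z') := by
    refine Or.inr ⟨z, z', 0, 0, 0, false, false, hz, hz', ?_, ?_, rfl, by simp, by simp⟩
    · rw [Bool.xor_false]; exact SW.refl G _
    · rw [Bool.xor_false]; exact SW.refl G _
  have := hle 0 _ _ this
  omega

theorem emod_char {g x u w : ℤ} (h0 : 0 ≤ u) (h1 : u < g) (h : x = u + g * w) : x % g = u := by
  rw [h, Int.add_mul_emod_self_left]
  exact Int.emod_eq_of_lt h0 h1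

theorem sum_one (g : ℕ) (A u0 : ℤ) (h0 : 0 ≤ u0) (h1 : u0 < g) :
    ∑ m : Fin g, iz (decide ((((m : ℕ) : ℤ) - A) % (g : ℤ) = u0)) = 1 := by
  have hg : (0 : ℤ) < g := lt_of_le_of_lt h0 h1
  have hr0 : 0 ≤ (A + u0) % (g : ℤ) := Int.emod_nonneg _ hg.ne'
  have hr1 : (A + u0) % (g : ℤ) < g := Int.emod_lt_of_pos _ hg
  have hlt : ((A + u0) % (g : ℤ)).toNat < g := by omega
  rw [Finset.sum_eq_single (⟨((A + u0) % (g : ℤ)).toNat, hlt⟩ : Fin g)]
  · have e1 : ((((⟨((A + u0) % (g : ℤ)).toNat, hlt⟩ : Fin g) : ℕ) : ℤ) - A) % (g : ℤ) = u0 := by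
      have e2 : (((⟨((A + u0) % (g : ℤ)).toNat, hlt⟩ : Fin g) : ℕ) : ℤ) = (A + u0) % (g : ℤ) := by
        simp only
        exact Int.toNat_of_nonneg hr0
      rw [e2]
      refine emod_char (w := -((A + u0) / (g : ℤ))) h0 h1 ?_
      have := Int.emod_add_mul_ediv (A + u0) (g : ℤ)
      linarith
    rw [e1]
    simp
  · intro m _ hm
    have : ¬ (((m : ℕ) : ℤ) - A) % (g : ℤ) = u0 := by
      intro h
      apply hm
      apply Fin.ext
      simp only
      have h2 := Int.emod_add_mul_ediv (((m : ℕ) : ℤ) - A) (g : ℤ)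
      have h3 : (A + u0) % (g : ℤ) = ((m : ℕ) : ℤ) := by
        refine emod_char (w := -((((m : ℕ) : ℤ) - A) / (g : ℤ))) (by positivity)
          (by exact_mod_cast m.2) ?_
        rw [h] at h2
        linarith
      rw [h3]
      simp
    simp [this]
  · intro h
    exact absurd (Finset.mem_univ _) h

theorem interval_cuts [Fintype V] [DecidableEq V] (G : SignedGraph V E) (g : ℕ)
    (hg2 : 2 ≤ g) {π' : V × Bool → Bool} {d : V × Bool → V × Bool → ℕ} (hd : Good g π' d)
    (hds : ∀ p q, d p q + d q (bar p) = g) (hle : ∀ k p q, SW G k p q → d p q ≤ k)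
    (hπw : ∀ k p q, SW G k p q → k % 2 = if (π' p ^^ π' q) then 1 else 0)
    (Z : Set V) (ε : V → Bool) (P0 : V × Bool) (hP0 : ∀ z ∈ Z, d P0 (z, ε z) = 0)
    (h : V → ZMod (2 * g))
    (hh : ∀ e, G.src e ∉ Z → G.dst e ∉ Z →
      h (G.dst e) = h (G.src e) + (if G.neg e then (g : ZMod (2 * g)) else 0) + 1 ∨
      h (G.dst e) = h (G.src e) + (if G.neg e then (g : ZMod (2 * g)) else 0) - 1) :
    ∃ φ : Fin g → V → Bool, ∀ e,
      ∑ m, iz (G.neg e ^^ (φ m (G.src e) ^^ φ m (G.dst e))) = 1 := by
  classical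
  have hne : NeZero (2 * g) := ⟨by omega⟩
  let F : V × Bool → ℤ := fun p => (d P0 p : ℤ)
  have F0 : ∀ p, 0 ≤ F p := fun p => by simp [F]
  have Fbar : ∀ p, F (bar p) = g - F p := by
    intro p
    have h1 := hds p P0
    have h2 := hd.symm p P0
    simp only [F]
    omega
  have Fg : ∀ p, F p ≤ g := by
    intro p
    have h1 := F0 (bar p)
    rw [Fbar] at h1
    linarith
  have Ftrue : ∀ x, F (x, true) = g - F (x, false) := fun x => Fbar (x, false)
  let hz : V → ℤ := fun x => ((h x).val : ℤ)
  have hzc : ∀ x, ((hz x : ℤ) : ZMod (2 * g)) = h x := by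
    intro x
    simp only [hz, Int.cast_natCast]
    exact ZMod.natCast_zmod_val (h x)
  let H : V → ℤ := fun x => hz x + (hz x - F (x, false)) % 2
  let A0 : V → ℤ := fun x => (H x - F (x, false)) / 2
  have hA0 : ∀ x, 2 * A0 x = H x - F (x, false) := by
    intro x
    simp only [A0, H]
    omega
  let A : V × Bool → ℤ := fun p => A0 p.1 + if p.2 then F (p.1, false) else 0
  let χ : Fin g → V × Bool → Bool := fun m p =>
    decide ((((m : ℕ) : ℤ) - A p) % (g : ℤ) < F p)
  have hgpos : (0 : ℤ) < g := by omega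
  -- representation of residues
  have rep : ∀ (m : Fin g) (B : ℤ), ∃ u w : ℤ, 0 ≤ u ∧ u < g ∧ ((m : ℕ) : ℤ) - B = u + g * w ∧
      (((m : ℕ) : ℤ) - B) % (g : ℤ) = u := by
    intro m B
    refine ⟨(((m : ℕ) : ℤ) - B) % (g : ℤ), (((m : ℕ) : ℤ) - B) / (g : ℤ),
      Int.emod_nonneg _ hgpos.ne', Int.emod_lt_of_pos _ hgpos, ?_, rfl⟩
    have := Int.emod_add_mul_ediv (((m : ℕ) : ℤ) - B) (g : ℤ)
    linarith
  have χbar : ∀ m x, χ m (x, true) = !(χ m (x, false)) := by
    intro m x
    obtain ⟨u, w, h0, h1, h2, h3⟩ := rep m (A0 x)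
    have e1 : A (x, false) = A0 x := by simp [A]
    have e2 : A (x, true) = A0 x + F (x, false) := by simp [A]
    simp only [χ]
    rw [e1, e2, h3, Ftrue]
    have hF0 := F0 (x, false)
    have hFg := Fg (x, false)
    by_cases hu : u < F (x, false)
    · have h4 : (((m : ℕ) : ℤ) - (A0 x + F (x, false))) % (g : ℤ) = u - F (x, false) + g :=
        emod_char (w := w - 1) (by linarith) (by linarith) (by linarith)
      rw [h4]
      have h5 : ¬ (u - F (x, false) + g < g - F (x, false)) := by linarith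
      simp [hu, h5]
    · have h4 : (((m : ℕ) : ℤ) - (A0 x + F (x, false))) % (g : ℤ) = u - F (x, false) :=
        emod_char (w := w) (by linarith) (by linarith) (by linarith)
      rw [h4]
      have h5 : (u - F (x, false) < g - F (x, false)) := by linarith
      simp [hu, h5]
  refine ⟨fun m x => χ m (x, false), ?_⟩
  intro e
  set x := G.src e with hx
  set y := G.dst e with hy
  set b := G.neg e with hb
  have hgoal : ∀ m : Fin g, (b ^^ (χ m (x, false) ^^ χ m (y, false))) =
      (χ m (x, false) ^^ χ m (y, b)) := by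
    intro m
    rcases hbb : b with _ | _
    · simp
    · rw [χbar]
      rcases χ m (x, false) with _ | _ <;> rcases χ m (y, false) with _ | _ <;> rfl
  rw [Finset.sum_congr rfl (fun m _ => by rw [hgoal m])]
  -- the step of F
  have hw := SW.edge G e
  have hFstep : F (y, b) = F (x, false) + 1 ∨ F (y, b) = F (x, false) - 1 := by
    have h1 := hle _ _ _ hw
    have h2 := hπw _ _ _ hw
    have h3 := hd.tri P0 (y, b) (x, false)
    have h4 := hd.tri P0 (x, false) (y, b)
    have h5 := hd.symm (y, b) (x, false)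
    have h6 := hd.par P0 (x, false)
    have h7 := hd.par P0 (y, b)
    simp only [F]
    have h8 : d P0 (x, false) % 2 ≠ d P0 (y, b) % 2 := by
      rw [h6, h7]
      revert h2
      rcases π' P0 with _ | _ <;> rcases π' (x, false) with _ | _ <;>
        rcases π' (y, b) with _ | _ <;> simp
    have h9 : d (x, false) (y, b) ≤ 1 := h1
    omega
  have hAq : 2 * A (y, b) = H y + (if b then (g : ℤ) else 0) - F (y, b) := by
    rcases hbb : b with _ | _
    · simp only [A]
      simp [hA0]
    · simp only [A, if_true]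
      rw [Ftrue]
      have := hA0 y
      linarith
  have hAp : A (x, false) = A0 x := by simp [A]
  by_cases hZx : F (x, false) = 0
  · have hFy : F (y, b) = 1 := by
      rcases hFstep with h1 | h1
      · rw [h1, hZx]; norm_num
      · have := F0 (y, b)
        rw [h1, hZx] at this
        norm_num at this
    rw [← sum_one g (A (y, b)) 0 le_rfl hgpos]
    apply Finset.sum_congr rfl
    intro m _
    obtain ⟨u, w, h0, h1, h2, h3⟩ := rep m (A (y, b))
    obtain ⟨u', w', h0', h1', h2', h3'⟩ := rep m (A (x, false))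
    simp only [χ, h3, h3', hZx, hFy]
    have e1 : ¬ u' < 0 := not_lt.2 h0'
    have e2 : (u < 1) ↔ (u = 0) := by omega
    simp only [e1, decide_false, Bool.false_xor, e2]
  by_cases hZx' : F (x, false) = g
  · have hFy : F (y, b) = g - 1 := by
      rcases hFstep with h1 | h1
      · have := Fg (y, b)
        rw [h1, hZx'] at this
        linarith
      · rw [h1, hZx']
    rw [← sum_one g (A (y, b)) (g - 1) (by linarith) (by linarith)]
    apply Finset.sum_congr rfl
    intro m _
    obtain ⟨u, w, h0, h1, h2, h3⟩ := rep m (A (y, b))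
    obtain ⟨u', w', h0', h1', h2', h3'⟩ := rep m (A (x, false))
    simp only [χ, h3, h3', hZx', hFy]
    have e2 : (u < (g : ℤ) - 1) ↔ ¬ (u = g - 1) := by omega
    simp only [h1', decide_true, Bool.true_xor, e2, decide_not, Bool.not_not]
  by_cases hZy : F (y, b) = 0
  · have hFx : F (x, false) = 1 := by
      rcases hFstep with h1 | h1
      · have := F0 (x, false)
        rw [hZy] at h1
        linarith
      · rw [hZy] at h1; linarith
    rw [← sum_one g (A (x, false)) 0 le_rfl hgpos]
    apply Finset.sum_congr rfl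
    intro m _
    obtain ⟨u, w, h0, h1, h2, h3⟩ := rep m (A (y, b))
    obtain ⟨u', w', h0', h1', h2', h3'⟩ := rep m (A (x, false))
    simp only [χ, h3, h3', hFx, hZy]
    have e1 : ¬ u < 0 := not_lt.2 h0
    have e2 : (u' < 1) ↔ (u' = 0) := by omega
    simp only [e1, decide_false, Bool.xor_false, e2]
  by_cases hZy' : F (y, b) = g
  · have hFx : F (x, false) = g - 1 := by
      rcases hFstep with h1 | h1
      · rw [hZy'] at h1; linarith
      · have := Fg (x, false)
        rw [hZy'] at h1
        linarith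
    rw [← sum_one g (A (x, false)) (g - 1) (by linarith) (by linarith)]
    apply Finset.sum_congr rfl
    intro m _
    obtain ⟨u, w, h0, h1, h2, h3⟩ := rep m (A (y, b))
    obtain ⟨u', w', h0', h1', h2', h3'⟩ := rep m (A (x, false))
    simp only [χ, h3, h3', hFx, hZy']
    have e2 : (u' < (g : ℤ) - 1) ↔ ¬ (u' = g - 1) := by omega
    simp only [h1, decide_true, Bool.xor_true, e2, decide_not, Bool.not_not]
  -- both ends outside Z
  have hxZ : x ∉ Z := by
    intro hxz
    have h1 := hP0 x hxz
    rcases hε : ε x with _ | _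
    · rw [hε] at h1
      apply hZx
      simp [F, h1]
    · rw [hε] at h1
      apply hZx'
      have := Ftrue x
      simp only [F] at this ⊢
      rw [h1] at this
      push_cast at this
      linarith
  have hyZ : y ∉ Z := by
    intro hyz
    have h1 := hP0 y hyz
    have h2 : F (y, ε y) = 0 := by simp [F, h1]
    by_cases hεb : ε y = b
    · rw [hεb] at h2
      exact hZy h2
    · have h3 : (y, b) = bar (y, ε y) := by
        simp only [bar]
        rcases hb1 : b with _ | _ <;> rcases hb2 : ε y with _ | _ <;> simp_all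
      apply hZy'
      rw [h3, Fbar, h2]
      ring
  obtain ⟨s, w, hs, hstep⟩ : ∃ s w : ℤ, (s = 1 ∨ s = -1) ∧
      hz y = hz x + (if b then (g : ℤ) else 0) + s + 2 * g * w := by
    have key : ∀ s : ℤ, h y = h x + (if b then (g : ZMod (2 * g)) else 0) + (s : ZMod (2 * g)) →
        ∃ w : ℤ, hz y = hz x + (if b then (g : ℤ) else 0) + s + 2 * g * w := by
      intro s hs
      have h1 : ((hz y - hz x - (if b then (g : ℤ) else 0) - s : ℤ) : ZMod (2 * g)) = 0 := by
        push_cast
        rw [hzc, hzc, hs]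
        rcases b with _ | _
        · simp
        · simp only [if_true]; ring
      rw [ZMod.intCast_zmod_eq_zero_iff_dvd] at h1
      obtain ⟨w, hw⟩ := h1
      refine ⟨w, ?_⟩
      push_cast at hw
      linarith
    rcases hh e hxZ hyZ with h1 | h1
    · obtain ⟨w, hw⟩ := key 1 (by rw [h1]; push_cast; rfl)
      exact ⟨1, w, Or.inl rfl, hw⟩
    · obtain ⟨w, hw⟩ := key (-1) (by rw [h1]; push_cast; rw [sub_eq_add_neg])
      exact ⟨-1, w, Or.inr rfl, hw⟩
  obtain ⟨w', hA⟩ : ∃ w' : ℤ, 2 * A (y, b) = 2 * A (x, false) + (F (x, false) - F (y, b)) + s +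
      2 * (g * w') := by
    have hpar : (hz y - F (y, false)) % 2 = (hz x - F (x, false)) % 2 := by
      rcases hbb : b with _ | _
      · rw [hbb] at hstep hFstep
        simp only [Bool.false_eq_true, if_false] at hstep
        have e1 : hz y = hz x + s + 2 * (g * w) := by linarith
        generalize (g : ℤ) * w = gw at e1
        omega
      · rw [hbb] at hstep hFstep
        simp only [if_true] at hstep
        rw [Ftrue] at hFstep
        have e1 : hz y = hz x + g + s + 2 * (g * w) := by linarith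
        generalize (g : ℤ) * w = gw at e1
        omega
    have hH : H y = H x + (if b then (g : ℤ) else 0) + s + 2 * (g * w) := by
      simp only [H]
      rw [hpar]
      linarith
    refine ⟨w + (if b then 1 else 0), ?_⟩
    rw [hAq, hAp, hA0, hH]
    rcases b with _ | _ <;> simp <;> ring
  have hF0x := F0 (x, false)
  have hFgx := Fg (x, false)
  have hF0y := F0 (y, b)
  have hFgy := Fg (y, b)
  rcases hs with hs | hs <;> rcases hFstep with ht | ht
  · -- s = 1, t = 1
    have hAA : A (y, b) = A (x, false) + g * w' := by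
      rw [hs, ht] at hA; linarith
    rw [← sum_one g (A (x, false)) (F (x, false)) hF0x (by linarith)]
    apply Finset.sum_congr rfl
    intro m _
    obtain ⟨u, v, h0, h1, h2, h3⟩ := rep m (A (x, false))
    have h4 : (((m : ℕ) : ℤ) - A (y, b)) % (g : ℤ) = u :=
      emod_char (w := v - w') h0 h1 (by rw [hAA]; linarith)
    simp only [χ, h3, h4, ht]
    congr 1
    by_cases h5 : u < F (x, false)
    · have h6 : u < F (x, false) + 1 := by linarith
      have h7 : ¬ u = F (x, false) := ne_of_lt h5
      simp [h5, h6, h7]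
    · by_cases h7 : u = F (x, false)
      · simp [h7]
      · have h6 : ¬ u < F (x, false) + 1 := by omega
        simp [h5, h6, h7]
  · -- s = 1, t = -1
    have hAA : A (y, b) = A (x, false) + 1 + g * w' := by
      rw [hs, ht] at hA; linarith
    rw [← sum_one g (A (x, false)) 0 le_rfl hgpos]
    apply Finset.sum_congr rfl
    intro m _
    obtain ⟨u, v, h0, h1, h2, h3⟩ := rep m (A (x, false))
    simp only [χ, h3, ht]
    congr 1
    by_cases h5 : u = 0
    · have h4 : (((m : ℕ) : ℤ) - A (y, b)) % (g : ℤ) = g - 1 :=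
        emod_char (w := v - w' - 1) (by linarith) (by linarith) (by rw [hAA]; linarith)
      rw [h4]
      have h6 : ¬ ((g : ℤ) - 1 < F (x, false) - 1) := by linarith
      have h7 : u < F (x, false) := by rw [h5]; linarith
      simp only [h5, h6, decide_false, Bool.xor_false]
      rw [h5] at h7
      simp [h7]
    · have h4 : (((m : ℕ) : ℤ) - A (y, b)) % (g : ℤ) = u - 1 :=
        emod_char (w := v - w') (by omega) (by linarith) (by rw [hAA]; linarith)
      rw [h4]
      have h6 : (u - 1 < F (x, false) - 1) ↔ u < F (x, false) := by omega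
      simp only [h5, h6, decide_false, Bool.xor_self]
  · -- s = -1, t = 1
    have hAA : A (y, b) = A (x, false) - 1 + g * w' := by
      rw [hs, ht] at hA; linarith
    rw [← sum_one g (A (x, false)) (g - 1) (by linarith) (by linarith)]
    apply Finset.sum_congr rfl
    intro m _
    obtain ⟨u, v, h0, h1, h2, h3⟩ := rep m (A (x, false))
    simp only [χ, h3, ht]
    congr 1
    by_cases h5 : u = g - 1
    · have h4 : (((m : ℕ) : ℤ) - A (y, b)) % (g : ℤ) = 0 :=
        emod_char (w := v - w' + 1) le_rfl hgpos (by rw [hAA]; linarith)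
      rw [h4]
      have h6 : ¬ ((g : ℤ) - 1 < F (x, false)) := by linarith
      have h7 : (0 : ℤ) < F (x, false) + 1 := by linarith
      simp only [h5, h6, h7, decide_false, decide_true, Bool.false_xor]
    · have h4 : (((m : ℕ) : ℤ) - A (y, b)) % (g : ℤ) = u + 1 :=
        emod_char (w := v - w') (by linarith) (by omega) (by rw [hAA]; linarith)
      rw [h4]
      have h6 : (u + 1 < F (x, false) + 1) ↔ u < F (x, false) := by omega
      simp only [h5, h6, decide_false, Bool.xor_self]
  · -- s = -1, t = -1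
    have hAA : A (y, b) = A (x, false) + g * w' := by
      rw [hs, ht] at hA; linarith
    rw [← sum_one g (A (x, false)) (F (x, false) - 1) (by linarith) (by linarith)]
    apply Finset.sum_congr rfl
    intro m _
    obtain ⟨u, v, h0, h1, h2, h3⟩ := rep m (A (x, false))
    have h4 : (((m : ℕ) : ℤ) - A (y, b)) % (g : ℤ) = u :=
      emod_char (w := v - w') h0 h1 (by rw [hAA]; linarith)
    simp only [χ, h3, h4, ht]
    congr 1
    by_cases h7 : u = F (x, false) - 1
    · simp [h7]
    · by_cases h5 : u < F (x, false)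
      · have h6 : u < F (x, false) - 1 := by omega
        simp [h5, h6, h7]
      · have h6 : ¬ u < F (x, false) - 1 := by omega
        simp [h5, h6, h7]

/-- A sequence of joined vertices is a walk. -/
theorem Wlk.of_seq (G : SignedGraph V E) (v : ℕ → V) (e : ℕ → E) : ∀ k,
    (∀ i < k, G.Joins (e i) (v i) (v (i + 1))) →
      Wlk G k (decide (negCount G.neg k e % 2 = 1)) (v 0) (v k) := by
  intro k
  induction k with
  | zero => intro _; simp only [negCount]; exact Wlk.nil _
  | succ k ih =>
    intro hj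
    have h1 := ih (fun i hi => hj i (by omega))
    have h2 := h1.trans (Wlk.single (hj k (by omega)))
    have h3 : negCount G.neg (k + 1) e = negCount G.neg k e + if G.neg (e k) then 1 else 0 := by
      simp only [negCount, Finset.sum_range_succ]
    have h4 : (decide (negCount G.neg k e % 2 = 1) ^^ G.neg (e k)) =
        decide (negCount G.neg (k + 1) e % 2 = 1) := by
      rw [h3]
      rcases G.neg (e k) with _ | _ <;>
        rcases Nat.mod_two_eq_zero_or_one (negCount G.neg k e) with h5 | h5 <;>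
        simp [h5, Nat.add_mod]
    rw [h4] at h2
    exact h2

/-- A single vertex is safe. -/
theorem safe_singleton (G : SignedGraph V E) (hG : G.C10 ∨ G.C11)
    (g : ℕ) (hg : G.NegGirth g) (p : V) (ε : V → Bool) : G.Safe g {p} ε := by
  obtain ⟨hg2, hlen, π, h1, h2⟩ := class_parity G hG g hg
  intro k v e h0 hk hj
  have h0' : v 0 = p := h0
  have hk' : v k = p := hk
  have hw := Wlk.of_seq G v e k hj
  rw [h0', hk'] at hw ⊢
  have hred : (negCount G.neg k e + (if ε p then 1 else 0) + (if ε p then 1 else 0)) % 2 =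
      negCount G.neg k e % 2 := by
    split_ifs <;> omega
  rw [Nat.even_iff, Nat.odd_iff, Nat.even_iff, Nat.even_iff, hred]
  constructor
  · intro hpos
    have e1 : decide (negCount G.neg k e % 2 = 1) = false := by simp; omega
    rw [e1] at hw
    have h3 := h2 k (p, false) (p, false) hw
    simpa using h3
  · intro hneg
    have e1 : decide (negCount G.neg k e % 2 = 1) = true := by simp; omega
    rw [e1] at hw
    have h3 := h2 k (p, false) (bar (p, false)) hw
    have h4 := hlen k (p, false) hw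
    rw [h1] at h3
    refine ⟨h4, ?_⟩
    rcases Nat.mod_two_eq_zero_or_one g with h5 | h5 <;>
      rcases π (p, false) with _ | _ <;> simp [h5] at h3 <;> omega

/-- Signed graphs of the classes C10 and C11 such that the deletion of a safe set leaves a signed
graph that maps to the negative cycle of length `g` pack. -/
theorem apex_main [Fintype V] [DecidableEq V] (G : SignedGraph V E) (hG : G.C10 ∨ G.C11)
    (g : ℕ) (hg : G.NegGirth g) (Z : Set V) (ε : V → Bool) (hZ : G.Safe g Z ε)
    (h : V → ZMod (2 * g))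
    (hh : ∀ e, G.src e ∉ Z → G.dst e ∉ Z →
      h (G.dst e) = h (G.src e) + (if G.neg e then (g : ZMod (2 * g)) else 0) + 1 ∨
      h (G.dst e) = h (G.src e) + (if G.neg e then (g : ZMod (2 * g)) else 0) - 1) :
    IsGreatest {k | G.PacksInto k} g := by
  classical
  refine ⟨?_, fun k hk => packs_le G hg hk⟩
  obtain ⟨hg2, hlen, π, h1, h2⟩ := class_parity G hG g hg
  obtain ⟨⟨v0, e0, -⟩, -⟩ := hg
  obtain ⟨π', d, hd, hds, hle, hπw, h0⟩ := safe_metric G g (e0 0) hg2 hlen π h1 h2 Z ε hZ
  obtain ⟨P0, hP0⟩ : ∃ P0 : V × Bool, ∀ z ∈ Z, d P0 (z, ε z) = 0 := by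
    by_cases hne : ∃ z, z ∈ Z
    · obtain ⟨z, hz⟩ := hne
      exact ⟨(z, ε z), fun z' hz' => h0 z hz z' hz'⟩
    · exact ⟨(v0 0, false), fun z hz => absurd ⟨z, hz⟩ hne⟩
  obtain ⟨φ, hφ⟩ := interval_cuts G g hg2 hd hds hle hπw Z ε P0 hP0 h hh
  exact packs_of_core G g φ hφ

end SPK
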