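import Pool.Agent.SPK.Align

/-! Graphs built from small complete graphs and double wheels by clique sums, and the
realisation of metrics by cuts on such graphs. -/

namespace SPK

open Finset

/-- The edges of a double wheel with hubs `u`, `v` and rim `x 0, ..., x (n-1)`. -/
def WheelRel {V : Type*} (n : ℕ) (u v : V) (x : ℕ → V) (p q : V) : Prop :=
  (p = u ∧ ∃ k < n, q = x k) ∨ (p = v ∧ ∃ k < n, q = x k) ∨ (∃ k < n, p = x k ∧ q = x (k + 1))

/-- `Built S K`: the graph `K` with vertex set `S` is obtained from complete graphs on at most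
four vertices and double wheels by gluing along cliques with at most three vertices. -/
inductive Built {V : Type*} [DecidableEq V] : Finset V → SimpleGraph V → Prop
  | clique (S : Finset V) (h : S.card ≤ 4) :
      Built S (SimpleGraph.fromRel (fun p q => p ∈ S ∧ q ∈ S))
  | wheel (n : ℕ) (hn : 3 ≤ n) (u v : V) (huv : u ≠ v) (x : ℕ → V) (hx : x n = x 0)
      (hinj : ∀ i < n, ∀ j < n, x i = x j → i = j) (hu : ∀ i < n, x i ≠ u)
      (hv : ∀ i < n, x i ≠ v) :
      Built (insert u (insert v ((Finset.range n).image x)))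
        (SimpleGraph.fromRel (WheelRel n u v x))
  | glue (S₁ S₂ : Finset V) (K₁ K₂ : SimpleGraph V) (h₁ : Built S₁ K₁) (h₂ : Built S₂ K₂)
      (hc : (S₁ ∩ S₂).card ≤ 3)
      (hk₁ : ∀ p ∈ S₁ ∩ S₂, ∀ q ∈ S₁ ∩ S₂, p ≠ q → K₁.Adj p q)
      (hk₂ : ∀ p ∈ S₁ ∩ S₂, ∀ q ∈ S₁ ∩ S₂, p ≠ q → K₂.Adj p q) :
      Built (S₁ ∪ S₂) (K₁ ⊔ K₂)

/-- A metric with all antipodal inequalities at level `r`. -/
structure RMetric {V : Type*} (r : ℕ) (a : V → V → ℤ) : Prop where
  self : ∀ x, a x x = 0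
  symm : ∀ x y, a x y = a y x
  tri : ∀ x y z i j, 0 ≤ stz i (a x y) r + stz j (a x z) r - stz (i == j) (a y z) r
  par : ∀ x y z, (a x y + a x z + a y z) % 2 = 0

theorem RMetric.rim {V : Type*} {r : ℕ} {a : V → V → ℤ} (ha : RMetric r a) (x : ℕ → V)
    (θ : ℕ → Bool) : ∀ m, stz (θ 0 == θ m) (a (x 0) (x m)) r ≤
      ∑ k ∈ range m, stz (θ k == θ (k + 1)) (a (x k) (x (k + 1))) r := by
  intro m
  induction m with
  | zero => simp [ha.self]
  | succ m ih =>
    rw [Finset.sum_range_succ]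
    have h1 := ha.tri (x m) (x 0) (x (m + 1)) (θ 0 == θ m) (θ m == θ (m + 1))
    rw [ha.symm (x m) (x 0)] at h1
    have h2 : ((θ 0 == θ m) == (θ m == θ (m + 1))) = (θ 0 == θ (m + 1)) := by
      rcases θ 0 with _ | _ <;> rcases θ m with _ | _ <;> rcases θ (m + 1) with _ | _ <;> rfl
    rw [h2] at h1
    linarith

theorem RMetric.sys {V : Type*} {r : ℕ} {a : V → V → ℤ} (ha : RMetric r a) (n : ℕ)
    (u v : V) (x : ℕ → V) (hx : x n = x 0) :
    Sys n r (fun k => a u (x k)) (fun k => a v (x k)) (fun k => a (x k) (x (k + 1))) := by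
  refine ⟨by simp only [hx], by simp only [hx], ?_, ?_, ?_, ?_, ?_, ?_⟩
  · intro k _ i j
    exact ha.tri u (x k) (x (k + 1)) i j
  · intro k _ i j
    exact ha.tri v (x k) (x (k + 1)) i j
  · intro p _ q _ σ τ
    have h1 := ha.tri (x q) u v τ τ
    have h2 := ha.tri (x p) u v σ (!σ)
    have h3 : (σ == !σ) = false := by rcases σ with _ | _ <;> rfl
    have h4 : (τ == τ) = true := by rcases τ with _ | _ <;> rfl
    rw [h3, stz_false, ha.symm (x p) u, ha.symm (x p) v] at h2
    rw [h4, stz_true, ha.symm (x q) u, ha.symm (x q) v] at h1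
    linarith
  · intro θ hθ
    have h1 := ha.rim x θ n
    rw [hx, ha.self, hθ] at h1
    have h2 : (θ 0 == !(θ 0)) = false := by rcases θ 0 with _ | _ <;> rfl
    rw [h2, stz_false] at h1
    linarith
  · intro k _
    exact ha.par u (x k) (x (k + 1))
  · intro k _
    exact ha.par v (x k) (x (k + 1))

theorem four_cover {V : Type*} [DecidableEq V] (S : Finset V) (h : S.card ≤ 4)
    (hne : S.Nonempty) : ∃ u x y z, ∀ a ∈ S, a = u ∨ a = x ∨ a = y ∨ a = z := by
  obtain ⟨u, hu⟩ := hne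
  have h1 : (S.erase u).card ≤ 3 := by
    rw [Finset.card_erase_of_mem hu]; omega
  rcases (S.erase u).eq_empty_or_nonempty with h2 | h2
  · refine ⟨u, u, u, u, ?_⟩
    intro a ha
    by_contra hcon
    push Not at hcon
    have : a ∈ S.erase u := Finset.mem_erase.2 ⟨hcon.1, ha⟩
    rw [h2] at this
    simp at this
  · obtain ⟨x, -, y, -, z, -, h3⟩ := small_cover (S.erase u) h1 h2
    refine ⟨u, x, y, z, ?_⟩
    intro a ha
    by_cases hau : a = u
    · exact Or.inl hau
    · right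
      exact h3 a (Finset.mem_erase.2 ⟨hau, ha⟩)

theorem real_clique {V : Type*} [DecidableEq V] {r : ℕ} {a : V → V → ℤ} (ha : RMetric r a)
    (S : Finset V) (h : S.card ≤ 4) :
    ∃ φ : Fin r → V → Bool, ∀ p ∈ S, ∀ q ∈ S, dist φ p q = a p q := by
  classical
  rcases S.eq_empty_or_nonempty with hS | hne
  · exact ⟨fun _ _ => false, by simp [hS]⟩
  obtain ⟨u, x0, x1, x2, hcov⟩ := four_cover S h hne
  let x : ℕ → V := fun k => if k % 3 = 0 then x0 else if k % 3 = 1 then x1 else x2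
  have hx0 : x 0 = x0 := rfl
  have hx1 : x 1 = x1 := rfl
  have hx2 : x 2 = x2 := rfl
  have hx3 : x 3 = x0 := rfl
  obtain ⟨φ, h1, -, h3⟩ := sys_real 3 (by norm_num) r _ _ _ (ha.sys 3 u u x (hx3.trans hx0.symm))
  let ψ : Fin r → V → Bool := fun m p => if p = u then false
    else if p = x0 then (φ m).1.1 0 else if p = x1 then (φ m).1.1 1 else (φ m).1.1 2
  have hcl : ∀ m, (φ m).1.1 3 = (φ m).1.1 0 := fun m => (φ m).2
  have s0 : ∑ m, iz ((φ m).1.1 0) = a u x0 := (h1 0 (by norm_num)).symm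
  have s1 : ∑ m, iz ((φ m).1.1 1) = a u x1 := (h1 1 (by norm_num)).symm
  have s2 : ∑ m, iz ((φ m).1.1 2) = a u x2 := (h1 2 (by norm_num)).symm
  have c0 : ∑ m, iz ((φ m).1.1 0 ^^ (φ m).1.1 1) = a x0 x1 := (h3 0 (by norm_num)).symm
  have c1 : ∑ m, iz ((φ m).1.1 1 ^^ (φ m).1.1 2) = a x1 x2 := (h3 1 (by norm_num)).symm
  have c2 : ∑ m, iz ((φ m).1.1 2 ^^ (φ m).1.1 0) = a x2 x0 := by
    have := (h3 2 (by norm_num)).symm
    simp only [hcl] at this
    exact this
  have main : ∀ p ∈ S, ∀ q ∈ S, dist ψ p q = a p q := by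
    -- reduce to representative positions
    have rep : ∀ p ∈ S, (p = u ∧ ∀ m, ψ m p = false) ∨
        (p = x0 ∧ ∀ m, ψ m p = (φ m).1.1 0) ∨ (p = x1 ∧ ∀ m, ψ m p = (φ m).1.1 1) ∨
        (p = x2 ∧ ∀ m, ψ m p = (φ m).1.1 2) := by
      intro p hp
      by_cases e1 : p = u
      · left; exact ⟨e1, fun m => by simp [ψ, e1]⟩
      · by_cases e2 : p = x0
        · right; left; exact ⟨e2, fun m => by simp only [ψ, if_neg e1, if_pos e2]⟩
        · by_cases e3 : p = x1
          · right; right; left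
            exact ⟨e3, fun m => by simp only [ψ, if_neg e1, if_neg e2, if_pos e3]⟩
          · right; right; right
            refine ⟨?_, fun m => by simp only [ψ, if_neg e1, if_neg e2, if_neg e3]⟩
            rcases hcov p hp with h | h | h | h
            · exact absurd h e1
            · exact absurd h e2
            · exact absurd h e3
            · exact h
    intro p hp q hq
    have dd : ∀ f g : Fin r → Bool, (∀ m, ψ m p = f m) → (∀ m, ψ m q = g m) →
        dist ψ p q = ∑ m, iz (f m ^^ g m) := by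
      intro f g hf hg
      unfold dist
      apply Finset.sum_congr rfl
      intro m _
      rw [hf, hg]
    rcases rep p hp with ⟨e, f⟩ | ⟨e, f⟩ | ⟨e, f⟩ | ⟨e, f⟩ <;>
      rcases rep q hq with ⟨e', f'⟩ | ⟨e', f'⟩ | ⟨e', f'⟩ | ⟨e', f'⟩ <;>
      rw [dd _ _ f f', e, e']
    · simp [ha.self]
    · simp only [Bool.false_xor]; exact s0
    · simp only [Bool.false_xor]; exact s1
    · simp only [Bool.false_xor]; exact s2
    · simp only [Bool.xor_false]; rw [s0, ha.symm]
    · simp [ha.self]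
    · exact c0
    · rw [ha.symm x0 x2, ← c2]
      exact Finset.sum_congr rfl (fun m _ => by rw [Bool.xor_comm])
    · simp only [Bool.xor_false]; rw [s1, ha.symm]
    · rw [ha.symm x1 x0, ← c0]
      exact Finset.sum_congr rfl (fun m _ => by rw [Bool.xor_comm])
    · simp [ha.self]
    · exact c1
    · simp only [Bool.xor_false]; rw [s2, ha.symm]
    · exact c2
    · rw [ha.symm x2 x1, ← c1]
      exact Finset.sum_congr rfl (fun m _ => by rw [Bool.xor_comm])
    · simp [ha.self]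
  exact ⟨ψ, main⟩

theorem real_wheel {V : Type*} [DecidableEq V] {r : ℕ} {a : V → V → ℤ} (ha : RMetric r a)
    (n : ℕ) (hn : 3 ≤ n) (u v : V) (huv : u ≠ v) (x : ℕ → V) (hx : x n = x 0)
    (hinj : ∀ i < n, ∀ j < n, x i = x j → i = j) (hu : ∀ i < n, x i ≠ u)
    (hv : ∀ i < n, x i ≠ v) :
    ∃ φ : Fin r → V → Bool, ∀ p q, WheelRel n u v x p q → dist φ p q = a p q := by
  classical
  obtain ⟨φ, h1, h2, h3⟩ := sys_real n (by omega) r _ _ _ (ha.sys n u v x hx)
  let ψ : Fin r → V → Bool := fun m p => if p = u then false else if p = v then (φ m).1.2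
    else if h : ∃ k, k < n ∧ p = x k then (φ m).1.1 h.choose else false
  have ψu : ∀ m, ψ m u = false := by intro m; simp [ψ]
  have ψv : ∀ m, ψ m v = (φ m).1.2 := by intro m; simp [ψ, Ne.symm huv]
  have ψx : ∀ m, ∀ k < n, ψ m (x k) = (φ m).1.1 k := by
    intro m k hk
    have hex : ∃ j, j < n ∧ x k = x j := ⟨k, hk, rfl⟩
    have e1 : hex.choose = k := by
      have := hex.choose_spec
      exact (hinj k hk _ this.1 this.2).symm
    simp only [ψ, if_neg (hu k hk), if_neg (hv k hk), dif_pos hex, e1]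
  have ψx' : ∀ m, ∀ k ≤ n, ψ m (x k) = (φ m).1.1 k := by
    intro m k hk
    rcases Nat.lt_or_eq_of_le hk with h | h
    · exact ψx m k h
    · rw [h, hx, ψx m 0 (by omega), (φ m).2]
  refine ⟨ψ, ?_⟩
  rintro p q (⟨rfl, k, hk, rfl⟩ | ⟨rfl, k, hk, rfl⟩ | ⟨k, hk, rfl, rfl⟩)
  · rw [h1 k hk.le]
    unfold dist
    apply Finset.sum_congr rfl
    intro m _
    rw [ψu, ψx m k hk, Bool.false_xor]
  · rw [h2 k hk.le]
    unfold dist
    apply Finset.sum_congr rfl
    intro m _
    rw [ψv, ψx m k hk, Bool.xor_comm]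
  · rw [h3 k hk]
    unfold dist
    apply Finset.sum_congr rfl
    intro m _
    rw [ψx m k hk, ψx' m (k + 1) hk]

theorem built_support {V : Type*} [DecidableEq V] {S : Finset V} {K : SimpleGraph V}
    (h : Built S K) : ∀ p q, K.Adj p q → p ∈ S ∧ q ∈ S := by
  induction h with
  | clique S h =>
    intro p q hpq
    rw [SimpleGraph.fromRel_adj] at hpq
    rcases hpq.2 with h1 | h1
    · exact h1
    · exact ⟨h1.2, h1.1⟩
  | wheel n hn u v huv x hx hinj hu hv =>
    have key : ∀ p q, WheelRel n u v x p q →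
        p ∈ insert u (insert v ((Finset.range n).image x)) ∧
        q ∈ insert u (insert v ((Finset.range n).image x)) := by
      have hmem : ∀ k ≤ n, x k ∈ insert u (insert v ((Finset.range n).image x)) := by
        intro k hk
        simp only [Finset.mem_insert, Finset.mem_image, Finset.mem_range]
        right; right
        rcases Nat.lt_or_eq_of_le hk with h | h
        · exact ⟨k, h, rfl⟩
        · exact ⟨0, by omega, by rw [h, hx]⟩
      rintro p q (⟨rfl, k, hk, rfl⟩ | ⟨rfl, k, hk, rfl⟩ | ⟨k, hk, rfl, rfl⟩)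
      · exact ⟨by simp, hmem k hk.le⟩
      · exact ⟨by simp, hmem k hk.le⟩
      · exact ⟨hmem k hk.le, hmem (k + 1) hk⟩
    intro p q hpq
    rw [SimpleGraph.fromRel_adj] at hpq
    rcases hpq.2 with h1 | h1
    · exact key p q h1
    · exact ⟨(key q p h1).2, (key q p h1).1⟩
  | glue S₁ S₂ K₁ K₂ h₁ h₂ hc hk₁ hk₂ ih₁ ih₂ =>
    intro p q hpq
    rw [SimpleGraph.sup_adj] at hpq
    rcases hpq with h | h
    · have := ih₁ p q h
      exact ⟨Finset.mem_union_left _ this.1, Finset.mem_union_left _ this.2⟩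
    · have := ih₂ p q h
      exact ⟨Finset.mem_union_right _ this.1, Finset.mem_union_right _ this.2⟩

/-- Every antipodal metric is realised by cuts on a built graph. -/
theorem built_real {V : Type*} [DecidableEq V] {r : ℕ} {a : V → V → ℤ} (ha : RMetric r a)
    {S : Finset V} {K : SimpleGraph V} (h : Built S K) :
    ∃ φ : Fin r → V → Bool, ∀ p q, K.Adj p q → dist φ p q = a p q := by
  classical
  induction h with
  | clique S h =>
    obtain ⟨φ, hφ⟩ := real_clique ha S h
    refine ⟨φ, ?_⟩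
    intro p q hpq
    rw [SimpleGraph.fromRel_adj] at hpq
    rcases hpq.2 with h1 | h1
    · exact hφ p h1.1 q h1.2
    · exact hφ p h1.2 q h1.1
  | wheel n hn u v huv x hx hinj hu hv =>
    obtain ⟨φ, hφ⟩ := real_wheel ha n hn u v huv x hx hinj hu hv
    refine ⟨φ, ?_⟩
    intro p q hpq
    rw [SimpleGraph.fromRel_adj] at hpq
    rcases hpq.2 with h1 | h1
    · exact hφ p q h1
    · rw [dist_comm, ha.symm, hφ q p h1]
  | glue S₁ S₂ K₁ K₂ h₁ h₂ hc hk₁ hk₂ ih₁ ih₂ =>
    obtain ⟨φ₁, hφ₁⟩ := ih₁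
    obtain ⟨φ₂, hφ₂⟩ := ih₂
    obtain ⟨σ, ε, hσ⟩ := align φ₁ φ₂ (S₁ ∩ S₂) hc (by
      intro p hp q hq hpq
      rw [hφ₁ p q (hk₁ p hp q hq hpq), hφ₂ p q (hk₂ p hp q hq hpq)])
    refine ⟨fun m p => if p ∈ S₁ then φ₁ m p else (φ₂ (σ m) p ^^ ε m), ?_⟩
    intro p q hpq
    rw [SimpleGraph.sup_adj] at hpq
    rcases hpq with h | h
    · have h1 := built_support h₁ p q h
      rw [← hφ₁ p q h]
      unfold dist
      apply Finset.sum_congr rfl
      intro m _
      simp only [if_pos h1.1, if_pos h1.2]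
    · have h1 := built_support h₂ p q h
      rw [← hφ₂ p q h, ← dist_perm φ₂ σ ε]
      unfold dist
      apply Finset.sum_congr rfl
      intro m _
      have e : ∀ s ∈ S₂, (if s ∈ S₁ then φ₁ m s else (φ₂ (σ m) s ^^ ε m)) =
          (φ₂ (σ m) s ^^ ε m) := by
        intro s hs
        by_cases hs1 : s ∈ S₁
        · rw [if_pos hs1, hσ m s (Finset.mem_inter.2 ⟨hs1, hs⟩)]
        · rw [if_neg hs1]
      dsimp only
      rw [e p h1.1, e q h1.2]

end SPK
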