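import Pool.Agent.SPK.ClosureFour
import Pool.Agent.SPK.Built

/-! Cells of a family of cuts around a ring of length four. -/

namespace SPK

open Finset

variable {V : Type*} {r : ℕ}

/-- Number of colours in a cell. -/
def cell (φ : Fin r → V → Bool) (a b c d : V) (α β γ : Bool) : ℤ :=
  ∑ m, iz (((φ m a ^^ φ m c) == α) && (((φ m b ^^ φ m d) == β) && ((φ m a ^^ φ m b) == γ)))

/-- The state of a family of cuts. -/
def stt (φ : Fin r → V → Bool) (a b c d : V) : St := fun α β =>
  ∑ m, iz (((φ m a ^^ φ m c) == α) && ((φ m b ^^ φ m d) == β))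

theorem iz_nonneg (b : Bool) : 0 ≤ iz b := by rcases b with _ | _ <;> simp

theorem cell_nonneg (φ : Fin r → V → Bool) (a b c d : V) (α β γ : Bool) :
    0 ≤ cell φ a b c d α β γ := Finset.sum_nonneg (fun _ _ => iz_nonneg _)

theorem stt_eq (φ : Fin r → V → Bool) (a b c d : V) (α β : Bool) :
    stt φ a b c d α β = cell φ a b c d α β false + cell φ a b c d α β true := by
  unfold stt cell
  rw [← Finset.sum_add_distrib]
  apply Finset.sum_congr rfl
  intro m _
  rcases φ m a with _ | _ <;> rcases φ m b with _ | _ <;> rcases φ m c with _ | _ <;>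
    rcases φ m d with _ | _ <;> rcases α with _ | _ <;> rcases β with _ | _ <;> rfl

theorem sum_lin8 (φ : Fin r → V → Bool) (a b c d : V) (F : Bool → Bool → Bool → ℤ) :
    ∑ m, F (φ m a ^^ φ m c) (φ m b ^^ φ m d) (φ m a ^^ φ m b) =
      F false false false * cell φ a b c d false false false +
      F false false true * cell φ a b c d false false true +
      F false true false * cell φ a b c d false true false +
      F false true true * cell φ a b c d false true true +
      F true false false * cell φ a b c d true false false +
      F true false true * cell φ a b c d true false true +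
      F true true false * cell φ a b c d true true false +
      F true true true * cell φ a b c d true true true := by
  unfold cell
  simp only [Finset.mul_sum]
  rw [← Finset.sum_add_distrib, ← Finset.sum_add_distrib, ← Finset.sum_add_distrib,
    ← Finset.sum_add_distrib, ← Finset.sum_add_distrib, ← Finset.sum_add_distrib,
    ← Finset.sum_add_distrib]
  apply Finset.sum_congr rfl
  intro m _
  rcases φ m a with _ | _ <;> rcases φ m b with _ | _ <;> rcases φ m c with _ | _ <;>
    rcases φ m d with _ | _ <;> simp

theorem sum_of (φ : Fin r → V → Bool) (a b c d : V) (G : Fin r → ℤ)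
    (F : Bool → Bool → Bool → ℤ)
    (h : ∀ m, G m = F (φ m a ^^ φ m c) (φ m b ^^ φ m d) (φ m a ^^ φ m b)) :
    ∑ m, G m = F false false false * cell φ a b c d false false false +
      F false false true * cell φ a b c d false false true +
      F false true false * cell φ a b c d false true false +
      F false true true * cell φ a b c d false true true +
      F true false false * cell φ a b c d true false false +
      F true false true * cell φ a b c d true false true +
      F true true false * cell φ a b c d true true false +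
      F true true true * cell φ a b c d true true true := by
  rw [← sum_lin8]
  exact Finset.sum_congr rfl (fun m _ => h m)

theorem cell_total (φ : Fin r → V → Bool) (a b c d : V) :
    cell φ a b c d false false false + cell φ a b c d false false true +
      cell φ a b c d false true false + cell φ a b c d false true true +
      cell φ a b c d true false false + cell φ a b c d true false true +
      cell φ a b c d true true false + cell φ a b c d true true true = r := by
  have h := sum_of φ a b c d (fun _ => 1) (fun _ _ _ => 1) (fun _ => rfl)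
  simp only [Finset.sum_const, Finset.card_univ, Fintype.card_fin, nsmul_eq_mul, mul_one,
    one_mul] at h
  linarith

theorem dist_ab (φ : Fin r → V → Bool) (a b c d : V) : dist φ a b =
    cell φ a b c d false false true + cell φ a b c d false true true +
      cell φ a b c d true false true + cell φ a b c d true true true := by
  have h := sum_of φ a b c d (fun m => iz (φ m a ^^ φ m b)) (fun _ _ γ => iz γ) (fun _ => rfl)
  simp only [iz_true, iz_false, zero_mul, one_mul] at h
  unfold dist
  linarith

theorem dist_ac (φ : Fin r → V → Bool) (a b c d : V) : dist φ a c =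
    cell φ a b c d true false false + cell φ a b c d true false true +
      cell φ a b c d true true false + cell φ a b c d true true true := by
  have h := sum_of φ a b c d (fun m => iz (φ m a ^^ φ m c)) (fun α _ _ => iz α) (fun _ => rfl)
  simp only [iz_true, iz_false, zero_mul, one_mul] at h
  unfold dist
  linarith

theorem dist_bd (φ : Fin r → V → Bool) (a b c d : V) : dist φ b d =
    cell φ a b c d false true false + cell φ a b c d false true true +
      cell φ a b c d true true false + cell φ a b c d true true true := by
  have h := sum_of φ a b c d (fun m => iz (φ m b ^^ φ m d)) (fun _ β _ => iz β) (fun _ => rfl)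
  simp only [iz_true, iz_false, zero_mul, one_mul] at h
  unfold dist
  linarith

theorem dist_bc (φ : Fin r → V → Bool) (a b c d : V) : dist φ b c =
    cell φ a b c d false false true + cell φ a b c d false true true +
      cell φ a b c d true false false + cell φ a b c d true true false := by
  have h := sum_of φ a b c d (fun m => iz (φ m b ^^ φ m c)) (fun α _ γ => iz (α ^^ γ))
    (fun m => by
      rcases φ m a with _ | _ <;> rcases φ m b with _ | _ <;> rcases φ m c with _ | _ <;> rfl)
  simp only [Bool.xor_self, Bool.xor_true, Bool.xor_false, Bool.not_false, Bool.not_true, iz_true,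
    iz_false, zero_mul, one_mul] at h
  unfold dist
  linarith

theorem dist_cd (φ : Fin r → V → Bool) (a b c d : V) : dist φ c d =
    cell φ a b c d false false true + cell φ a b c d false true false +
      cell φ a b c d true false false + cell φ a b c d true true true := by
  have h := sum_of φ a b c d (fun m => iz (φ m c ^^ φ m d)) (fun α β γ => iz (α ^^ (β ^^ γ)))
    (fun m => by
      rcases φ m a with _ | _ <;> rcases φ m b with _ | _ <;> rcases φ m c with _ | _ <;>
        rcases φ m d with _ | _ <;> rfl)
  simp only [Bool.xor_self, Bool.xor_true, Bool.xor_false, Bool.not_false, Bool.not_true, iz_true,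
    iz_false, zero_mul, one_mul] at h
  unfold dist
  linarith

theorem dist_da (φ : Fin r → V → Bool) (a b c d : V) : dist φ d a =
    cell φ a b c d false false true + cell φ a b c d false true false +
      cell φ a b c d true false true + cell φ a b c d true true false := by
  have h := sum_of φ a b c d (fun m => iz (φ m d ^^ φ m a)) (fun _ β γ => iz (β ^^ γ))
    (fun m => by
      rcases φ m a with _ | _ <;> rcases φ m b with _ | _ <;> rcases φ m d with _ | _ <;> rfl)
  simp only [Bool.xor_self, Bool.xor_true, Bool.xor_false, Bool.not_false, Bool.not_true, iz_true,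
    iz_false, zero_mul, one_mul] at h
  unfold dist
  linarith

/-- Signed ring constants. -/
def rF (r ab bc cd da : ℤ) : St := mk ((ab + bc + cd + da) / 2 - r) ((ab - bc - cd + da) / 2)
  ((ab + bc - cd - da) / 2) ((ab - bc + cd - da) / 2)

/-- Ring constants of a metric. -/
def rC (r : ℤ) (ρ : V → V → ℤ) (a b c d : V) : St := fun α β =>
  |rF r (ρ a b) (ρ b c) (ρ c d) (ρ d a) α β|

/-- The signed ring constants in terms of the cells. -/
theorem cell_diff {φ : Fin r → V → Bool} {ρ : V → V → ℤ} {a b c d : V}
    (h1 : dist φ a b = ρ a b) (h2 : dist φ b c = ρ b c) (h3 : dist φ c d = ρ c d)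
    (h4 : dist φ d a = ρ d a) (α β : Bool) :
    rF r (ρ a b) (ρ b c) (ρ c d) (ρ d a) α β =
      cell φ a b c d α β true - cell φ a b c d α β false := by
  rw [dist_ab φ a b c d] at h1
  rw [dist_bc φ a b c d] at h2
  rw [dist_cd φ a b c d] at h3
  rw [dist_da φ a b c d] at h4
  have h5 := cell_total φ a b c d
  rw [← h1, ← h2, ← h3, ← h4, ← h5]
  unfold rF
  rcases α with _ | _ <;> rcases β with _ | _ <;> simp only [mk1, mk2, mk3, mk4] <;> omega

theorem stt_valid {φ : Fin r → V → Bool} {ρ : V → V → ℤ} {a b c d : V}
    (h1 : dist φ a b = ρ a b) (h2 : dist φ b c = ρ b c) (h3 : dist φ c d = ρ c d)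
    (h4 : dist φ d a = ρ d a) : Valid r (rC r ρ a b c d) (stt φ a b c d) := by
  have key := cell_diff (r := r) h1 h2 h3 h4
  refine ⟨?_, ?_, ?_⟩
  · have h5 := cell_total φ a b c d
    simp only [stt_eq]
    linarith
  · intro α β
    have k := key α β
    have n1 := cell_nonneg φ a b c d α β false
    have n2 := cell_nonneg φ a b c d α β true
    unfold rC
    rw [k, stt_eq, abs_le]
    constructor <;> linarith
  · intro α β
    have k := key α β
    unfold rC
    rw [k, stt_eq]
    rcases abs_cases (cell φ a b c d α β true - cell φ a b c d α β false) with ⟨h, -⟩ | ⟨h, -⟩ <;>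
      omega

theorem sN_stt (φ : Fin r → V → Bool) (a b c d : V) : sN (stt φ a b c d) = dist φ a c := by
  rw [dist_ac φ a b c d]
  simp only [sN, stt_eq]
  ring

theorem sR_stt (φ : Fin r → V → Bool) (a b c d : V) : sR (stt φ a b c d) = dist φ b d := by
  rw [dist_bd φ a b c d]
  simp only [sR, stt_eq]
  ring

/-- Facts about metrics. -/
theorem RMetric.tri' {ρ : V → V → ℤ} (h : RMetric r ρ) (x y z : V) : ρ x z ≤ ρ x y + ρ y z := by
  have h1 := h.tri y x z true true
  simp only [stz_true, beq_self_eq_true] at h1
  rw [h.symm y x] at h1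
  linarith

theorem RMetric.per {ρ : V → V → ℤ} (h : RMetric r ρ) (x y z : V) :
    ρ x y + ρ y z + ρ x z ≤ 2 * r := by
  have h1 := h.tri y x z false false
  simp only [stz_false, beq_self_eq_true, stz_true] at h1
  rw [h.symm y x] at h1
  linarith

theorem RMetric.even {ρ : V → V → ℤ} (h : RMetric r ρ) (x y z : V) :
    (ρ x y + ρ y z + ρ x z) % 2 = 0 := by
  have h1 := h.par y x z
  rw [h.symm y x] at h1
  omega

theorem tri3_abs (x y z : ℤ) (h : z = x + y ∨ z = x - y ∨ z = - x + y ∨ z = - x - y) :
    Tri3 |x| |y| |z| := by
  rcases abs_cases x with ⟨h1, k1⟩ | ⟨h1, k1⟩ <;> rcases abs_cases y with ⟨h2, k2⟩ | ⟨h2, k2⟩ <;>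
    rcases abs_cases z with ⟨h3, k3⟩ | ⟨h3, k3⟩ <;> rcases h with h | h | h | h <;>
    constructor <;> omega

/-- The ring constants of two rings sharing a path and of the outer ring. -/
theorem rC_tri {ρ : V → V → ℤ} (h : RMetric r ρ) (a b c d w : V) :
    TriSt (rC r ρ a b c w) (rC r ρ a w c d) (rC r ρ a b c d) := by
  have p1 := h.even a b c
  have p2 := h.even a w c
  have p3 := h.even c d a
  have e1 := h.symm w a
  have e2 := h.symm w c
  have e3 := h.symm c a
  refine ⟨?_, ?_, ?_, ?_⟩
  · intro α
    apply tri3_abs
    rcases α with _ | _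
    · right; left
      simp only [rF, mk1, mk3]
      omega
    · right; left
      simp only [rF, mk2, mk4]
      omega
  · intro α
    apply tri3_abs
    rcases α with _ | _
    · right; left
      simp only [rF, mk1, mk3]
      omega
    · right; left
      simp only [rF, mk2, mk4]
      omega
  · intro α
    apply tri3_abs
    rcases α with _ | _
    · left
      simp only [rF, mk1, mk3]
      omega
    · left
      simp only [rF, mk2, mk4]
      omega
  · intro α
    apply tri3_abs
    rcases α with _ | _
    · left
      simp only [rF, mk3]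
      omega
    · left
      simp only [rF, mk4]
      omega

theorem rC_nonneg (ρ : V → V → ℤ) (a b c d : V) (α β : Bool) : 0 ≤ rC (r : ℤ) ρ a b c d α β :=
  abs_nonneg _

/-- Bounds for the first distance in terms of the ring constants. -/
theorem rC_N {ρ : V → V → ℤ} (h : RMetric r ρ) (a b c d : V) :
    rC r ρ a b c d false false + rC r ρ a b c d false true ≤ r - ρ a c ∧
      rC r ρ a b c d true false + rC r ρ a b c d true true ≤ ρ a c ∧
      (ρ a c - rC r ρ a b c d true false - rC r ρ a b c d true true) % 2 = 0 ∧
      (r - rC r ρ a b c d false false - rC r ρ a b c d false true - rC r ρ a b c d true false -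
        rC r ρ a b c d true true) % 2 = 0 := by
  have p1 := h.even a b c
  have p3 := h.even c d a
  have e3 := h.symm c a
  have t1 := h.tri' a b c
  have t2 := h.tri' b a c
  have t3 := h.tri' a c b
  have t4 := h.per a b c
  have e4 := h.symm b a
  have e5 := h.symm c b
  have s1 := h.tri' c d a
  have s2 := h.tri' c a d
  have s3 := h.tri' d c a
  have s4 := h.per c d a
  have e6 := h.symm d c
  have e7 := h.symm a d
  unfold rC
  simp only [rF, mk1, mk2, mk3, mk4]
  rcases abs_cases ((ρ a b + ρ b c + ρ c d + ρ d a) / 2 - (r : ℤ)) with ⟨h1, -⟩ | ⟨h1, -⟩ <;>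
    rcases abs_cases ((ρ a b + ρ b c - ρ c d - ρ d a) / 2) with ⟨h2, -⟩ | ⟨h2, -⟩ <;>
    rcases abs_cases ((ρ a b - ρ b c - ρ c d + ρ d a) / 2) with ⟨h3, -⟩ | ⟨h3, -⟩ <;>
    rcases abs_cases ((ρ a b - ρ b c + ρ c d - ρ d a) / 2) with ⟨h4, -⟩ | ⟨h4, -⟩ <;>
    rw [h1, h2, h3, h4] <;> refine ⟨?_, ?_, ?_, ?_⟩ <;> omega

/-- Swap the two coordinates of a state. -/
def swp (x : St) : St := fun α β => x β α

theorem rC_rot {ρ : V → V → ℤ} (h : RMetric r ρ) (a b c d : V) :
    rC r ρ b c d a = swp (rC r ρ a b c d) := by
  have p1 := h.even a b c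
  have p3 := h.even c d a
  have e3 := h.symm c a
  unfold rC swp
  apply st_ext
  · simp only [rF, mk1]
    congr 1
    omega
  · simp only [rF, mk2, mk3]
    congr 1
    omega
  · simp only [rF, mk2, mk3]
    rw [← abs_neg]
    congr 1
    omega
  · simp only [rF, mk4]
    rw [← abs_neg]
    congr 1
    omega

theorem rC_ref {ρ : V → V → ℤ} (h : RMetric r ρ) (a b c d : V) :
    rC r ρ a d c b = rC r ρ a b c d := by
  have p1 := h.even a b c
  have p3 := h.even c d a
  have e3 := h.symm c a
  have e4 := h.symm a d
  have e5 := h.symm d c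
  have e6 := h.symm c b
  have e7 := h.symm b a
  unfold rC
  apply st_ext
  · simp only [rF, mk1]
    congr 1
    omega
  · simp only [rF, mk2]
    congr 1
    omega
  · simp only [rF, mk3]
    rw [← abs_neg]
    congr 1
    omega
  · simp only [rF, mk4]
    rw [← abs_neg]
    congr 1
    omega

theorem stt_rot (φ : Fin r → V → Bool) (a b c d : V) :
    stt φ b c d a = swp (stt φ a b c d) := by
  funext α β
  unfold stt swp
  apply Finset.sum_congr rfl
  intro m _
  rcases φ m a with _ | _ <;> rcases φ m b with _ | _ <;> rcases φ m c with _ | _ <;>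
    rcases φ m d with _ | _ <;> rcases α with _ | _ <;> rcases β with _ | _ <;> rfl

theorem stt_ref (φ : Fin r → V → Bool) (a b c d : V) :
    stt φ a d c b = stt φ a b c d := by
  funext α β
  unfold stt
  apply Finset.sum_congr rfl
  intro m _
  rcases φ m a with _ | _ <;> rcases φ m b with _ | _ <;> rcases φ m c with _ | _ <;>
    rcases φ m d with _ | _ <;> rcases α with _ | _ <;> rcases β with _ | _ <;> rfl

theorem swp_swp (x : St) : swp (swp x) = x := rfl

theorem sN_swp (x : St) : sN (swp x) = sR x := rfl

theorem sR_swp (x : St) : sR (swp x) = sN x := rfl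

theorem swp_mvA (x : St) (a b : Bool) : mvA (swp x) a b = swp (mvB x b a) := by
  funext α β
  rcases a with _ | _ <;> rcases b with _ | _ <;> rcases α with _ | _ <;>
    rcases β with _ | _ <;> rfl

theorem swp_mvB (x : St) (a b : Bool) : mvB (swp x) a b = swp (mvA x b a) := by
  funext α β
  rcases a with _ | _ <;> rcases b with _ | _ <;> rcases α with _ | _ <;>
    rcases β with _ | _ <;> rfl

theorem Valid.swp {r : ℤ} {e x : St} (h : Valid r e x) : Valid r (swp e) (swp x) := by
  refine ⟨?_, fun α β => h.le β α, fun α β => h.par β α⟩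
  have := h.sum
  simp only [SPK.swp]
  linarith

theorem GoodSet.swp {r : ℤ} {e : St} {P : Set St} (h : GoodSet r e P) :
    GoodSet r (swp e) {x | swp x ∈ P} := by
  refine ⟨fun α β => h.nn β α, ?_, ?_, ?_, ?_⟩
  · intro x hx
    have := (h.val _ hx).swp
    rwa [swp_swp] at this
  · obtain ⟨x, hx⟩ := h.ne
    exact ⟨SPK.swp x, by simpa [swp_swp] using hx⟩
  · intro x hx α β h2
    have := h.kem (SPK.swp x) hx β α h2
    rw [swp_mvA, swp_mvB] at this
    rcases this with h3 | h3
    · exact Or.inr h3
    · exact Or.inl h3
  · intro x hx hh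
    obtain ⟨h1, ⟨a, ha, ha'⟩, ⟨b, hb, hb'⟩, ⟨c, hc, hc'⟩, ⟨d, hd, hd'⟩⟩ := hh
    have hv : Valid r e (SPK.swp x) := by
      have := hx.swp
      rwa [swp_swp] at this
    have := h.full (SPK.swp x) hv ⟨?_, ⟨SPK.swp c, hc, hc'⟩, ⟨SPK.swp d, hd, hd'⟩,
      ⟨SPK.swp a, ha, ha'⟩, ⟨SPK.swp b, hb, hb'⟩⟩
    · rcases this with h2 | ⟨s, h3, h4⟩
      · exact Or.inl h2
      · right
        refine ⟨s, ?_, ?_⟩
        · intro α β hs
          exact h3 β α (by rw [Bool.xor_comm]; exact hs)
        · intro α β hs
          obtain ⟨k1, k2, k3⟩ := h4 β α (by rw [Bool.xor_comm]; exact hs)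
          rw [swp_mvA] at k2
          rw [swp_mvB] at k3
          exact ⟨k1, k3, k2⟩
    · intro α β
      obtain ⟨u, hu, hu'⟩ := h1 β α
      exact ⟨SPK.swp u, hu, hu'⟩

end SPK
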