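import Pool.Agent.SPK.Compose

/-! Closure of good state sets under composition, first part. -/

namespace SPK

section

variable {r : ℤ} {e f c : St} {P Q : Set St} {V W : St} {A1 A2 L U B1 B2 K G : ℤ}

/-- Membership in the numerical hull. -/
structure InBox (r : ℤ) (e V : St) (A1 A2 L U : ℤ) (x : St) : Prop where
  val : Valid r e x
  le : ∀ α β, x α β ≤ V α β
  n1 : A1 ≤ sN x
  n2 : sN x ≤ A2
  r1 : L ≤ sR x
  r2 : sR x ≤ U

theorem HullPar.mem' (h : HullPar r e P V A1 A2 L U) {x : St} (hx : InBox r e V A1 A2 L U x) :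
    x ∈ P ∨ Exc e P x :=
  h.mem x hx.val hx.le hx.n1 hx.n2 hx.r1 hx.r2

theorem HullPar.box (h : HullPar r e P V A1 A2 L U) {x : St} (hx : x ∈ P) :
    InBox r e V A1 A2 L U x :=
  ⟨h.good.val x hx, h.memV x hx, (h.memA x hx).1, (h.memA x hx).2, (h.memR x hx).1,
    (h.memR x hx).2⟩

/-- No exceptional states. -/
theorem HullPar.mem4 (h : HullPar r e P V A1 A2 L U) {x : St} (hx : InBox r e V A1 A2 L U x)
    (h1 : x true false ≠ 0 ∨ x false true ≠ 0) (h2 : x false false ≠ 0 ∨ x true true ≠ 0) :
    x ∈ P := by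
  rcases h.mem' hx with h3 | ⟨s, hz, -⟩
  · exact h3
  · exfalso
    rcases s with _ | _
    · rcases h2 with h2 | h2
      · exact h2 (hz false false rfl)
      · exact h2 (hz true true rfl)
    · rcases h1 with h1 | h1
      · exact h1 (hz true false rfl)
      · exact h1 (hz false true rfl)

theorem HullPar.noExc (h : HullPar r e P V A1 A2 L U) (hLU : L = U) {x : St}
    (hx : InBox r e V A1 A2 L U x) : x ∈ P := by
  rcases h.mem' hx with h3 | ⟨s, hz, hn⟩
  · exact h3
  · exfalso
    obtain ⟨-, -, h4⟩ := hn false (!s) (by rcases s with _ | _ <;> rfl)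
    have h5 := (h.memR _ h4)
    have h6 := hx.r1
    have h7 := hx.r2
    rcases s with _ | _ <;> simp [sR, mvB] at h5 h6 h7 <;> omega

/-- Degenerate outcome of the slab lemma. -/
def Degen (r : ℤ) (e f c V W : St) (L U K G : ℤ) (y : St) : Prop :=
  K = G ∧ L = U ∧
    (Deg r (r - sN y) (sN y) (e false false) (e true false) (e false true) (e true true)
      (V false false) (V true false) (V false true) (V true true) L (f false false)
      (f true false) (f false true) (f true true) (W false false) (W true false) (W false true)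
      (W true true) K (c false false) (c true false) (c false true) (c true true)
      (y false false) (y true false) (y false true) (y true true) ∨
    Deg' r (r - sN y) (sN y) (e false false) (e true false) (e false true) (e true true)
      (V false false) (V true false) (V false true) (V true true) L (f false false)
      (f true false) (f false true) (f true true) (W false false) (W true false) (W false true)
      (W true true) K (c false false) (c true false) (c false true) (c true true)
      (y false false) (y true false) (y false true) (y true true))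

theorem slab_state (HP : HullPar r e P V A1 A2 L U) (HQ : HullPar r f Q W B1 B2 K G)
    (ht : TriSt e f c) (y : St) (hy : Valid r c y) (n1 : A1 ≤ sN y) (n2 : sN y ≤ A2)
    (m1 : B1 ≤ sN y) (m2 : sN y ≤ B2)
    (hcomp : ∀ α, Comp (V α false) (V α true) (W α false) (W α true) (y α false) (y α true))
    (y1 : sR y ≤ U + G) (y2 : sR y ≤ (r - L) + (r - K)) (y3 : r - sR y ≤ (r - L) + G)
    (y4 : r - sR y ≤ U + (r - K)) :
    (∃ u v, Rel u v y ∧ InBox r e V A1 A2 L U u ∧ InBox r f W B1 B2 K G v) ∨
      Degen r e f c V W L U K G y := by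
  have sy := hy.sum
  have p1 := hy.par false false
  have p2 := hy.par true false
  have p3 := hy.par false true
  have p4 := hy.par true true
  have q5 := (ht.t1 true).t4
  have q6 := (ht.t2 true).t4
  have q7 := (ht.t3 true).t4
  have q8 := (ht.t4 true).t4
  obtain ⟨w, hw⟩ := HP.good.ne
  obtain ⟨w', hw'⟩ := HQ.good.ne
  have SP := HP.slabOK (sN y) n1 n2 (by
    clear * - p2 p4 q5 q6 q7 q8
    simp only [sN]
    omega)
  have SQ := HQ.slabOK (sN y) m1 m2 (by
    clear * - p2 p4 q5 q6 q7 q8
    simp only [sN]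
    omega)
  have key := slab_main r (r - sN y) (sN y) _ _ _ _ _ _ _ _ _ _ _ _ _ _ _ _ _ _ _ _
    (c false false) (c true false) (c false true) (c true true)
    (y false false) (y true false) (y false true) (y true true) (by ring) SP SQ
    (ht.t1 false) (ht.t2 false) (ht.t3 false) (ht.t4 false) (ht.t1 true) (ht.t2 true)
    (ht.t3 true) (ht.t4 true) (hy.le _ _) (hy.le _ _) (hy.le _ _) (hy.le _ _)
    (by simp only [sN]; linarith) (by simp only [sN]) (hcomp false) (hcomp true)
    y1 y2 (by simp only [sR] at y3; linarith) (by simp only [sR] at y4; linarith) p1 p2 p3 p4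
  rcases key with ⟨u1, u2, u3, u4, v1, v2, v3, v4, hu, hv, a1, a2, a3, a4, k1, k2⟩ | h
  · left
    have hN : sN y = y true false + y true true := rfl
    refine ⟨mk u1 u2 u3 u4, mk v1 v2 v3 v4, ⟨?_, ?_, ?_⟩, ⟨⟨?_, ?_, ?_⟩, ?_, ?_, ?_, ?_, ?_⟩,
      ⟨⟨?_, ?_, ?_⟩, ?_, ?_, ?_, ?_, ?_⟩⟩
    · intro α
      rcases α with _ | _ <;> simp <;> linarith
    · intro α
      rcases α with _ | _ <;> simp <;> linarith
    · intro α
      rcases α with _ | _ <;> simp only [mk1, mk2, mk3, mk4]
      · exact k1
      · exact k2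
    · exact hu.sum
    · intro α β
      rcases α with _ | _ <;> rcases β with _ | _
      · exact hu.a1
      · exact hu.a3
      · exact hu.a2
      · exact hu.a4
    · intro α β
      rcases α with _ | _ <;> rcases β with _ | _
      · exact hu.m1
      · exact hu.m3
      · exact hu.m2
      · exact hu.m4
    · intro α β
      rcases α with _ | _ <;> rcases β with _ | _
      · exact hu.w1
      · exact hu.w3
      · exact hu.w2
      · exact hu.w4
    · simp only [sN, mk2, mk4] at n1 ⊢; linarith
    · simp only [sN, mk2, mk4] at n2 ⊢; linarith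
    · exact hu.l
    · exact hu.u
    · exact hv.sum
    · intro α β
      rcases α with _ | _ <;> rcases β with _ | _
      · exact hv.a1
      · exact hv.a3
      · exact hv.a2
      · exact hv.a4
    · intro α β
      rcases α with _ | _ <;> rcases β with _ | _
      · exact hv.m1
      · exact hv.m3
      · exact hv.m2
      · exact hv.m4
    · intro α β
      rcases α with _ | _ <;> rcases β with _ | _
      · exact hv.w1
      · exact hv.w3
      · exact hv.w2
      · exact hv.w4
    · simp only [sN, mk2, mk4] at m1 ⊢; linarith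
    · simp only [sN, mk2, mk4] at m2 ⊢; linarith
    · exact hv.l
    · exact hv.u
  · exact Or.inr h

/-- Numerical bounds satisfied by the hull of a composition. -/
structure CompBox (r : ℤ) (c V W : St) (A1 A2 L U B1 B2 K G : ℤ) (y : St) : Prop where
  val : Valid r c y
  n1 : A1 ≤ sN y
  n2 : sN y ≤ A2
  m1 : B1 ≤ sN y
  m2 : sN y ≤ B2
  hcomp : ∀ α, Comp (V α false) (V α true) (W α false) (W α true) (y α false) (y α true)
  y1 : sR y ≤ U + G
  y2 : sR y ≤ (r - L) + (r - K)
  y3 : r - sR y ≤ (r - L) + G
  y4 : r - sR y ≤ U + (r - K)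

theorem compBox_of_hull (HP : HullPar r e P V A1 A2 L U) (HQ : HullPar r f Q W B1 B2 K G)
    {y : St} (hy : Valid r c y) (hh : InHull (comp r c P Q) y) :
    CompBox r c V W A1 A2 L U B1 B2 K G y := by
  obtain ⟨h1, ⟨a, ha, ha'⟩, ⟨b, hb, hb'⟩, ⟨l, hl, hl'⟩, ⟨m, hm, hm'⟩⟩ := hh
  have sy := hy.sum
  -- bounds for members of the composition
  have key : ∀ x ∈ comp r c P Q, A1 ≤ sN x ∧ sN x ≤ A2 ∧ B1 ≤ sN x ∧ sN x ≤ B2 ∧
      (∀ α, Comp (V α false) (V α true) (W α false) (W α true) (x α false) (x α true)) ∧
      sR x ≤ U + G ∧ sR x ≤ (r - L) + (r - K) ∧ r - sR x ≤ (r - L) + G ∧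
      r - sR x ≤ U + (r - K) := by
    rintro x ⟨vx, u, hu, v, hv, hr⟩
    have su := (HP.good.val u hu).sum
    have sv := (HQ.good.val v hv).sum
    have sx := vx.sum
    have bu := HP.box hu
    have bv := HQ.box hv
    have s1 := hr.s true
    have s0 := hr.s false
    have t1 := hr.t true
    have t0 := hr.t false
    obtain ⟨g11, g12, g13, g14⟩ := hr.h false
    obtain ⟨g21, g22, g23, g24⟩ := hr.h true
    have u1 := bu.n1
    have u2 := bu.n2
    have u3 := bu.r1
    have u4 := bu.r2
    have v1 := bv.n1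
    have v2 := bv.n2
    have v3 := bv.r1
    have v4 := bv.r2
    simp only [sN, sR] at u1 u2 u3 u4 v1 v2 v3 v4 ⊢
    refine ⟨by linarith, by linarith, by linarith, by linarith, ?_, by linarith, by linarith,
      by linarith, by linarith⟩
    intro α
    obtain ⟨g1, g2, g3, g4⟩ := hr.h α
    have a1 := bu.le α false
    have a2 := bu.le α true
    have a3 := bv.le α false
    have a4 := bv.le α true
    constructor <;> linarith
  have ka := key a ha
  have kb := key b hb
  have kl := key l hl
  have km := key m hm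
  refine ⟨hy, ?_, ?_, ?_, ?_, ?_, ?_, ?_, ?_, ?_⟩
  · linarith [ka.1]
  · linarith [kb.2.1]
  · linarith [ka.2.2.1]
  · linarith [kb.2.2.2.1]
  · intro α
    obtain ⟨x1, hx1, h2⟩ := h1 α false
    obtain ⟨x3, hx3, h3⟩ := h1 α true
    obtain ⟨-, -, g3, g4⟩ := (key x1 hx1).2.2.2.2.1 α
    obtain ⟨g1, g2, -, -⟩ := (key x3 hx3).2.2.2.2.1 α
    constructor <;> linarith
  · linarith [km.2.2.2.2.2.1]
  · linarith [km.2.2.2.2.2.2.1]
  · linarith [kl.2.2.2.2.2.2.2.1]
  · linarith [kl.2.2.2.2.2.2.2.2]

theorem CompBox.split (HP : HullPar r e P V A1 A2 L U) (HQ : HullPar r f Q W B1 B2 K G)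
    (ht : TriSt e f c) {y : St} (h : CompBox r c V W A1 A2 L U B1 B2 K G y) :
    (∃ u v, Rel u v y ∧ InBox r e V A1 A2 L U u ∧ InBox r f W B1 B2 K G v) ∨
      Degen r e f c V W L U K G y :=
  slab_state HP HQ ht y h.val h.n1 h.n2 h.m1 h.m2 h.hcomp h.y1 h.y2 h.y3 h.y4

end

end SPK
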