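import Pool.Agent.SPK.ClosureThree

/-! Closure of good state sets under composition, fourth part. -/

namespace SPK

section

variable {r : ℤ} {e f c : St} {P Q : Set St} {V W : St} {A1 A2 L U B1 B2 K G : ℤ}

/-- Reflect the second coordinate of a state. -/
def flip (x : St) : St := fun α β => x α (!β)

theorem Rel.symm {u v x : St} (h : Rel u v x) : Rel v u x := by
  refine ⟨h.t, h.s, ?_⟩
  intro α
  obtain ⟨h1, h2, h3, h4⟩ := h.h α
  constructor <;> linarith

theorem comp_symm (r : ℤ) (c : St) (P Q : Set St) : comp r c P Q = comp r c Q P := by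
  ext x
  constructor
  · rintro ⟨hx, u, hu, v, hv, h⟩
    exact ⟨hx, v, hv, u, hu, h.symm⟩
  · rintro ⟨hx, u, hu, v, hv, h⟩
    exact ⟨hx, v, hv, u, hu, h.symm⟩

theorem Tri3.symm {a b c : ℤ} (h : Tri3 a b c) : Tri3 b a c := by
  obtain ⟨h1, h2, h3, h4⟩ := h
  constructor <;> omega

theorem TriSt.symm {e f c : St} (h : TriSt e f c) : TriSt f e c :=
  ⟨fun α => (h.t1 α).symm, fun α => (h.t3 α).symm, fun α => (h.t2 α).symm, fun α => (h.t4 α).symm⟩

/-- If the second distance of `Q` is identically zero, then every member of `P` is composed. -/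
theorem comp_zero (HP : HullPar r e P V A1 A2 L U) (HQ : HullPar r f Q W B1 B2 K G)
    (ht : TriSt e f c) (hG : G = 0) {w : St} (hw : w ∈ P) : w ∈ comp r c P Q := by
  have hKG : K = G := by
    obtain ⟨q, hq⟩ := HQ.good.ne
    have h1 := HQ.memR q hq
    have h2 := (HQ.good.val q hq).le false true
    have h3 := (HQ.good.val q hq).le true true
    have h4 := HQ.good.nn false true
    have h5 := HQ.good.nn true true
    obtain ⟨k, hk, hk'⟩ := HQ.attL
    have h6 := (HQ.good.val k hk).le false true
    have h7 := (HQ.good.val k hk).le true true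
    simp only [sR] at hk' h1
    omega
  obtain ⟨fB1, fB2⟩ := HQ.free hKG
  have vw := HP.good.val w hw
  have l1 := vw.le false false
  have l2 := vw.le true false
  have l3 := vw.le false true
  have l4 := vw.le true true
  have p1 := vw.par false false
  have p2 := vw.par true false
  have p3 := vw.par false true
  have p4 := vw.par true true
  have sw := vw.sum
  obtain ⟨r11, r12, r13, r14⟩ := ht.t1 false
  obtain ⟨r21, r22, r23, r24⟩ := ht.t2 false
  obtain ⟨r31, r32, r33, r34⟩ := ht.t3 false
  obtain ⟨r41, r42, r43, r44⟩ := ht.t4 false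
  obtain ⟨r51, r52, r53, r54⟩ := ht.t1 true
  obtain ⟨r61, r62, r63, r64⟩ := ht.t2 true
  obtain ⟨r71, r72, r73, r74⟩ := ht.t3 true
  obtain ⟨r81, r82, r83, r84⟩ := ht.t4 true
  have n1 := HQ.good.nn false false
  have n2 := HQ.good.nn true false
  have n3 := HQ.good.nn false true
  have n4 := HQ.good.nn true true
  obtain ⟨g, hg, hg'⟩ := HQ.attU
  have hg3 := (HQ.good.val g hg).le false true
  have hg4 := (HQ.good.val g hg).le true true
  simp only [sR] at hg'
  have f3 : f false true = 0 := by omega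
  have f4 : f true true = 0 := by omega
  have S := HQ.slabOK (sN w) (by simp only [sN]; omega) (by simp only [sN]; omega)
    (by simp only [sN]; omega)
  have S1 := S.d1
  have S2 := S.g1
  have S3 := S.g3
  have S4 := S.p1
  have S5 := S.p2
  have S6 := S.b3
  have S7 := S.b4
  simp only [sN] at S S1 S2 S3 S4 S5
  have hv : mk (w false false + w false true) (w true false + w true true) 0 0 ∈ Q := by
    apply HQ.noExc hKG
    exact inBox_mk (by omega) (by omega) (by omega) (by omega) (by omega) (by omega) (by omega)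
      (by omega) (by omega) (by omega) (by omega) (by omega) (by omega) (by omega) (by omega)
      (by omega) (by omega)
  refine ⟨⟨sw, ?_, ?_⟩, w, hw, _, hv, ?_⟩
  · intro α β
    rcases α with _ | _ <;> rcases β with _ | _ <;> omega
  · intro α β
    rcases α with _ | _ <;> rcases β with _ | _ <;> omega
  · nth_rewrite 1 [eq_mk w]
    exact rel_mk rfl rfl (by omega) (by omega) ⟨by omega, by omega, by omega, by omega⟩
      ⟨by omega, by omega, by omega, by omega⟩

/-- If the second distance of `Q` is identically `r`, then every flipped member of `P` is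
composed. -/
theorem comp_full_flip (HP : HullPar r e P V A1 A2 L U) (HQ : HullPar r f Q W B1 B2 K G)
    (ht : TriSt e f c) (hK : K = r) {w : St} (hw : w ∈ P) : flip w ∈ comp r c P Q := by
  have hKG : K = G := by
    obtain ⟨k, hk, hk'⟩ := HQ.attU
    have h1 := HQ.memR k hk
    have h6 := (HQ.good.val k hk).le false false
    have h7 := (HQ.good.val k hk).le true false
    have h8 := (HQ.good.val k hk).sum
    have h4 := HQ.good.nn false false
    have h5 := HQ.good.nn true false
    simp only [sR] at hk' h1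
    omega
  obtain ⟨fB1, fB2⟩ := HQ.free hKG
  have vw := HP.good.val w hw
  have l1 := vw.le false false
  have l2 := vw.le true false
  have l3 := vw.le false true
  have l4 := vw.le true true
  have p1 := vw.par false false
  have p2 := vw.par true false
  have p3 := vw.par false true
  have p4 := vw.par true true
  have sw := vw.sum
  obtain ⟨r11, r12, r13, r14⟩ := ht.t1 false
  obtain ⟨r21, r22, r23, r24⟩ := ht.t2 false
  obtain ⟨r31, r32, r33, r34⟩ := ht.t3 false
  obtain ⟨r41, r42, r43, r44⟩ := ht.t4 false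
  obtain ⟨r51, r52, r53, r54⟩ := ht.t1 true
  obtain ⟨r61, r62, r63, r64⟩ := ht.t2 true
  obtain ⟨r71, r72, r73, r74⟩ := ht.t3 true
  obtain ⟨r81, r82, r83, r84⟩ := ht.t4 true
  have n1 := HQ.good.nn false false
  have n2 := HQ.good.nn true false
  have n3 := HQ.good.nn false true
  have n4 := HQ.good.nn true true
  obtain ⟨g, hg, hg'⟩ := HQ.attL
  have hg3 := (HQ.good.val g hg).le false false
  have hg4 := (HQ.good.val g hg).le true false
  have hg5 := (HQ.good.val g hg).sum
  simp only [sR] at hg'
  have f3 : f false false = 0 := by omega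
  have f4 : f true false = 0 := by omega
  have S := HQ.slabOK (sN w) (by simp only [sN]; omega) (by simp only [sN]; omega)
    (by simp only [sN]; omega)
  have S1 := S.d2
  have S2 := S.f1
  have S3 := S.f3
  have S4 := S.p3
  have S5 := S.p4
  have S6 := S.b1
  have S7 := S.b2
  simp only [sN] at S S1 S2 S3 S4 S5
  have hv : mk 0 0 (w false false + w false true) (w true false + w true true) ∈ Q := by
    apply HQ.noExc hKG
    exact inBox_mk (by omega) (by omega) (by omega) (by omega) (by omega) (by omega) (by omega)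
      (by omega) (by omega) (by omega) (by omega) (by omega) (by omega) (by omega) (by omega)
      (by omega) (by omega)
  refine ⟨⟨?_, ?_, ?_⟩, w, hw, _, hv, ?_⟩
  · simp only [flip, Bool.not_false, Bool.not_true]
    omega
  · intro α β
    rcases α with _ | _ <;> rcases β with _ | _ <;>
      simp only [flip, Bool.not_false, Bool.not_true] <;> omega
  · intro α β
    rcases α with _ | _ <;> rcases β with _ | _ <;>
      simp only [flip, Bool.not_false, Bool.not_true] <;> omega
  · nth_rewrite 1 [eq_mk w]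
    refine rel_mk ?_ ?_ ?_ ?_ ⟨?_, ?_, ?_, ?_⟩ ⟨?_, ?_, ?_, ?_⟩ <;>
      simp only [flip, Bool.not_false, Bool.not_true] <;> omega

theorem flip_flip (x : St) : flip (flip x) = x := by
  funext α β
  simp [flip]

theorem flip_mvA (x : St) (a b : Bool) : flip (mvA x a b) = mvA (flip x) a (!b) := by
  funext α β
  rcases a with _ | _ <;> rcases b with _ | _ <;> rcases α with _ | _ <;>
    rcases β with _ | _ <;> simp [flip, mvA]

theorem flip_mvB (x : St) (a b : Bool) : flip (mvB x a b) = mvB (flip x) a (!b) := by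
  funext α β
  rcases a with _ | _ <;> rcases b with _ | _ <;> rcases α with _ | _ <;>
    rcases β with _ | _ <;> simp [flip, mvB]

/-- An exceptional first part. -/
theorem exc_fix (HP : HullPar r e P V A1 A2 L U) (HQ : HullPar r f Q W B1 B2 K G)
    (ht : TriSt e f c) (hc : ∀ α β, 0 ≤ c α β) (hr : r ≠ 4) {u v x : St} (hx : Valid r c x)
    (hu : Valid r e u) (he : Exc e P u) (hv : InBox r f W B1 B2 K G v) (h : Rel u v x) :
    x ∈ comp r c P Q ∨ Exc c (comp r c P Q) x := by
  have key : x ∈ comp r c P Q ∨ (G = 0 ∧ x = u) ∨ (K = r ∧ x = flip u) := by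
    obtain ⟨s, hz, hn⟩ := he
    rcases s with _ | _
    · obtain ⟨M1, M2, M3⟩ := exc_false HP hr hu (hz false false rfl) (hz true true rfl)
        (hn false true rfl) (hn true false rfl)
      exact fix23 HP HQ ht hc hr hx hu (hz false false rfl) (hz true true rfl)
        (hn false true rfl).1 (hn true false rfl).1 M1 M2 M3 hv h
    · obtain ⟨M1, M2, M3⟩ := exc_true HP hr hu (hz true false rfl) (hz false true rfl)
        (hn false false rfl) (hn true true rfl)
      exact fix14 HP HQ ht hc hr hx hu (hz true false rfl) (hz false true rfl)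
        (hn false false rfl).1 (hn true true rfl).1 M1 M2 M3 hv h
  rcases key with h1 | ⟨h1, h2⟩ | ⟨h1, h2⟩
  · exact Or.inl h1
  · right
    obtain ⟨s, hz, hn⟩ := he
    refine ⟨s, ?_, ?_⟩
    · intro α β hs
      rw [h2]
      exact hz α β hs
    · intro α β hs
      obtain ⟨g1, g2, g3⟩ := hn α β hs
      have k2 := comp_zero HP HQ ht h1 g2
      have k3 := comp_zero HP HQ ht h1 g3
      rw [← h2] at k2 k3 g1
      refine ⟨?_, k2, k3⟩
      -- parity and bound for the constants
      have f3 : f α true = 0 := by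
        obtain ⟨g, hg, hg'⟩ := HQ.attU
        have hg3 := (HQ.good.val g hg).le false true
        have hg4 := (HQ.good.val g hg).le true true
        have n3 := HQ.good.nn false true
        have n4 := HQ.good.nn true true
        simp only [sR] at hg'
        rcases α with _ | _ <;> omega
      obtain ⟨r21, r22, r23, r24⟩ := ht.t2 α
      obtain ⟨r41, r42, r43, r44⟩ := ht.t4 α
      rcases β with _ | _ <;> omega
  · right
    obtain ⟨s, hz, hn⟩ := he
    refine ⟨!s, ?_, ?_⟩
    · intro α β hs
      rw [h2]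
      refine hz α (!β) ?_
      rcases s with _ | _ <;> rcases α with _ | _ <;> rcases β with _ | _ <;> simp at hs ⊢
    · intro α β hs
      have hs' : (α ^^ (!β)) = !s := by
        rcases s with _ | _ <;> rcases α with _ | _ <;> rcases β with _ | _ <;> simp at hs ⊢
      obtain ⟨g1, g2, g3⟩ := hn α (!β) hs'
      have k2 := comp_full_flip HP HQ ht h1 g2
      have k3 := comp_full_flip HP HQ ht h1 g3
      rw [flip_mvA, ← h2, Bool.not_not] at k2
      rw [flip_mvB, ← h2, Bool.not_not] at k3
      refine ⟨?_, k2, k3⟩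
      have f3 : f α false = 0 := by
        obtain ⟨g, hg, hg'⟩ := HQ.attL
        have hg3 := (HQ.good.val g hg).le false false
        have hg4 := (HQ.good.val g hg).le true false
        have hg5 := (HQ.good.val g hg).sum
        have n3 := HQ.good.nn false false
        have n4 := HQ.good.nn true false
        simp only [sR] at hg'
        rcases α with _ | _ <;> omega
      have g1' : e α (!β) + 2 ≤ x α β := by
        rw [h2]
        exact g1
      obtain ⟨r11, r12, r13, r14⟩ := ht.t1 α
      obtain ⟨r31, r32, r33, r34⟩ := ht.t3 α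
      rcases β with _ | _ <;> simp only [Bool.not_false, Bool.not_true] at g1' <;> omega

/-- The degenerate case. -/
theorem degen_exc (HP : HullPar r e P V A1 A2 L U) (HQ : HullPar r f Q W B1 B2 K G)
    (ht : TriSt e f c) (hc : ∀ α β, 0 ≤ c α β) {x : St}
    (hx : CompBox r c V W A1 A2 L U B1 B2 K G x) (hd : Degen r e f c V W L U K G x) :
    Exc c (comp r c P Q) x := by
  obtain ⟨hKG, hLU, hd⟩ := hd
  obtain ⟨fA1, fA2⟩ := HP.free hLU
  obtain ⟨fB1, fB2⟩ := HQ.free hKG
  have sx := hx.val.sum
  have mem : ∀ y, CompBox r c V W A1 A2 L U B1 B2 K G y →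
      (y true false ≠ 0 ∨ y false true ≠ 0) → (y false false ≠ 0 ∨ y true true ≠ 0) →
      y ∈ comp r c P Q := by
    intro y hy n1 n2
    rcases hy.split HP HQ ht with ⟨u, v, h1, h2, h3⟩ | ⟨-, -, h⟩
    · exact ⟨hy.val, u, HP.noExc hLU h2, v, HQ.noExc hKG h3, h1⟩
    · exfalso
      rcases h with h | h
      · rcases n1 with n1 | n1
        · exact n1 h.z2
        · exact n1 h.z3
      · rcases n2 with n2 | n2
        · exact n2 h.z1
        · exact n2 h.z4
  have c1 := hc false false
  have c2 := hc true false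
  have c3 := hc false true
  have c4 := hc true true
  obtain ⟨vx, n1, n2, m1, m2, hcomp, y1, y2, y3, y4⟩ := hx
  obtain ⟨h11, h12, h13, h14⟩ := hcomp false
  obtain ⟨h21, h22, h23, h24⟩ := hcomp true
  simp only [sN, sR] at n1 n2 m1 m2 y1 y2 y3 y4 hd
  rcases hd with hd | hd
  · obtain ⟨z2, z3, i1, i2, i3, i4, j1, j2, j3, j4, k1, k2, k3, k4, l1, l2, l3, l4, o1, o4⟩ := hd
    refine ⟨true, ?_, ?_⟩
    · intro α β hs
      rcases α with _ | _ <;> rcases β with _ | _ <;> simp at hs
      · exact z3
      · exact z2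
    · intro α β hs
      have hs' : (α = false ∧ β = false) ∨ (α = true ∧ β = true) := by
        rcases α with _ | _ <;> rcases β with _ | _ <;> simp at hs ⊢
      have hcx : c α β + 2 ≤ x α β := by
        rcases hs' with ⟨rfl, rfl⟩ | ⟨rfl, rfl⟩ <;> assumption
      refine ⟨hcx, ?_, ?_⟩
      · refine mem _ ⟨vx.mvA hcx, ?_, ?_, ?_, ?_, ?_, ?_, ?_, ?_, ?_⟩ ?_ ?_
        all_goals try (rcases hs' with ⟨rfl, rfl⟩ | ⟨rfl, rfl⟩ <;> simp [sN, sR, mvA] <;> omega)
        intro γ
        rcases hs' with ⟨rfl, rfl⟩ | ⟨rfl, rfl⟩ <;> rcases γ with _ | _ <;> constructor <;>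
          simp [mvA] <;> omega
      · refine mem _ ⟨vx.mvB hcx, ?_, ?_, ?_, ?_, ?_, ?_, ?_, ?_, ?_⟩ ?_ ?_
        all_goals try (rcases hs' with ⟨rfl, rfl⟩ | ⟨rfl, rfl⟩ <;> simp [sN, sR, mvB] <;> omega)
        intro γ
        rcases hs' with ⟨rfl, rfl⟩ | ⟨rfl, rfl⟩ <;> rcases γ with _ | _ <;> constructor <;>
          simp [mvB] <;> omega
  · obtain ⟨z1, z4, i1, i2, i3, i4, j1, j2, j3, j4, k1, k2, k3, k4, l1, l2, l3, l4, o2, o3⟩ := hd
    refine ⟨false, ?_, ?_⟩
    · intro α β hs
      rcases α with _ | _ <;> rcases β with _ | _ <;> simp at hs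
      · exact z1
      · exact z4
    · intro α β hs
      have hs' : (α = true ∧ β = false) ∨ (α = false ∧ β = true) := by
        rcases α with _ | _ <;> rcases β with _ | _ <;> simp at hs ⊢
      have hcx : c α β + 2 ≤ x α β := by
        rcases hs' with ⟨rfl, rfl⟩ | ⟨rfl, rfl⟩ <;> assumption
      refine ⟨hcx, ?_, ?_⟩
      · refine mem _ ⟨vx.mvA hcx, ?_, ?_, ?_, ?_, ?_, ?_, ?_, ?_, ?_⟩ ?_ ?_
        all_goals try (rcases hs' with ⟨rfl, rfl⟩ | ⟨rfl, rfl⟩ <;> simp [sN, sR, mvA] <;> omega)
        intro γ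
        rcases hs' with ⟨rfl, rfl⟩ | ⟨rfl, rfl⟩ <;> rcases γ with _ | _ <;> constructor <;>
          simp [mvA] <;> omega
      · refine mem _ ⟨vx.mvB hcx, ?_, ?_, ?_, ?_, ?_, ?_, ?_, ?_, ?_⟩ ?_ ?_
        all_goals try (rcases hs' with ⟨rfl, rfl⟩ | ⟨rfl, rfl⟩ <;> simp [sN, sR, mvB] <;> omega)
        intro γ
        rcases hs' with ⟨rfl, rfl⟩ | ⟨rfl, rfl⟩ <;> rcases γ with _ | _ <;> constructor <;>
          simp [mvB] <;> omega

theorem CompBox.mem (HP : HullPar r e P V A1 A2 L U) (HQ : HullPar r f Q W B1 B2 K G)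
    (ht : TriSt e f c) (hc : ∀ α β, 0 ≤ c α β) (hr : r ≠ 4) {x : St}
    (hx : CompBox r c V W A1 A2 L U B1 B2 K G x) :
    x ∈ comp r c P Q ∨ Exc c (comp r c P Q) x := by
  rcases hx.split HP HQ ht with ⟨u, v, h1, h2, h3⟩ | h
  · rcases HP.mem' h2 with hu | hu
    · rcases HQ.mem' h3 with hv | hv
      · exact Or.inl ⟨hx.val, u, hu, v, hv, h1⟩
      · rw [comp_symm]
        exact exc_fix HQ HP ht.symm hc hr hx.val h3.val hv h2 h1.symm
    · exact exc_fix HP HQ ht hc hr hx.val h2.val hu h3 h1
  · exact Or.inr (degen_exc HP HQ ht hc hx h)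

/-- Existence of a composed state with given first distance. -/
theorem comp_attN (hP : GoodSet r e P) (hQ : GoodSet r f Q) (ht : TriSt e f c)
    {n : ℤ} (hc : ∀ α β, 0 ≤ c α β) (hPn : ∃ u ∈ P, sN u = n) (hQn : ∃ v ∈ Q, sN v = n)
    (h0 : c false false + c false true ≤ r - n) (h1 : c true false + c true true ≤ n) :
    ∃ x ∈ comp r c P Q, sN x = n := by
  obtain ⟨u, hu, hun⟩ := hPn
  obtain ⟨v, hv, hvn⟩ := hQn
  have vu := hP.val u hu
  have vv := hQ.val v hv
  have su := vu.sum
  have sv := vv.sum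
  simp only [sN] at hun hvn
  have row : ∀ (a : Bool) (N : ℤ), u a false + u a true = N → v a false + v a true = N →
      c a false + c a true ≤ N → ∃ x1 x3 : ℤ, x1 + x3 = N ∧ c a false ≤ x1 ∧ c a true ≤ x3 ∧
        (x1 - c a false) % 2 = 0 ∧ (x3 - c a true) % 2 = 0 ∧
        Comp (u a false) (u a true) (v a false) (v a true) x1 x3 := by
    intro a N hN1 hN2 hN3
    have l1 := vu.le a false
    have l2 := vu.le a true
    have l3 := vv.le a false
    have l4 := vv.le a true
    have p1 := vu.par a false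
    have p2 := vu.par a true
    have p3 := vv.par a false
    have p4 := vv.par a true
    obtain ⟨r11, r12, r13, r14⟩ := ht.t1 a
    obtain ⟨r21, r22, r23, r24⟩ := ht.t2 a
    obtain ⟨r31, r32, r33, r34⟩ := ht.t3 a
    obtain ⟨r41, r42, r43, r44⟩ := ht.t4 a
    have n1 := hP.nn a false
    have n2 := hP.nn a true
    have n3 := hQ.nn a false
    have n4 := hQ.nn a true
    have n5 := hc a false
    have n6 := hc a true
    have key : ∃ x3 : ℤ, c a true ≤ x3 ∧ u a true - v a true ≤ x3 ∧ v a true - u a true ≤ x3 ∧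
        x3 ≤ N - c a false ∧ x3 ≤ u a true + v a true ∧ x3 ≤ u a false + v a false ∧
        (x3 - c a true) % 2 = 0 := by
      by_cases g1 : u a true - v a true ≤ c a true
      · by_cases g2 : v a true - u a true ≤ c a true
        · refine ⟨c a true, ?_, ?_, ?_, ?_, ?_, ?_, ?_⟩ <;> omega
        · refine ⟨v a true - u a true, ?_, ?_, ?_, ?_, ?_, ?_, ?_⟩ <;> omega
      · refine ⟨u a true - v a true, ?_, ?_, ?_, ?_, ?_, ?_, ?_⟩ <;> omega
    obtain ⟨x3, k1, k2, k3, k4, k5, k6, k7⟩ := key
    refine ⟨N - x3, x3, by omega, by omega, k1, by omega, k7, ?_⟩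
    constructor <;> omega
  obtain ⟨x1, x3, a1, a2, a3, a4, a5, a6⟩ := row false (r - n) (by omega) (by omega) h0
  obtain ⟨x2, x4, b1, b2, b3, b4, b5, b6⟩ := row true n hun hvn h1
  refine ⟨mk x1 x2 x3 x4, ⟨⟨?_, ?_, ?_⟩, u, hu, v, hv, ?_⟩, ?_⟩
  · simp only [mk1, mk2, mk3, mk4]
    omega
  · intro α β
    rcases α with _ | _ <;> rcases β with _ | _ <;> assumption
  · intro α β
    rcases α with _ | _ <;> rcases β with _ | _ <;> assumption
  · refine ⟨?_, ?_, ?_⟩
    · intro α
      rcases α with _ | _ <;> simp only [mk1, mk2, mk3, mk4] <;> omega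
    · intro α
      rcases α with _ | _ <;> simp only [mk1, mk2, mk3, mk4] <;> omega
    · intro α
      rcases α with _ | _
      · exact a6
      · exact b6
  · simp only [sN, mk2, mk4]
    exact b1

theorem comp_good (hP : GoodSet r e P) (hQ : GoodSet r f Q) (ht : TriSt e f c)
    (hc : ∀ α β, 0 ≤ c α β) (hr : r ≠ 4) (hne : (comp r c P Q).Nonempty) :
    GoodSet r c (comp r c P Q) := by
  obtain ⟨V, A1, A2, L, U, HP⟩ := hP.params
  obtain ⟨W, B1, B2, K, G, HQ⟩ := hQ.params
  refine ⟨hc, fun x hx => hx.1, hne, comp_kem hP hQ ht hc, ?_⟩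
  intro x hx hh
  exact (compBox_of_hull HP HQ hx hh).mem HP HQ ht hc hr

end

end SPK
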