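import Pool.Agent.SPK.ClosureTwo

/-! Closure of good state sets under composition, third part. -/

namespace SPK

section

variable {r : ℤ} {e f c : St} {P Q : Set St} {V W : St} {A1 A2 L U B1 B2 K G : ℤ}

theorem rel_mk {u1 u2 u3 u4 v1 v2 v3 v4 : ℤ} {x : St}
    (s0 : u1 + u3 = x false false + x false true) (s1 : u2 + u4 = x true false + x true true)
    (t0 : v1 + v3 = x false false + x false true) (t1 : v2 + v4 = x true false + x true true)
    (h0 : Comp u1 u3 v1 v3 (x false false) (x false true))
    (h1 : Comp u2 u4 v2 v4 (x true false) (x true true)) :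
    Rel (mk u1 u2 u3 u4) (mk v1 v2 v3 v4) x := by
  refine ⟨?_, ?_, ?_⟩
  · intro α
    rcases α with _ | _
    · exact s0
    · exact s1
  · intro α
    rcases α with _ | _
    · exact t0
    · exact t1
  · intro α
    rcases α with _ | _
    · exact h0
    · exact h1

theorem exc_true (h : HullPar r e P V A1 A2 L U) (hr : r ≠ 4) {u : St} (hu : Valid r e u)
    (z2 : u true false = 0) (z3 : u false true = 0)
    (hn1 : e false false + 2 ≤ u false false ∧ mvA u false false ∈ P ∧ mvB u false false ∈ P)
    (hn4 : e true true + 2 ≤ u true true ∧ mvA u true true ∈ P ∧ mvB u true true ∈ P) :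
    mk (u false false - 2) 0 2 (u true true) ∈ P ∧ mk (u false false) 2 0 (u true true - 2) ∈ P ∧
      mk (u false false - 2) 2 2 (u true true - 2) ∈ P := by
  obtain ⟨k1, a1, b1⟩ := hn1
  obtain ⟨k4, a4, b4⟩ := hn4
  have v := hu.le
  have l1 := v false false
  have l2 := v true false
  have l3 := v false true
  have l4 := v true true
  have q1 := hu.par false false
  have q2 := hu.par true false
  have q3 := hu.par false true
  have q4 := hu.par true true
  have hs := hu.sum
  have nn1 := h.good.nn false false
  have nn2 := h.good.nn true false
  have nn3 := h.good.nn false true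
  have nn4 := h.good.nn true true
  have e1 : mvA u false false = mk (u false false - 2) 2 0 (u true true) := by
    apply st_ext <;> simp [mvA, z2, z3]
  have e2 : mvB u false false = mk (u false false - 2) 0 2 (u true true) := by
    apply st_ext <;> simp [mvB, z2, z3]
  have e3 : mvA u true true = mk (u false false) 0 2 (u true true - 2) := by
    apply st_ext <;> simp [mvA, z2, z3]
  have e4 : mvB u true true = mk (u false false) 2 0 (u true true - 2) := by
    apply st_ext <;> simp [mvB, z2, z3]
  rw [e1] at a1
  rw [e2] at b1
  rw [e3] at a4
  rw [e4] at b4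
  refine ⟨b1, b4, ?_⟩
  have m1 := h.memV _ a4 false false
  have m2 := h.memV _ a1 true false
  have m3 := h.memV _ b1 false true
  have m4 := h.memV _ a1 true true
  have c1 := h.memA _ a1
  have c2 := h.memA _ a4
  have d1 := h.memR _ b1
  have d2 := h.memR _ b4
  have g2 := (h.good.val _ a1).le true false
  have g3 := (h.good.val _ b1).le false true
  have p2 := (h.good.val _ a1).par true false
  have p3 := (h.good.val _ b1).par false true
  simp only [mk1, mk2, mk3, mk4, sN, sR] at m1 m2 m3 m4 c1 c2 d1 d2 g2 g3 p2 p3
  obtain ⟨c11, c12⟩ := c1
  obtain ⟨c21, c22⟩ := c2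
  obtain ⟨d11, d12⟩ := d1
  obtain ⟨d21, d22⟩ := d2
  exact h.mem4 (inBox_mk (by omega) (by omega) (by omega) (by omega) (by omega) (by omega) (by omega) (by omega) (by omega) (by omega) (by omega) (by omega) (by omega) (by omega) (by omega) (by omega) (by omega)) (by simp only [mk2, mk3]; omega) (by simp only [mk1, mk4]; omega)

theorem exc_false (h : HullPar r e P V A1 A2 L U) (hr : r ≠ 4) {u : St} (hu : Valid r e u)
    (z1 : u false false = 0) (z4 : u true true = 0)
    (hn3 : e false true + 2 ≤ u false true ∧ mvA u false true ∈ P ∧ mvB u false true ∈ P)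
    (hn2 : e true false + 2 ≤ u true false ∧ mvA u true false ∈ P ∧ mvB u true false ∈ P) :
    mk 2 (u true false) (u false true - 2) 0 ∈ P ∧ mk 0 (u true false - 2) (u false true) 2 ∈ P ∧
      mk 2 (u true false - 2) (u false true - 2) 2 ∈ P := by
  obtain ⟨k3, a3, b3⟩ := hn3
  obtain ⟨k2, a2, b2⟩ := hn2
  have v := hu.le
  have l1 := v false false
  have l2 := v true false
  have l3 := v false true
  have l4 := v true true
  have q1 := hu.par false false
  have q2 := hu.par true false
  have q3 := hu.par false true
  have q4 := hu.par true true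
  have hs := hu.sum
  have nn1 := h.good.nn false false
  have nn2 := h.good.nn true false
  have nn3 := h.good.nn false true
  have nn4 := h.good.nn true true
  have e1 : mvA u false true = mk 0 (u true false) (u false true - 2) 2 := by
    apply st_ext <;> simp [mvA, z1, z4]
  have e2 : mvB u false true = mk 2 (u true false) (u false true - 2) 0 := by
    apply st_ext <;> simp [mvB, z1, z4]
  have e3 : mvA u true false = mk 2 (u true false - 2) (u false true) 0 := by
    apply st_ext <;> simp [mvA, z1, z4]
  have e4 : mvB u true false = mk 0 (u true false - 2) (u false true) 2 := by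
    apply st_ext <;> simp [mvB, z1, z4]
  rw [e1] at a3
  rw [e2] at b3
  rw [e3] at a2
  rw [e4] at b2
  refine ⟨b3, b2, ?_⟩
  have m1 := h.memV _ a2 false false
  have m2 := h.memV _ a3 true false
  have m3 := h.memV _ a2 false true
  have m4 := h.memV _ a3 true true
  have c1 := h.memA _ a3
  have c2 := h.memA _ a2
  have d1 := h.memR _ b3
  have d2 := h.memR _ b2
  have g1 := (h.good.val _ b3).le false false
  have g4 := (h.good.val _ b2).le true true
  have p1 := (h.good.val _ b3).par false false
  have p4 := (h.good.val _ b2).par true true
  simp only [mk1, mk2, mk3, mk4, sN, sR] at m1 m2 m3 m4 c1 c2 d1 d2 g1 g4 p1 p4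
  obtain ⟨c11, c12⟩ := c1
  obtain ⟨c21, c22⟩ := c2
  obtain ⟨d11, d12⟩ := d1
  obtain ⟨d21, d22⟩ := d2
  exact h.mem4 (inBox_mk (by omega) (by omega) (by omega) (by omega) (by omega) (by omega) (by omega) (by omega) (by omega) (by omega) (by omega) (by omega) (by omega) (by omega) (by omega) (by omega) (by omega)) (by simp only [mk2, mk3]; omega) (by simp only [mk1, mk4]; omega)

theorem fix14 (HP : HullPar r e P V A1 A2 L U) (HQ : HullPar r f Q W B1 B2 K G)
    (ht : TriSt e f c) (hc : ∀ α β, 0 ≤ c α β) (hr : r ≠ 4) {u v x : St} (hx : Valid r c x)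
    (hu : Valid r e u)
    (z2 : u true false = 0) (z3 : u false true = 0)
    (k1 : e false false + 2 ≤ u false false) (k4 : e true true + 2 ≤ u true true)
    (M1 : mk (u false false - 2) 0 2 (u true true) ∈ P)
    (M2 : mk (u false false) 2 0 (u true true - 2) ∈ P)
    (M3 : mk (u false false - 2) 2 2 (u true true - 2) ∈ P)
    (hv : InBox r f W B1 B2 K G v) (h : Rel u v x) :
    x ∈ comp r c P Q ∨ (G = 0 ∧ x = u) ∨ (K = r ∧ x = fun α β => u α (!β)) := by
  have cc1 := hc false false
  have cc2 := hc true false
  have cc3 := hc false true
  have cc4 := hc true true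
  have x1 := hx.le false false
  have x2 := hx.le true false
  have x3 := hx.le false true
  have x4 := hx.le true true
  have e1 := HP.good.nn false false
  have e2 := HP.good.nn true false
  have e3 := HP.good.nn false true
  have e4 := HP.good.nn true true
  have s0 := h.s false
  have s1 := h.s true
  have t0 := h.t false
  have t1 := h.t true
  obtain ⟨h11, h12, h13, h14⟩ := h.h false
  obtain ⟨h21, h22, h23, h24⟩ := h.h true
  obtain ⟨r11, r12, r13, -⟩ := ht.t1 false
  obtain ⟨r21, r22, r23, -⟩ := ht.t2 false
  obtain ⟨r31, r32, r33, -⟩ := ht.t3 false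
  obtain ⟨r41, r42, r43, -⟩ := ht.t4 false
  obtain ⟨r51, r52, r53, -⟩ := ht.t1 true
  obtain ⟨r61, r62, r63, -⟩ := ht.t2 true
  obtain ⟨r71, r72, r73, -⟩ := ht.t3 true
  obtain ⟨r81, r82, r83, -⟩ := ht.t4 true
  have z1' : u false false = x false false + x false true := by omega
  have z4' : u true true = x true false + x true true := by omega
  have vv1 : v false false = x false false := by omega
  have vv3 : v false true = x false true := by omega
  have vv2 : v true false = x true true := by omega
  have vv4 : v true true = x true false := by omega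
  have hvm : v = mk (x false false) (x true true) (x false true) (x true false) := by
    apply st_ext
    · simpa using vv1
    · simpa using vv2
    · simpa using vv3
    · simpa using vv4
  by_cases hA : x false false ≠ 0 ∧ x false true ≠ 0
  · left
    have hvQ : v ∈ Q := HQ.mem4 hv (Or.inr (by omega)) (Or.inl (by omega))
    rw [hvm] at hvQ
    exact ⟨hx, _, M1, _, hvQ, (rel_mk (by omega) (by omega) (by omega) (by omega) ⟨by omega, by omega, by omega, by omega⟩ ⟨by omega, by omega, by omega, by omega⟩)⟩
  by_cases hB : x true false ≠ 0 ∧ x true true ≠ 0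
  · left
    have hvQ : v ∈ Q := HQ.mem4 hv (Or.inl (by omega)) (Or.inr (by omega))
    rw [hvm] at hvQ
    exact ⟨hx, _, M2, _, hvQ, (rel_mk (by omega) (by omega) (by omega) (by omega) ⟨by omega, by omega, by omega, by omega⟩ ⟨by omega, by omega, by omega, by omega⟩)⟩
  by_cases c1 : x false false = 0
  · by_cases c2 : x true false = 0
    · have zz1 : x false false = 0 := by omega
      have zz2 : x true false = 0 := by omega
      have hv2 : v = mk 0 (u true true) (u false false) 0 := by
        apply st_ext <;> simp only [mk1, mk2, mk3, mk4] <;> omega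
      rw [hv2] at hv
      left
      rcases hull_d23 HQ hr hv (by omega) (by omega) with g | g | g
      · exact ⟨hx, _, M1, _, g, (rel_mk (by omega) (by omega) (by omega) (by omega) ⟨by omega, by omega, by omega, by omega⟩ ⟨by omega, by omega, by omega, by omega⟩)⟩
      · exact ⟨hx, _, M2, _, g, (rel_mk (by omega) (by omega) (by omega) (by omega) ⟨by omega, by omega, by omega, by omega⟩ ⟨by omega, by omega, by omega, by omega⟩)⟩
      · exact ⟨hx, _, M3, _, g, (rel_mk (by omega) (by omega) (by omega) (by omega) ⟨by omega, by omega, by omega, by omega⟩ ⟨by omega, by omega, by omega, by omega⟩)⟩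
    · have zz1 : x false false = 0 := by omega
      have zz2 : x true true = 0 := by omega
      have hv2 : v = mk 0 0 (u false false) (u true true) := by
        apply st_ext <;> simp only [mk1, mk2, mk3, mk4] <;> omega
      rw [hv2] at hv
      rcases hull_s34 HQ hr hv (by omega) (by omega) with g | g | g
      · right; right
        refine ⟨g, ?_⟩
        apply st_ext <;> simp only [Bool.not_false, Bool.not_true] <;> omega
      · left
        exact ⟨hx, _, M1, _, g, (rel_mk (by omega) (by omega) (by omega) (by omega) ⟨by omega, by omega, by omega, by omega⟩ ⟨by omega, by omega, by omega, by omega⟩)⟩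
      · left
        exact ⟨hx, _, M2, _, g, (rel_mk (by omega) (by omega) (by omega) (by omega) ⟨by omega, by omega, by omega, by omega⟩ ⟨by omega, by omega, by omega, by omega⟩)⟩
  · by_cases c2 : x true false = 0
    · have zz1 : x false true = 0 := by omega
      have zz2 : x true false = 0 := by omega
      have hv2 : v = mk (u false false) (u true true) 0 0 := by
        apply st_ext <;> simp only [mk1, mk2, mk3, mk4] <;> omega
      rw [hv2] at hv
      rcases hull_s12 HQ hr hv (by omega) (by omega) with g | g | g
      · right; left
        refine ⟨g, ?_⟩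
        apply st_ext <;> omega
      · left
        exact ⟨hx, _, M1, _, g, (rel_mk (by omega) (by omega) (by omega) (by omega) ⟨by omega, by omega, by omega, by omega⟩ ⟨by omega, by omega, by omega, by omega⟩)⟩
      · left
        exact ⟨hx, _, M2, _, g, (rel_mk (by omega) (by omega) (by omega) (by omega) ⟨by omega, by omega, by omega, by omega⟩ ⟨by omega, by omega, by omega, by omega⟩)⟩
    · have zz1 : x false true = 0 := by omega
      have zz2 : x true true = 0 := by omega
      have hv2 : v = mk (u false false) 0 0 (u true true) := by
        apply st_ext <;> simp only [mk1, mk2, mk3, mk4] <;> omega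
      rw [hv2] at hv
      left
      rcases hull_d14 HQ hr hv (by omega) (by omega) with g | g | g
      · exact ⟨hx, _, M1, _, g, (rel_mk (by omega) (by omega) (by omega) (by omega) ⟨by omega, by omega, by omega, by omega⟩ ⟨by omega, by omega, by omega, by omega⟩)⟩
      · exact ⟨hx, _, M2, _, g, (rel_mk (by omega) (by omega) (by omega) (by omega) ⟨by omega, by omega, by omega, by omega⟩ ⟨by omega, by omega, by omega, by omega⟩)⟩
      · exact ⟨hx, _, M3, _, g, (rel_mk (by omega) (by omega) (by omega) (by omega) ⟨by omega, by omega, by omega, by omega⟩ ⟨by omega, by omega, by omega, by omega⟩)⟩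

theorem fix23 (HP : HullPar r e P V A1 A2 L U) (HQ : HullPar r f Q W B1 B2 K G)
    (ht : TriSt e f c) (hc : ∀ α β, 0 ≤ c α β) (hr : r ≠ 4) {u v x : St} (hx : Valid r c x)
    (hu : Valid r e u)
    (z1 : u false false = 0) (z4 : u true true = 0)
    (k3 : e false true + 2 ≤ u false true) (k2 : e true false + 2 ≤ u true false)
    (M1 : mk 2 (u true false) (u false true - 2) 0 ∈ P)
    (M2 : mk 0 (u true false - 2) (u false true) 2 ∈ P)
    (M3 : mk 2 (u true false - 2) (u false true - 2) 2 ∈ P)
    (hv : InBox r f W B1 B2 K G v) (h : Rel u v x) :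
    x ∈ comp r c P Q ∨ (G = 0 ∧ x = u) ∨ (K = r ∧ x = fun α β => u α (!β)) := by
  have cc1 := hc false false
  have cc2 := hc true false
  have cc3 := hc false true
  have cc4 := hc true true
  have x1 := hx.le false false
  have x2 := hx.le true false
  have x3 := hx.le false true
  have x4 := hx.le true true
  have e1 := HP.good.nn false false
  have e2 := HP.good.nn true false
  have e3 := HP.good.nn false true
  have e4 := HP.good.nn true true
  have s0 := h.s false
  have s1 := h.s true
  have t0 := h.t false
  have t1 := h.t true
  obtain ⟨h11, h12, h13, h14⟩ := h.h false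
  obtain ⟨h21, h22, h23, h24⟩ := h.h true
  obtain ⟨r11, r12, r13, -⟩ := ht.t1 false
  obtain ⟨r21, r22, r23, -⟩ := ht.t2 false
  obtain ⟨r31, r32, r33, -⟩ := ht.t3 false
  obtain ⟨r41, r42, r43, -⟩ := ht.t4 false
  obtain ⟨r51, r52, r53, -⟩ := ht.t1 true
  obtain ⟨r61, r62, r63, -⟩ := ht.t2 true
  obtain ⟨r71, r72, r73, -⟩ := ht.t3 true
  obtain ⟨r81, r82, r83, -⟩ := ht.t4 true
  have z3' : u false true = x false false + x false true := by omega
  have z2' : u true false = x true false + x true true := by omega
  have vv1 : v false false = x false true := by omega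
  have vv3 : v false true = x false false := by omega
  have vv2 : v true false = x true false := by omega
  have vv4 : v true true = x true true := by omega
  have hvm : v = mk (x false true) (x true false) (x false false) (x true true) := by
    apply st_ext
    · simpa using vv1
    · simpa using vv2
    · simpa using vv3
    · simpa using vv4
  by_cases hA : x false false ≠ 0 ∧ x false true ≠ 0
  · left
    have hvQ : v ∈ Q := HQ.mem4 hv (Or.inr (by omega)) (Or.inl (by omega))
    rw [hvm] at hvQ
    exact ⟨hx, _, M1, _, hvQ, (rel_mk (by omega) (by omega) (by omega) (by omega) ⟨by omega, by omega, by omega, by omega⟩ ⟨by omega, by omega, by omega, by omega⟩)⟩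
  by_cases hB : x true false ≠ 0 ∧ x true true ≠ 0
  · left
    have hvQ : v ∈ Q := HQ.mem4 hv (Or.inl (by omega)) (Or.inr (by omega))
    rw [hvm] at hvQ
    exact ⟨hx, _, M2, _, hvQ, (rel_mk (by omega) (by omega) (by omega) (by omega) ⟨by omega, by omega, by omega, by omega⟩ ⟨by omega, by omega, by omega, by omega⟩)⟩
  by_cases c1 : x false false = 0
  · by_cases c2 : x true false = 0
    · have zz1 : x false false = 0 := by omega
      have zz2 : x true false = 0 := by omega
      have hv2 : v = mk (u false true) 0 0 (u true false) := by
        apply st_ext <;> simp only [mk1, mk2, mk3, mk4] <;> omega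
      rw [hv2] at hv
      left
      rcases hull_d14 HQ hr hv (by omega) (by omega) with g | g | g
      · exact ⟨hx, _, M1, _, g, (rel_mk (by omega) (by omega) (by omega) (by omega) ⟨by omega, by omega, by omega, by omega⟩ ⟨by omega, by omega, by omega, by omega⟩)⟩
      · exact ⟨hx, _, M2, _, g, (rel_mk (by omega) (by omega) (by omega) (by omega) ⟨by omega, by omega, by omega, by omega⟩ ⟨by omega, by omega, by omega, by omega⟩)⟩
      · exact ⟨hx, _, M3, _, g, (rel_mk (by omega) (by omega) (by omega) (by omega) ⟨by omega, by omega, by omega, by omega⟩ ⟨by omega, by omega, by omega, by omega⟩)⟩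
    · have zz1 : x false false = 0 := by omega
      have zz2 : x true true = 0 := by omega
      have hv2 : v = mk (u false true) (u true false) 0 0 := by
        apply st_ext <;> simp only [mk1, mk2, mk3, mk4] <;> omega
      rw [hv2] at hv
      rcases hull_s12 HQ hr hv (by omega) (by omega) with g | g | g
      · right; left
        refine ⟨g, ?_⟩
        apply st_ext <;> omega
      · left
        exact ⟨hx, _, M1, _, g, (rel_mk (by omega) (by omega) (by omega) (by omega) ⟨by omega, by omega, by omega, by omega⟩ ⟨by omega, by omega, by omega, by omega⟩)⟩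
      · left
        exact ⟨hx, _, M2, _, g, (rel_mk (by omega) (by omega) (by omega) (by omega) ⟨by omega, by omega, by omega, by omega⟩ ⟨by omega, by omega, by omega, by omega⟩)⟩
  · by_cases c2 : x true false = 0
    · have zz1 : x false true = 0 := by omega
      have zz2 : x true false = 0 := by omega
      have hv2 : v = mk 0 0 (u false true) (u true false) := by
        apply st_ext <;> simp only [mk1, mk2, mk3, mk4] <;> omega
      rw [hv2] at hv
      rcases hull_s34 HQ hr hv (by omega) (by omega) with g | g | g
      · right; right
        refine ⟨g, ?_⟩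
        apply st_ext <;> simp only [Bool.not_false, Bool.not_true] <;> omega
      · left
        exact ⟨hx, _, M1, _, g, (rel_mk (by omega) (by omega) (by omega) (by omega) ⟨by omega, by omega, by omega, by omega⟩ ⟨by omega, by omega, by omega, by omega⟩)⟩
      · left
        exact ⟨hx, _, M2, _, g, (rel_mk (by omega) (by omega) (by omega) (by omega) ⟨by omega, by omega, by omega, by omega⟩ ⟨by omega, by omega, by omega, by omega⟩)⟩
    · have zz1 : x false true = 0 := by omega
      have zz2 : x true true = 0 := by omega
      have hv2 : v = mk 0 (u true false) (u false true) 0 := by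
        apply st_ext <;> simp only [mk1, mk2, mk3, mk4] <;> omega
      rw [hv2] at hv
      left
      rcases hull_d23 HQ hr hv (by omega) (by omega) with g | g | g
      · exact ⟨hx, _, M1, _, g, (rel_mk (by omega) (by omega) (by omega) (by omega) ⟨by omega, by omega, by omega, by omega⟩ ⟨by omega, by omega, by omega, by omega⟩)⟩
      · exact ⟨hx, _, M2, _, g, (rel_mk (by omega) (by omega) (by omega) (by omega) ⟨by omega, by omega, by omega, by omega⟩ ⟨by omega, by omega, by omega, by omega⟩)⟩
      · exact ⟨hx, _, M3, _, g, (rel_mk (by omega) (by omega) (by omega) (by omega) ⟨by omega, by omega, by omega, by omega⟩ ⟨by omega, by omega, by omega, by omega⟩)⟩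

end

end SPK
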