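import Pool.Agent.SPK.Closure

/-! Closure of good state sets under composition, second part: exceptional states. -/

namespace SPK

section

variable {r : ℤ} {e f c : St} {P Q : Set St} {V W : St} {A1 A2 L U B1 B2 K G : ℤ}

theorem inBox_mk {n1 n2 n3 n4 : ℤ} (hs : n1 + n2 + n3 + n4 = r)
    (l1 : f false false ≤ n1) (l2 : f true false ≤ n2) (l3 : f false true ≤ n3)
    (l4 : f true true ≤ n4) (p1 : (n1 - f false false) % 2 = 0)
    (p2 : (n2 - f true false) % 2 = 0) (p3 : (n3 - f false true) % 2 = 0)
    (p4 : (n4 - f true true) % 2 = 0) (w1 : n1 ≤ W false false) (w2 : n2 ≤ W true false)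
    (w3 : n3 ≤ W false true) (w4 : n4 ≤ W true true) (a1 : B1 ≤ n2 + n4) (a2 : n2 + n4 ≤ B2)
    (b1 : K ≤ n3 + n4) (b2 : n3 + n4 ≤ G) : InBox r f W B1 B2 K G (mk n1 n2 n3 n4) := by
  refine ⟨⟨hs, ?_, ?_⟩, ?_, a1, a2, b1, b2⟩
  · intro α β
    rcases α with _ | _ <;> rcases β with _ | _ <;> assumption
  · intro α β
    rcases α with _ | _ <;> rcases β with _ | _ <;> assumption
  · intro α β
    rcases α with _ | _ <;> rcases β with _ | _ <;> assumption

/-- The facts available for a state in the box of `Q`. -/
theorem hull_slab4 (h : HullPar r f Q W B1 B2 K G) {n1 n2 n3 n4 : ℤ}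
    (hb : InBox r f W B1 B2 K G (mk n1 n2 n3 n4)) :
    SlabOK r (r - (n2 + n4)) (n2 + n4) (f false false) (f true false) (f false true)
      (f true true) (W false false) (W true false) (W false true) (W true true) K G := by
  have p2 := hb.val.par true false
  have p4 := hb.val.par true true
  simp only [mk2, mk4] at p2 p4
  exact h.slabOK (n2 + n4) hb.n1 hb.n2 (by omega)

theorem hull_d14 (h : HullPar r f Q W B1 B2 K G) (hr : r ≠ 4) {n0 n1 : ℤ}
    (hb : InBox r f W B1 B2 K G (mk n0 0 0 n1)) (h1 : f false false + 2 ≤ n0)
    (h2 : f true true + 2 ≤ n1) :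
    mk (n0 - 2) 0 2 n1 ∈ Q ∨ mk n0 2 0 (n1 - 2) ∈ Q ∨ mk (n0 - 2) 2 2 (n1 - 2) ∈ Q := by
  have S := hull_slab4 h hb
  have v1 := hb.val.le false false
  have v2 := hb.val.le true false
  have v3 := hb.val.le false true
  have v4 := hb.val.le true true
  have p1 := hb.val.par false false
  have p2 := hb.val.par true false
  have p3 := hb.val.par false true
  have p4 := hb.val.par true true
  have w1 := hb.le false false
  have w2 := hb.le true false
  have w3 := hb.le false true
  have w4 := hb.le true true
  have a1 := hb.n1
  have a2 := hb.n2
  have b1 := hb.r1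
  have b2 := hb.r2
  have hs := hb.val.sum
  have q1 := S.p1
  have q2 := S.p2
  have q3 := S.p3
  have q4 := S.p4
  have q5 := S.p5
  have q6 := S.p6
  have m1 := h.good.nn false false
  have m2 := h.good.nn true false
  have m3 := h.good.nn false true
  have m4 := h.good.nn true true
  have d1 := S.d1
  have d2 := S.d2
  have d3 := S.d3
  have d4 := S.d4
  have f1 := S.f1
  have f3 := S.f3
  have g1 := S.g1
  have g3 := S.g3
  simp only [mk1, mk2, mk3, mk4, sN, sR] at *
  by_cases c2 : 2 ≤ W true false
  · by_cases c3 : 2 ≤ W false true
    · right; right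
      exact h.mem4 (inBox_mk (by omega) (by omega) (by omega) (by omega) (by omega) (by omega) (by omega) (by omega) (by omega) (by omega) (by omega) (by omega) (by omega) (by omega) (by omega) (by omega) (by omega)) (by simp only [mk2, mk3]; omega) (by simp only [mk1, mk4]; omega)
    · right; left
      exact h.mem4 (inBox_mk (by omega) (by omega) (by omega) (by omega) (by omega) (by omega) (by omega) (by omega) (by omega) (by omega) (by omega) (by omega) (by omega) (by omega) (by omega) (by omega) (by omega)) (by simp only [mk2, mk3]; omega) (by simp only [mk1, mk4]; omega)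
  · left
    exact h.mem4 (inBox_mk (by omega) (by omega) (by omega) (by omega) (by omega) (by omega) (by omega) (by omega) (by omega) (by omega) (by omega) (by omega) (by omega) (by omega) (by omega) (by omega) (by omega)) (by simp only [mk2, mk3]; omega) (by simp only [mk1, mk4]; omega)

theorem hull_d23 (h : HullPar r f Q W B1 B2 K G) (hr : r ≠ 4) {n0 n1 : ℤ}
    (hb : InBox r f W B1 B2 K G (mk 0 n1 n0 0)) (h1 : f false true + 2 ≤ n0)
    (h2 : f true false + 2 ≤ n1) :
    mk 2 n1 (n0 - 2) 0 ∈ Q ∨ mk 0 (n1 - 2) n0 2 ∈ Q ∨ mk 2 (n1 - 2) (n0 - 2) 2 ∈ Q := by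
  have S := hull_slab4 h hb
  have v1 := hb.val.le false false
  have v2 := hb.val.le true false
  have v3 := hb.val.le false true
  have v4 := hb.val.le true true
  have p1 := hb.val.par false false
  have p2 := hb.val.par true false
  have p3 := hb.val.par false true
  have p4 := hb.val.par true true
  have w1 := hb.le false false
  have w2 := hb.le true false
  have w3 := hb.le false true
  have w4 := hb.le true true
  have a1 := hb.n1
  have a2 := hb.n2
  have b1 := hb.r1
  have b2 := hb.r2
  have hs := hb.val.sum
  have q1 := S.p1
  have q2 := S.p2
  have q3 := S.p3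
  have q4 := S.p4
  have q5 := S.p5
  have q6 := S.p6
  have m1 := h.good.nn false false
  have m2 := h.good.nn true false
  have m3 := h.good.nn false true
  have m4 := h.good.nn true true
  have d1 := S.d1
  have d2 := S.d2
  have d3 := S.d3
  have d4 := S.d4
  have f1 := S.f1
  have f3 := S.f3
  have g1 := S.g1
  have g3 := S.g3
  simp only [mk1, mk2, mk3, mk4, sN, sR] at *
  by_cases c2 : 2 ≤ W true true
  · by_cases c3 : 2 ≤ W false false
    · right; right
      exact h.mem4 (inBox_mk (by omega) (by omega) (by omega) (by omega) (by omega) (by omega) (by omega) (by omega) (by omega) (by omega) (by omega) (by omega) (by omega) (by omega) (by omega) (by omega) (by omega)) (by simp only [mk2, mk3]; omega) (by simp only [mk1, mk4]; omega)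
    · right; left
      exact h.mem4 (inBox_mk (by omega) (by omega) (by omega) (by omega) (by omega) (by omega) (by omega) (by omega) (by omega) (by omega) (by omega) (by omega) (by omega) (by omega) (by omega) (by omega) (by omega)) (by simp only [mk2, mk3]; omega) (by simp only [mk1, mk4]; omega)
  · left
    exact h.mem4 (inBox_mk (by omega) (by omega) (by omega) (by omega) (by omega) (by omega) (by omega) (by omega) (by omega) (by omega) (by omega) (by omega) (by omega) (by omega) (by omega) (by omega) (by omega)) (by simp only [mk2, mk3]; omega) (by simp only [mk1, mk4]; omega)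

theorem hull_s12 (h : HullPar r f Q W B1 B2 K G) (hr : r ≠ 4) {n0 n1 : ℤ}
    (hb : InBox r f W B1 B2 K G (mk n0 n1 0 0)) (h1 : f false false + 2 ≤ n0)
    (h2 : f true false + 2 ≤ n1) :
    G = 0 ∨ mk (n0 - 2) n1 2 0 ∈ Q ∨ mk n0 (n1 - 2) 0 2 ∈ Q := by
  have S := hull_slab4 h hb
  have v1 := hb.val.le false false
  have v2 := hb.val.le true false
  have v3 := hb.val.le false true
  have v4 := hb.val.le true true
  have p1 := hb.val.par false false
  have p2 := hb.val.par true false
  have p3 := hb.val.par false true
  have p4 := hb.val.par true true
  have w1 := hb.le false false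
  have w2 := hb.le true false
  have w3 := hb.le false true
  have w4 := hb.le true true
  have a1 := hb.n1
  have a2 := hb.n2
  have b1 := hb.r1
  have b2 := hb.r2
  have hs := hb.val.sum
  have q1 := S.p1
  have q2 := S.p2
  have q3 := S.p3
  have q4 := S.p4
  have q5 := S.p5
  have q6 := S.p6
  have m1 := h.good.nn false false
  have m2 := h.good.nn true false
  have m3 := h.good.nn false true
  have m4 := h.good.nn true true
  have d1 := S.d1
  have d2 := S.d2
  have d3 := S.d3
  have d4 := S.d4
  have f1 := S.f1
  have f3 := S.f3
  have g1 := S.g1
  have g3 := S.g3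
  simp only [mk1, mk2, mk3, mk4, sN, sR] at *
  by_cases c0 : G = 0
  · exact Or.inl c0
  right
  by_cases c3 : 2 ≤ W false true
  · by_cases c4 : 2 ≤ W true true
    · by_cases c5 : n0 = 2
      · right
        exact h.mem4 (inBox_mk (by omega) (by omega) (by omega) (by omega) (by omega) (by omega) (by omega) (by omega) (by omega) (by omega) (by omega) (by omega) (by omega) (by omega) (by omega) (by omega) (by omega)) (by simp only [mk2, mk3]; omega) (by simp only [mk1, mk4]; omega)
      · left
        exact h.mem4 (inBox_mk (by omega) (by omega) (by omega) (by omega) (by omega) (by omega) (by omega) (by omega) (by omega) (by omega) (by omega) (by omega) (by omega) (by omega) (by omega) (by omega) (by omega)) (by simp only [mk2, mk3]; omega) (by simp only [mk1, mk4]; omega)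
    · left
      have hbox : InBox r f W B1 B2 K G (mk (n0 - 2) n1 2 0) := (inBox_mk (by omega) (by omega) (by omega) (by omega) (by omega) (by omega) (by omega) (by omega) (by omega) (by omega) (by omega) (by omega) (by omega) (by omega) (by omega) (by omega) (by omega))
      rcases h.mem' hbox with h3 | ⟨s, hz, hn⟩
      · exact h3
      · exfalso
        rcases s with _ | _
        · have h4 := (hn false true rfl).2.1
          have h5 := h.memV _ h4 true true
          simp [mvA] at h5
          omega
        · have h4 := hz true false rfl
          simp only [mk2] at h4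
          omega
  · right
    have hbox : InBox r f W B1 B2 K G (mk n0 (n1 - 2) 0 2) := (inBox_mk (by omega) (by omega) (by omega) (by omega) (by omega) (by omega) (by omega) (by omega) (by omega) (by omega) (by omega) (by omega) (by omega) (by omega) (by omega) (by omega) (by omega))
    rcases h.mem' hbox with h3 | ⟨s, hz, hn⟩
    · exact h3
    · exfalso
      rcases s with _ | _
      · have h4 := hz false false rfl
        simp only [mk1] at h4
        omega
      · have h4 := (hn true true rfl).2.1
        have h5 := h.memV _ h4 false true
        simp [mvA] at h5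
        omega

theorem hull_s34 (h : HullPar r f Q W B1 B2 K G) (hr : r ≠ 4) {n0 n1 : ℤ}
    (hb : InBox r f W B1 B2 K G (mk 0 0 n0 n1)) (h1 : f false true + 2 ≤ n0)
    (h2 : f true true + 2 ≤ n1) :
    K = r ∨ mk 2 0 (n0 - 2) n1 ∈ Q ∨ mk 0 2 n0 (n1 - 2) ∈ Q := by
  have S := hull_slab4 h hb
  have v1 := hb.val.le false false
  have v2 := hb.val.le true false
  have v3 := hb.val.le false true
  have v4 := hb.val.le true true
  have p1 := hb.val.par false false
  have p2 := hb.val.par true false
  have p3 := hb.val.par false true
  have p4 := hb.val.par true true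
  have w1 := hb.le false false
  have w2 := hb.le true false
  have w3 := hb.le false true
  have w4 := hb.le true true
  have a1 := hb.n1
  have a2 := hb.n2
  have b1 := hb.r1
  have b2 := hb.r2
  have hs := hb.val.sum
  have q1 := S.p1
  have q2 := S.p2
  have q3 := S.p3
  have q4 := S.p4
  have q5 := S.p5
  have q6 := S.p6
  have m1 := h.good.nn false false
  have m2 := h.good.nn true false
  have m3 := h.good.nn false true
  have m4 := h.good.nn true true
  have d1 := S.d1
  have d2 := S.d2
  have d3 := S.d3
  have d4 := S.d4
  have f1 := S.f1
  have f3 := S.f3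
  have g1 := S.g1
  have g3 := S.g3
  simp only [mk1, mk2, mk3, mk4, sN, sR] at *
  by_cases c0 : K = r
  · exact Or.inl c0
  right
  by_cases c3 : 2 ≤ W false false
  · by_cases c4 : 2 ≤ W true false
    · by_cases c5 : n0 = 2
      · right
        exact h.mem4 (inBox_mk (by omega) (by omega) (by omega) (by omega) (by omega) (by omega) (by omega) (by omega) (by omega) (by omega) (by omega) (by omega) (by omega) (by omega) (by omega) (by omega) (by omega)) (by simp only [mk2, mk3]; omega) (by simp only [mk1, mk4]; omega)
      · left
        exact h.mem4 (inBox_mk (by omega) (by omega) (by omega) (by omega) (by omega) (by omega) (by omega) (by omega) (by omega) (by omega) (by omega) (by omega) (by omega) (by omega) (by omega) (by omega) (by omega)) (by simp only [mk2, mk3]; omega) (by simp only [mk1, mk4]; omega)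
    · left
      have hbox : InBox r f W B1 B2 K G (mk 2 0 (n0 - 2) n1) := (inBox_mk (by omega) (by omega) (by omega) (by omega) (by omega) (by omega) (by omega) (by omega) (by omega) (by omega) (by omega) (by omega) (by omega) (by omega) (by omega) (by omega) (by omega))
      rcases h.mem' hbox with h3 | ⟨s, hz, hn⟩
      · exact h3
      · exfalso
        rcases s with _ | _
        · have h4 := hz true true rfl
          simp only [mk4] at h4
          omega
        · have h4 := (hn false false rfl).2.1
          have h5 := h.memV _ h4 true false
          simp [mvA] at h5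
          omega
  · right
    have hbox : InBox r f W B1 B2 K G (mk 0 2 n0 (n1 - 2)) := (inBox_mk (by omega) (by omega) (by omega) (by omega) (by omega) (by omega) (by omega) (by omega) (by omega) (by omega) (by omega) (by omega) (by omega) (by omega) (by omega) (by omega) (by omega))
    rcases h.mem' hbox with h3 | ⟨s, hz, hn⟩
    · exact h3
    · exfalso
      rcases s with _ | _
      · have h4 := (hn true false rfl).2.1
        have h5 := h.memV _ h4 false false
        simp [mvA] at h5
        omega
      · have h4 := hz false true rfl
        simp only [mk3] at h4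
        omega

end

end SPK
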