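import Pool.Agent.SPK.Built

/-! Completion of a metric on signed points to one with all antipodal sums equal. -/

namespace SPK

open Finset

/-- The antipode of a signed point. -/
def bar {V : Type*} (p : V × Bool) : V × Bool := (p.1, !p.2)

@[simp] theorem bar_bar {V : Type*} (p : V × Bool) : bar (bar p) = p := by
  simp [bar]

structure Good {V : Type*} (r : ℕ) (π : V × Bool → Bool) (d : V × Bool → V × Bool → ℕ) :
    Prop where
  self : ∀ p, d p p = 0
  symm : ∀ p q, d p q = d q p
  anti : ∀ p q, d (bar p) (bar q) = d p q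
  tri : ∀ p q s, d p q ≤ d p s + d s q
  par : ∀ p q, d p q % 2 = if (π p ^^ π q) then 1 else 0
  len : ∀ p, r ≤ d p (bar p)

theorem modify {V : Type*} {r : ℕ} {π : V × Bool → Bool} {d : V × Bool → V × Bool → ℕ}
    (hd : Good r π d) (P Q : V × Bool) (l : ℕ) (hPQ : d P Q = l + 2)
    (heq : d P (bar P) = d Q (bar Q)) (hlen : r ≤ l + d Q (bar P)) :
    ∃ d' : V × Bool → V × Bool → ℕ, Good r π d' ∧ (∀ p q, d' p q ≤ d p q) ∧ d' P Q < d P Q := by
  classical
  let Dir : V × Bool → V × Bool → Prop := fun A B =>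
    (A = P ∧ B = Q) ∨ (A = Q ∧ B = P) ∨ (A = bar P ∧ B = bar Q) ∨ (A = bar Q ∧ B = bar P)
  have Dsymm : ∀ A B, Dir A B → Dir B A := by
    rintro A B (⟨h1, h2⟩ | ⟨h1, h2⟩ | ⟨h1, h2⟩ | ⟨h1, h2⟩)
    · exact Or.inr (Or.inl ⟨h2, h1⟩)
    · exact Or.inl ⟨h2, h1⟩
    · exact Or.inr (Or.inr (Or.inr ⟨h2, h1⟩))
    · exact Or.inr (Or.inr (Or.inl ⟨h2, h1⟩))
  have Dbar : ∀ A B, Dir A B → Dir (bar A) (bar B) := by
    rintro A B (⟨h1, h2⟩ | ⟨h1, h2⟩ | ⟨h1, h2⟩ | ⟨h1, h2⟩)
    · exact Or.inr (Or.inr (Or.inl ⟨by rw [h1], by rw [h2]⟩))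
    · exact Or.inr (Or.inr (Or.inr ⟨by rw [h1], by rw [h2]⟩))
    · exact Or.inl ⟨by rw [h1, bar_bar], by rw [h2, bar_bar]⟩
    · exact Or.inr (Or.inl ⟨by rw [h1, bar_bar], by rw [h2, bar_bar]⟩)
  have an : ∀ A B, d A (bar B) = d (bar A) B := by
    intro A B
    have := hd.anti A (bar B)
    rw [bar_bar] at this
    exact this.symm
  have DAB : ∀ A B, Dir A B → d A B = l + 2 := by
    rintro A B (⟨h1, h2⟩ | ⟨h1, h2⟩ | ⟨h1, h2⟩ | ⟨h1, h2⟩)
    · rw [h1, h2, hPQ]
    · rw [h1, h2, hd.symm, hPQ]
    · rw [h1, h2, hd.anti, hPQ]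
    · rw [h1, h2, hd.anti, hd.symm, hPQ]
  have sb : ∀ A, d (bar A) (bar (bar A)) = d A (bar A) := fun A => hd.anti A (bar A)
  have DAA : ∀ A B, Dir A B → d A (bar A) = d B (bar B) := by
    rintro A B (⟨h1, h2⟩ | ⟨h1, h2⟩ | ⟨h1, h2⟩ | ⟨h1, h2⟩)
    · rw [h1, h2, heq]
    · rw [h1, h2, heq]
    · rw [h1, h2, sb, sb, heq]
    · rw [h1, h2, sb, sb, heq]
  have hlen' : r ≤ l + d P (bar Q) := by
    rw [an P Q, hd.symm]; exact hlen
  have DBA : ∀ A B, Dir A B → r ≤ l + d B (bar A) := by
    rintro A B (⟨h1, h2⟩ | ⟨h1, h2⟩ | ⟨h1, h2⟩ | ⟨h1, h2⟩)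
    · rw [h1, h2]; exact hlen
    · rw [h1, h2]; exact hlen'
    · rw [h1, h2, hd.anti]; exact hlen
    · rw [h1, h2, hd.anti]; exact hlen'
  let d' : V × Bool → V × Bool → ℕ := fun x y =>
    min (d x y) (min (min (d x P + l + d Q y) (d x Q + l + d P y))
      (min (d x (bar P) + l + d (bar Q) y) (d x (bar Q) + l + d (bar P) y)))
  have c1 : ∀ x y, d' x y ≤ d x y := fun x y => min_le_left _ _
  have c2 : ∀ x y A B, Dir A B → d' x y ≤ d x A + l + d B y := by
    rintro x y A B (⟨h1, h2⟩ | ⟨h1, h2⟩ | ⟨h1, h2⟩ | ⟨h1, h2⟩)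
    · rw [h1, h2]
      exact le_trans (min_le_right _ _) (le_trans (min_le_left _ _) (min_le_left _ _))
    · rw [h1, h2]
      exact le_trans (min_le_right _ _) (le_trans (min_le_left _ _) (min_le_right _ _))
    · rw [h1, h2]
      exact le_trans (min_le_right _ _) (le_trans (min_le_right _ _) (min_le_left _ _))
    · rw [h1, h2]
      exact le_trans (min_le_right _ _) (le_trans (min_le_right _ _) (min_le_right _ _))
  have c3 : ∀ x y, d' x y = d x y ∨ ∃ A B, Dir A B ∧ d' x y = d x A + l + d B y := by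
    intro x y
    rcases min_choice (d x y) (min (min (d x P + l + d Q y) (d x Q + l + d P y))
      (min (d x (bar P) + l + d (bar Q) y) (d x (bar Q) + l + d (bar P) y))) with h | h
    · exact Or.inl h
    right
    rcases min_choice (min (d x P + l + d Q y) (d x Q + l + d P y))
      (min (d x (bar P) + l + d (bar Q) y) (d x (bar Q) + l + d (bar P) y)) with h' | h'
    · rcases min_choice (d x P + l + d Q y) (d x Q + l + d P y) with h'' | h''
      · exact ⟨P, Q, Or.inl ⟨rfl, rfl⟩, h.trans (h'.trans h'')⟩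
      · exact ⟨Q, P, Or.inr (Or.inl ⟨rfl, rfl⟩), h.trans (h'.trans h'')⟩
    · rcases min_choice (d x (bar P) + l + d (bar Q) y) (d x (bar Q) + l + d (bar P) y)
        with h'' | h''
      · exact ⟨bar P, bar Q, Or.inr (Or.inr (Or.inl ⟨rfl, rfl⟩)), h.trans (h'.trans h'')⟩
      · exact ⟨bar Q, bar P, Or.inr (Or.inr (Or.inr ⟨rfl, rfl⟩)), h.trans (h'.trans h'')⟩
  have hsymm : ∀ x y, d' x y ≤ d' y x := by
    intro x y
    rcases c3 y x with h | ⟨A, B, hAB, h⟩
    · rw [h, hd.symm]; exact c1 x y
    · rw [h]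
      have := c2 x y B A (Dsymm A B hAB)
      rw [hd.symm x B, hd.symm A y] at this
      omega
  have hanti : ∀ x y, d' (bar x) (bar y) ≤ d' x y := by
    intro x y
    rcases c3 x y with h | ⟨A, B, hAB, h⟩
    · rw [h, ← hd.anti x y]; exact c1 _ _
    · rw [h, ← hd.anti x A, ← hd.anti B y]
      exact c2 _ _ _ _ (Dbar A B hAB)
  refine ⟨d', ⟨?_, ?_, ?_, ?_, ?_, ?_⟩, c1, ?_⟩
  · intro p
    have := c1 p p
    rw [hd.self] at this
    omega
  · intro p q
    exact le_antisymm (hsymm p q) (hsymm q p)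
  · intro p q
    refine le_antisymm (hanti p q) ?_
    have := hanti (bar p) (bar q)
    rwa [bar_bar, bar_bar] at this
  · intro x z y
    rcases c3 x y with h | ⟨A, B, hAB, h⟩
    · rcases c3 y z with h' | ⟨C, D, hCD, h'⟩
      · have h1 := c1 x z
        have h2 := hd.tri x z y
        omega
      · have h1 := c2 x z C D hCD
        have h2 := hd.tri x C y
        omega
    · rcases c3 y z with h' | ⟨C, D, hCD, h'⟩
      · have h1 := c2 x z A B hAB
        have h2 := hd.tri B z y
        omega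
      · rw [h, h']
        have hBC := hd.tri B C y
        -- the four kinds of pairs
        have kinds : (C = A ∧ D = B) ∨ (C = B ∧ D = A) ∨ (C = bar A ∧ D = bar B) ∨
            (C = bar B ∧ D = bar A) := by
          rcases hAB with ⟨h1, h2⟩ | ⟨h1, h2⟩ | ⟨h1, h2⟩ | ⟨h1, h2⟩ <;>
            rcases hCD with ⟨h3, h4⟩ | ⟨h3, h4⟩ | ⟨h3, h4⟩ | ⟨h3, h4⟩ <;>
            subst h1 <;> subst h2 <;> subst h3 <;> subst h4 <;> simp
        rcases kinds with ⟨e1, e2⟩ | ⟨e1, e2⟩ | ⟨e1, e2⟩ | ⟨e1, e2⟩
        · rw [e2]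
          have h1 := c2 x z A B hAB
          omega
        · rw [e1] at hBC ⊢
          rw [e2]
          have h1 := c1 x z
          have h2 := hd.tri x z A
          omega
        · rw [e1] at hBC ⊢
          rw [e2]
          have h1 := c1 x z
          have h2 := hd.tri x z A
          have h3 := hd.tri A z (bar B)
          have h4 := an A B
          have h5 := hd.symm (bar A) B
          omega
        · rw [e1] at hBC ⊢
          rw [e2]
          have h1 := c1 x z
          have h2 := hd.tri x z A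
          have h3 := hd.tri A z (bar A)
          have h4 := DAA A B hAB
          omega
  · intro x y
    rcases c3 x y with h | ⟨A, B, hAB, h⟩
    · rw [h]; exact hd.par x y
    · rw [h]
      have h1 := hd.par x A
      have h2 := hd.par B y
      have h3 := hd.par A B
      rw [DAB A B hAB] at h3
      revert h1 h2 h3
      rcases π x with _ | _ <;> rcases π y with _ | _ <;> rcases π A with _ | _ <;>
        rcases π B with _ | _ <;> simp <;> omega
  · intro x
    rcases c3 x (bar x) with h | ⟨A, B, hAB, h⟩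
    · rw [h]; exact hd.len x
    · rw [h]
      have h1 := DBA A B hAB
      have h2 := hd.tri B (bar A) (bar x)
      have h3 : d (bar x) (bar A) = d x A := hd.anti x A
      omega
  · have := c2 P Q P Q (Or.inl ⟨rfl, rfl⟩)
    rw [hd.self, hd.self] at this
    omega

theorem complete {V : Type*} [Fintype V] [DecidableEq V] {r : ℕ} (hr : 1 ≤ r)
    {π : V × Bool → Bool} (hπ : ∀ p, π (bar p) = (π p ^^ decide (r % 2 = 1))) :
    ∀ (N : ℕ) (d : V × Bool → V × Bool → ℕ), Good r π d → (∑ p, ∑ q, d p q) = N →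
      ∃ d', Good r π d' ∧ (∀ p q, d' p q ≤ d p q) ∧ ∀ p q, d' p q + d' q (bar p) = r := by
  classical
  intro N
  induction N using Nat.strong_induction_on with
  | _ N ih =>
    intro d hd hN
    -- recursion step
    have rec1 : ∀ P Q l, d P Q = l + 2 → d P (bar P) = d Q (bar Q) → r ≤ l + d Q (bar P) →
        ∃ d', Good r π d' ∧ (∀ p q, d' p q ≤ d p q) ∧ ∀ p q, d' p q + d' q (bar p) = r := by
      intro P Q l h1 h2 h3
      obtain ⟨d1, hd1, hle, hlt⟩ := modify hd P Q l h1 h2 h3
      have hsum : (∑ p, ∑ q, d1 p q) < N := by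
        rw [← hN]
        apply Finset.sum_lt_sum
        · intro p _
          exact Finset.sum_le_sum (fun q _ => hle p q)
        · refine ⟨P, Finset.mem_univ _, ?_⟩
          apply Finset.sum_lt_sum
          · intro q _; exact hle P q
          · exact ⟨Q, Finset.mem_univ _, hlt⟩
      obtain ⟨d2, hd2, hle2, h⟩ := ih _ hsum d1 hd1 rfl
      exact ⟨d2, hd2, fun p q => le_trans (hle2 p q) (hle p q), h⟩
    have parbar : ∀ p, d p (bar p) % 2 = r % 2 := by
      intro p
      rw [hd.par, hπ]
      rcases π p with _ | _ <;> by_cases h : r % 2 = 1 <;> simp [h] <;> omega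
    by_cases hA : ∃ p, d p (bar p) ≠ r
    · obtain ⟨p, hp⟩ := hA
      have h1 := hd.len p
      have h2 := parbar p
      obtain ⟨l, hl⟩ : ∃ l, d p (bar p) = l + 2 := ⟨d p (bar p) - 2, by omega⟩
      refine rec1 p (bar p) l hl ?_ ?_
      · rw [hd.anti p (bar p)]
      · rw [hd.self]; omega
    push Not at hA
    by_cases hB : ∃ p q, d p q + d q (bar p) ≠ r
    · obtain ⟨p, q, hpq⟩ := hB
      have h1 := hd.tri p (bar p) q
      rw [hA] at h1
      have h2 : (d p q + d q (bar p)) % 2 = r % 2 := by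
        rw [← parbar p]
        have e1 := hd.par p q
        have e2 := hd.par q (bar p)
        have e3 := hd.par p (bar p)
        revert e1 e2 e3
        rcases π p with _ | _ <;> rcases π q with _ | _ <;> rcases π (bar p) with _ | _ <;>
          simp <;> omega
      by_cases h3 : 2 ≤ d p q
      · obtain ⟨l, hl⟩ : ∃ l, d p q = l + 2 := ⟨d p q - 2, by omega⟩
        exact rec1 p q l hl (by rw [hA, hA]) (by omega)
      · obtain ⟨l, hl⟩ : ∃ l, d q (bar p) = l + 2 := ⟨d q (bar p) - 2, by omega⟩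
        refine rec1 q (bar p) l hl (by rw [hA, hA]) ?_
        rw [hd.anti]
        omega
    · push Not at hB
      exact ⟨d, hd, fun _ _ => le_rfl, hB⟩

/-- From a completed metric to an antipodal metric on the points. -/
theorem complete_rmetric {V : Type*} {r : ℕ} {π : V × Bool → Bool}
    {d : V × Bool → V × Bool → ℕ} (hd : Good r π d)
    (hs : ∀ p q, d p q + d q (bar p) = r) :
    ∃ a : V → V → ℤ, RMetric r a ∧
      ∀ x y i j, (d (x, i) (y, j) : ℤ) = stz (i == j) (a x y) r := by
  let a : V → V → ℤ := fun x y => (d (x, false) (y, false) : ℤ)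
  have key : ∀ x y i j, (d (x, i) (y, j) : ℤ) = stz (i == j) (a x y) r := by
    intro x y i j
    have h1 : d (x, true) (y, true) = d (x, false) (y, false) := hd.anti (x, false) (y, false)
    have h2 : d (x, false) (y, false) + d (y, false) (x, true) = r := hs (x, false) (y, false)
    have h3 : d (x, false) (y, true) = d (x, true) (y, false) := hd.anti (x, true) (y, false)
    have h4 := hd.symm (y, false) (x, true)
    rcases i with _ | _ <;> rcases j with _ | _
    · simp [a]
    · simp only [a]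
      have : ((false : Bool) == true) = false := rfl
      rw [this, stz_false]
      omega
    · simp only [a]
      have : ((true : Bool) == false) = false := rfl
      rw [this, stz_false]
      omega
    · simp only [a]
      have : ((true : Bool) == true) = true := rfl
      rw [this, stz_true, h1]
  refine ⟨a, ⟨?_, ?_, ?_, ?_⟩, key⟩
  · intro x; simp [a, hd.self]
  · intro x y; simp only [a, hd.symm (x, false) (y, false)]
  · intro x y z i j
    have h1 := hd.tri (y, !i) (z, !j) (x, false)
    have h2 := key y z (!i) (!j)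
    have h3 := key x y false (!i)
    have h4 := key x z false (!j)
    rw [hd.symm (y, !i) (x, false)] at h1
    have e1 : ((!i) == (!j)) = (i == j) := by rcases i with _ | _ <;> rcases j with _ | _ <;> rfl
    have e2 : (false == (!i)) = i := by rcases i with _ | _ <;> rfl
    have e3 : (false == (!j)) = j := by rcases j with _ | _ <;> rfl
    rw [e1] at h2
    rw [e2] at h3
    rw [e3] at h4
    omega
  · intro x y z
    have h1 := hd.par (x, false) (y, false)
    have h2 := hd.par (x, false) (z, false)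
    have h3 := hd.par (y, false) (z, false)
    simp only [a]
    revert h1 h2 h3
    rcases π (x, false) with _ | _ <;> rcases π (y, false) with _ | _ <;>
      rcases π (z, false) with _ | _ <;> simp <;> omega

end SPK
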