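import Pool.Agent.SPK.State

/-! Composition of state sets and the Kempe property. -/

namespace SPK

/-- `x` can be composed from `u` and `v`. -/
structure Rel (u v x : St) : Prop where
  s : ∀ α, u α false + u α true = x α false + x α true
  t : ∀ α, v α false + v α true = x α false + x α true
  h : ∀ α, Comp (u α false) (u α true) (v α false) (v α true) (x α false) (x α true)

def comp (r : ℤ) (c : St) (P Q : Set St) : Set St :=
  {x | Valid r c x ∧ ∃ u ∈ P, ∃ v ∈ Q, Rel u v x}

structure TriSt (e f c : St) : Prop where
  t1 : ∀ α, Tri3 (e α false) (f α false) (c α true)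
  t2 : ∀ α, Tri3 (e α false) (f α true) (c α false)
  t3 : ∀ α, Tri3 (e α true) (f α false) (c α false)
  t4 : ∀ α, Tri3 (e α true) (f α true) (c α true)

theorem Valid.mvA {r : ℤ} {c x : St} (h : Valid r c x) {a b : Bool} (h2 : c a b + 2 ≤ x a b) :
    Valid r c (mvA x a b) := by
  have h0 := h.sum
  refine ⟨?_, ?_, ?_⟩
  · rcases a with _ | _ <;> rcases b with _ | _ <;> simp [SPK.mvA] <;> omega
  · intro α β
    have h1 := h.le α β
    rcases a with _ | _ <;> rcases b with _ | _ <;> rcases α with _ | _ <;>
      rcases β with _ | _ <;> simp [SPK.mvA] <;> omega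
  · intro α β
    have h1 := h.par α β
    rcases a with _ | _ <;> rcases b with _ | _ <;> rcases α with _ | _ <;>
      rcases β with _ | _ <;> simp [SPK.mvA] <;> omega

theorem Valid.mvB {r : ℤ} {c x : St} (h : Valid r c x) {a b : Bool} (h2 : c a b + 2 ≤ x a b) :
    Valid r c (mvB x a b) := by
  have h0 := h.sum
  refine ⟨?_, ?_, ?_⟩
  · rcases a with _ | _ <;> rcases b with _ | _ <;> simp [SPK.mvB] <;> omega
  · intro α β
    have h1 := h.le α β
    rcases a with _ | _ <;> rcases b with _ | _ <;> rcases α with _ | _ <;>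
      rcases β with _ | _ <;> simp [SPK.mvB] <;> omega
  · intro α β
    have h1 := h.par α β
    rcases a with _ | _ <;> rcases b with _ | _ <;> rcases α with _ | _ <;>
      rcases β with _ | _ <;> simp [SPK.mvB] <;> omega

section

variable {r : ℤ} {e f c : St} {P Q : Set St}

theorem kstep (hP : GoodSet r e P) (hQ : GoodSet r f Q) (ht : TriSt e f c) (hc : ∀ α β, 0 ≤ c α β)
    {u v x : St} (hx : Valid r c x) (hu : u ∈ P) (hv : v ∈ Q) (h : Rel u v x) (a g d : Bool)
    (h2 : c a (g ^^ d) + 2 ≤ x a (g ^^ d)) (h3 : x a (!(g ^^ d)) = u a (!g) + v a (!d)) :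
    mvA x a (g ^^ d) ∈ comp r c P Q ∨ mvB x a (g ^^ d) ∈ comp r c P Q := by
  have hs := h.s
  have htt := h.t
  have s0 := hs false
  have s1 := hs true
  have t0 := htt false
  have t1 := htt true
  obtain ⟨h11, h12, h13, h14⟩ := h.h false
  obtain ⟨h21, h22, h23, h24⟩ := h.h true
  have c1 := hc a false
  have c2 := hc a true
  have ku : e a g + 2 ≤ u a g := by
    have k1 := (ht.t1 a)
    have k2 := (ht.t2 a)
    have k3 := (ht.t3 a)
    have k4 := (ht.t4 a)
    have l1 := (hQ.val v hv).le a false
    have l2 := (hQ.val v hv).le a true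
    rcases a with _ | _ <;> rcases g with _ | _ <;> rcases d with _ | _ <;>
      simp at h2 h3 ⊢ <;> obtain ⟨k11, k12, k13, -⟩ := k1 <;> obtain ⟨k21, k22, k23, -⟩ := k2 <;>
      obtain ⟨k31, k32, k33, -⟩ := k3 <;> obtain ⟨k41, k42, k43, -⟩ := k4 <;> linarith
  have kv : f a d + 2 ≤ v a d := by
    have k1 := (ht.t1 a)
    have k2 := (ht.t2 a)
    have k3 := (ht.t3 a)
    have k4 := (ht.t4 a)
    have l1 := (hP.val u hu).le a false
    have l2 := (hP.val u hu).le a true
    rcases a with _ | _ <;> rcases g with _ | _ <;> rcases d with _ | _ <;>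
      simp at h2 h3 ⊢ <;> obtain ⟨k11, k12, k13, -⟩ := k1 <;> obtain ⟨k21, k22, k23, -⟩ := k2 <;>
      obtain ⟨k31, k32, k33, -⟩ := k3 <;> obtain ⟨k41, k42, k43, -⟩ := k4 <;> linarith
  rcases hP.kem u hu a g ku with h4 | h4
  · rcases hQ.kem v hv a d kv with h5 | h5
    · left
      refine ⟨hx.mvA h2, _, h4, _, h5, ?_, ?_, ?_⟩
      · intro α
        rcases a with _ | _ <;> rcases g with _ | _ <;> rcases d with _ | _ <;>
          rcases α with _ | _ <;> simp [mvA] <;> omega
      · intro α
        rcases a with _ | _ <;> rcases g with _ | _ <;> rcases d with _ | _ <;>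
          rcases α with _ | _ <;> simp [mvA] <;> omega
      · intro α
        rcases a with _ | _ <;> rcases g with _ | _ <;> rcases d with _ | _ <;>
          rcases α with _ | _ <;> simp at h2 h3 <;> constructor <;> simp [mvA] <;> omega
    · right
      refine ⟨hx.mvB h2, _, hu, _, h5, ?_, ?_, ?_⟩
      · intro α
        rcases a with _ | _ <;> rcases g with _ | _ <;> rcases d with _ | _ <;>
          rcases α with _ | _ <;> simp [mvB] <;> omega
      · intro α
        rcases a with _ | _ <;> rcases g with _ | _ <;> rcases d with _ | _ <;>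
          rcases α with _ | _ <;> simp [mvB] <;> omega
      · intro α
        rcases a with _ | _ <;> rcases g with _ | _ <;> rcases d with _ | _ <;>
          rcases α with _ | _ <;> simp at h2 h3 <;> constructor <;> simp [mvB] <;> omega
  · right
    refine ⟨hx.mvB h2, _, h4, _, hv, ?_, ?_, ?_⟩
    · intro α
      rcases a with _ | _ <;> rcases g with _ | _ <;> rcases d with _ | _ <;>
        rcases α with _ | _ <;> simp [mvB] <;> omega
    · intro α
      rcases a with _ | _ <;> rcases g with _ | _ <;> rcases d with _ | _ <;>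
        rcases α with _ | _ <;> simp [mvB] <;> omega
    · intro α
      rcases a with _ | _ <;> rcases g with _ | _ <;> rcases d with _ | _ <;>
        rcases α with _ | _ <;> simp at h2 h3 <;> constructor <;> simp [mvB] <;> omega

theorem comp_kem (hP : GoodSet r e P) (hQ : GoodSet r f Q) (ht : TriSt e f c)
    (hc : ∀ α β, 0 ≤ c α β) (x : St) (hx : x ∈ comp r c P Q) (a b : Bool)
    (h2 : c a b + 2 ≤ x a b) : mvA x a b ∈ comp r c P Q ∨ mvB x a b ∈ comp r c P Q := by
  obtain ⟨vx, u, hu, v, hv, h⟩ := hx
  have pu := (hP.val u hu).par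
  have pv := (hQ.val v hv).par
  have px := vx.par
  obtain ⟨-, -, -, k14⟩ := ht.t1 a
  obtain ⟨-, -, -, k24⟩ := ht.t2 a
  obtain ⟨-, -, -, k34⟩ := ht.t3 a
  obtain ⟨-, -, -, k44⟩ := ht.t4 a
  have u1 := pu a false
  have u3 := pu a true
  have v1 := pv a false
  have v3 := pv a true
  have x1 := px a false
  have x3 := px a true
  obtain ⟨h11, h12, h13, h14⟩ := h.h a
  -- the two ways in which the move of `x` can be blocked
  have blocked : ∀ g d : Bool, (g ^^ d) = b → x a (!b) + 2 ≤ u a (!g) + v a (!d) ∨
      (mvA x a b ∈ comp r c P Q ∨ mvB x a b ∈ comp r c P Q) := by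
    intro g d hb
    by_cases hcase : x a (!b) + 2 ≤ u a (!g) + v a (!d)
    · exact Or.inl hcase
    · right
      subst hb
      refine kstep hP hQ ht hc vx hu hv h a g d h2 ?_
      rcases g with _ | _ <;> rcases d with _ | _ <;> simp at hcase ⊢ <;> omega
  rcases b with _ | _
  · rcases blocked false false rfl with b1 | b1
    · rcases blocked true true rfl with b2 | b2
      · right
        refine ⟨vx.mvB h2, u, hu, v, hv, ?_, ?_, ?_⟩
        · intro α
          have := h.s α
          rcases a with _ | _ <;> rcases α with _ | _ <;> simp [mvB] <;> omega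
        · intro α
          have := h.t α
          rcases a with _ | _ <;> rcases α with _ | _ <;> simp [mvB] <;> omega
        · intro α
          obtain ⟨g1, g2, g3, g4⟩ := h.h α
          simp only [Bool.not_false, Bool.not_true] at b1 b2
          rcases a with _ | _ <;> rcases α with _ | _ <;> constructor <;> simp [mvB] <;> omega
      · exact b2
    · exact b1
  · rcases blocked true false rfl with b1 | b1
    · rcases blocked false true rfl with b2 | b2
      · right
        refine ⟨vx.mvB h2, u, hu, v, hv, ?_, ?_, ?_⟩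
        · intro α
          have := h.s α
          rcases a with _ | _ <;> rcases α with _ | _ <;> simp [mvB] <;> omega
        · intro α
          have := h.t α
          rcases a with _ | _ <;> rcases α with _ | _ <;> simp [mvB] <;> omega
        · intro α
          obtain ⟨g1, g2, g3, g4⟩ := h.h α
          simp only [Bool.not_false, Bool.not_true] at b1 b2
          rcases a with _ | _ <;> rcases α with _ | _ <;> constructor <;> simp [mvB] <;> omega
      · exact b2
    · exact b1

end

end SPK
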