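import Mathlib

/-! Signed graphs: cycles, the classes C10 and C11, negative girth, switching, packings. -/

namespace SPK

open Finset

/-- A signed graph without loops, parallel edges allowed; `neg e` says that `e` is negative. -/
structure SignedGraph (V E : Type*) where
  src : E → V
  dst : E → V
  noloop : ∀ e, src e ≠ dst e
  neg : E → Bool

variable {V E : Type*}

/-- The edge `e` joins `x` and `y`. -/
def SignedGraph.Joins (G : SignedGraph V E) (e : E) (x y : V) : Prop :=
  (G.src e = x ∧ G.dst e = y) ∨ (G.src e = y ∧ G.dst e = x)

/-- `v 0, e 0, v 1, e 1, ..., v k = v 0` is a cycle of length `k`. -/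
def SignedGraph.IsCycle (G : SignedGraph V E) (k : ℕ) (v : ℕ → V) (e : ℕ → E) : Prop :=
  2 ≤ k ∧ v k = v 0 ∧ (∀ i < k, G.Joins (e i) (v i) (v (i + 1))) ∧
    (∀ i < k, ∀ j < k, v i = v j → i = j) ∧ (∀ i < k, ∀ j < k, e i = e j → i = j)

/-- The number of negative edges (for the signature `σ`) among `e 0, ..., e (k-1)`. -/
def negCount (σ : E → Bool) (k : ℕ) (e : ℕ → E) : ℕ := ∑ i ∈ range k, (if σ (e i) then 1 else 0)

/-- Every cycle is even. -/
def SignedGraph.C10 (G : SignedGraph V E) : Prop :=
  ∀ k v e, G.IsCycle k v e → Even k

/-- Every positive cycle is even and every negative cycle is odd. -/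
def SignedGraph.C11 (G : SignedGraph V E) : Prop :=
  ∀ k v e, G.IsCycle k v e → (Even (negCount G.neg k e) → Even k) ∧
    (Odd (negCount G.neg k e) → Odd k)

/-- `g` is the minimum length of a negative cycle. -/
def SignedGraph.NegGirth (G : SignedGraph V E) (g : ℕ) : Prop :=
  IsLeast {k | ∃ v e, G.IsCycle k v e ∧ Odd (negCount G.neg k e)} g

/-- Switching the signature `σ` at the vertex `v`. -/
def SignedGraph.switchAt (G : SignedGraph V E) [DecidableEq V] (v : V) (σ : E → Bool) :
    E → Bool :=
  fun e => σ e ^^ (decide (G.src e = v) ^^ decide (G.dst e = v))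

/-- One signature arises from the other by a sequence of switchings. -/
def SignedGraph.SwitchEquiv (G : SignedGraph V E) [DecidableEq V] (σ τ : E → Bool) : Prop :=
  Relation.ReflTransGen (fun a b => ∃ v, b = G.switchAt v a) σ τ

/-- There are `k` signatures equivalent to the given one with pairwise disjoint sets of negative
edges. -/
def SignedGraph.PacksInto (G : SignedGraph V E) [DecidableEq V] (k : ℕ) : Prop :=
  ∃ τ : Fin k → E → Bool, (∀ i, G.SwitchEquiv G.neg (τ i)) ∧
    ∀ i j, i ≠ j → ∀ e, ¬ (τ i e = true ∧ τ j e = true)

theorem SignedGraph.Joins.symm' {G : SignedGraph V E} {e : E} {x y : V} (h : G.Joins e x y) :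
    G.Joins e y x := by
  rcases h with ⟨h1, h2⟩ | ⟨h1, h2⟩
  · exact Or.inr ⟨h1, h2⟩
  · exact Or.inl ⟨h1, h2⟩

theorem SignedGraph.Joins.ne {G : SignedGraph V E} {e : E} {x y : V} (h : G.Joins e x y) :
    x ≠ y := by
  rcases h with ⟨h1, h2⟩ | ⟨h1, h2⟩
  · rw [← h1, ← h2]; exact G.noloop e
  · rw [← h1, ← h2]; exact (G.noloop e).symm

theorem negCount_add (σ : E → Bool) (k l : ℕ) (e : ℕ → E) :
    negCount σ (k + l) e = negCount σ k e + negCount σ l (fun m => e (k + m)) := by
  unfold negCount
  rw [Finset.sum_range_add]

theorem negCount_congr (σ : E → Bool) (k : ℕ) (e e' : ℕ → E) (h : ∀ i < k, e i = e' i) :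
    negCount σ k e = negCount σ k e' := by
  apply Finset.sum_congr rfl
  intro i hi
  rw [h i (Finset.mem_range.1 hi)]

/-- A property additive under concatenation, true for cycles and for going back and forth along an
edge, holds for all closed walks. -/
theorem closed_walk_ind (G : SignedGraph V E) (P : ℕ → ℕ → Prop) (h0 : P 0 0)
    (hadd : ∀ k l a b, P k a → P l b → P (k + l) (a + b)) (h2 : P 2 0) (h2' : P 2 2)
    (hcyc : ∀ k v e, G.IsCycle k v e → P k (negCount G.neg k e)) :
    ∀ (k : ℕ) (v : ℕ → V) (e : ℕ → E), v k = v 0 →
      (∀ i < k, G.Joins (e i) (v i) (v (i + 1))) → P k (negCount G.neg k e) := by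
  classical
  intro k
  induction k using Nat.strong_induction_on with
  | _ k ih =>
    intro v e hv hj
    rcases Nat.eq_zero_or_pos k with hk0 | hk0
    · subst hk0
      simpa [negCount] using h0
    by_cases hrep : ∃ i j, i < j ∧ j < k ∧ v i = v j
    · obtain ⟨i, j, hij, hjk, hvij⟩ := hrep
      obtain ⟨δ, hδ⟩ : ∃ δ, j = i + δ := ⟨j - i, by omega⟩
      obtain ⟨l, hl⟩ : ∃ l, k = i + δ + l := ⟨k - j, by omega⟩
      subst hδ
      subst hl
      have hδ0 : 0 < δ := by omega
      have hl0 : 0 < l := by omega
      -- inner walk
      have w1 := ih δ (by omega) (fun m => v (i + m)) (fun m => e (i + m))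
        (by simp only [add_zero]; exact hvij.symm)
        (fun m hm => by
          have := hj (i + m) (by omega)
          exact this)
      -- outer walk
      let v2 : ℕ → V := fun m => if m ≤ i then v m else v (m + δ)
      let e2 : ℕ → E := fun m => if m < i then e m else e (m + δ)
      have w2 := ih (i + l) (by omega) v2 e2
        (by
          have e1 : ¬ i + l ≤ i := by omega
          have e3 : (0 : ℕ) ≤ i := Nat.zero_le _
          simp only [v2, if_neg e1, if_pos e3]
          rw [← hv]
          congr 1
          omega)
        (fun m hm => by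
          by_cases h1 : m < i
          · have h3 : m ≤ i := by omega
            have h4 : m + 1 ≤ i := by omega
            simp only [v2, e2, if_pos h1, if_pos h3, if_pos h4]
            exact hj m (by omega)
          · have h4 : ¬ m + 1 ≤ i := by omega
            simp only [v2, e2, if_neg h1, if_neg h4]
            have h5 := hj (m + δ) (by omega)
            have h6 : m + 1 + δ = m + δ + 1 := by omega
            rw [h6]
            by_cases h7 : m ≤ i
            · have h8 : m = i := by omega
              subst h8
              simp only [le_refl, if_true]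
              rw [hvij]; exact h5
            · simp only [if_neg h7]; exact h5)
      have c1 : negCount G.neg (i + l) e2 = negCount G.neg i e +
          negCount G.neg l (fun m => e (i + δ + m)) := by
        rw [negCount_add]
        congr 1
        · apply negCount_congr
          intro m hm
          simp only [e2, if_pos hm]
        · apply negCount_congr
          intro m _
          have : ¬ i + m < i := by omega
          simp only [e2, if_neg this]
          congr 1
          omega
      have c2 : negCount G.neg (i + δ + l) e = negCount G.neg δ (fun m => e (i + m)) +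
          negCount G.neg (i + l) e2 := by
        rw [c1, negCount_add, negCount_add]
        omega
      rw [c2]
      have : i + δ + l = δ + (i + l) := by omega
      rw [this]
      exact hadd _ _ _ _ w1 w2
    · have hinj : ∀ i < k, ∀ j < k, v i = v j → i = j := by
        intro i hi j hj' hvv
        by_contra hne
        rcases lt_or_gt_of_ne hne with h | h
        · exact hrep ⟨i, j, h, hj', hvv⟩
        · exact hrep ⟨j, i, h, hi, hvv.symm⟩
      have hk2 : 2 ≤ k := by
        by_contra hcon
        have hk1 : k = 1 := by omega
        subst hk1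
        exact (hj 0 (by norm_num)).ne hv.symm
      by_cases hej : ∀ i < k, ∀ j < k, e i = e j → i = j
      · exact hcyc k v e ⟨hk2, hv, hj, hinj, hej⟩
      · push Not at hej
        obtain ⟨i, hi, j, hj', hee, hne⟩ := hej
        -- wlog i < j
        have main : ∀ i j, i < j → j < k → e i = e j → i = 0 ∧ k = 2 := by
          intro i j hlt hjk hee
          have h1 := hj i (by omega)
          have h2 := hj j hjk
          rw [hee] at h1
          have hvne : v i ≠ v j := fun h => by
            have := hinj i (by omega) j hjk h
            omega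
          have h3 : v i = v (j + 1) ∧ v (i + 1) = v j := by
            rcases h1 with ⟨a1, a2⟩ | ⟨a1, a2⟩ <;> rcases h2 with ⟨b1, b2⟩ | ⟨b1, b2⟩
            · exact absurd (a1.symm.trans b1) hvne
            · exact ⟨a1.symm.trans b1, a2.symm.trans b2⟩
            · exact ⟨a2.symm.trans b2, a1.symm.trans b1⟩
            · exact absurd (a2.symm.trans b2) hvne
          have h4 : i + 1 = j := hinj (i + 1) (by omega) j hjk h3.2
          rcases Nat.lt_or_eq_of_le (Nat.succ_le_of_lt hjk) with h5 | h5
          · have := hinj i (by omega) (j + 1) h5 h3.1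
            omega
          · have h6 : v i = v 0 := by
              rw [h3.1, ← hv]
              congr 1
            have h7 := hinj i (by omega) 0 hk0 h6
            refine ⟨h7, ?_⟩
            have : j + 1 = k := h5
            omega
        have hk : k = 2 ∧ e 0 = e 1 := by
          rcases lt_or_gt_of_ne hne with h | h
          · have h1 := main i j h hj' hee
            refine ⟨h1.2, ?_⟩
            have h2 : j = 1 := by omega
            rw [← h2, ← hee, h1.1]
          · have h1 := main j i h hi hee.symm
            refine ⟨h1.2, ?_⟩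
            have h2 : i = 1 := by omega
            rw [← h2, hee, h1.1]
        obtain ⟨hk, he01⟩ := hk
        subst hk
        have : negCount G.neg 2 e = 0 ∨ negCount G.neg 2 e = 2 := by
          simp only [negCount, Finset.sum_range_succ, Finset.sum_range_zero, he01]
          rcases G.neg (e 1) with _ | _ <;> simp
        rcases this with h | h <;> rw [h]
        · exact h2
        · exact h2'

/-- Walks with length and sign. -/
inductive Wlk (G : SignedGraph V E) : ℕ → Bool → V → V → Prop
  | nil (x : V) : Wlk G 0 false x x
  | cons (x y z : V) (k : ℕ) (b : Bool) (e : E) (h : G.Joins e x y) (w : Wlk G k b y z) :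
      Wlk G (k + 1) (G.neg e ^^ b) x z

theorem Wlk.single {G : SignedGraph V E} {e : E} {x y : V} (h : G.Joins e x y) :
    Wlk G 1 (G.neg e) x y := by
  have := Wlk.cons x y y 0 false e h (Wlk.nil y)
  rwa [Bool.xor_false] at this

theorem Wlk.trans {G : SignedGraph V E} {k l : ℕ} {b c : Bool} {x y z : V}
    (h : Wlk G k b x y) (h' : Wlk G l c y z) : Wlk G (k + l) (b ^^ c) x z := by
  induction h with
  | nil x => rw [Nat.zero_add, Bool.false_xor]; exact h'
  | cons x y z k b e hj _ ih =>
    have := Wlk.cons x y _ _ _ e hj (ih h')
    have e1 : k + l + 1 = k + 1 + l := by omega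
    rw [e1, ← Bool.xor_assoc] at this
    exact this

theorem Wlk.symm {G : SignedGraph V E} {k : ℕ} {b : Bool} {x y : V}
    (h : Wlk G k b x y) : Wlk G k b y x := by
  induction h with
  | nil x => exact Wlk.nil x
  | cons x y z k b e hj _ ih =>
    have := ih.trans (Wlk.single hj.symm')
    rwa [Bool.xor_comm] at this

/-- Every walk has a sequence of vertices and edges. -/
theorem Wlk.seq {G : SignedGraph V E} {k : ℕ} {b : Bool} {x y : V} (e0 : E)
    (h : Wlk G k b x y) : ∃ (v : ℕ → V) (e : ℕ → E), v 0 = x ∧ v k = y ∧
      (∀ i < k, G.Joins (e i) (v i) (v (i + 1))) ∧ negCount G.neg k e % 2 = if b then 1 else 0 := by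
  induction h with
  | nil x => exact ⟨fun _ => x, fun _ => e0, rfl, rfl, fun i hi => absurd hi (by omega),
      by simp [negCount]⟩
  | cons x y z k b e hj _ ih =>
    obtain ⟨v, f, h1, h2, h3, h4⟩ := ih
    refine ⟨fun m => if m = 0 then x else v (m - 1), fun m => if m = 0 then e else f (m - 1),
      by simp, by simp [h2], ?_, ?_⟩
    · intro i hi
      rcases Nat.eq_zero_or_pos i with h | h
      · subst h
        simp [h1, hj]
      · have e1 : ¬ i = 0 := by omega
        have e2 : ¬ i + 1 = 0 := by omega
        simp only [if_neg e1, if_neg e2]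
        have := h3 (i - 1) (by omega)
        have e3 : i - 1 + 1 = i := by omega
        rw [e3] at this
        have e4 : i + 1 - 1 = i := by omega
        rw [e4]
        exact this
    · have e5 : negCount G.neg (k + 1) (fun m => if m = 0 then e else f (m - 1)) =
          (if G.neg e then 1 else 0) + negCount G.neg k f := by
        rw [add_comm k 1, negCount_add]
        have e7 : negCount G.neg 1 (fun m => if m = 0 then e else f (m - 1)) =
            if G.neg e then 1 else 0 := by
          unfold negCount
          rw [Finset.sum_range_one]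
          simp
        have e8 : negCount G.neg k (fun m => if 1 + m = 0 then e else f (1 + m - 1)) =
            negCount G.neg k f := by
          apply negCount_congr
          intro m _
          have e6 : ¬ 1 + m = 0 := by omega
          have e9 : 1 + m - 1 = m := by omega
          simp only [if_neg e6, e9]
        rw [e7, e8]
      rw [e5]
      revert h4
      rcases G.neg e with _ | _ <;> rcases b with _ | _ <;> simp <;> omega

/-- Potentials: if a parity of walks vanishes on closed walks, it comes from a vertex function. -/
theorem potential (G : SignedGraph V E) (F : ℕ → Bool → Bool)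
    (hF : ∀ k l b c, F (k + l) (b ^^ c) = (F k b ^^ F l c))
    (hc : ∀ x k b, Wlk G k b x x → F k b = false) :
    ∃ q : V → Bool, ∀ k b x y, Wlk G k b x y → (q x ^^ q y) = F k b := by
  classical
  let S : Setoid V :=
    { r := fun x y => ∃ k b, Wlk G k b x y
      iseqv := ⟨fun x => ⟨0, false, Wlk.nil x⟩, fun ⟨k, b, h⟩ => ⟨k, b, h.symm⟩,
        fun ⟨k, b, h⟩ ⟨l, c, h'⟩ => ⟨k + l, b ^^ c, h.trans h'⟩⟩ }
  have hrep : ∀ x : V, ∃ k b, Wlk G k b x (Quotient.out (Quotient.mk S x)) := by
    intro x
    have : S.r (Quotient.out (Quotient.mk S x)) x := Quotient.exact (Quotient.out_eq _)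
    obtain ⟨k, b, h⟩ := this
    exact ⟨k, b, h.symm⟩
  choose K B hKB using hrep
  refine ⟨fun x => F (K x) (B x), ?_⟩
  intro k b x y h
  change (F (K x) (B x) ^^ F (K y) (B y)) = F k b
  have hxy : Quotient.mk S x = Quotient.mk S y := Quotient.sound ⟨k, b, h⟩
  have h1 := hKB x
  have h2 := hKB y
  rw [← hxy] at h2
  have h3 := (h.trans h2).trans h1.symm
  have h4 := hc x _ _ h3
  rw [hF, hF] at h4
  revert h4
  rcases F k b with _ | _ <;> rcases F (K y) (B y) with _ | _ <;>
    rcases F (K x) (B x) with _ | _ <;> simp

/-- Switching at all vertices of a set. -/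
theorem switch_of_fun [Fintype V] [DecidableEq V] (G : SignedGraph V E) (σ : E → Bool)
    (X : V → Bool) : G.SwitchEquiv σ (fun e => σ e ^^ (X (G.src e) ^^ X (G.dst e))) := by
  classical
  have key : ∀ T : Finset V, G.SwitchEquiv σ
      (fun e => σ e ^^ (decide (G.src e ∈ T) ^^ decide (G.dst e ∈ T))) := by
    intro T
    induction T using Finset.induction_on with
    | empty =>
      have : (fun e => σ e ^^ (decide (G.src e ∈ (∅ : Finset V)) ^^
          decide (G.dst e ∈ (∅ : Finset V)))) = σ := by
        funext e; simp
      rw [this]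
      exact Relation.ReflTransGen.refl
    | insert v T hv ih =>
      refine Relation.ReflTransGen.tail ih ⟨v, ?_⟩
      funext e
      simp only [SignedGraph.switchAt, Finset.mem_insert]
      by_cases h1 : G.src e = v
      · have h2 : G.src e ∉ T := by rw [h1]; exact hv
        by_cases h3 : G.dst e = v
        · have h4 : G.dst e ∉ T := by rw [h3]; exact hv
          simp [h1, h3, hv]
        · simp [h1, h3, hv]
      · by_cases h3 : G.dst e = v
        · simp [h1, h3, hv]
        · simp [h1, h3]
  have h := key (Finset.univ.filter (fun v => X v = true))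
  have e1 : ∀ v, decide (v ∈ Finset.univ.filter (fun v => X v = true)) = X v := by
    intro v
    rcases h : X v with _ | _ <;> simp [h]
  simp only [e1] at h
  exact h

theorem fun_of_switch [DecidableEq V] (G : SignedGraph V E) {σ τ : E → Bool}
    (h : G.SwitchEquiv σ τ) : ∃ X : V → Bool, ∀ e, τ e = (σ e ^^ (X (G.src e) ^^ X (G.dst e))) := by
  induction h with
  | refl => exact ⟨fun _ => false, fun e => by simp⟩
  | tail _ h ih =>
    obtain ⟨X, hX⟩ := ih
    obtain ⟨v, rfl⟩ := h
    refine ⟨fun w => X w ^^ decide (w = v), ?_⟩
    intro e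
    simp only [SignedGraph.switchAt, hX]
    rcases σ e with _ | _ <;> rcases X (G.src e) with _ | _ <;> rcases X (G.dst e) with _ | _ <;>
      rcases decide (G.src e = v) with _ | _ <;> rcases decide (G.dst e = v) with _ | _ <;> rfl

/-- Switching does not change the parity of the number of negative edges of a closed walk. -/
theorem negCount_switch (G : SignedGraph V E) (σ : E → Bool) (X : V → Bool) (v : ℕ → V)
    (e : ℕ → E) : ∀ k, (∀ i < k, G.Joins (e i) (v i) (v (i + 1))) →
      negCount (fun e => σ e ^^ (X (G.src e) ^^ X (G.dst e))) k e % 2 =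
        (negCount σ k e + if (X (v 0) ^^ X (v k)) then 1 else 0) % 2 := by
  intro k
  induction k with
  | zero => intro _; simp [negCount]
  | succ k ih =>
    intro hj
    have h1 := ih (fun i hi => hj i (by omega))
    have h2 := hj k (by omega)
    have h3 : (X (G.src (e k)) ^^ X (G.dst (e k))) = (X (v k) ^^ X (v (k + 1))) := by
      rcases h2 with ⟨a, b⟩ | ⟨a, b⟩
      · rw [a, b]
      · rw [a, b, Bool.xor_comm]
    have h4 : negCount (fun e => σ e ^^ (X (G.src e) ^^ X (G.dst e))) (k + 1) e =
        negCount (fun e => σ e ^^ (X (G.src e) ^^ X (G.dst e))) k e +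
          if (σ (e k) ^^ (X (v k) ^^ X (v (k + 1)))) then 1 else 0 := by
      simp only [negCount, Finset.sum_range_succ, h3]
    have h5 : negCount σ (k + 1) e = negCount σ k e + if σ (e k) then 1 else 0 := by
      simp only [negCount, Finset.sum_range_succ]
    rw [h4, h5]
    revert h1
    rcases X (v 0) with _ | _ <;> rcases X (v k) with _ | _ <;> rcases X (v (k + 1)) with _ | _ <;>
      rcases σ (e k) with _ | _ <;> simp <;> omega

/-- The general upper bound. -/
theorem packs_le [DecidableEq V] (G : SignedGraph V E) {g k : ℕ} (hg : G.NegGirth g)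
    (hk : G.PacksInto k) : k ≤ g := by
  classical
  obtain ⟨v, e, hcyc, hodd⟩ := hg.1
  obtain ⟨τ, hτ, hdis⟩ := hk
  have hex : ∀ i : Fin k, ∃ m : Fin g, τ i (e m) = true := by
    intro i
    obtain ⟨X, hX⟩ := fun_of_switch G (hτ i)
    by_contra hcon
    push Not at hcon
    have h0 : negCount (τ i) g e = 0 := by
      apply Finset.sum_eq_zero
      intro m hm
      rw [if_neg (hcon ⟨m, Finset.mem_range.1 hm⟩)]
    have h1 := negCount_switch G G.neg X v e g hcyc.2.2.1
    have h2 : (fun e => G.neg e ^^ (X (G.src e) ^^ X (G.dst e))) = τ i := by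
      funext e; rw [hX]
    rw [h2, h0, hcyc.2.1] at h1
    have h3 : (if (X (v 0) ^^ X (v 0)) = true then 1 else 0 : ℕ) = 0 := by simp
    rw [h3] at h1
    rw [Nat.odd_iff] at hodd
    omega
  choose f hf using hex
  have hinj : Function.Injective f := by
    intro i j hij
    by_contra hne
    exact hdis i j hne (e (f i)) ⟨hf i, by rw [hij]; exact hf j⟩
  simpa using Fintype.card_le_of_injective f hinj

end SPK
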