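import Pool.Agent.SPK.Complete
import Pool.Agent.SPK.Graph

/-! Packing signatures of signed graphs built from double wheels. -/

namespace SPK

open Finset

variable {V E : Type*}

/-- Signed walks in the double cover. -/
def SW (G : SignedGraph V E) (k : ℕ) (p q : V × Bool) : Prop := Wlk G k (p.2 ^^ q.2) p.1 q.1

theorem SW.refl (G : SignedGraph V E) (p : V × Bool) : SW G 0 p p := by
  unfold SW
  rw [Bool.xor_self]
  exact Wlk.nil p.1

theorem SW.symm {G : SignedGraph V E} {k : ℕ} {p q : V × Bool} (h : SW G k p q) :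
    SW G k q p := by
  unfold SW at h ⊢
  rw [Bool.xor_comm]
  exact Wlk.symm h

theorem SW.trans {G : SignedGraph V E} {k l : ℕ} {p q s : V × Bool} (h : SW G k p q)
    (h' : SW G l q s) : SW G (k + l) p s := by
  unfold SW at h h' ⊢
  have := Wlk.trans h h'
  have e : ((p.2 ^^ q.2) ^^ (q.2 ^^ s.2)) = (p.2 ^^ s.2) := by
    rcases p.2 with _ | _ <;> rcases q.2 with _ | _ <;> rcases s.2 with _ | _ <;> rfl
  rwa [e] at this

theorem SW.bar {G : SignedGraph V E} {k : ℕ} {p q : V × Bool} (h : SW G k p q) :
    SW G k (bar p) (bar q) := by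
  unfold SW at h ⊢
  have e : ((SPK.bar p).2 ^^ (SPK.bar q).2) = (p.2 ^^ q.2) := by
    simp only [SPK.bar]
    rcases p.2 with _ | _ <;> rcases q.2 with _ | _ <;> rfl
  rw [e]
  exact h

/-- Completion of an abstract relation `R k p q` (there is a walk of length `k` from `p` to `q`). -/
theorem abs_metric [Fintype V] [DecidableEq V] (R : ℕ → V × Bool → V × Bool → Prop) (r : ℕ)
    (hr : 1 ≤ r) (π : V × Bool → Bool) (hπ : ∀ p, π (bar p) = (π p ^^ decide (r % 2 = 1)))
    (hrefl : ∀ p, R 0 p p) (hsym : ∀ k p q, R k p q → R k q p)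
    (htr : ∀ k l p q s, R k p q → R l q s → R (k + l) p s)
    (hbar : ∀ k p q, R k p q → R k (bar p) (bar q))
    (hπw : ∀ k p q, R k p q → k % 2 = if (π p ^^ π q) then 1 else 0)
    (hlen : ∀ k p, R k p (bar p) → r ≤ k) :
    ∃ d : V × Bool → V × Bool → ℕ, Good r π d ∧ (∀ p q, d p q + d q (bar p) = r) ∧
      ∀ k p q, R k p q → d p q ≤ k := by
  classical
  let M : Bool → ℕ := fun b => 2 * r + if b then 1 else 0
  let T : V × Bool → V × Bool → Set ℕ := fun p q => {k | R k p q ∨ k = M (π p ^^ π q)}
  let D : V × Bool → V × Bool → ℕ := fun p q => sInf (T p q)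
  have hmem : ∀ p q, R (D p q) p q ∨ D p q = M (π p ^^ π q) := by
    intro p q
    have : D p q ∈ T p q := Nat.sInf_mem ⟨M (π p ^^ π q), Or.inr rfl⟩
    exact this
  have hle : ∀ p q k, R k p q → D p q ≤ k := fun p q k h => Nat.sInf_le (Or.inl h)
  have hleM : ∀ p q, D p q ≤ M (π p ^^ π q) := fun p q => Nat.sInf_le (Or.inr rfl)
  have hgood : Good r π D := by
    have hsymm : ∀ p q, D p q ≤ D q p := by
      intro p q
      rcases hmem q p with h | h
      · exact hle p q _ (hsym _ _ _ h)
      · rw [h, Bool.xor_comm]; exact hleM p q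
    have hanti : ∀ p q, D (bar p) (bar q) ≤ D p q := by
      intro p q
      rcases hmem p q with h | h
      · exact hle _ _ _ (hbar _ _ _ h)
      · rw [h]
        have e : (π (bar p) ^^ π (bar q)) = (π p ^^ π q) := by
          rw [hπ, hπ]
          rcases π p with _ | _ <;> rcases π q with _ | _ <;>
            rcases decide (r % 2 = 1) with _ | _ <;> rfl
        rw [← e]
        exact hleM _ _
    refine ⟨?_, ?_, ?_, ?_, ?_, ?_⟩
    · intro p
      have := hle p p 0 (hrefl p)
      omega
    · intro p q
      exact le_antisymm (hsymm p q) (hsymm q p)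
    · intro p q
      refine le_antisymm (hanti p q) ?_
      have := hanti (bar p) (bar q)
      rwa [bar_bar, bar_bar] at this
    · intro p q s
      rcases hmem p s with h | h
      · rcases hmem s q with h' | h'
        · exact hle _ _ _ (htr _ _ _ _ _ h h')
        · have h1 := hleM p q
          have h2 := hπw _ _ _ h
          rw [h']
          simp only [M] at h1 ⊢
          revert h1 h2
          rcases π p with _ | _ <;> rcases π q with _ | _ <;> rcases π s with _ | _ <;>
            simp <;> omega
      · rcases hmem s q with h' | h'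
        · have h1 := hleM p q
          have h2 := hπw _ _ _ h'
          rw [h]
          simp only [M] at h1 ⊢
          revert h1 h2
          rcases π p with _ | _ <;> rcases π q with _ | _ <;> rcases π s with _ | _ <;>
            simp <;> omega
        · have h1 := hleM p q
          rw [h, h']
          simp only [M] at h1 ⊢
          split_ifs at h1 ⊢ <;> omega
    · intro p q
      rcases hmem p q with h | h
      · exact hπw _ _ _ h
      · rw [h]
        simp only [M]
        split_ifs <;> omega
    · intro p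
      rcases hmem p (bar p) with h | h
      · exact hlen _ _ h
      · rw [h]
        simp only [M]
        omega
  obtain ⟨d, hd, hdD, hds⟩ := complete hr hπ _ D hgood rfl
  exact ⟨d, hd, hds, fun k p q h => le_trans (hdD p q) (hle p q k h)⟩

theorem SW.edge (G : SignedGraph V E) (e : E) :
    SW G 1 (G.src e, false) (G.dst e, G.neg e) := by
  unfold SW
  simp only [Bool.false_xor]
  exact Wlk.single (Or.inl ⟨rfl, rfl⟩)

/-- The antipodal metric of a signed graph with a parity function. -/
theorem core_metric [Fintype V] [DecidableEq V] (G : SignedGraph V E) (r : ℕ) (hr : 1 ≤ r)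
    (π : V × Bool → Bool) (hπ : ∀ p, π (bar p) = (π p ^^ decide (r % 2 = 1)))
    (hπw : ∀ k p q, SW G k p q → k % 2 = if (π p ^^ π q) then 1 else 0)
    (hlen : ∀ k p, SW G k p (bar p) → r ≤ k) :
    ∃ a : V → V → ℤ, RMetric r a ∧
      ∀ e, stz (!(G.neg e)) (a (G.src e) (G.dst e)) r = 1 := by
  classical
  obtain ⟨d, hd, hds, hle⟩ := abs_metric (SW G) r hr π hπ (SW.refl G) (fun _ _ _ h => h.symm)
    (fun _ _ _ _ _ h h' => h.trans h') (fun _ _ _ h => h.bar) hπw hlen
  obtain ⟨a, ha, hkey⟩ := complete_rmetric hd hds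
  refine ⟨a, ha, ?_⟩
  intro e
  have hw := SW.edge G e
  have h2 := hle _ _ _ hw
  have h3 := hd.par (G.src e, false) (G.dst e, G.neg e)
  have h4 := hπw _ _ _ hw
  have h5 : d (G.src e, false) (G.dst e, G.neg e) = 1 := by
    rw [← h4] at h3
    omega
  have h6 := hkey (G.src e) (G.dst e) false (G.neg e)
  rw [h5] at h6
  have e1 : (false == G.neg e) = !(G.neg e) := by rcases G.neg e with _ | _ <;> rfl
  rw [e1] at h6
  rw [← h6]
  rfl

theorem packs_of_core [Fintype V] [DecidableEq V] (G : SignedGraph V E) (r : ℕ)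
    (φ : Fin r → V → Bool)
    (hφ : ∀ e, ∑ m, iz (G.neg e ^^ (φ m (G.src e) ^^ φ m (G.dst e))) = 1) :
    G.PacksInto r := by
  classical
  refine ⟨fun m e => G.neg e ^^ (φ m (G.src e) ^^ φ m (G.dst e)),
    fun m => switch_of_fun G G.neg (φ m), ?_⟩
  rintro i j hij e ⟨h1, h2⟩
  dsimp only at h1 h2
  have h3 := hφ e
  have h4 : ∑ m ∈ ({i, j} : Finset (Fin r)), iz (G.neg e ^^ (φ m (G.src e) ^^ φ m (G.dst e))) ≤
      ∑ m, iz (G.neg e ^^ (φ m (G.src e) ^^ φ m (G.dst e))) := by
    apply Finset.sum_le_sum_of_subset_of_nonneg (Finset.subset_univ _)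
    intro m _ _
    rcases (G.neg e ^^ (φ m (G.src e) ^^ φ m (G.dst e))) with _ | _ <;> simp
  rw [h3, Finset.sum_pair hij, h1, h2] at h4
  simp at h4

/-- Parity functions and lengths of negative closed walks in the classes C10 and C11. -/
theorem class_parity (G : SignedGraph V E) (hG : G.C10 ∨ G.C11)
    (g : ℕ) (hg : G.NegGirth g) :
    2 ≤ g ∧ (∀ k p, SW G k p (bar p) → g ≤ k) ∧
    ∃ π : V × Bool → Bool, (∀ p, π (bar p) = (π p ^^ decide (g % 2 = 1))) ∧
      ∀ k p q, SW G k p q → k % 2 = if (π p ^^ π q) then 1 else 0 := by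
  classical
  obtain ⟨⟨v0, e0, hcyc0, hodd0⟩, hmin⟩ := hg
  have hg2 : 2 ≤ g := hcyc0.1
  -- closed walks
  have hclosed : ∀ P : ℕ → ℕ → Prop, P 0 0 → (∀ k l a b, P k a → P l b → P (k + l) (a + b)) →
      P 2 0 → P 2 2 → (∀ k v e, G.IsCycle k v e → P k (negCount G.neg k e)) →
      ∀ x k b, Wlk G k b x x → ∃ a, a % 2 = (if b then 1 else 0) ∧ P k a := by
    intro P h0 hadd h2 h2' hc x k b hw
    obtain ⟨v, e, h1, h3, h4, h5⟩ := hw.seq (e0 0)
    exact ⟨_, h5, closed_walk_ind G P h0 hadd h2 h2' hc k v e (by rw [h1, h3]) h4⟩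
  -- negative closed walks are long
  have hneg : ∀ x k, Wlk G k true x x → g ≤ k := by
    intro x k hw
    obtain ⟨a, ha, hP⟩ := hclosed (fun k a => a % 2 = 1 → g ≤ k) (by simp)
      (by
        intro k l a b h1 h2 h3
        have : a % 2 = 1 ∨ b % 2 = 1 := by omega
        rcases this with h | h
        · have := h1 h; omega
        · have := h2 h; omega)
      (by simp) (by simp)
      (by
        intro k v e hc hodd
        exact hmin ⟨v, e, hc, Nat.odd_iff.2 hodd⟩) x k true hw
    exact hP (by simpa using ha)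
  have hlen : ∀ k p, SW G k p (bar p) → g ≤ k := by
    intro k p hw
    unfold SW at hw
    have e : (p.2 ^^ (bar p).2) = true := by
      simp only [bar]
      rcases p.2 with _ | _ <;> rfl
    rw [e] at hw
    exact hneg p.1 k hw
  refine ⟨hg2, hlen, ?_⟩
  rcases hG with h10 | h11
  · -- bipartite
    have hgeven : g % 2 = 0 := by
      have := h10 g v0 e0 hcyc0
      exact Nat.even_iff.1 this
    obtain ⟨q, hq⟩ := potential G (fun k _ => decide (k % 2 = 1))
      (by
        intro k l _ _
        rcases Nat.mod_two_eq_zero_or_one k with h1 | h1 <;>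
          rcases Nat.mod_two_eq_zero_or_one l with h2 | h2 <;>
          simp [h1, h2, Nat.add_mod])
      (by
        intro x k b hw
        obtain ⟨a, -, hP⟩ := hclosed (fun k _ => k % 2 = 0) (by simp)
          (by intro k l _ _ h1 h2; omega) (by simp) (by simp)
          (by intro k v e hc; exact Nat.even_iff.1 (h10 k v e hc)) x k b hw
        simp only [decide_eq_false_iff_not]
        omega)
    refine ⟨fun p => q p.1, ?_, ?_⟩
    · intro p
      simp [bar, hgeven]
    · intro k p s hw
      have := hq k _ p.1 s.1 hw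
      simp only
      rw [this]
      rcases Nat.mod_two_eq_zero_or_one k with h1 | h1 <;> simp [h1]
  · -- negative cycles are exactly the odd cycles
    have hpar : ∀ k v e, G.IsCycle k v e → (k + negCount G.neg k e) % 2 = 0 := by
      intro k v e hc
      have h1 := h11 k v e hc
      rcases Nat.even_or_odd (negCount G.neg k e) with h2 | h2
      · have h3 := h1.1 h2
        rw [Nat.even_iff] at h2 h3
        omega
      · have h3 := h1.2 h2
        rw [Nat.odd_iff] at h2 h3
        omega
    have hgodd : g % 2 = 1 := by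
      have h1 := (h11 g v0 e0 hcyc0).2 hodd0
      exact Nat.odd_iff.1 h1
    obtain ⟨q, hq⟩ := potential G (fun k b => (decide (k % 2 = 1) ^^ b))
      (by
        intro k l b c
        rcases Nat.mod_two_eq_zero_or_one k with h1 | h1 <;>
          rcases Nat.mod_two_eq_zero_or_one l with h2 | h2 <;>
          rcases b with _ | _ <;> rcases c with _ | _ <;>
          simp [h1, h2, Nat.add_mod])
      (by
        intro x k b hw
        obtain ⟨a, ha, hP⟩ := hclosed (fun k a => (k + a) % 2 = 0) (by simp)
          (by intro k l a b h1 h2; omega) (by simp) (by simp)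
          hpar x k b hw
        rcases Nat.mod_two_eq_zero_or_one k with h1 | h1 <;> rcases b with _ | _ <;>
          simp at ha ⊢ <;> omega)
    refine ⟨fun p => q p.1 ^^ p.2, ?_, ?_⟩
    · intro p
      simp only [bar, hgodd]
      rcases q p.1 with _ | _ <;> rcases p.2 with _ | _ <;> rfl
    · intro k p s hw
      have := hq k _ p.1 s.1 hw
      simp only
      have e : ((q p.1 ^^ p.2) ^^ (q s.1 ^^ s.2)) = ((q p.1 ^^ q s.1) ^^ (p.2 ^^ s.2)) := by
        rcases q p.1 with _ | _ <;> rcases p.2 with _ | _ <;> rcases q s.1 with _ | _ <;>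
          rcases s.2 with _ | _ <;> rfl
      rw [e, this]
      rcases Nat.mod_two_eq_zero_or_one k with h1 | h1 <;>
        rcases (p.2 ^^ s.2) with _ | _ <;> simp [h1]

/-- The antipodal metric of a signed graph in the classes C10 and C11. -/
theorem class_metric [Fintype V] [DecidableEq V] (G : SignedGraph V E) (hG : G.C10 ∨ G.C11)
    (g : ℕ) (hg : G.NegGirth g) :
    ∃ a : V → V → ℤ, RMetric g a ∧
      ∀ e, stz (!(G.neg e)) (a (G.src e) (G.dst e)) g = 1 := by
  obtain ⟨hg2, hlen, π, h1, h2⟩ := class_parity G hG g hg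
  exact core_metric G g (by omega) π h1 h2 hlen

/-- Main theorem: signed graphs of the classes C10 and C11 whose underlying graph is a subgraph of
a graph built from complete graphs on at most four vertices and double wheels pack. -/
theorem main [Fintype V] [DecidableEq V] (G : SignedGraph V E) (hG : G.C10 ∨ G.C11)
    (g : ℕ) (hg : G.NegGirth g) (S : Finset V) (K : SimpleGraph V) (hK : Built S K)
    (hsub : ∀ e, K.Adj (G.src e) (G.dst e)) :
    IsGreatest {k | G.PacksInto k} g := by
  classical
  refine ⟨?_, fun k hk => packs_le G hg hk⟩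
  obtain ⟨a, ha, he⟩ := class_metric G hG g hg
  obtain ⟨φ, hφ⟩ := built_real ha hK
  refine packs_of_core G g φ ?_
  intro e
  have h1 := hφ _ _ (hsub e)
  have h6 := he e
  unfold dist at h1
  rcases hneg : G.neg e with _ | _
  · rw [hneg] at h6
    simp only [Bool.not_false, stz_true] at h6
    simp only [Bool.false_xor]
    rw [h1, h6]
  · rw [hneg] at h6
    simp only [Bool.not_true, stz_false] at h6
    have e2 : ∀ m : Fin g, iz (true ^^ (φ m (G.src e) ^^ φ m (G.dst e))) =
        1 - iz (φ m (G.src e) ^^ φ m (G.dst e)) := by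
      intro m
      rcases φ m (G.src e) with _ | _ <;> rcases φ m (G.dst e) with _ | _ <;> simp
    rw [Finset.sum_congr rfl (fun m _ => e2 m), Finset.sum_sub_distrib, h1]
    simp only [Finset.sum_const, Finset.card_univ, Fintype.card_fin, nsmul_eq_mul, mul_one]
    exact h6

end SPK
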