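import Pool.Agent.SPK.ClosureFour

/-! The second distance of a composition. -/

namespace SPK

section

variable {r : ℤ} {e f c : St} {P Q : Set St} {V W : St} {A1 A2 L U B1 B2 K G : ℤ}

theorem range_num (r m n c1 c2 c3 c4 e1 e2 e3 e4 f1 f2 f3 f4 V1 V2 V3 V4 W1 W2 W3 W4
    A1 A2 B1 B2 L U K G : ℤ)
    (SP : SlabOK r (r - n) n e1 e2 e3 e4 V1 V2 V3 V4 L U)
    (SQ : SlabOK r (r - n) n f1 f2 f3 f4 W1 W2 W3 W4 K G)
    (t1 : Tri3 e1 f1 c3) (t2 : Tri3 e1 f3 c1) (t3 : Tri3 e3 f1 c1) (t4 : Tri3 e3 f3 c3)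
    (t5 : Tri3 e2 f2 c4) (t6 : Tri3 e2 f4 c2) (t7 : Tri3 e4 f2 c2) (t8 : Tri3 e4 f4 c4)
    (a1 : A1 ≤ r - V1 - e3) (a1' : r - V1 - e3 ≤ A2) (a2 : A1 ≤ V2 + e4) (a2' : V2 + e4 ≤ A2)
    (a3 : A1 ≤ r - V3 - e1) (a3' : r - V3 - e1 ≤ A2) (a4 : A1 ≤ V4 + e2) (a4' : V4 + e2 ≤ A2)
    (b1 : B1 ≤ r - W1 - f3) (b1' : r - W1 - f3 ≤ B2) (b2 : B1 ≤ W2 + f4) (b2' : W2 + f4 ≤ B2)
    (b3 : B1 ≤ r - W3 - f1) (b3' : r - W3 - f1 ≤ B2) (b4 : B1 ≤ W4 + f2) (b4' : W4 + f2 ≤ B2)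
    (pA1 : (A1 - e2 - e4) % 2 = 0) (pB1 : (B1 - f2 - f4) % 2 = 0)
    (hn1 : A1 ≤ n) (hn2 : n ≤ A2) (hn3 : B1 ≤ n) (hn4 : n ≤ B2)
    (cn1 : c1 + c3 ≤ r - n) (cn2 : c2 + c4 ≤ n) (cm1 : c1 + c2 ≤ r - m) (cm2 : c3 + c4 ≤ m)
    (pn : (n - c2 - c4) % 2 = 0) (pm : (m - c3 - c4) % 2 = 0)
    (pr : (r - c1 - c2 - c3 - c4) % 2 = 0)
    (y1 : m ≤ U + G) (y2 : m ≤ (r - L) + (r - K)) (y3 : r - m ≤ (r - L) + G)
    (y4 : r - m ≤ U + (r - K)) :
    ∃ x1 x2 x3 x4 : ℤ, x1 + x2 + x3 + x4 = r ∧ c1 ≤ x1 ∧ c2 ≤ x2 ∧ c3 ≤ x3 ∧ c4 ≤ x4 ∧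
      (x1 - c1) % 2 = 0 ∧ (x2 - c2) % 2 = 0 ∧ (x3 - c3) % 2 = 0 ∧ (x4 - c4) % 2 = 0 ∧
      A1 ≤ x2 + x4 ∧ x2 + x4 ≤ A2 ∧ B1 ≤ x2 + x4 ∧ x2 + x4 ≤ B2 ∧ x3 + x4 = m ∧
      Comp V1 V3 W1 W3 x1 x3 ∧ Comp V2 V4 W2 W4 x2 x4 := by
  obtain ⟨pn1, pn2, pn3, pn4, pb1, pb2, pb3, pb4, pc1, pc2, pc3, pc4, pd1, pd2, pd3, pd4, pf1,
    pf2, pf3, pf4, pg1, pg2, pg3, pg4, pl1, pl2, pl3, pp1, pp2, pp3, pp4, pp5, pp6, -, -⟩ := SP
  obtain ⟨qn1, qn2, qn3, qn4, qb1, qb2, qb3, qb4, qc1, qc2, qc3, qc4, qd1, qd2, qd3, qd4, qf1,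
    qf2, qf3, qf4, qg1, qg2, qg3, qg4, ql1, ql2, ql3, qp1, qp2, qp3, qp4, qp5, qp6, -, -⟩ := SQ
  obtain ⟨t11, t12, t13, t14⟩ := t1
  obtain ⟨t21, t22, t23, t24⟩ := t2
  obtain ⟨t31, t32, t33, t34⟩ := t3
  obtain ⟨t41, t42, t43, t44⟩ := t4
  obtain ⟨t51, t52, t53, t54⟩ := t5
  obtain ⟨t61, t62, t63, t64⟩ := t6
  obtain ⟨t71, t72, t73, t74⟩ := t7
  obtain ⟨t81, t82, t83, t84⟩ := t8
  have hK : ∃ KK, (KK = A1 ∨ KK = B1) ∧ A1 ≤ KK ∧ B1 ≤ KK := by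
    rcases le_total A1 B1 with h | h
    · exact ⟨B1, Or.inr rfl, h, le_refl _⟩
    · exact ⟨A1, Or.inl rfl, le_refl _, h⟩
  have hG : ∃ GG, (GG = A2 ∨ GG = B2) ∧ GG ≤ A2 ∧ GG ≤ B2 := by
    rcases le_total A2 B2 with h | h
    · exact ⟨A2, Or.inl rfl, le_refl _, h⟩
    · exact ⟨B2, Or.inr rfl, h, le_refl _⟩
  obtain ⟨KK, hK1, hK2, hK3⟩ := hK
  obtain ⟨GG, hG1, hG2, hG3⟩ := hG
  have pK : (KK - c2 - c4) % 2 = 0 := by
    clear * - hK1 pA1 pB1 t54 t64 t74 t84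
    rcases hK1 with rfl | rfl <;> omega
  have key := box_sum c2 (- c3) [c2, r - m - V1 - W3, r - m - V3 - W1]
    [r - m - c1, V2 + W4, V4 + W2] [-(V3 + W3), -(V1 + W1), -(m - c4)]
    [- c3, -(m - V4 - W4), -(m - V2 - W2)] (KK - m) (GG - m)
    (by simp) (by simp) (by simp) (by simp)
    (by
      simp only [List.forall_mem_cons, List.not_mem_nil, false_implies, implies_true, and_true]
      clear * - pp1 pp2 pp3 pp4 qp1 qp2 qp3 qp4 t14 t24 t34 t44 t54 t64 t74 t84 pn pm pr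
      refine ⟨?_, ?_, ?_⟩ <;> omega)
    (by
      simp only [List.forall_mem_cons, List.not_mem_nil, false_implies, implies_true, and_true]
      clear * - pp1 pp2 pp3 pp4 qp1 qp2 qp3 qp4 t14 t24 t34 t44 t54 t64 t74 t84 pn pm pr
      refine ⟨?_, ?_, ?_⟩ <;> omega)
    (by
      simp only [List.forall_mem_cons, List.not_mem_nil, false_implies, implies_true, and_true]
      clear * - pp1 pp2 pp3 pp4 qp1 qp2 qp3 qp4 t14 t24 t34 t44 t54 t64 t74 t84 pn pm pr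
      refine ⟨?_, ?_, ?_⟩ <;> omega)
    (by
      simp only [List.forall_mem_cons, List.not_mem_nil, false_implies, implies_true, and_true]
      clear * - pp1 pp2 pp3 pp4 qp1 qp2 qp3 qp4 t14 t24 t34 t44 t54 t64 t74 t84 pn pm pr
      refine ⟨?_, ?_, ?_⟩ <;> omega)
    (by
      clear * - pK pn pm pr
      omega)
    (by
      clear pp1 pp2 pp3 pp4 qp1 qp2 qp3 qp4 t14 t24 t34 t44 t54 t64 t74 t84 pn pm pr pK pA1 pB1 pp5 pp6 qp5 qp6
      simp only [List.forall_mem_cons, List.not_mem_nil, false_implies, implies_true, and_true]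
      refine ⟨⟨?_, ?_, ?_⟩, ⟨?_, ?_, ?_⟩, ⟨?_, ?_, ?_⟩⟩ <;> linarith)
    (by
      clear pp1 pp2 pp3 pp4 qp1 qp2 qp3 qp4 t14 t24 t34 t44 t54 t64 t74 t84 pn pm pr pK pA1 pB1 pp5 pp6 qp5 qp6
      simp only [List.forall_mem_cons, List.not_mem_nil, false_implies, implies_true, and_true]
      refine ⟨⟨?_, ?_, ?_⟩, ⟨?_, ?_, ?_⟩, ⟨?_, ?_, ?_⟩⟩ <;> linarith)
    (by
      have h1 : KK ≤ n := by rcases hK1 with rfl | rfl <;> assumption
      have h2 : n ≤ GG := by rcases hG1 with rfl | rfl <;> assumption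
      linarith)
    (by
      clear pp1 pp2 pp3 pp4 qp1 qp2 qp3 qp4 t14 t24 t34 t44 t54 t64 t74 t84 pn pm pr pK pA1 pB1 pp5 pp6 qp5 qp6
      clear hK1 hK2 hK3
      simp only [List.forall_mem_cons, List.not_mem_nil, false_implies, implies_true, and_true]
      rcases hG1 with rfl | rfl <;>
      refine ⟨⟨?_, ?_, ?_⟩, ⟨?_, ?_, ?_⟩, ⟨?_, ?_, ?_⟩⟩ <;> linarith)
    (by
      clear pp1 pp2 pp3 pp4 qp1 qp2 qp3 qp4 t14 t24 t34 t44 t54 t64 t74 t84 pn pm pr pK pA1 pB1 pp5 pp6 qp5 qp6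
      clear hG1 hG2 hG3
      simp only [List.forall_mem_cons, List.not_mem_nil, false_implies, implies_true, and_true]
      rcases hK1 with rfl | rfl <;>
      refine ⟨⟨?_, ?_, ?_⟩, ⟨?_, ?_, ?_⟩, ⟨?_, ?_, ?_⟩⟩ <;> linarith)
  obtain ⟨t, y, mt, my, k1, k2, k3, k4, k5, k6⟩ := key
  simp only [List.forall_mem_cons, List.not_mem_nil, false_implies, implies_true, and_true]
    at k1 k2 k3 k4
  obtain ⟨k11, k12, k13⟩ := k1
  obtain ⟨k21, k22, k23⟩ := k2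
  obtain ⟨k31, k32, k33⟩ := k3
  obtain ⟨k41, k42, k43⟩ := k4
  refine ⟨r - m - t, t, - y, m + y, by ring, by linarith, k11, by linarith, by linarith, ?_, mt, ?_,
    ?_, by linarith, by linarith, by linarith, by linarith, by ring, ⟨by linarith, by linarith,
    by linarith, by linarith⟩, ⟨by linarith, by linarith, by linarith, by linarith⟩⟩
  · clear * - mt my pn pm pr
    omega
  · clear * - mt my pn pm pr
    omega
  · clear * - mt my pn pm pr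
    omega

/-- The composition attains the prescribed second distance. -/
theorem comp_attR (hP : GoodSet r e P) (hQ : GoodSet r f Q) (ht : TriSt e f c)
    (hc : ∀ α β, 0 ≤ c α β) (hr : r ≠ 4) {n m mP mQ : ℤ}
    (hPn : ∃ u ∈ P, sN u = n) (hQn : ∃ v ∈ Q, sN v = n)
    (hPm : ∃ u ∈ P, sR u = mP) (hQm : ∃ v ∈ Q, sR v = mQ)
    (cn1 : c false false + c false true ≤ r - n) (cn2 : c true false + c true true ≤ n)
    (cm1 : c false false + c true false ≤ r - m) (cm2 : c false true + c true true ≤ m)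
    (pn : (n - c true false - c true true) % 2 = 0) (pm : (m - c false true - c true true) % 2 = 0)
    (pr : (r - c false false - c false true - c true false - c true true) % 2 = 0)
    (y1 : m ≤ mP + mQ) (y2 : m + mP + mQ ≤ 2 * r) (y3 : mP ≤ m + mQ) (y4 : mQ ≤ m + mP) :
    ∃ x ∈ comp r c P Q, sR x = m := by
  obtain ⟨V, A1, A2, L, U, HP⟩ := hP.params
  obtain ⟨W, B1, B2, K, G, HQ⟩ := hQ.params
  obtain ⟨u, hu, hu'⟩ := hPn
  obtain ⟨v, hv, hv'⟩ := hQn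
  obtain ⟨w, hw, hw'⟩ := hPm
  obtain ⟨z, hz, hz'⟩ := hQm
  have au := HP.memA u hu
  have av := HQ.memA v hv
  have lw := HP.memR w hw
  have lz := HQ.memR z hz
  rw [hu'] at au
  rw [hv'] at av
  rw [hw'] at lw
  rw [hz'] at lz
  have pe := (hP.val u hu).par
  have pf := (hQ.val v hv).par
  have pe1 := pe true false
  have pe2 := pe true true
  have pf1 := pf true false
  have pf2 := pf true true
  simp only [sN] at hu' hv'
  have FA := HP.aFacts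
  have FB := HQ.aFacts
  obtain ⟨x1, x2, x3, x4, k1, k2, k3, k4, k5, k6, k7, k8, k9, k10, k11, k12, k13, k14, k15, k16⟩ :=
    range_num r m n (c false false) (c true false) (c false true) (c true true)
      (e false false) (e true false) (e false true) (e true true)
      (f false false) (f true false) (f false true) (f true true)
      (V false false) (V true false) (V false true) (V true true)
      (W false false) (W true false) (W false true) (W true true) A1 A2 B1 B2 L U K G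
      (HP.slabOK n au.1 au.2 (by omega)) (HQ.slabOK n av.1 av.2 (by omega))
      (ht.t1 false) (ht.t2 false) (ht.t3 false) (ht.t4 false) (ht.t1 true) (ht.t2 true)
      (ht.t3 true) (ht.t4 true) FA.a1 FA.a1' FA.a2 FA.a2' FA.a3 FA.a3' FA.a4 FA.a4'
      FB.a1 FB.a1' FB.a2 FB.a2' FB.a3 FB.a3' FB.a4 FB.a4' FA.p1 FB.p1 au.1 au.2 av.1 av.2
      cn1 cn2 cm1 cm2 pn pm (by omega) (by linarith [lw.2, lz.2]) (by linarith [lw.1, lz.1])
      (by linarith [lw.1, lz.2]) (by linarith [lw.2, lz.1])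
  have hbox : CompBox r c V W A1 A2 L U B1 B2 K G (mk x1 x2 x3 x4) := by
    refine ⟨⟨k1, ?_, ?_⟩, k10, k11, k12, k13, ?_, ?_, ?_, ?_, ?_⟩
    · intro α β
      rcases α with _ | _ <;> rcases β with _ | _ <;> assumption
    · intro α β
      rcases α with _ | _ <;> rcases β with _ | _ <;> assumption
    · intro α
      rcases α with _ | _ <;> assumption
    · simp only [sR, mk3, mk4]
      linarith [lw.2, lz.2]
    · simp only [sR, mk3, mk4]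
      linarith [lw.1, lz.1]
    · simp only [sR, mk3, mk4]
      linarith [lw.1, lz.2]
    · simp only [sR, mk3, mk4]
      linarith [lw.2, lz.1]
  rcases hbox.mem HP HQ ht hc hr with h | ⟨s, hz, hn⟩
  · exact ⟨_, h, k14⟩
  · obtain ⟨-, h4, -⟩ := hn false (!s) (by rcases s with _ | _ <;> rfl)
    refine ⟨_, h4, ?_⟩
    rcases s with _ | _ <;> simp [sR, mvA] <;> omega

end

end SPK
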