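import Pool.Agent.SPK.Merge
import Pool.Agent.SPK.Range

/-! Pieces bounded by a ring of length four, and graphs glued from them. -/

namespace SPK

open Finset

/-- The edges of the quadrilateral `a b c d` with the chord `b d`. -/
def ChordRel {V : Type*} (a b c d : V) (p q : V) : Prop :=
  (p = a ∧ q = b) ∨ (p = b ∧ q = c) ∨ (p = c ∧ q = d) ∨ (p = d ∧ q = a) ∨ (p = b ∧ q = d)

/-- `Ring4 S K a b c d`: a piece with vertex set `S` and graph `K`, bounded by the quadrilateral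
`a b c d`. -/
inductive Ring4 {V : Type*} [DecidableEq V] :
    Finset V → SimpleGraph V → V → V → V → V → Prop
  | chord (a b c d : V) (hab : a ≠ b) (hac : a ≠ c) (had : a ≠ d) (hbc : b ≠ c) (hbd : b ≠ d)
      (hcd : c ≠ d) : Ring4 {a, b, c, d} (SimpleGraph.fromRel (ChordRel a b c d)) a b c d
  | rot (S : Finset V) (K : SimpleGraph V) (a b c d : V) (h : Ring4 S K a b c d) :
      Ring4 S K b c d a
  | refl (S : Finset V) (K : SimpleGraph V) (a b c d : V) (h : Ring4 S K a b c d) :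
      Ring4 S K a d c b
  | theta (S₁ S₂ : Finset V) (K₁ K₂ : SimpleGraph V) (a b c d w : V)
      (h₁ : Ring4 S₁ K₁ a b c w) (h₂ : Ring4 S₂ K₂ a w c d) (hS : S₁ ∩ S₂ = {a, w, c}) :
      Ring4 (S₁ ∪ S₂) (K₁ ⊔ K₂) a b c d

/-- Basic facts about pieces. -/
structure RingBasic {V : Type*} [DecidableEq V] (S : Finset V) (K : SimpleGraph V)
    (a b c d : V) : Prop where
  supp : ∀ p q, K.Adj p q → p ∈ S ∧ q ∈ S
  ab : K.Adj a b
  bc : K.Adj b c
  cd : K.Adj c d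
  da : K.Adj d a
  ac : a ≠ c
  bd : b ≠ d

theorem Ring4.basic {V : Type*} [DecidableEq V] {S : Finset V} {K : SimpleGraph V}
    {a b c d : V} (h : Ring4 S K a b c d) : RingBasic S K a b c d := by
  induction h with
  | chord a b c d hab hac had hbc hbd hcd =>
    have key : ∀ p q, ChordRel a b c d p q → p ∈ ({a, b, c, d} : Finset V) ∧
        q ∈ ({a, b, c, d} : Finset V) := by
      rintro p q (⟨rfl, rfl⟩ | ⟨rfl, rfl⟩ | ⟨rfl, rfl⟩ | ⟨rfl, rfl⟩ | ⟨rfl, rfl⟩) <;> simp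
    refine ⟨?_, ?_, ?_, ?_, ?_, hac, hbd⟩
    · intro p q hpq
      rw [SimpleGraph.fromRel_adj] at hpq
      rcases hpq.2 with h1 | h1
      · exact key p q h1
      · exact ⟨(key q p h1).2, (key q p h1).1⟩
    · rw [SimpleGraph.fromRel_adj]
      exact ⟨hab, Or.inl (Or.inl ⟨rfl, rfl⟩)⟩
    · rw [SimpleGraph.fromRel_adj]
      exact ⟨hbc, Or.inl (Or.inr (Or.inl ⟨rfl, rfl⟩))⟩
    · rw [SimpleGraph.fromRel_adj]
      exact ⟨hcd, Or.inl (Or.inr (Or.inr (Or.inl ⟨rfl, rfl⟩)))⟩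
    · rw [SimpleGraph.fromRel_adj]
      exact ⟨had.symm, Or.inl (Or.inr (Or.inr (Or.inr (Or.inl ⟨rfl, rfl⟩))))⟩
  | rot S K a b c d h ih => exact ⟨ih.supp, ih.bc, ih.cd, ih.da, ih.ab, ih.bd, ih.ac.symm⟩
  | refl S K a b c d h ih =>
    exact ⟨ih.supp, ih.da.symm, ih.cd.symm, ih.bc.symm, ih.ab.symm, ih.ac, ih.bd.symm⟩
  | theta S₁ S₂ K₁ K₂ a b c d w h₁ h₂ hS ih₁ ih₂ =>
    refine ⟨?_, Or.inl ih₁.ab, Or.inl ih₁.bc, Or.inr ih₂.cd, Or.inr ih₂.da, ih₁.ac, ?_⟩
    · intro p q hpq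
      rcases hpq with h | h
      · have := ih₁.supp p q h
        exact ⟨Finset.mem_union_left _ this.1, Finset.mem_union_left _ this.2⟩
      · have := ih₂.supp p q h
        exact ⟨Finset.mem_union_right _ this.1, Finset.mem_union_right _ this.2⟩
    · intro hbd
      have hb1 := (ih₁.supp a b ih₁.ab).2
      have hd2 := (ih₂.supp c d ih₂.cd).2
      rw [← hbd] at hd2
      have : b ∈ S₁ ∩ S₂ := Finset.mem_inter.2 ⟨hb1, hd2⟩
      rw [hS] at this
      simp only [Finset.mem_insert, Finset.mem_singleton] at this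
      rcases this with h | h | h
      · exact ih₁.ab.ne h.symm
      · exact ih₁.bd h
      · exact ih₁.bc.ne h

/-- The state set of a piece. -/
theorem Ring4.real {V : Type*} [DecidableEq V] {r : ℕ} (hr : r ≠ 4) {ρ : V → V → ℤ}
    (hρ : RMetric r ρ) {S : Finset V} {K : SimpleGraph V} {a b c d : V}
    (h : Ring4 S K a b c d) : ∃ P : Set St, GoodSet r (rC r ρ a b c d) P ∧
      (∃ x ∈ P, sN x = ρ a c) ∧ (∃ x ∈ P, sR x = ρ b d) ∧
      ∀ x ∈ P, ∃ φ : Fin r → V → Bool, (∀ p q, K.Adj p q → dist φ p q = ρ p q) ∧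
        stt φ a b c d = x := by
  classical
  induction h with
  | chord a b c d hab hac had hbc hbd hcd =>
    obtain ⟨h1, h2, h3⟩ := chord_good hρ a b c d
    refine ⟨_, h1, h2, h3, ?_⟩
    rintro x ⟨hx, hxm⟩
    obtain ⟨φ, k1, k2, k3, k4, k5⟩ := real_state hρ hab hac had hbc hbd hcd hx
    refine ⟨φ, ?_, k5⟩
    have k6 : dist φ b d = ρ b d := by
      rw [← sR_stt φ a b c d, k5, hxm]
    have key : ∀ p q, ChordRel a b c d p q → dist φ p q = ρ p q := by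
      rintro p q (⟨rfl, rfl⟩ | ⟨rfl, rfl⟩ | ⟨rfl, rfl⟩ | ⟨rfl, rfl⟩ | ⟨rfl, rfl⟩) <;> assumption
    intro p q hpq
    rw [SimpleGraph.fromRel_adj] at hpq
    rcases hpq.2 with h | h
    · exact key p q h
    · rw [dist_comm, key q p h, hρ.symm]
  | rot S K a b c d h ih =>
    obtain ⟨P, h1, ⟨x, hx, hx'⟩, ⟨y, hy, hy'⟩, h4⟩ := ih
    refine ⟨{x | swp x ∈ P}, ?_, ⟨swp y, hy, hy'⟩, ⟨swp x, hx, ?_⟩, ?_⟩
    · rw [rC_rot hρ]
      exact h1.swp
    · rw [sR_swp, hx', hρ.symm]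
    · intro z hz
      obtain ⟨φ, k1, k2⟩ := h4 _ hz
      refine ⟨φ, k1, ?_⟩
      rw [stt_rot, k2, swp_swp]
  | refl S K a b c d h ih =>
    obtain ⟨P, h1, h2, ⟨y, hy, hy'⟩, h4⟩ := ih
    refine ⟨P, ?_, h2, ⟨y, hy, by rw [hy', hρ.symm]⟩, ?_⟩
    · rw [rC_ref hρ]
      exact h1
    · intro z hz
      obtain ⟨φ, k1, k2⟩ := h4 _ hz
      refine ⟨φ, k1, ?_⟩
      rw [stt_ref, k2]
  | theta S₁ S₂ K₁ K₂ a b c d w h₁ h₂ hS ih₁ ih₂ =>
    obtain ⟨P, p1, p2, p3, p4⟩ := ih₁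
    obtain ⟨Q, q1, q2, q3, q4⟩ := ih₂
    have B₁ := h₁.basic
    have B₂ := h₂.basic
    obtain ⟨n1, n2, n3, n4⟩ := rC_N hρ a b c d
    obtain ⟨m1, m2, m3⟩ := rC_R hρ a b c d
    have ht := rC_tri hρ a b c d w
    have hr' : (r : ℤ) ≠ 4 := by exact_mod_cast hr
    have hN := comp_attN p1 q1 ht (rC_nonneg ρ a b c d) p2 q2 n1 n2
    have hR := comp_attR p1 q1 ht (rC_nonneg ρ a b c d) hr' p2 q2 p3 q3 n1 n2 m1 m2 n3 m3 n4
      (hρ.tri' b w d) (by have := hρ.per b w d; linarith)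
      (by have := hρ.tri' b d w; rw [hρ.symm d w] at this; exact this)
      (by have := hρ.tri' w b d; rw [hρ.symm w b] at this; linarith)
    have hN0 := hN
    obtain ⟨x0, hx0, -⟩ := hN0
    refine ⟨comp r (rC r ρ a b c d) P Q, comp_good p1 q1 ht (rC_nonneg ρ a b c d) hr' ⟨x0, hx0⟩,
      hN, hR, ?_⟩
    rintro x ⟨hx, u, hu, v, hv, hrel⟩
    obtain ⟨φ₁, s1, s2⟩ := p4 u hu
    obtain ⟨φ₂, t1, t2⟩ := q4 v hv
    rw [← s2, ← t2] at hrel
    obtain ⟨σ, ε, g1, g2, g3, g4⟩ := merge hρ (s1 _ _ B₁.ab) (s1 _ _ B₁.bc) (s1 _ _ B₁.cd)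
      (s1 _ _ B₁.da) (t1 _ _ B₂.ab) (t1 _ _ B₂.bc) (t1 _ _ B₂.cd) (t1 _ _ B₂.da) hx hrel
    have agree : ∀ s ∈ S₂, ∀ m, (if s ∈ S₁ then φ₁ m s else (φ₂ (σ m) s ^^ ε m)) =
        (φ₂ (σ m) s ^^ ε m) := by
      intro s hs m
      by_cases hs1 : s ∈ S₁
      · rw [if_pos hs1]
        have : s ∈ S₁ ∩ S₂ := Finset.mem_inter.2 ⟨hs1, hs⟩
        rw [hS] at this
        simp only [Finset.mem_insert, Finset.mem_singleton] at this
        rcases this with h | h | h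
        · rw [h]; exact g1 m
        · rw [h]; exact g2 m
        · rw [h]; exact g3 m
      · rw [if_neg hs1]
    refine ⟨fun m p => if p ∈ S₁ then φ₁ m p else (φ₂ (σ m) p ^^ ε m), ?_, ?_⟩
    · intro p q hpq
      rw [SimpleGraph.sup_adj] at hpq
      rcases hpq with h | h
      · have h1 := B₁.supp p q h
        rw [← s1 p q h]
        unfold dist
        apply Finset.sum_congr rfl
        intro m _
        simp only [if_pos h1.1, if_pos h1.2]
      · have h1 := B₂.supp p q h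
        rw [← t1 p q h, ← dist_perm φ₂ σ ε]
        unfold dist
        apply Finset.sum_congr rfl
        intro m _
        dsimp only
        rw [agree p h1.1, agree q h1.2]
    · funext α β
      rw [g4 α β]
      unfold stt
      apply Finset.sum_congr rfl
      intro m _
      have ha := (B₁.supp a b B₁.ab).1
      have hb := (B₁.supp a b B₁.ab).2
      have hc := (B₁.supp b c B₁.bc).2
      have hd := (B₂.supp c d B₂.cd).2
      dsimp only
      rw [agree d hd, if_pos ha, if_pos hb, if_pos hc]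

/-- `Built4 S K`: the graph `K` with vertex set `S` is obtained from complete graphs on at most
four vertices and closed pieces by gluing along cliques with at most three vertices. -/
inductive Built4 {V : Type*} [DecidableEq V] : Finset V → SimpleGraph V → Prop
  | clique (S : Finset V) (h : S.card ≤ 4) :
      Built4 S (SimpleGraph.fromRel (fun p q => p ∈ S ∧ q ∈ S))
  | closed (S : Finset V) (K : SimpleGraph V) (a b c d : V) (h : Ring4 S K a b c d) :
      Built4 S (K ⊔ SimpleGraph.edge b d)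
  | glue (S₁ S₂ : Finset V) (K₁ K₂ : SimpleGraph V) (h₁ : Built4 S₁ K₁) (h₂ : Built4 S₂ K₂)
      (hc : (S₁ ∩ S₂).card ≤ 3)
      (hk₁ : ∀ p ∈ S₁ ∩ S₂, ∀ q ∈ S₁ ∩ S₂, p ≠ q → K₁.Adj p q)
      (hk₂ : ∀ p ∈ S₁ ∩ S₂, ∀ q ∈ S₁ ∩ S₂, p ≠ q → K₂.Adj p q) :
      Built4 (S₁ ∪ S₂) (K₁ ⊔ K₂)

theorem built4_support {V : Type*} [DecidableEq V] {S : Finset V} {K : SimpleGraph V}
    (h : Built4 S K) : ∀ p q, K.Adj p q → p ∈ S ∧ q ∈ S := by
  induction h with
  | clique S h =>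
    intro p q hpq
    rw [SimpleGraph.fromRel_adj] at hpq
    rcases hpq.2 with h1 | h1
    · exact h1
    · exact ⟨h1.2, h1.1⟩
  | closed S K a b c d h =>
    have B := h.basic
    intro p q hpq
    rw [SimpleGraph.sup_adj, SimpleGraph.edge_adj] at hpq
    rcases hpq with h1 | ⟨h1 | h1, -⟩
    · exact B.supp p q h1
    · obtain ⟨rfl, rfl⟩ := h1
      exact ⟨(B.supp _ _ B.bc).1, (B.supp _ _ B.cd).2⟩
    · obtain ⟨rfl, rfl⟩ := h1
      exact ⟨(B.supp _ _ B.cd).2, (B.supp _ _ B.bc).1⟩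
  | glue S₁ S₂ K₁ K₂ h₁ h₂ hc hk₁ hk₂ ih₁ ih₂ =>
    intro p q hpq
    rw [SimpleGraph.sup_adj] at hpq
    rcases hpq with h | h
    · have := ih₁ p q h
      exact ⟨Finset.mem_union_left _ this.1, Finset.mem_union_left _ this.2⟩
    · have := ih₂ p q h
      exact ⟨Finset.mem_union_right _ this.1, Finset.mem_union_right _ this.2⟩

/-- Every antipodal metric is realised by cuts on a built graph. -/
theorem built4_real {V : Type*} [DecidableEq V] {r : ℕ} (hr : r ≠ 4) {a : V → V → ℤ}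
    (ha : RMetric r a) {S : Finset V} {K : SimpleGraph V} (h : Built4 S K) :
    ∃ φ : Fin r → V → Bool, ∀ p q, K.Adj p q → dist φ p q = a p q := by
  classical
  induction h with
  | clique S h =>
    obtain ⟨φ, hφ⟩ := real_clique ha S h
    refine ⟨φ, ?_⟩
    intro p q hpq
    rw [SimpleGraph.fromRel_adj] at hpq
    rcases hpq.2 with h1 | h1
    · exact hφ p h1.1 q h1.2
    · exact hφ p h1.2 q h1.1
  | closed S K x b y d h =>
    obtain ⟨P, -, -, ⟨z, hz, hz'⟩, h4⟩ := h.real hr ha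
    obtain ⟨φ, h5, h6⟩ := h4 z hz
    refine ⟨φ, ?_⟩
    have h7 : dist φ b d = a b d := by
      rw [← sR_stt φ x b y d, h6, hz']
    intro p q hpq
    rw [SimpleGraph.sup_adj, SimpleGraph.edge_adj] at hpq
    rcases hpq with h1 | ⟨h1 | h1, -⟩
    · exact h5 p q h1
    · obtain ⟨rfl, rfl⟩ := h1
      exact h7
    · obtain ⟨rfl, rfl⟩ := h1
      rw [dist_comm, h7, ha.symm]
  | glue S₁ S₂ K₁ K₂ h₁ h₂ hc hk₁ hk₂ ih₁ ih₂ =>
    obtain ⟨φ₁, hφ₁⟩ := ih₁
    obtain ⟨φ₂, hφ₂⟩ := ih₂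
    obtain ⟨σ, ε, hσ⟩ := align φ₁ φ₂ (S₁ ∩ S₂) hc (by
      intro p hp q hq hpq
      rw [hφ₁ p q (hk₁ p hp q hq hpq), hφ₂ p q (hk₂ p hp q hq hpq)])
    refine ⟨fun m p => if p ∈ S₁ then φ₁ m p else (φ₂ (σ m) p ^^ ε m), ?_⟩
    intro p q hpq
    rw [SimpleGraph.sup_adj] at hpq
    rcases hpq with h | h
    · have h1 := built4_support h₁ p q h
      rw [← hφ₁ p q h]
      unfold dist
      apply Finset.sum_congr rfl
      intro m _
      simp only [if_pos h1.1, if_pos h1.2]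
    · have h1 := built4_support h₂ p q h
      rw [← hφ₂ p q h, ← dist_perm φ₂ σ ε]
      unfold dist
      apply Finset.sum_congr rfl
      intro m _
      have e : ∀ s ∈ S₂, (if s ∈ S₁ then φ₁ m s else (φ₂ (σ m) s ^^ ε m)) =
          (φ₂ (σ m) s ^^ ε m) := by
        intro s hs
        by_cases hs1 : s ∈ S₁
        · rw [if_pos hs1, hσ m s (Finset.mem_inter.2 ⟨hs1, hs⟩)]
        · rw [if_neg hs1]
      dsimp only
      rw [e p h1.1, e q h1.2]

end SPK
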