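import Pool.Agent.SPK.Final
import Pool.Agent.SPK.Theta

/-! Packing signatures of signed graphs glued from pieces bounded by rings of length four. -/

namespace SPK

open Finset

variable {V E : Type*}

/-- Signed graphs of the classes C10 and C11 on whose underlying graph the antipodal metrics are
realised by cuts pack. -/
theorem main_of_real [Fintype V] [DecidableEq V] (G : SignedGraph V E) (hG : G.C10 ∨ G.C11)
    (g : ℕ) (hg : G.NegGirth g) (K : SimpleGraph V)
    (hK : ∀ a : V → V → ℤ, RMetric g a → ∃ φ : Fin g → V → Bool, ∀ p q, K.Adj p q →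
      dist φ p q = a p q)
    (hsub : ∀ e, K.Adj (G.src e) (G.dst e)) :
    IsGreatest {k | G.PacksInto k} g := by
  classical
  refine ⟨?_, fun k hk => packs_le G hg hk⟩
  obtain ⟨a, ha, he⟩ := class_metric G hG g hg
  obtain ⟨φ, hφ⟩ := hK a ha
  refine packs_of_core G g φ ?_
  intro e
  have h1 := hφ _ _ (hsub e)
  have h6 := he e
  unfold dist at h1
  rcases hneg : G.neg e with _ | _
  · rw [hneg] at h6
    simp only [Bool.not_false, stz_true] at h6
    simp only [Bool.false_xor]
    rw [h1, h6]
  · rw [hneg] at h6
    simp only [Bool.not_true, stz_false] at h6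
    have e2 : ∀ m : Fin g, iz (true ^^ (φ m (G.src e) ^^ φ m (G.dst e))) =
        1 - iz (φ m (G.src e) ^^ φ m (G.dst e)) := by
      intro m
      rcases φ m (G.src e) with _ | _ <;> rcases φ m (G.dst e) with _ | _ <;> simp
    rw [Finset.sum_congr rfl (fun m _ => e2 m), Finset.sum_sub_distrib, h1]
    simp only [Finset.sum_const, Finset.card_univ, Fintype.card_fin, nsmul_eq_mul, mul_one]
    exact h6

/-- Main theorem: signed graphs of the classes C10 and C11 of negative girth different from four
whose underlying graph is a subgraph of a graph in the class `Built4` pack. -/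
theorem main4 [Fintype V] [DecidableEq V] (G : SignedGraph V E) (hG : G.C10 ∨ G.C11)
    (g : ℕ) (hg : G.NegGirth g) (S : Finset V) (K : SimpleGraph V)
    (hK : (g ≠ 4 ∧ Built4 S K) ∨ Built S K)
    (hsub : ∀ e, K.Adj (G.src e) (G.dst e)) :
    IsGreatest {k | G.PacksInto k} g := by
  refine main_of_real G hG g hg K ?_ hsub
  intro a ha
  rcases hK with ⟨h4, hK⟩ | hK
  · exact built4_real h4 ha hK
  · exact built_real ha hK

end SPK
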