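import Pool.Agent.SPK.Pieces

/-! Merging two families of cuts along a path of length two. -/

namespace SPK

open Finset

variable {V : Type*} {r : ℕ}

/-- The numerical core of the merging lemma in one class. -/
theorem merge_core (p00 p01 p10 p11 q00 q01 q10 q11 x1 x3 : ℤ)
    (hp00 : 0 ≤ p00) (hp01 : 0 ≤ p01) (hp10 : 0 ≤ p10) (hp11 : 0 ≤ p11)
    (hq00 : 0 ≤ q00) (hq01 : 0 ≤ q01) (hq10 : 0 ≤ q10) (hq11 : 0 ≤ q11)
    (e0 : p00 + p01 = q00 + q01) (e1 : p10 + p11 = q10 + q11)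
    (hs : x1 + x3 = p00 + p01 + p10 + p11)
    (h1 : x3 ≤ (p01 + p10) + (q01 + q10)) (h2 : x3 ≤ (p00 + p11) + (q00 + q11))
    (h3 : x1 ≤ (p00 + p11) + (q01 + q10)) (h4 : x1 ≤ (p01 + p10) + (q00 + q11))
    (g1 : (p01 + p11) - (q01 + q11) ≤ x3) (g2 : (q01 + q11) - (p01 + p11) ≤ x3)
    (g3 : (p01 + p11) + (q01 + q11) - (p00 + p01 + p10 + p11) ≤ x1)
    (g4 : (p00 + p01 + p10 + p11) - (p01 + p11) - (q01 + q11) ≤ x1)
    (hpar : (x3 - (p01 + p11) - (q01 + q11)) % 2 = 0) :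
    ∃ k0 k1 : ℤ, 0 ≤ k0 ∧ 0 ≤ k1 ∧ k0 ≤ p01 ∧ k0 ≤ q01 ∧ k1 ≤ p11 ∧ k1 ≤ q11 ∧
      q01 - k0 ≤ p00 ∧ q11 - k1 ≤ p10 ∧
      x3 = (p01 - k0) + (q01 - k0) + (p11 - k1) + (q11 - k1) := by
  -- `k1` is as large as possible
  have key : ∃ k1 : ℤ, 0 ≤ k1 ∧ k1 ≤ p11 ∧ k1 ≤ q11 ∧ q11 - k1 ≤ p10 ∧
      2 * k1 ≤ p01 + q01 + p11 + q11 - x3 ∧
      2 * k1 ≤ p01 + q01 + p11 + q11 - x3 - 2 * (q01 - p00) ∧
      p01 + q01 + p11 + q11 - x3 - 2 * k1 ≤ 2 * p01 ∧
      p01 + q01 + p11 + q11 - x3 - 2 * k1 ≤ 2 * q01 := by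
    by_cases c1 : 2 * min p11 q11 ≤ min (p01 + q01 + p11 + q11 - x3)
        (p01 + q01 + p11 + q11 - x3 - 2 * (q01 - p00))
    · refine ⟨min p11 q11, ?_, ?_, ?_, ?_, ?_, ?_, ?_, ?_⟩ <;> omega
    · refine ⟨min (p01 + q01 + p11 + q11 - x3)
        (p01 + q01 + p11 + q11 - x3 - 2 * (q01 - p00)) / 2, ?_, ?_, ?_, ?_, ?_, ?_, ?_, ?_⟩ <;>
        omega
  obtain ⟨k1, a1, a2, a3, a4, a5, a6, a7, a8⟩ := key
  exact ⟨(p01 + q01 + p11 + q11 - x3) / 2 - k1, k1, by omega, a1, by omega, by omega, a2, a3,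
    by omega, a4, by omega⟩

theorem rF_rel {ρ : V → V → ℤ} (h : RMetric r ρ) (a b c d w : V) (α : Bool) :
    rF r (ρ a b) (ρ b c) (ρ c w) (ρ w a) α false - rF r (ρ a b) (ρ b c) (ρ c w) (ρ w a) α true =
      rF r (ρ a w) (ρ w c) (ρ c d) (ρ d a) α false +
        rF r (ρ a w) (ρ w c) (ρ c d) (ρ d a) α true ∧
    rF r (ρ a b) (ρ b c) (ρ c d) (ρ d a) α true =
      rF r (ρ a b) (ρ b c) (ρ c w) (ρ w a) α false -
        rF r (ρ a w) (ρ w c) (ρ c d) (ρ d a) α false ∧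
    rF r (ρ a b) (ρ b c) (ρ c d) (ρ d a) α false =
      rF r (ρ a b) (ρ b c) (ρ c w) (ρ w a) α false -
        rF r (ρ a w) (ρ w c) (ρ c d) (ρ d a) α true := by
  have p1 := h.even a b c
  have p2 := h.even a w c
  have p3 := h.even c d a
  have e1 := h.symm w a
  have e2 := h.symm w c
  have e3 := h.symm c a
  rcases α with _ | _ <;> simp only [rF, mk1, mk2, mk3, mk4] <;> refine ⟨?_, ?_, ?_⟩ <;> omega

theorem sum_fib {T : Type*} [Fintype T] [DecidableEq T] (f : Fin r → T) (F : T → ℤ) :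
    ∑ m, F (f m) = ∑ t, F t * (Fintype.card {m // f m = t} : ℤ) := by
  rw [← Finset.sum_fiberwise Finset.univ f (fun m => F (f m))]
  apply Finset.sum_congr rfl
  intro t _
  rw [Fintype.card_subtype]
  have : ∀ m ∈ Finset.univ.filter (fun m => f m = t), F (f m) = F t := by
    intro m hm
    rw [(Finset.mem_filter.1 hm).2]
  rw [Finset.sum_congr rfl this, Finset.sum_const, nsmul_eq_mul]
  ring

theorem merge [DecidableEq V] {ρ : V → V → ℤ} (hρ : RMetric r ρ) {a b c d w : V}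
    {φ₁ φ₂ : Fin r → V → Bool} (h1 : dist φ₁ a b = ρ a b) (h2 : dist φ₁ b c = ρ b c)
    (h3 : dist φ₁ c w = ρ c w) (h4 : dist φ₁ w a = ρ w a) (k1 : dist φ₂ a w = ρ a w)
    (k2 : dist φ₂ w c = ρ w c) (k3 : dist φ₂ c d = ρ c d) (k4 : dist φ₂ d a = ρ d a)
    {x : St} (hx : Valid r (rC r ρ a b c d) x)
    (hrel : Rel (stt φ₁ a b c w) (stt φ₂ a w c d) x) :
    ∃ (σ : Fin r ≃ Fin r) (ε : Fin r → Bool), (∀ m, φ₁ m a = (φ₂ (σ m) a ^^ ε m)) ∧
      (∀ m, φ₁ m w = (φ₂ (σ m) w ^^ ε m)) ∧ (∀ m, φ₁ m c = (φ₂ (σ m) c ^^ ε m)) ∧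
      ∀ α β, x α β = ∑ m, iz (((φ₁ m a ^^ φ₁ m c) == α) &&
        ((φ₁ m b ^^ (φ₂ (σ m) d ^^ ε m)) == β)) := by
  classical
  let P := cell φ₁ a b c w
  let Q := cell φ₂ a w c d
  have cdP : ∀ α β, rF r (ρ a b) (ρ b c) (ρ c w) (ρ w a) α β = P α β true - P α β false :=
    fun α β => cell_diff h1 h2 h3 h4 α β
  have cdQ : ∀ α β, rF r (ρ a w) (ρ w c) (ρ c d) (ρ d a) α β = Q α β true - Q α β false :=
    fun α β => cell_diff k1 k2 k3 k4 α β
  have nP : ∀ α β γ, 0 ≤ P α β γ := fun α β γ => cell_nonneg _ _ _ _ _ _ _ _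
  have nQ : ∀ α β γ, 0 ≤ Q α β γ := fun α β γ => cell_nonneg _ _ _ _ _ _ _ _
  have sP : ∀ α β, stt φ₁ a b c w α β = P α β false + P α β true := fun α β => stt_eq _ _ _ _ _ _ _
  have sQ : ∀ α β, stt φ₂ a w c d α β = Q α β false + Q α β true := fun α β => stt_eq _ _ _ _ _ _ _
  have base : ∀ α, P α false false + P α true true = Q α false false + Q α true false ∧
      P α true false + P α false true = Q α true true + Q α false true ∧
      x α false + x α true = P α false false + P α true true + P α true false +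
        P α false true := by
    intro α
    obtain ⟨r1, r2, r3⟩ := rF_rel hρ a b c d w α
    have s1 := hrel.s α
    have t1 := hrel.t α
    rw [sP, sP] at s1
    rw [sQ, sQ] at t1
    rw [cdP, cdP, cdQ, cdQ] at r1
    refine ⟨?_, ?_, ?_⟩ <;> omega
  have core : ∀ α, ∃ k0 k1 : ℤ, 0 ≤ k0 ∧ 0 ≤ k1 ∧ k0 ≤ P α true true ∧ k0 ≤ Q α true false ∧
      k1 ≤ P α false true ∧ k1 ≤ Q α false true ∧ Q α true false - k0 ≤ P α false false ∧
      Q α false true - k1 ≤ P α true false ∧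
      x α true = (P α true true - k0) + (Q α true false - k0) + (P α false true - k1) +
        (Q α false true - k1) := by
    intro α
    obtain ⟨b1, b2, b3⟩ := base α
    obtain ⟨r1, r2, r3⟩ := rF_rel hρ a b c d w α
    obtain ⟨g1, g2, g3, g4⟩ := hrel.h α
    rw [sP, sQ] at g1 g2 g3 g4
    rw [cdP, cdQ] at r2 r3
    have l1 := abs_le.1 (hx.le α true)
    have l2 := abs_le.1 (hx.le α false)
    have l3 := hx.par α true
    unfold rC at l3
    rw [r2] at l1 l3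
    rw [r3] at l2
    have l4 : (x α true - (P α false true - P α false false - (Q α false true -
        Q α false false))) % 2 = 0 := by
      rcases abs_cases (P α false true - P α false false - (Q α false true -
        Q α false false)) with ⟨h, -⟩ | ⟨h, -⟩ <;> rw [h] at l3 <;> omega
    obtain ⟨l11, l12⟩ := l1
    obtain ⟨l21, l22⟩ := l2
    exact merge_core (P α false false) (P α true true) (P α true false) (P α false true)
      (Q α false false) (Q α true false) (Q α true true) (Q α false true) (x α false) (x α true)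
      (nP _ _ _) (nP _ _ _) (nP _ _ _) (nP _ _ _) (nQ _ _ _) (nQ _ _ _) (nQ _ _ _) (nQ _ _ _)
      b1 b2 (by linarith) (by linarith) (by linarith) (by linarith) (by linarith) (by linarith)
      (by linarith) (by linarith) (by linarith) (by omega)
  choose k0 k1 c1 c2 c3 c4 c5 c6 c7 c8 c9 using core
  -- the types
  let t₁ : Fin r → Bool × Bool × Bool := fun m =>
    ((φ₁ m a ^^ φ₁ m c), (φ₁ m a ^^ φ₁ m w), (φ₁ m a ^^ φ₁ m b))
  let t₂ : Fin r → Bool × Bool × Bool := fun m =>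
    ((φ₂ m a ^^ φ₂ m c), (φ₂ m a ^^ φ₂ m w), (φ₂ m a ^^ φ₂ m d))
  have ct₁ : ∀ α ω γ, (Fintype.card {m // t₁ m = (α, ω, γ)} : ℤ) = P α (ω ^^ γ) γ := by
    intro α ω γ
    have := cell_eq_card φ₁ a b c w α (ω ^^ γ) γ
    refine Eq.trans ?_ this.symm
    norm_cast
    apply Fintype.card_congr
    apply Equiv.subtypeEquivRight
    intro m
    simp only [t₁, Prod.mk.injEq]
    rcases φ₁ m a with _ | _ <;> rcases φ₁ m b with _ | _ <;> rcases φ₁ m w with _ | _ <;>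
      rcases ω with _ | _ <;> rcases γ with _ | _ <;> simp
  have ct₂ : ∀ α ω δ, (Fintype.card {m // t₂ m = (α, ω, δ)} : ℤ) = Q α (ω ^^ δ) ω := by
    intro α ω γ
    have := cell_eq_card φ₂ a w c d α (ω ^^ γ) ω
    refine Eq.trans ?_ this.symm
    norm_cast
    apply Fintype.card_congr
    apply Equiv.subtypeEquivRight
    intro m
    simp only [t₂, Prod.mk.injEq]
    rcases φ₂ m a with _ | _ <;> rcases φ₂ m d with _ | _ <;> rcases φ₂ m w with _ | _ <;>
      rcases ω with _ | _ <;> rcases γ with _ | _ <;> simp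
  let K : Bool → Bool → ℤ := fun α ω => if ω then k1 α else k0 α
  let n₁ : Bool × Bool × Bool → ℕ := fun t =>
    (if t.2.2 then K t.1 t.2.1 else Q t.1 (t.2.1 ^^ true) t.2.1 - K t.1 t.2.1).toNat
  let n₂ : Bool × Bool × Bool → ℕ := fun t =>
    (if t.2.2 then K t.1 t.2.1 else P t.1 (t.2.1 ^^ true) true - K t.1 t.2.1).toNat
  obtain ⟨s₁, hs1, hs1'⟩ := exists_refine t₁ n₁ (by
    rintro ⟨α, ω, γ⟩
    have := ct₁ α ω γ
    have b1 := base α
    have := c1 α; have := c2 α; have := c3 α; have := c4 α; have := c5 α; have := c6 α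
    have := c7 α; have := c8 α
    rcases ω with _ | _ <;> rcases γ with _ | _ <;> simp [n₁, K] at * <;> omega)
  obtain ⟨s₂, hs2, hs2'⟩ := exists_refine t₂ n₂ (by
    rintro ⟨α, ω, γ⟩
    have := ct₂ α ω γ
    have b1 := base α
    have := c1 α; have := c2 α; have := c3 α; have := c4 α; have := c5 α; have := c6 α
    have := c7 α; have := c8 α
    rcases ω with _ | _ <;> rcases γ with _ | _ <;> simp [n₂, K] at * <;> omega)
  have cg : ∀ α ω γ δ, Fintype.card {m // (((t₂ m).1, (t₂ m).2.1, s₂ m), (t₂ m).2.2) =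
      ((α, ω, γ), δ)} = Fintype.card {m // (t₂ m, s₂ m) = ((α, ω, δ), γ)} := by
    intro α ω γ δ
    apply Fintype.card_congr
    apply Equiv.subtypeEquivRight
    intro m
    rcases t₂ m with ⟨y1, y2, y3⟩
    simp only [Prod.mk.injEq]
    tauto
  have cf : ∀ α ω γ δ, Fintype.card {m // (t₁ m, s₁ m) = ((α, ω, γ), δ)} =
      Fintype.card {m // (((t₂ m).1, (t₂ m).2.1, s₂ m), (t₂ m).2.2) = ((α, ω, γ), δ)} := by
    intro α ω γ δ
    rw [cg]
    have a1 := ct₁ α ω γ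
    have a2 := ct₂ α ω δ
    have b1 := base α
    have d1 := c1 α
    have d2 := c2 α
    have d3 := c3 α
    have d4 := c4 α
    have d5 := c5 α
    have d6 := c6 α
    have d7 := c7 α
    have d8 := c8 α
    have e1 := hs1 (α, ω, γ)
    have e2 := hs1' (α, ω, γ)
    have e3 := hs2 (α, ω, δ)
    have e4 := hs2' (α, ω, δ)
    rcases δ with _ | _ <;> rcases γ with _ | _ <;> simp only [e1, e2, e3, e4] <;>
      rcases ω with _ | _ <;> simp [n₁, n₂, K] at a1 a2 ⊢ <;> omega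
  obtain ⟨σ, hσ⟩ := exists_perm (fun m => (t₁ m, s₁ m))
    (fun m => (((t₂ m).1, (t₂ m).2.1, s₂ m), (t₂ m).2.2)) (by
      rintro ⟨⟨α, ω, γ⟩, δ⟩
      exact cf α ω γ δ)
  have hσ' : ∀ m, (φ₂ (σ m) a ^^ φ₂ (σ m) c) = (φ₁ m a ^^ φ₁ m c) ∧
      (φ₂ (σ m) a ^^ φ₂ (σ m) w) = (φ₁ m a ^^ φ₁ m w) ∧ (φ₂ (σ m) a ^^ φ₂ (σ m) d) = s₁ m := by
    intro m
    have := hσ m
    simp only [t₁, t₂, Prod.mk.injEq] at this
    tauto
  refine ⟨σ, fun m => φ₁ m a ^^ φ₂ (σ m) a, ?_, ?_, ?_, ?_⟩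
  · intro m
    dsimp only
    rcases φ₁ m a with _ | _ <;> rcases φ₂ (σ m) a with _ | _ <;> rfl
  · intro m
    have := (hσ' m).2.1
    dsimp only
    revert this
    rcases φ₁ m a with _ | _ <;> rcases φ₂ (σ m) a with _ | _ <;>
      rcases φ₁ m w with _ | _ <;> rcases φ₂ (σ m) w with _ | _ <;> simp
  · intro m
    have := (hσ' m).1
    dsimp only
    revert this
    rcases φ₁ m a with _ | _ <;> rcases φ₂ (σ m) a with _ | _ <;>
      rcases φ₁ m c with _ | _ <;> rcases φ₂ (σ m) c with _ | _ <;> simp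
  · have hkey : ∀ α β, ∑ m, iz (((φ₁ m a ^^ φ₁ m c) == α) &&
        ((φ₁ m b ^^ (φ₂ (σ m) d ^^ (φ₁ m a ^^ φ₂ (σ m) a))) == β)) =
        ∑ t : (Bool × Bool × Bool) × Bool, iz ((t.1.1 == α) && ((t.1.2.2 ^^ t.2) == β)) *
          (Fintype.card {m // (t₁ m, s₁ m) = t} : ℤ) := by
      intro α β
      rw [← sum_fib]
      apply Finset.sum_congr rfl
      intro m _
      have := (hσ' m).2.2
      rw [← this]
      simp only [t₁]
      rcases φ₁ m a with _ | _ <;> rcases φ₁ m b with _ | _ <;> rcases φ₁ m c with _ | _ <;>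
        rcases φ₂ (σ m) a with _ | _ <;> rcases φ₂ (σ m) d with _ | _ <;>
        rcases α with _ | _ <;> rcases β with _ | _ <;> rfl
    have hT : ∀ α ω γ, (Fintype.card {m // (t₁ m, s₁ m) = ((α, ω, γ), true)} : ℤ) =
        if γ then K α ω else Q α (ω ^^ true) ω - K α ω := by
      intro α ω γ
      rw [hs1]
      have d1 := c1 α
      have d2 := c2 α
      have d4 := c4 α
      have d6 := c6 α
      rcases ω with _ | _ <;> rcases γ with _ | _ <;> simp [n₁, K] <;> omega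
    have hF : ∀ α ω γ, (Fintype.card {m // (t₁ m, s₁ m) = ((α, ω, γ), false)} : ℤ) =
        P α (ω ^^ γ) γ - if γ then K α ω else Q α (ω ^^ true) ω - K α ω := by
      intro α ω γ
      rw [hs1']
      have a1 := ct₁ α ω γ
      have d1 := c1 α
      have d2 := c2 α
      have d3 := c3 α
      have d4 := c4 α
      have d5 := c5 α
      have d6 := c6 α
      have d7 := c7 α
      have d8 := c8 α
      rcases ω with _ | _ <;> rcases γ with _ | _ <;> simp [n₁, K] at a1 ⊢ <;> omega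
    intro α β
    dsimp only
    rw [hkey]
    simp only [Fintype.sum_prod_type, Fintype.sum_bool, hT, hF]
    obtain ⟨b1, b2, b3⟩ := base α
    have b4 := c9 α
    rcases α with _ | _ <;> rcases β with _ | _ <;> simp [K] <;> omega

end SPK
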