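import Pool.Agent.SPK.Cells

/-! Realisation of states: chord pieces. -/

namespace SPK

open Finset

theorem exists_fun_card {T : Type*} [Fintype T] [DecidableEq T] (r : ℕ) (n : T → ℕ)
    (h : ∑ t, n t = r) : ∃ f : Fin r → T, ∀ t, Fintype.card {m // f m = t} = n t := by
  have e : Fin r ≃ Σ t, Fin (n t) := Fintype.equivOfCardEq (by simp [h])
  refine ⟨fun m => (e m).1, ?_⟩
  intro t
  have e1 : {m // (e m).1 = t} ≃ {s : Σ t, Fin (n t) // s.1 = t} :=
    e.subtypeEquiv (fun _ => Iff.rfl)
  rw [Fintype.card_congr (e1.trans (Equiv.sigmaSubtype t))]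
  simp

theorem exists_refine {T : Type*} [DecidableEq T] {r : ℕ} (t : Fin r → T) (n : T → ℕ)
    (h : ∀ τ, n τ ≤ Fintype.card {m // t m = τ}) :
    ∃ s : Fin r → Bool, (∀ τ, Fintype.card {m // (t m, s m) = (τ, true)} = n τ) ∧
      ∀ τ, Fintype.card {m // (t m, s m) = (τ, false)} = Fintype.card {m // t m = τ} - n τ := by
  classical
  have key : ∀ τ, ∃ A ⊆ Finset.univ.filter (fun m => t m = τ), A.card = n τ := by
    intro τ
    apply Finset.exists_subset_card_eq
    have := h τ
    rwa [Fintype.card_subtype] at this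
  choose A hA hc using key
  refine ⟨fun m => decide (m ∈ A (t m)), ?_, ?_⟩
  · intro τ
    rw [Fintype.card_subtype, ← hc τ]
    congr 1
    ext m
    simp only [Prod.mk.injEq, decide_eq_true_eq, Finset.mem_filter, Finset.mem_univ, true_and]
    constructor
    · rintro ⟨h1, h2⟩
      rwa [h1] at h2
    · intro h1
      have h2 := (Finset.mem_filter.1 (hA τ h1)).2
      exact ⟨h2, by rwa [h2]⟩
  · intro τ
    rw [Fintype.card_subtype, Fintype.card_subtype, ← hc τ, ← Finset.card_sdiff_of_subset (hA τ)]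
    congr 1
    ext m
    simp only [Prod.mk.injEq, decide_eq_false_iff_not, Finset.mem_filter, Finset.mem_univ,
      true_and, Finset.mem_sdiff]
    constructor
    · rintro ⟨h1, h2⟩
      rw [h1] at h2
      exact ⟨h1, h2⟩
    · rintro ⟨h1, h2⟩
      exact ⟨h1, by rwa [h1]⟩

theorem card_eq_sum {r : ℕ} (P : Fin r → Bool) :
    (Fintype.card {m // P m = true} : ℤ) = ∑ m, iz (P m) := by
  classical
  rw [Fintype.card_subtype, Finset.card_filter]
  push_cast
  apply Finset.sum_congr rfl
  intro m _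
  rcases P m with _ | _ <;> simp

variable {V : Type*} {r : ℕ}

theorem cell_eq_card [DecidableEq V] (φ : Fin r → V → Bool) (a b c d : V) (α β γ : Bool) :
    cell φ a b c d α β γ = (Fintype.card {m // ((φ m a ^^ φ m c), (φ m b ^^ φ m d),
      (φ m a ^^ φ m b)) = (α, β, γ)} : ℤ) := by
  have h := card_eq_sum (fun m => (((φ m a ^^ φ m c) == α) && (((φ m b ^^ φ m d) == β) &&
    ((φ m a ^^ φ m b) == γ))))
  unfold cell
  rw [← h]
  norm_cast
  apply Fintype.card_congr
  apply Equiv.subtypeEquivRight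
  intro m
  simp only [Prod.mk.injEq, Bool.and_eq_true, beq_iff_eq]

/-- Realisation of a valid state on four points with all the ring distances. -/
theorem real_state [DecidableEq V] {ρ : V → V → ℤ} (hρ : RMetric r ρ) {a b c d : V}
    (hab : a ≠ b) (hac : a ≠ c) (had : a ≠ d) (hbc : b ≠ c) (hbd : b ≠ d) (hcd : c ≠ d)
    {x : St} (hx : Valid r (rC r ρ a b c d) x) :
    ∃ φ : Fin r → V → Bool, dist φ a b = ρ a b ∧ dist φ b c = ρ b c ∧ dist φ c d = ρ c d ∧
      dist φ d a = ρ d a ∧ stt φ a b c d = x := by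
  classical
  have p1 := hρ.even a b c
  have p3 := hρ.even c d a
  have e3 := hρ.symm c a
  -- bounds
  have hle : ∀ α β, - x α β ≤ rF r (ρ a b) (ρ b c) (ρ c d) (ρ d a) α β ∧
      rF r (ρ a b) (ρ b c) (ρ c d) (ρ d a) α β ≤ x α β := by
    intro α β
    exact abs_le.1 (hx.le α β)
  have hpar : ∀ α β, (x α β - rF r (ρ a b) (ρ b c) (ρ c d) (ρ d a) α β) % 2 = 0 := by
    intro α β
    have h1 := hx.par α β
    unfold rC at h1
    rcases abs_cases (rF r (ρ a b) (ρ b c) (ρ c d) (ρ d a) α β) with ⟨h, -⟩ | ⟨h, -⟩ <;>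
      rw [h] at h1 <;> omega
  let n : Bool × Bool × Bool → ℕ := fun t =>
    ((x t.1 t.2.1 + (if t.2.2 then 1 else -1) * rF r (ρ a b) (ρ b c) (ρ c d) (ρ d a) t.1 t.2.1) /
      2).toNat
  have hn0 : ∀ α β, (n (α, β, false) : ℤ) =
      (x α β - rF r (ρ a b) (ρ b c) (ρ c d) (ρ d a) α β) / 2 := by
    intro α β
    have h1 := hle α β
    simp only [n, Bool.false_eq_true, if_false]
    omega
  have hn1 : ∀ α β, (n (α, β, true) : ℤ) =
      (x α β + rF r (ρ a b) (ρ b c) (ρ c d) (ρ d a) α β) / 2 := by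
    intro α β
    have h1 := hle α β
    simp only [n, if_true]
    omega
  have hsum : ∑ t, n t = r := by
    have h1 := hx.sum
    simp only [Fintype.sum_prod_type, Fintype.sum_bool]
    have a1 := hn0 false false
    have a2 := hn0 false true
    have a3 := hn0 true false
    have a4 := hn0 true true
    have b1 := hn1 false false
    have b2 := hn1 false true
    have b3 := hn1 true false
    have b4 := hn1 true true
    have q1 := hpar false false
    have q2 := hpar false true
    have q3 := hpar true false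
    have q4 := hpar true true
    omega
  obtain ⟨f, hf⟩ := exists_fun_card r n hsum
  let φ : Fin r → V → Bool := fun m p => if p = a then false else if p = b then (f m).2.2
    else if p = c then (f m).1 else ((f m).2.1 ^^ (f m).2.2)
  have fa : ∀ m, φ m a = false := by intro m; simp [φ]
  have fb : ∀ m, φ m b = (f m).2.2 := by intro m; simp [φ, hab.symm]
  have fc : ∀ m, φ m c = (f m).1 := by intro m; simp [φ, hac.symm, hbc.symm]
  have fd : ∀ m, φ m d = ((f m).2.1 ^^ (f m).2.2) := by
    intro m; simp [φ, had.symm, hbd.symm, hcd.symm]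
  have hcell : ∀ α β γ, cell φ a b c d α β γ = (n (α, β, γ) : ℤ) := by
    intro α β γ
    rw [cell_eq_card, ← hf]
    norm_cast
    apply Fintype.card_congr
    apply Equiv.subtypeEquivRight
    intro m
    rw [fa, fb, fc, fd]
    obtain ⟨f1, f2, f3⟩ := f m
    rcases f1 with _ | _ <;> rcases f2 with _ | _ <;> rcases f3 with _ | _ <;>
      rcases α with _ | _ <;> rcases β with _ | _ <;> rcases γ with _ | _ <;> simp
  have a1 := hn0 false false
  have a2 := hn0 false true
  have a3 := hn0 true false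
  have a4 := hn0 true true
  have b1 := hn1 false false
  have b2 := hn1 false true
  have b3 := hn1 true false
  have b4 := hn1 true true
  have q1 := hpar false false
  have q2 := hpar false true
  have q3 := hpar true false
  have q4 := hpar true true
  have hs := hx.sum
  refine ⟨φ, ?_, ?_, ?_, ?_, ?_⟩
  · rw [dist_ab φ a b c d]
    simp only [hcell, a1, a2, a3, a4, b1, b2, b3, b4]
    simp only [rF, mk1, mk2, mk3, mk4] at q1 q2 q3 q4 ⊢
    omega
  · rw [dist_bc φ a b c d]
    simp only [hcell, a1, a2, a3, a4, b1, b2, b3, b4]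
    simp only [rF, mk1, mk2, mk3, mk4] at q1 q2 q3 q4 ⊢
    omega
  · rw [dist_cd φ a b c d]
    simp only [hcell, a1, a2, a3, a4, b1, b2, b3, b4]
    simp only [rF, mk1, mk2, mk3, mk4] at q1 q2 q3 q4 ⊢
    omega
  · rw [dist_da φ a b c d]
    simp only [hcell, a1, a2, a3, a4, b1, b2, b3, b4]
    simp only [rF, mk1, mk2, mk3, mk4] at q1 q2 q3 q4 ⊢
    omega
  · funext α β
    rw [stt_eq, hcell, hcell, hn0, hn1]
    have := hpar α β
    omega

/-- The state set of a chord. -/
def chordSet (r : ℤ) (e : St) (m : ℤ) : Set St := {x | Valid r e x ∧ sR x = m}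

theorem sR_mvA (x : St) (a b : Bool) : sR (mvA x a b) = sR x := by
  rcases a with _ | _ <;> rcases b with _ | _ <;> simp [sR, mvA] <;> omega

theorem sN_mvB (x : St) (a b : Bool) : sN (mvB x a b) = sN x := by
  rcases a with _ | _ <;> rcases b with _ | _ <;> simp [sN, mvB] <;> omega

theorem exists_valid {r n m : ℤ} {e : St}
    (h1 : e false false + e false true ≤ r - n) (h2 : e true false + e true true ≤ n)
    (h3 : e false false + e true false ≤ r - m) (h4 : e false true + e true true ≤ m)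
    (p1 : (n - e true false - e true true) % 2 = 0)
    (p2 : (m - e false true - e true true) % 2 = 0)
    (p3 : (r - e false false - e false true - e true false - e true true) % 2 = 0) :
    ∃ x, Valid r e x ∧ sN x = n ∧ sR x = m := by
  have key : ∃ t : ℤ, e true true ≤ t ∧ e false false - r + n + m ≤ t ∧
      t ≤ n - e true false ∧ t ≤ m - e false true ∧ (t - e true true) % 2 = 0 := by
    by_cases g : e false false - r + n + m ≤ e true true
    · exact ⟨e true true, by omega, by omega, by omega, by omega, by omega⟩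
    · exact ⟨e false false - r + n + m, by omega, by omega, by omega, by omega, by omega⟩
  obtain ⟨t, k1, k2, k3, k4, k5⟩ := key
  refine ⟨mk (r - n - m + t) (n - t) (m - t) t, ⟨?_, ?_, ?_⟩, ?_, ?_⟩
  · simp only [mk1, mk2, mk3, mk4]; ring
  · intro α β
    rcases α with _ | _ <;> rcases β with _ | _ <;> simp only [mk1, mk2, mk3, mk4] <;> omega
  · intro α β
    rcases α with _ | _ <;> rcases β with _ | _ <;> simp only [mk1, mk2, mk3, mk4] <;> omega
  · simp only [sN, mk2, mk4]; ring
  · simp only [sR, mk3, mk4]; ring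

theorem rC_R {ρ : V → V → ℤ} (h : RMetric r ρ) (a b c d : V) :
    rC r ρ a b c d false false + rC r ρ a b c d true false ≤ r - ρ b d ∧
      rC r ρ a b c d false true + rC r ρ a b c d true true ≤ ρ b d ∧
      (ρ b d - rC r ρ a b c d false true - rC r ρ a b c d true true) % 2 = 0 := by
  obtain ⟨h1, h2, h3, -⟩ := rC_N h b c d a
  rw [rC_rot h a b c d] at h1 h2 h3
  exact ⟨h1, h2, h3⟩

theorem chord_good {ρ : V → V → ℤ} (h : RMetric r ρ) (a b c d : V) :
    GoodSet r (rC r ρ a b c d) (chordSet r (rC r ρ a b c d) (ρ b d)) ∧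
      (∃ x ∈ chordSet r (rC r ρ a b c d) (ρ b d), sN x = ρ a c) ∧
      (∃ x ∈ chordSet r (rC r ρ a b c d) (ρ b d), sR x = ρ b d) := by
  obtain ⟨n1, n2, n3, n4⟩ := rC_N h a b c d
  obtain ⟨m1, m2, m3⟩ := rC_R h a b c d
  obtain ⟨x, hx, hxn, hxm⟩ := exists_valid n1 n2 m1 m2 n3 m3 n4
  refine ⟨⟨rC_nonneg ρ a b c d, fun y hy => hy.1, ⟨x, hx, hxm⟩, ?_, ?_⟩, ⟨x, ⟨hx, hxm⟩, hxn⟩,
    ⟨x, ⟨hx, hxm⟩, hxm⟩⟩
  · intro y hy α β h2
    left
    exact ⟨hy.1.mvA h2, by rw [sR_mvA]; exact hy.2⟩
  · intro y hy hh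
    left
    obtain ⟨-, -, -, ⟨u, hu, hu'⟩, ⟨v, hv, hv'⟩⟩ := hh
    refine ⟨hy, ?_⟩
    have h1 := hu.2
    have h2 := hv.2
    omega

end SPK
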