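import Mathlib

/-! Linear functions used for rings (wheels with two hubs). -/

namespace SPK

/-- `x` or its complement in `r`. -/
def stv (b : Bool) (x r : ℝ) : ℝ := if b then x else r - x

/-- Twice the mass of the transition from side `i` to side `j` at position `k`. -/
def Tf (s c : ℕ → ℝ) (r : ℝ) (k : ℕ) (i j : Bool) : ℝ :=
  stv i (s k) r + stv j (s (k + 1)) r - stv (i == j) (c k) r

/-- The mixed inequality between the positions `a` and `b`. -/
def Qf (s t : ℕ → ℝ) (r : ℝ) (a b : ℕ) (σ τ : Bool) : ℝ :=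
  stv τ (s b) r + stv τ (t b) r + stv σ (s a) r + stv (!σ) (t a) r - r

/-- The length of the rim walk with signs `θ`. -/
def rimf (n : ℕ) (c : ℕ → ℝ) (r : ℝ) (θ : ℕ → Bool) : ℝ :=
  ∑ k ∈ Finset.range n, stv (θ k == θ (k + 1)) (c k) r

@[simp] theorem stv_true (x r : ℝ) : stv true x r = x := rfl
@[simp] theorem stv_false (x r : ℝ) : stv false x r = r - x := rfl

end SPK
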