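import Pool.Agent.SPK.RingSpace

/-! The ring lemma when some rim inequality is tight: product decomposition. -/

namespace SPK

open Finset

theorem tele (f : ℕ → ℝ) : ∀ n j : ℕ, j ≤ n →
    ∑ k ∈ range n, (if k < j then f (k + 1) - f k else f k - f (k + 1)) =
      2 * f j - f 0 - f n := by
  intro n
  induction n with
  | zero => intro j hj; have : j = 0 := by omega
            subst this; simp; ring
  | succ n ih =>
    intro j hj
    rw [Finset.sum_range_succ]
    by_cases h : j ≤ n
    · rw [ih j h]
      have : ¬ n < j := by omega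
      simp only [this, if_false]
      ring
    · have hj' : j = n + 1 := by omega
      subst hj'
      have h1 : ∑ k ∈ range n, (if k < n + 1 then f (k + 1) - f k else f k - f (k + 1)) =
          ∑ k ∈ range n, (f (k + 1) - f k) := by
        apply Finset.sum_congr rfl
        intro k hk
        have : k < n + 1 := by have := Finset.mem_range.1 hk; omega
        simp [this]
      rw [h1, Finset.sum_range_sub]
      simp only [Nat.lt_succ_self, if_true]
      ring

/-- One sided masses of single flip patterns. -/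
noncomputable def lam (s c : ℕ → ℝ) (r : ℝ) (θ : ℕ → Bool) (k : ℕ) (i : Bool) : ℝ :=
  Tf s c r k (i ^^ θ k) ((!i) ^^ θ (k + 1)) / 2

noncomputable def yv (c : ℕ → ℝ) (r : ℝ) (θ : ℕ → Bool) (k : ℕ) : ℝ :=
  stv (θ k == θ (k + 1)) (c k) r

theorem lam_eq (s c : ℕ → ℝ) (r : ℝ) (θ : ℕ → Bool) (k : ℕ) (i : Bool) :
    lam s c r θ k i = (yv c r θ k + (if i then stv (!(θ k)) (s k) r - stv (!(θ (k + 1))) (s (k + 1)) r
      else stv (!(θ (k + 1))) (s (k + 1)) r - stv (!(θ k)) (s k) r)) / 2 := by
  rw [lam, Tf, yv]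
  rcases i with _ | _ <;> rcases θ k with _ | _ <;> rcases θ (k + 1) with _ | _ <;> simp <;> ring

theorem lam_add (s c : ℕ → ℝ) (r : ℝ) (θ : ℕ → Bool) (k : ℕ) :
    lam s c r θ k true + lam s c r θ k false = yv c r θ k := by
  rw [lam_eq, lam_eq]; simp; ring

theorem lam_sum (n : ℕ) (s c : ℕ → ℝ) (r : ℝ) (θ : ℕ → Bool) (hθ : θ n = !(θ 0))
    (hs : s n = s 0) (hy : ∑ k ∈ range n, yv c r θ k = r) (j : ℕ) (hj : j ≤ n) :
    ∑ k ∈ range n, lam s c r θ k (!(θ j ^^ decide (k < j))) = s j := by
  have h0 := tele (fun k => stv (!(θ k)) (s k) r) n j hj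
  have hfn : stv (!(θ n)) (s n) r = r - stv (!(θ 0)) (s 0) r := by
    rw [hθ, hs]
    rcases θ 0 with _ | _ <;> simp
  simp only [hfn] at h0
  have key : ∀ k ∈ range n, lam s c r θ k (!(θ j ^^ decide (k < j))) =
      yv c r θ k / 2 + (if θ j then -1 else 1) / 2 *
        (if k < j then stv (!(θ (k + 1))) (s (k + 1)) r - stv (!(θ k)) (s k) r
          else stv (!(θ k)) (s k) r - stv (!(θ (k + 1))) (s (k + 1)) r) := by
    intro k _
    rw [lam_eq]
    by_cases h : k < j
    · rcases θ j with _ | _ <;> simp [h] <;> ring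
    · rcases θ j with _ | _ <;> simp [h] <;> ring
  rw [Finset.sum_congr rfl key, Finset.sum_add_distrib, ← Finset.sum_div, hy, ← Finset.mul_sum, h0]
  rcases h1 : θ j with _ | _ <;> simp <;> ring

/-- The pattern with one flip at `k`. -/
def pat (θ : ℕ → Bool) (k : ℕ) (i : Bool) (j : ℕ) : Bool := i ^^ θ j ^^ decide (k < j)

theorem pat_closed (n : ℕ) (θ : ℕ → Bool) (hθ : θ n = !(θ 0)) (k : ℕ) (hk : k < n) (i : Bool) :
    pat θ k i n = pat θ k i 0 := by
  simp only [pat, hθ, hk, decide_true]
  rcases i with _ | _ <;> rcases θ 0 with _ | _ <;> simp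

theorem ring_case1 (n : ℕ) (y : RP) (hr : 0 < rL y)
    (hL : ∀ i, 0 ≤ LL n i y) (θ : ℕ → Bool) (hθ : θ n = !(θ 0))
    (hy : ∑ k ∈ range n, yv (fun j => cL j y) (rL y) θ k = rL y) :
    ∃ x : Cut n, ∀ i, LL n i y = 0 → LL n i (vc n x) = 0 := by
  classical
  obtain ⟨s, t, c, r⟩ := y
  simp only [rL_apply, cL_apply] at hr hy
  have hsn : s n = s 0 := by
    have h1 := hL (.cl true true)
    have h2 := hL (.cl true false)
    simp [LL] at h1 h2
    linarith
  have htn : t n = t 0 := by
    have h1 := hL (.cl false true)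
    have h2 := hL (.cl false false)
    simp [LL] at h1 h2
    linarith
  have hTu : ∀ k < n, ∀ i j, 0 ≤ Tf s c r k i j := by
    intro k hk i j
    have := hL (.tu ⟨k, hk⟩ i j)
    simpa [LL, stL_apply, Tf] using this
  have hTv : ∀ k < n, ∀ i j, 0 ≤ Tf t c r k i j := by
    intro k hk i j
    have := hL (.tv ⟨k, hk⟩ i j)
    simpa [LL, stL_apply, Tf] using this
  have hlu : ∀ k < n, ∀ i, 0 ≤ lam s c r θ k i := fun k hk i => by
    have := hTu k hk (i ^^ θ k) ((!i) ^^ θ (k + 1))
    rw [lam]; linarith
  have hlv : ∀ k < n, ∀ i, 0 ≤ lam t c r θ k i := fun k hk i => by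
    have := hTv k hk (i ^^ θ k) ((!i) ^^ θ (k + 1))
    rw [lam]; linarith
  let W : ℕ → Bool → Bool → ℝ := fun k i i' => lam s c r θ k i * lam t c r θ k i' / yv c r θ k
  have hy0 : ∀ k < n, 0 ≤ yv c r θ k := fun k hk => by
    rw [← lam_add s]; linarith [hlu k hk true, hlu k hk false]
  have hW0 : ∀ k < n, ∀ i i', 0 ≤ W k i i' := fun k hk i i' =>
    div_nonneg (mul_nonneg (hlu k hk i) (hlv k hk i')) (hy0 k hk)
  have hWu : ∀ k < n, ∀ i, W k i true + W k i false = lam s c r θ k i := by
    intro k hk i
    simp only [W]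
    rw [← add_div, ← mul_add, lam_add]
    by_cases h : yv c r θ k = 0
    · rw [h]
      have h1 := lam_add s c r θ k
      rw [h] at h1
      have h2 := hlu k hk true
      have h3 := hlu k hk false
      rcases i with _ | _
      · simp; linarith
      · simp; linarith
    · rw [mul_div_assoc, div_self h, mul_one]
  have hWv : ∀ k < n, ∀ i', W k true i' + W k false i' = lam t c r θ k i' := by
    intro k hk i
    simp only [W]
    rw [← add_div, ← add_mul, lam_add]
    by_cases h : yv c r θ k = 0
    · rw [h]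
      have h1 := lam_add t c r θ k
      rw [h] at h1
      have h2 := hlv k hk true
      have h3 := hlv k hk false
      rcases i with _ | _
      · simp; linarith
      · simp; linarith
    · rw [mul_comm, mul_div_assoc, div_self h, mul_one]
  have hWy : ∀ k < n, W k true true + W k true false + W k false true + W k false false =
      yv c r θ k := by
    intro k hk
    have h1 := hWu k hk true
    have h2 := hWu k hk false
    have h3 := lam_add s c r θ k
    linarith
  -- cuts
  let X : Fin n → Bool → Bool → Cut n := fun k i i' =>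
    ⟨(fun j => pat θ k.1 i j, i ^^ i'), pat_closed n θ hθ k.1 k.2 i⟩
  let z : RP := ∑ k : Fin n, ∑ i : Bool, ∑ i' : Bool, W k.1 i i' • vc n (X k i i')
  have hz : ∀ F : RP →ₗ[ℝ] ℝ, F z = ∑ k : Fin n, ∑ i : Bool, ∑ i' : Bool,
      W k.1 i i' * F (vc n (X k i i')) := by
    intro F
    simp only [z, map_sum, map_smul, smul_eq_mul]
  have hs : ∀ j ≤ n, sL j z = s j := by
    intro j hj
    rw [hz]
    have h1 : ∀ k : Fin n, (∑ i : Bool, ∑ i' : Bool, W k.1 i i' * sL j (vc n (X k i i'))) =
        lam s c r θ k.1 (!(θ j ^^ decide (k.1 < j))) := by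
      intro k
      have h2 := hWu k.1 k.2 true
      have h3 := hWu k.1 k.2 false
      simp only [Fintype.sum_bool, vc, sL_apply, X, pat]
      rcases θ j with _ | _ <;> rcases decide (k.1 < j) with _ | _ <;> simp <;> linarith
    rw [Finset.sum_congr rfl (fun k _ => h1 k),
      Finset.sum_fin_eq_sum_range]
    rw [← lam_sum n s c r θ hθ hsn hy j hj]
    apply Finset.sum_congr rfl
    intro k hk
    rw [dif_pos (Finset.mem_range.1 hk)]
  have ht : ∀ j ≤ n, tL j z = t j := by
    intro j hj
    rw [hz]
    have h1 : ∀ k : Fin n, (∑ i : Bool, ∑ i' : Bool, W k.1 i i' * tL j (vc n (X k i i'))) =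
        lam t c r θ k.1 (!(θ j ^^ decide (k.1 < j))) := by
      intro k
      have h2 := hWv k.1 k.2 true
      have h3 := hWv k.1 k.2 false
      simp only [Fintype.sum_bool, vc, tL_apply, X, pat]
      rcases θ j with _ | _ <;> rcases decide (k.1 < j) with _ | _ <;> simp <;> linarith
    rw [Finset.sum_congr rfl (fun k _ => h1 k),
      Finset.sum_fin_eq_sum_range]
    rw [← lam_sum n t c r θ hθ htn hy j hj]
    apply Finset.sum_congr rfl
    intro k hk
    rw [dif_pos (Finset.mem_range.1 hk)]
  have hrz : rL z = r := by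
    rw [hz]
    have h1 : ∀ k : Fin n, (∑ i : Bool, ∑ i' : Bool, W k.1 i i' * rL (vc n (X k i i'))) =
        yv c r θ k.1 := by
      intro k
      have h2 := hWy k.1 k.2
      simp only [Fintype.sum_bool, vc, rL_apply]
      linarith
    rw [Finset.sum_congr rfl (fun k _ => h1 k), Finset.sum_fin_eq_sum_range]
    conv_rhs => rw [← hy]
    apply Finset.sum_congr rfl
    intro k hk
    rw [dif_pos (Finset.mem_range.1 hk)]
  have hc : ∀ j < n, cL j z = c j := by
    intro j hj
    rw [hz]
    have h1 : ∀ k : Fin n, (∑ i : Bool, ∑ i' : Bool, W k.1 i i' * cL j (vc n (X k i i'))) =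
        yv c r θ k.1 * ind (θ j ^^ θ (j + 1) ^^ decide (k.1 = j)) := by
      intro k
      have h2 := hWy k.1 k.2
      have h3 : ∀ i i', cL j (vc n (X k i i')) = ind (θ j ^^ θ (j + 1) ^^ decide (k.1 = j)) := by
        intro i i'
        simp only [vc, cL_apply, X, pat]
        congr 1
        rcases lt_trichotomy k.1 j with h | h | h
        · have e1 : k.1 < j + 1 := by omega
          have e2 : ¬ k.1 = j := by omega
          simp only [h, e1, e2, decide_true, decide_false]
          rcases i with _ | _ <;> rcases θ j with _ | _ <;> rcases θ (j + 1) with _ | _ <;> rfl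
        · have e1 : k.1 < j + 1 := by omega
          have e2 : ¬ k.1 < j := by omega
          simp only [h, lt_irrefl, Nat.lt_succ_self, decide_true, decide_false]
          rcases i with _ | _ <;> rcases θ j with _ | _ <;> rcases θ (j + 1) with _ | _ <;> rfl
        · have e1 : ¬ k.1 < j + 1 := by omega
          have e2 : ¬ k.1 < j := by omega
          have e3 : ¬ k.1 = j := by omega
          simp only [e1, e2, e3, decide_false]
          rcases i with _ | _ <;> rcases θ j with _ | _ <;> rcases θ (j + 1) with _ | _ <;> rfl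
      simp only [Fintype.sum_bool, h3]
      rw [← h2]; ring
    rw [Finset.sum_congr rfl (fun k _ => h1 k), Finset.sum_fin_eq_sum_range]
    have h4 : ∀ k ∈ range n, (if h : k < n then yv c r θ k *
        ind (θ j ^^ θ (j + 1) ^^ decide (k = j)) else 0) =
        yv c r θ k * ind (θ j ^^ θ (j + 1) ^^ decide (k = j)) := by
      intro k hk
      rw [dif_pos (Finset.mem_range.1 hk)]
    rw [Finset.sum_congr rfl h4]
    by_cases h : θ j = θ (j + 1)
    · have h5 : ∀ k ∈ range n, yv c r θ k * ind (θ j ^^ θ (j + 1) ^^ decide (k = j)) =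
          if k = j then yv c r θ k else 0 := by
        intro k _
        rw [h]
        by_cases hkj : k = j <;> simp [hkj]
      rw [Finset.sum_congr rfl h5, Finset.sum_ite_eq' (range n) j, if_pos (Finset.mem_range.2 hj)]
      simp [yv, h]
    · have h6 : θ (j + 1) = !(θ j) := by
        rcases h7 : θ (j + 1) with _ | _ <;> rcases h8 : θ j with _ | _ <;> simp_all
      have h5 : ∀ k ∈ range n, yv c r θ k * ind (θ j ^^ θ (j + 1) ^^ decide (k = j)) =
          yv c r θ k - if k = j then yv c r θ k else 0 := by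
        intro k _
        rw [h6]
        by_cases hkj : k = j <;> simp [hkj]
      rw [Finset.sum_congr rfl h5, Finset.sum_sub_distrib, hy, Finset.sum_ite_eq' (range n) j,
        if_pos (Finset.mem_range.2 hj)]
      have h7 : (θ j == θ (j + 1)) = false := by simpa using h
      simp only [yv, h7, stv_false]
      ring
  have hcongr : ∀ i, LL n i (s, t, c, r) = LL n i z := by
    intro i
    apply LL_congr
    · intro j hj; rw [hs j hj]; rfl
    · intro j hj; rw [ht j hj]; rfl
    · intro j hj; rw [hc j hj]; rfl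
    · rw [hrz]; rfl
  -- a cut with positive weight
  have hex : ∃ k : Fin n, ∃ i i', 0 < W k.1 i i' := by
    by_contra hcon
    push Not at hcon
    have h1 : rL z = 0 := by
      rw [hz]
      apply Finset.sum_eq_zero
      intro k _
      apply Finset.sum_eq_zero
      intro i _
      apply Finset.sum_eq_zero
      intro i' _
      rw [le_antisymm (hcon k i i') (hW0 k.1 k.2 i i'), zero_mul]
    rw [hrz] at h1
    linarith
  obtain ⟨k0, i0, i0', hpos⟩ := hex
  refine ⟨X k0 i0 i0', ?_⟩
  intro i hi
  rw [hcongr i, hz] at hi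
  have h1 : ∀ k : Fin n, ∀ a b : Bool, 0 ≤ W k.1 a b * LL n i (vc n (X k a b)) :=
    fun k a b => mul_nonneg (hW0 k.1 k.2 a b) (LL_cut_nonneg n _ i)
  have h2 := (Finset.sum_eq_zero_iff_of_nonneg (fun k _ => Finset.sum_nonneg (fun a _ =>
    Finset.sum_nonneg (fun b _ => h1 k a b)))).1 hi k0 (Finset.mem_univ _)
  have h3 := (Finset.sum_eq_zero_iff_of_nonneg (fun a _ =>
    Finset.sum_nonneg (fun b _ => h1 k0 a b))).1 h2 i0 (Finset.mem_univ _)
  have h4 := (Finset.sum_eq_zero_iff_of_nonneg (fun b _ => h1 k0 i0 b)).1 h3 i0'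
    (Finset.mem_univ _)
  rcases mul_eq_zero.1 h4 with h5 | h5
  · exact absurd h5 hpos.ne'
  · exact h5

end SPK
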