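import Pool.Agent.SPK.RingWalk
import Pool.Agent.SPK.RingDefs

/-! The ring lemma when no rim inequality is tight. -/

namespace SPK

theorem exists_level {J : Finset (ℕ × Bool)} (hJ : J.Nonempty) (lo hi : ℕ × Bool → ℝ)
    (h : ∀ p ∈ J, ∀ q ∈ J, lo p ≤ hi q) (bad : Finset ℝ) :
    (∃ a, (∀ p ∈ J, lo p ≤ a) ∧ (∀ p ∈ J, a ≤ hi p) ∧ (∃ p ∈ J, lo p = a) ∧ ∃ p ∈ J, hi p = a) ∨
    (∃ a, (∀ p ∈ J, lo p < a) ∧ (∀ p ∈ J, a < hi p) ∧ a ∉ bad) := by
  classical
  obtain ⟨p0, hp0, hmax⟩ := Finset.exists_max_image J lo hJ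
  obtain ⟨q0, hq0, hmin⟩ := Finset.exists_min_image J hi hJ
  rcases eq_or_lt_of_le (h p0 hp0 q0 hq0) with heq | hlt
  · left
    exact ⟨lo p0, hmax, fun p hp => heq ▸ hmin p hp, ⟨p0, hp0, rfl⟩, ⟨q0, hq0, heq.symm⟩⟩
  · right
    have hinf : (Set.Ioo (lo p0) (hi q0) \ (bad : Set ℝ)).Infinite :=
      (Set.Ioo_infinite hlt).sdiff bad.finite_toSet
    obtain ⟨a, ⟨ha1, ha2⟩, ha3⟩ := hinf.nonempty
    exact ⟨a, fun p hp => lt_of_le_of_lt (hmax p hp) ha1,
      fun p hp => lt_of_lt_of_le ha2 (hmin p hp), by simpa using ha3⟩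

theorem exists_split (E E' U U' : Bool → ℝ) (c N a : ℝ)
    (hE : ∀ i, 0 ≤ E i) (hE' : ∀ i, 0 ≤ E' i) (hU : ∀ i, 0 ≤ U i) (hU' : ∀ i, 0 ≤ U' i)
    (sE : E true + E false = 2 * N) (sE' : E' true + E' false = 2 * N)
    (sU : U true + U false = 2 * a) (sU' : U' true + U' false = 2 * a)
    (t1 : ∀ i, E' i - E i + U' i - U i ≤ 2 * c)
    (t2 : ∀ i, E' i - E i + U' (!i) - U (!i) ≤ 2 * c)
    (t3 : ∀ i, 2 * c ≤ E i + E' i + U i + U' i)
    (t4 : ∀ i, 2 * c ≤ E i + E' i + U (!i) + U' (!i)) :
    ∃ e : ℝ, ∀ i j,
      0 ≤ (E i + E' j) / 2 - (if (i == j) = true then e else N - e) ∧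
      0 ≤ (U i + U' j) / 2 - (if (i == j) = true then c - e else a - (c - e)) := by
  have a1 := hE true
  have a2 := hE false
  have a3 := hE' true
  have a4 := hE' false
  have a5 := hU true
  have a6 := hU false
  have a7 := hU' true
  have a8 := hU' false
  have b1 := t1 true
  have b2 := t1 false
  have b3 := t2 true
  have b4 := t2 false
  have b5 := t3 true
  have b6 := t3 false
  have b7 := t4 true
  have b8 := t4 false
  simp only [Bool.not_true, Bool.not_false] at b3 b4 b7 b8
  obtain ⟨e, h1, h2, h3, h4, h5, h6, h7, h8⟩ : ∃ e : ℝ, (E' true - E true) / 2 ≤ e ∧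
      (E' false - E false) / 2 ≤ e ∧ c - (U true + U' true) / 2 ≤ e ∧
      c - (U false + U' false) / 2 ≤ e ∧ e ≤ (E true + E' true) / 2 ∧
      e ≤ (E false + E' false) / 2 ∧ e ≤ c + (U true - U' true) / 2 ∧
      e ≤ c + (U false - U' false) / 2 := by
    refine ⟨max (max ((E' true - E true) / 2) ((E' false - E false) / 2))
      (max (c - (U true + U' true) / 2) (c - (U false + U' false) / 2)), ?_, ?_, ?_, ?_, ?_,
      ?_, ?_, ?_⟩
    · exact le_trans (le_max_left _ _) (le_max_left _ _)
    · exact le_trans (le_max_right _ _) (le_max_left _ _)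
    · exact le_trans (le_max_left _ _) (le_max_right _ _)
    · exact le_trans (le_max_right _ _) (le_max_right _ _)
    all_goals
      refine max_le (max_le ?_ ?_) (max_le ?_ ?_) <;> linarith
  refine ⟨e, ?_⟩
  intro i j
  rcases i with _ | _ <;> rcases j with _ | _ <;> simp <;> constructor <;> linarith

theorem ring_case2 (n : ℕ) (hn : 0 < n) (s t c : ℕ → ℝ) (r : ℝ) (hr : 0 < r)
    (hs : s n = s 0) (ht : t n = t 0)
    (hTu : ∀ k < n, ∀ i j, 0 ≤ Tf s c r k i j)
    (hTv : ∀ k < n, ∀ i j, 0 ≤ Tf t c r k i j)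
    (hQ : ∀ a < n, ∀ b < n, ∀ σ τ, 0 ≤ Qf s t r a b σ τ)
    (hrim : ∀ θ : ℕ → Bool, θ n = !(θ 0) → 0 < rimf n c r θ) :
    ∃ (α : ℕ → Bool) (w : Bool), α n = α 0 ∧
      (∀ k < n, 0 < Tf s c r k (α k) (α (k + 1))) ∧
      (∀ k < n, 0 < Tf t c r k (α k ^^ w) (α (k + 1) ^^ w)) ∧
      (∀ a < n, ∀ b < n, ∀ σ τ, Qf s t r a b σ τ = 0 → (if w then α a ≠ σ else α b ≠ τ)) := by
  classical
  let hi : ℕ × Bool → ℝ := fun p => stv p.2 (s p.1) r + stv p.2 (t p.1) r
  let lo : ℕ × Bool → ℝ := fun p => r - stv p.2 (s p.1) r - stv (!p.2) (t p.1) r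
  let J : Finset (ℕ × Bool) := Finset.range n ×ˢ (Finset.univ : Finset Bool)
  have memJ : ∀ p : ℕ × Bool, p ∈ J ↔ p.1 < n := by
    intro p
    simp [J]
  have hJ : J.Nonempty := ⟨(0, true), by rw [memJ]; exact hn⟩
  have hlohi : ∀ p ∈ J, ∀ q ∈ J, lo p ≤ hi q := by
    intro p hp q hq
    have h1 := hQ p.1 ((memJ p).1 hp) q.1 ((memJ q).1 hq) p.2 q.2
    simp only [Qf] at h1
    simp only [lo, hi]
    linarith
  let bad : Finset ℝ := (Finset.range n).image c ∪ (Finset.range n).image (fun k => r - c k)
  -- the main construction for a given level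
  have key : ∀ a : ℝ, (∀ p ∈ J, lo p ≤ a) → (∀ p ∈ J, a ≤ hi p) →
      (((∃ p ∈ J, lo p = a) ∧ ∃ p ∈ J, hi p = a) ∨
        ((∀ p ∈ J, lo p < a) ∧ (∀ p ∈ J, a < hi p) ∧ a ∉ bad)) →
      ∃ (α : ℕ → Bool) (w : Bool), α n = α 0 ∧
      (∀ k < n, 0 < Tf s c r k (α k) (α (k + 1))) ∧
      (∀ k < n, 0 < Tf t c r k (α k ^^ w) (α (k + 1) ^^ w)) ∧
      (∀ a < n, ∀ b < n, ∀ σ τ, Qf s t r a b σ τ = 0 →
        (if w then α a ≠ σ else α b ≠ τ)) := by
    intro a hloa hhia hgen
    let E : ℕ → Bool → ℝ := fun k τ => stv τ (s k) r + stv τ (t k) r - a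
    let U : ℕ → Bool → ℝ := fun k σ => stv σ (s k) r + stv (!σ) (t k) r - (r - a)
    have hEdef : ∀ k τ, E k τ = stv τ (s k) r + stv τ (t k) r - a := fun _ _ => rfl
    have hUdef : ∀ k σ, U k σ = stv σ (s k) r + stv (!σ) (t k) r - (r - a) := fun _ _ => rfl
    have hEn : ∀ i, E n i = E 0 i := by intro i; simp only [E, hs, ht]
    have hUn : ∀ i, U n i = U 0 i := by intro i; simp only [U, hs, ht]
    have hE : ∀ k ≤ n, ∀ i, 0 ≤ E k i := by
      intro k hk i
      rcases Nat.lt_or_eq_of_le hk with h1 | h1
      · have := hhia (k, i) ((memJ _).2 h1)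
        simp only [hi] at this
        simp only [E]; linarith
      · rw [h1, hEn]
        have := hhia (0, i) ((memJ _).2 hn)
        simp only [hi] at this
        simp only [E]; linarith
    have hU : ∀ k ≤ n, ∀ i, 0 ≤ U k i := by
      intro k hk i
      rcases Nat.lt_or_eq_of_le hk with h1 | h1
      · have := hloa (k, i) ((memJ _).2 h1)
        simp only [lo] at this
        simp only [U]; linarith
      · rw [h1, hUn]
        have := hloa (0, i) ((memJ _).2 hn)
        simp only [lo] at this
        simp only [U]; linarith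
    have sE : ∀ k, E k true + E k false = 2 * (r - a) := by intro k; simp [E]; ring
    have sU : ∀ k, U k true + U k false = 2 * a := by intro k; simp [U]; ring
    have hsplit : ∀ k, k < n → ∃ e : ℝ, ∀ i j,
        0 ≤ (E k i + E (k + 1) j) / 2 - (if (i == j) = true then e else (r - a) - e) ∧
        0 ≤ (U k i + U (k + 1) j) / 2 - (if (i == j) = true then c k - e else a - (c k - e)) := by
      intro k hk
      have T1 := hTu k hk true true
      have T2 := hTu k hk true false
      have T3 := hTu k hk false true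
      have T4 := hTu k hk false false
      have V1 := hTv k hk true true
      have V2 := hTv k hk true false
      have V3 := hTv k hk false true
      have V4 := hTv k hk false false
      simp [Tf] at T1 T2 T3 T4 V1 V2 V3 V4
      refine exists_split (E k) (E (k + 1)) (U k) (U (k + 1)) (c k) (r - a) a (hE k hk.le)
        (hE (k + 1) hk) (hU k hk.le) (hU (k + 1) hk) (sE k) (sE (k + 1)) (sU k) (sU (k + 1))
        ?_ ?_ ?_ ?_
      all_goals
        intro i
        rcases i with _ | _ <;> simp [E, U] <;> linarith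
    choose! e he using hsplit
    let mE : ℕ → Bool → Bool → ℝ := fun k i j =>
      (E k i + E (k + 1) j) / 2 - (if (i == j) = true then e k else (r - a) - e k)
    let mU : ℕ → Bool → Bool → ℝ := fun k i j =>
      (U k i + U (k + 1) j) / 2 - (if (i == j) = true then c k - e k else a - (c k - e k))
    have hmE : ∀ k < n, ∀ i j, 0 ≤ mE k i j := fun k hk i j => (he k hk i j).1
    have hmU : ∀ k < n, ∀ i j, 0 ≤ mU k i j := fun k hk i j => (he k hk i j).2
    have hrowE : ∀ k < n, ∀ i, E k i = mE k i true + mE k i false := by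
      intro k _ i
      have h1 := sE (k + 1)
      rcases i with _ | _ <;> simp only [mE] <;> simp <;> linarith
    have hcolE : ∀ k < n, ∀ j, E (k + 1) j = mE k true j + mE k false j := by
      intro k _ i
      have h1 := sE k
      rcases i with _ | _ <;> simp only [mE] <;> simp <;> linarith
    have hrowU : ∀ k < n, ∀ i, U k i = mU k i true + mU k i false := by
      intro k _ i
      have h1 := sU (k + 1)
      rcases i with _ | _ <;> simp only [mU] <;> simp <;> linarith
    have hcolU : ∀ k < n, ∀ j, U (k + 1) j = mU k true j + mU k false j := by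
      intro k _ i
      have h1 := sU k
      rcases i with _ | _ <;> simp only [mU] <;> simp <;> linarith
    have hTuE : ∀ k i j, Tf s c r k i j = mE k i j + mU k i j := by
      intro k i j
      rcases i with _ | _ <;> rcases j with _ | _ <;> simp [Tf, mE, mU, E, U] <;> ring
    have hTvE : ∀ k i j, Tf t c r k i j = mE k i j + mU k (!i) (!j) := by
      intro k i j
      rcases i with _ | _ <;> rcases j with _ | _ <;> simp [Tf, mE, mU, E, U] <;> ring
    have hQE : ∀ x y σ τ, Qf s t r x y σ τ = E y τ + U x σ := by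
      intro x y σ τ
      simp only [Qf, E, U]; ring
    -- closed E walk
    have useE : ∀ α : ℕ → Bool, α n = α 0 → (∀ k < n, 0 < mE k (α k) (α (k + 1))) →
        ∃ (α : ℕ → Bool) (w : Bool), α n = α 0 ∧
        (∀ k < n, 0 < Tf s c r k (α k) (α (k + 1))) ∧
        (∀ k < n, 0 < Tf t c r k (α k ^^ w) (α (k + 1) ^^ w)) ∧
        (∀ a < n, ∀ b < n, ∀ σ τ, Qf s t r a b σ τ = 0 →
          (if w then α a ≠ σ else α b ≠ τ)) := by
      intro α hα hpos
      refine ⟨α, false, hα, ?_, ?_, ?_⟩
      · intro k hk
        rw [hTuE]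
        linarith [hpos k hk, hmU k hk (α k) (α (k + 1))]
      · intro k hk
        simp only [Bool.xor_false]
        rw [hTvE]
        linarith [hpos k hk, hmU k hk (!(α k)) (!(α (k + 1)))]
      · intro x hx y hy σ τ h0
        rw [hQE] at h0
        have h1 : E y τ = 0 := by linarith [hE y hy.le τ, hU x hx.le σ]
        simp only [Bool.false_eq_true, if_false]
        intro h2
        subst h2
        have h3 := hrowE y hy (α y)
        have h4 := hmE y hy (α y) true
        have h5 := hmE y hy (α y) false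
        have h6 := hpos y hy
        rcases h7 : α (y + 1) with _ | _ <;> rw [h7] at h6 <;> linarith
    have useU : ∀ α : ℕ → Bool, α n = α 0 → (∀ k < n, 0 < mU k (α k) (α (k + 1))) →
        ∃ (α : ℕ → Bool) (w : Bool), α n = α 0 ∧
        (∀ k < n, 0 < Tf s c r k (α k) (α (k + 1))) ∧
        (∀ k < n, 0 < Tf t c r k (α k ^^ w) (α (k + 1) ^^ w)) ∧
        (∀ a < n, ∀ b < n, ∀ σ τ, Qf s t r a b σ τ = 0 →
          (if w then α a ≠ σ else α b ≠ τ)) := by
      intro α hα hpos
      refine ⟨α, true, hα, ?_, ?_, ?_⟩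
      · intro k hk
        rw [hTuE]
        linarith [hpos k hk, hmE k hk (α k) (α (k + 1))]
      · intro k hk
        simp only [Bool.xor_true]
        rw [hTvE]
        simp only [Bool.not_not]
        linarith [hpos k hk, hmE k hk (!(α k)) (!(α (k + 1)))]
      · intro x hx y hy σ τ h0
        rw [hQE] at h0
        have h1 : U x σ = 0 := by linarith [hE y hy.le τ, hU x hx.le σ]
        simp only [if_true]
        intro h2
        subst h2
        have h3 := hrowU x hx (α x)
        have h4 := hmU x hx (α x) true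
        have h5 := hmU x hx (α x) false
        have h6 := hpos x hx
        rcases h7 : α (x + 1) with _ | _ <;> rw [h7] at h6 <;> linarith
    -- rigid walks force extreme values
    have rigE : ∀ w : ℕ → Bool, (∀ k < n, mE k (w k) (!(w (k + 1))) = 0 ∧
        mE k (!(w k)) (w (k + 1)) = 0) → ∀ k < n,
        (w k = w (k + 1) → e k = 0) ∧ (w k ≠ w (k + 1) → e k = r - a) := by
      intro w hw k hk
      obtain ⟨h1, h2⟩ := hw k hk
      have h3 := sE k
      have h4 := sE (k + 1)
      simp only [mE] at h1 h2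
      constructor
      · intro h5
        rw [← h5] at h1 h2
        rcases h6 : w k with _ | _ <;> rw [h6] at h1 h2 <;> simp at h1 h2 <;> linarith
      · intro h5
        have h5' : w (k + 1) = !(w k) := by
          rcases h7 : w (k + 1) with _ | _ <;> rcases h8 : w k with _ | _ <;> simp_all
        rw [h5'] at h1 h2
        rcases h6 : w k with _ | _ <;> rw [h6] at h1 h2 <;> simp at h1 h2 <;> linarith
    have rigU : ∀ w : ℕ → Bool, (∀ k < n, mU k (w k) (!(w (k + 1))) = 0 ∧
        mU k (!(w k)) (w (k + 1)) = 0) → ∀ k < n,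
        (w k = w (k + 1) → c k - e k = 0) ∧ (w k ≠ w (k + 1) → c k - e k = a) := by
      intro w hw k hk
      obtain ⟨h1, h2⟩ := hw k hk
      have h3 := sU k
      have h4 := sU (k + 1)
      simp only [mU] at h1 h2
      constructor
      · intro h5
        rw [← h5] at h1 h2
        rcases h6 : w k with _ | _ <;> rw [h6] at h1 h2 <;> simp at h1 h2 <;> linarith
      · intro h5
        have h5' : w (k + 1) = !(w k) := by
          rcases h7 : w (k + 1) with _ | _ <;> rcases h8 : w k with _ | _ <;> simp_all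
        rw [h5'] at h1 h2
        rcases h6 : w k with _ | _ <;> rw [h6] at h1 h2 <;> simp at h1 h2 <;> linarith
    have hNnn : 0 ≤ r - a := by linarith [sE 0, hE 0 (Nat.zero_le _) true, hE 0 (Nat.zero_le _) false]
    rcases hgen with ⟨⟨p, hp, hpa⟩, ⟨q, hq, hqa⟩⟩ | ⟨hlo', hhi', hbad⟩
    · -- pinned
      rcases eq_or_lt_of_le hNnn with h0 | hpos
      · -- N = 0
        have hex : ∃ i0, 0 < U 0 i0 := by
          by_contra hcon
          push Not at hcon
          have := sU 0
          linarith [hcon true, hcon false]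
        obtain ⟨i0, hi0⟩ := hex
        rcases ring_walk n mU U hmU hrowU hcolU hUn i0 hi0 with ⟨α, h1, h2⟩ | ⟨w, -, h2, -⟩
        · exact useU α h1 h2
        · exfalso
          have h3 := h2 p.1 ((memJ p).1 hp).le p.2
          simp only [U] at h3
          simp only [lo] at hpa
          linarith
      · have hex : ∃ i0, 0 < E 0 i0 := by
          by_contra hcon
          push Not at hcon
          have := sE 0
          linarith [hcon true, hcon false]
        obtain ⟨i0, hi0⟩ := hex
        rcases ring_walk n mE E hmE hrowE hcolE hEn i0 hi0 with ⟨α, h1, h2⟩ | ⟨w, -, h2, -⟩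
        · exact useE α h1 h2
        · exfalso
          have h3 := h2 q.1 ((memJ q).1 hq).le q.2
          simp only [E] at h3
          simp only [hi] at hqa
          linarith
    · -- generic
      have hE0 : 0 < E 0 true := by
        have := hhi' (0, true) ((memJ _).2 hn)
        simp only [hi] at this
        simp only [E]; linarith
      have hU0 : 0 < U 0 true := by
        have := hlo' (0, true) ((memJ _).2 hn)
        simp only [lo] at this
        simp only [U]; linarith
      rcases ring_walk n mE E hmE hrowE hcolE hEn true hE0 with ⟨α, h1, h2⟩ | ⟨w, hwn, h2, h3⟩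
      · exact useE α h1 h2
      rcases ring_walk n mU U hmU hrowU hcolU hUn true hU0 with ⟨α, h1, h2⟩ | ⟨w', hwn', h2', h3'⟩
      · exact useU α h1 h2
      exfalso
      have hb : ∀ k < n, c k ≠ a ∧ c k ≠ r - a := by
        intro k hk
        constructor
        · intro h
          apply hbad
          simp only [bad, Finset.mem_union, Finset.mem_image, Finset.mem_range]
          exact Or.inl ⟨k, hk, h⟩
        · intro h
          apply hbad
          simp only [bad, Finset.mem_union, Finset.mem_image, Finset.mem_range]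
          exact Or.inr ⟨k, hk, by linarith⟩
      have hzero : rimf n c r w = 0 := by
        apply Finset.sum_eq_zero
        intro k hk
        have hk' : k < n := Finset.mem_range.1 hk
        have h4 := rigE w h3 k hk'
        have h5 := rigU w' h3' k hk'
        have h6 := hb k hk'
        by_cases hw : w k = w (k + 1)
        · have e1 : (w k == w (k + 1)) = true := by simp [hw]
          rw [e1, stv_true]
          have e2 := h4.1 hw
          by_cases hw' : w' k = w' (k + 1)
          · have e3 := h5.1 hw'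
            linarith
          · have e3 := h5.2 hw'
            exfalso
            apply h6.1
            linarith
        · have e1 : (w k == w (k + 1)) = false := by
            simpa using hw
          rw [e1, stv_false]
          have e2 := h4.2 hw
          by_cases hw' : w' k = w' (k + 1)
          · have e3 := h5.1 hw'
            exfalso
            apply h6.2
            linarith
          · have e3 := h5.2 hw'
            linarith
      have := hrim w hwn
      linarith
  rcases exists_level hJ lo hi hlohi bad with ⟨a, h1, h2, h3, h4⟩ | ⟨a, h1, h2, h3⟩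
  · exact key a h1 h2 (Or.inl ⟨h3, h4⟩)
  · exact key a (fun p hp => (h1 p hp).le) (fun p hp => (h2 p hp).le) (Or.inr ⟨h1, h2, h3⟩)

end SPK
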