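import Pool.Agent.SPK.Walking
import Pool.Agent.SPK.RingTwo
import Pool.Agent.SPK.RingOne

/-! Every point of the ring cone has a cut in its minimal face; and the walking corollary. -/

namespace SPK

open Finset

theorem ring_face (n : ℕ) (hn : 0 < n) (y : RP) (hr : 0 < rL y)
    (hL : ∀ i, 0 ≤ LL n i y) :
    ∃ x : Cut n, ∀ i, LL n i y = 0 → LL n i (vc n x) = 0 := by
  classical
  by_cases h : ∃ θ : ℕ → Bool, θ n = !(θ 0) ∧
      ∑ k ∈ range n, yv (fun j => cL j y) (rL y) θ k = rL y
  · obtain ⟨θ, h1, h2⟩ := h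
    exact ring_case1 n y hr hL θ h1 h2
  · push Not at h
    have hL' := hL
    obtain ⟨s, t, c, r⟩ := y
    simp only [rL_apply, cL_apply] at hr h
    have hsn : s n = s 0 := by
      have h1 := hL (.cl true true)
      have h2 := hL (.cl true false)
      simp [LL] at h1 h2
      linarith
    have htn : t n = t 0 := by
      have h1 := hL (.cl false true)
      have h2 := hL (.cl false false)
      simp [LL] at h1 h2
      linarith
    have hTu : ∀ k < n, ∀ i j, 0 ≤ Tf s c r k i j := by
      intro k hk i j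
      have := hL (.tu ⟨k, hk⟩ i j)
      simpa [LL, stL_apply, Tf] using this
    have hTv : ∀ k < n, ∀ i j, 0 ≤ Tf t c r k i j := by
      intro k hk i j
      have := hL (.tv ⟨k, hk⟩ i j)
      simpa [LL, stL_apply, Tf] using this
    have hQ : ∀ a < n, ∀ b < n, ∀ σ τ, 0 ≤ Qf s t r a b σ τ := by
      intro a ha b hb σ τ
      have := hL (.q ⟨a, ha⟩ ⟨b, hb⟩ σ τ)
      simpa [LL, stL_apply, Qf] using this
    have hrim : ∀ θ : ℕ → Bool, θ n = !(θ 0) → 0 < rimf n c r θ := by
      intro θ hθ
      have h0 := hL (.rim (fun i => θ i.1))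
      have e1 : ∀ k ≤ n, ex (fun i : Fin (n + 1) => θ i.1) k = θ k := ex_of n θ
      have e2 : ex (fun i : Fin (n + 1) => θ i.1) n = !(ex (fun i : Fin (n + 1) => θ i.1) 0) := by
        rw [e1 n le_rfl, e1 0 (Nat.zero_le _), hθ]
      simp only [LL, e2, if_true, LinearMap.sub_apply, LinearMap.sum_apply, stL_apply, cL_apply,
        rL_apply] at h0
      have e3 : ∑ k ∈ range n, stv (ex (fun i : Fin (n + 1) => θ i.1) k ==
          ex (fun i : Fin (n + 1) => θ i.1) (k + 1)) (c k) r = rimf n c r θ := by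
        apply Finset.sum_congr rfl
        intro k hk
        have hk' := Finset.mem_range.1 hk
        rw [e1 k hk'.le, e1 (k + 1) hk']
      rw [e3] at h0
      linarith
    obtain ⟨α, w, hα, hu, hv, hq⟩ := ring_case2 n hn s t c r hr hsn htn hTu hTv hQ hrim
    refine ⟨⟨(α, w), hα⟩, ?_⟩
    intro i hi
    cases i with
    | tu k i j =>
      rw [LL_tu_cut]
      rw [if_neg]
      rintro ⟨h1, h2⟩
      have h3 := hu k.1 k.2
      simp only at h1 h2
      rw [h1, h2] at h3
      have h4 : Tf s c r k.1 i j = 0 := by simpa [LL, stL_apply, Tf] using hi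
      linarith
    | tv k i j =>
      rw [LL_tv_cut]
      rw [if_neg]
      rintro ⟨h1, h2⟩
      have h3 := hv k.1 k.2
      simp only at h1 h2
      rw [h1, h2] at h3
      have h4 : Tf t c r k.1 i j = 0 := by simpa [LL, stL_apply, Tf] using hi
      linarith
    | q a b σ τ =>
      rw [LL_q_cut]
      have h4 : Qf s t r a.1 b.1 σ τ = 0 := by simpa [LL, stL_apply, Qf] using hi
      have h5 := hq a.1 a.2 b.1 b.2 σ τ h4
      rw [if_neg]
      intro h6
      rcases w with _ | _
      · simp at h5 h6; exact h5 h6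
      · simp at h5 h6; exact h5 h6
    | rim θ =>
      by_cases hθ : ex θ n = !(ex θ 0)
      · exfalso
        apply h (ex θ) hθ
        simp only [LL, hθ, if_true, LinearMap.sub_apply, LinearMap.sum_apply, stL_apply, cL_apply,
          rL_apply] at hi
        simp only [yv]
        linarith
      · simp [LL, hθ]
    | cl i j =>
      cases i <;> cases j <;> simp [LL, vc, hα]

theorem ring_step (n : ℕ) (hn : 0 < n) (y : RP) (hr : 0 < rL y)
    (hL : ∀ i, 0 ≤ LL n i y) (i0 : Idx n) :
    ∃ x : Cut n, (∀ i, LL n i y = 0 → LL n i (vc n x) = 0) ∧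
      rL y * LL n i0 (vc n x) ≤ LL n i0 y :=
  walking (LL n) rL (vc n) (fun _ => rfl) (fun i x => LL_cut_nonneg n x i)
    (fun y h1 h2 => ring_face n hn y h1 h2) i0 _ y rfl hr hL

end SPK
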