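import Pool.Agent.SPK.RingFace

/-! Integral decomposition of ring data into cuts. -/

namespace SPK

open Finset

def stz (b : Bool) (x r : ℤ) : ℤ := if b then x else r - x
def iz (b : Bool) : ℤ := if b then 1 else 0

@[simp] theorem stz_true (x r : ℤ) : stz true x r = x := rfl
@[simp] theorem stz_false (x r : ℤ) : stz false x r = r - x := rfl
@[simp] theorem iz_true : iz true = 1 := rfl
@[simp] theorem iz_false : iz false = 0 := rfl

theorem stz_cast (b : Bool) (x r : ℤ) : ((stz b x r : ℤ) : ℝ) = stv b (x : ℝ) (r : ℝ) := by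
  cases b <;> simp

theorem stz_shift (b a : Bool) (x r : ℤ) :
    stz b (x - iz a) r = stz b x (r + 1) - iz (a == b) := by
  cases b <;> cases a <;> simp <;> ring

structure Sys (n : ℕ) (r : ℤ) (s t c : ℕ → ℤ) : Prop where
  hs : s n = s 0
  ht : t n = t 0
  hTu : ∀ k < n, ∀ i j, 0 ≤ stz i (s k) r + stz j (s (k + 1)) r - stz (i == j) (c k) r
  hTv : ∀ k < n, ∀ i j, 0 ≤ stz i (t k) r + stz j (t (k + 1)) r - stz (i == j) (c k) r
  hQ : ∀ a < n, ∀ b < n, ∀ σ τ,
    0 ≤ stz τ (s b) r + stz τ (t b) r + stz σ (s a) r + stz (!σ) (t a) r - r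
  hrim : ∀ θ : ℕ → Bool, θ n = !(θ 0) → r ≤ ∑ k ∈ range n, stz (θ k == θ (k + 1)) (c k) r
  hps : ∀ k < n, (s k + s (k + 1) + c k) % 2 = 0
  hpt : ∀ k < n, (t k + t (k + 1) + c k) % 2 = 0

theorem rim_par (n : ℕ) (r : ℤ) (s c : ℕ → ℤ) (hps : ∀ k < n, (s k + s (k + 1) + c k) % 2 = 0)
    (θ : ℕ → Bool) : ∀ m ≤ n, ((∑ k ∈ range m, stz (θ k == θ (k + 1)) (c k) r) + s 0 + s m +
      (if θ 0 ^^ θ m then r else 0)) % 2 = 0 := by
  intro m
  induction m with
  | zero => intro _; simp; omega
  | succ m ih =>
    intro hm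
    have h1 := ih (by omega)
    have h2 := hps m hm
    rw [Finset.sum_range_succ]
    generalize (∑ k ∈ range m, stz (θ k == θ (k + 1)) (c k) r) = S at h1 ⊢
    revert h1
    rcases θ 0 with _ | _ <;> rcases θ m with _ | _ <;> rcases θ (m + 1) with _ | _ <;>
      simp only [Bool.xor_false, Bool.xor_true, Bool.not_false, Bool.not_true, beq_self_eq_true,
        stz_true, stz_false, if_true, Bool.false_eq_true, if_false, beq_true, beq_false,
        add_zero] <;> intro h1 <;> omega

theorem st_par (n : ℕ) (s t c : ℕ → ℤ) (hps : ∀ k < n, (s k + s (k + 1) + c k) % 2 = 0)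
    (hpt : ∀ k < n, (t k + t (k + 1) + c k) % 2 = 0) :
    ∀ m ≤ n, (s m + t m + s 0 + t 0) % 2 = 0 := by
  intro m
  induction m with
  | zero => intro _; omega
  | succ m ih =>
    intro hm
    have h1 := ih (by omega)
    have h2 := hps m hm
    have h3 := hpt m hm
    omega

/-- Pairwise bounds give a bound for the sum. -/
theorem pair_bound (D : Finset ℕ) (w : ℕ → ℤ) (M : ℤ) (hD : 2 ≤ D.card)
    (h : ∀ i ∈ D, ∀ j ∈ D, i ≠ j → w i + w j ≤ M) : 2 * ∑ k ∈ D, w k ≤ D.card * M := by
  classical
  have hne : D.Nonempty := Finset.card_pos.1 (by omega)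
  obtain ⟨i, hi, hmax⟩ := Finset.exists_max_image D w hne
  have hne2 : (D.erase i).Nonempty := by
    rw [← Finset.card_pos, Finset.card_erase_of_mem hi]; omega
  obtain ⟨j, hj⟩ := hne2
  have hji : j ≠ i := (Finset.mem_erase.1 hj).1
  have hjD : j ∈ D := (Finset.mem_erase.1 hj).2
  rw [← Finset.add_sum_erase D w hi, ← Finset.add_sum_erase (D.erase i) w hj]
  have h1 : ∑ k ∈ (D.erase i).erase j, 2 * w k ≤ ∑ k ∈ (D.erase i).erase j, M := by
    apply Finset.sum_le_sum
    intro k hk
    have hk1 : k ∈ D := (Finset.mem_erase.1 (Finset.mem_erase.1 hk).2).2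
    have hk2 : k ≠ i := (Finset.mem_erase.1 (Finset.mem_erase.1 hk).2).1
    have := hmax k hk1
    have := h i hi k hk1 (Ne.symm hk2)
    linarith
  rw [Finset.sum_const, ← Finset.mul_sum, nsmul_eq_mul, Finset.card_erase_of_mem hj,
    Finset.card_erase_of_mem hi] at h1
  have h2 := h i hi j hjD (Ne.symm hji)
  have h3 : ((D.card - 1 - 1 : ℕ) : ℤ) = (D.card : ℤ) - 2 := by omega
  rw [h3] at h1
  linarith

theorem sys_step (n : ℕ) (hn : 0 < n) (r : ℕ) (s t c : ℕ → ℤ) (h : Sys n (r + 1) s t c) :
    ∃ x : Cut n, Sys n r (fun k => s k - iz (x.1.1 k)) (fun k => t k - iz (x.1.1 k ^^ x.1.2))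
      (fun k => c k - iz (x.1.1 k ^^ x.1.1 (k + 1))) := by
  classical
  obtain ⟨hs, ht, hTu, hTv, hQ, hrim, hps, hpt⟩ := h
  let R : ℤ := (r : ℤ) + 1
  have hR : R = (r : ℤ) + 1 := rfl
  let y : RP := (fun k => (s k : ℝ), fun k => (t k : ℝ), fun k => (c k : ℝ), (R : ℝ))
  have ry : rL y = (R : ℝ) := rfl
  have etu : ∀ k i j, LL n (.tu k i j) y =
      ((stz i (s k) R + stz j (s (k + 1)) R - stz (i == j) (c k) R : ℤ) : ℝ) := by
    intro k i j
    simp only [LL, LinearMap.sub_apply, LinearMap.add_apply, stL_apply, y, sL_apply, cL_apply,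
      rL_apply, Int.cast_sub, Int.cast_add, stz_cast]
  have etv : ∀ k i j, LL n (.tv k i j) y =
      ((stz i (t k) R + stz j (t (k + 1)) R - stz (i == j) (c k) R : ℤ) : ℝ) := by
    intro k i j
    simp only [LL, LinearMap.sub_apply, LinearMap.add_apply, stL_apply, y, tL_apply, cL_apply,
      rL_apply, Int.cast_sub, Int.cast_add, stz_cast]
  have eq : ∀ a b σ τ, LL n (.q a b σ τ) y =
      ((stz τ (s b) R + stz τ (t b) R + stz σ (s a) R + stz (!σ) (t a) R - R : ℤ) : ℝ) := by
    intro a b σ τ
    simp only [LL, LinearMap.sub_apply, LinearMap.add_apply, stL_apply, y, sL_apply, tL_apply,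
      rL_apply, Int.cast_sub, Int.cast_add, stz_cast]
  have erim : ∀ θ : Fin (n + 1) → Bool, ex θ n = !(ex θ 0) → LL n (.rim θ) y =
      (((∑ k ∈ range n, stz (ex θ k == ex θ (k + 1)) (c k) R) - R : ℤ) : ℝ) := by
    intro θ hθ
    simp only [LL, hθ, if_true, LinearMap.sub_apply, LinearMap.sum_apply, stL_apply, y, cL_apply,
      rL_apply, Int.cast_sub, Int.cast_sum, stz_cast]
  have hLL : ∀ i, 0 ≤ LL n i y := by
    intro i
    cases i with
    | tu k i j => rw [etu]; exact_mod_cast hTu k.1 k.2 i j
    | tv k i j => rw [etv]; exact_mod_cast hTv k.1 k.2 i j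
    | q a b σ τ => rw [eq]; exact_mod_cast hQ a.1 a.2 b.1 b.2 σ τ
    | rim θ =>
      by_cases hθ : ex θ n = !(ex θ 0)
      · rw [erim θ hθ]
        have := hrim (ex θ) hθ
        have h2 : 0 ≤ (∑ k ∈ range n, stz (ex θ k == ex θ (k + 1)) (c k) R) - R := by
          rw [hR]; linarith
        exact_mod_cast h2
      · simp [LL, hθ]
    | cl i j =>
      cases i <;> cases j <;> simp [LL, y, hs, ht]
  have hRpos : 0 < rL y := by
    rw [ry]
    have : (0 : ℤ) < R := by omega
    exact_mod_cast this
  -- minimal rim function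
  let Θ := (Finset.univ : Finset (Fin (n + 1) → Bool)).filter (fun θ => ex θ n = !(ex θ 0))
  have hΘ : Θ.Nonempty := by
    refine ⟨fun i => decide (i.1 = n), ?_⟩
    simp only [Θ, Finset.mem_filter, Finset.mem_univ, true_and]
    rw [ex_of n (fun k => decide (k = n)) n le_rfl, ex_of n (fun k => decide (k = n)) 0 (Nat.zero_le _)]
    have : ¬ (0 = n) := by omega
    simp [this]
  obtain ⟨θ1, hθ1, hmin'⟩ := Finset.exists_min_image Θ
    (fun θ => ∑ k ∈ range n, stz (ex θ k == ex θ (k + 1)) (c k) R) hΘ
  have hθ1c : ex θ1 n = !(ex θ1 0) := by simpa [Θ] using hθ1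
  have hmin : ∀ θ : ℕ → Bool, θ n = !(θ 0) →
      ∑ k ∈ range n, stz (ex θ1 k == ex θ1 (k + 1)) (c k) R ≤
        ∑ k ∈ range n, stz (θ k == θ (k + 1)) (c k) R := by
    intro θ hθ
    have h1 := hmin' (fun i => θ i.1) (by
      simp only [Θ, Finset.mem_filter, Finset.mem_univ, true_and]
      rw [ex_of n θ n le_rfl, ex_of n θ 0 (Nat.zero_le _), hθ])
    refine le_trans h1 (le_of_eq ?_)
    apply Finset.sum_congr rfl
    intro k hk
    have hk' := Finset.mem_range.1 hk
    rw [ex_of n θ k hk'.le, ex_of n θ (k + 1) hk']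
  obtain ⟨x, hface, hstep⟩ := ring_step n hn y hRpos hLL (.rim θ1)
  refine ⟨x, ?_⟩
  obtain ⟨⟨α, w⟩, hα⟩ := x
  simp only at hα
  -- transitions
  have hpS := hps
  have hpT := hpt
  have dTu : ∀ k < n, ∀ i j, 0 ≤ stz i (s k - iz (α k)) r + stz j (s (k + 1) - iz (α (k + 1))) r -
      stz (i == j) (c k - iz (α k ^^ α (k + 1))) r := by
    intro k hk i j
    have h1 := hTu k hk i j
    have h2 := hps k hk
    have h3 := hface (.tu ⟨k, hk⟩ i j)
    rw [etu, LL_tu_cut] at h3
    simp only at h3
    simp only [stz_shift]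
    have h4 : (α k = i ∧ α (k + 1) = j) →
        stz i (s k) R + stz j (s (k + 1)) R - stz (i == j) (c k) R ≠ 0 := by
      intro h5 h6
      rw [if_pos h5] at h3
      have := h3 (by rw [h6]; simp)
      norm_num at this
    rw [hR] at h4
    rcases hi : α k with _ | _ <;> rcases hj : α (k + 1) with _ | _ <;>
      rcases i with _ | _ <;> rcases j with _ | _ <;> simp [hi, hj] at h1 h4 ⊢ <;> omega
  have dTv : ∀ k < n, ∀ i j, 0 ≤ stz i (t k - iz (α k ^^ w)) r +
      stz j (t (k + 1) - iz (α (k + 1) ^^ w)) r -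
      stz (i == j) (c k - iz (α k ^^ α (k + 1))) r := by
    intro k hk i j
    have h1 := hTv k hk i j
    have h2 := hpt k hk
    have h3 := hface (.tv ⟨k, hk⟩ i j)
    rw [etv, LL_tv_cut] at h3
    simp only at h3
    simp only [stz_shift]
    have h4 : ((α k ^^ w) = i ∧ (α (k + 1) ^^ w) = j) →
        stz i (t k) R + stz j (t (k + 1)) R - stz (i == j) (c k) R ≠ 0 := by
      intro h5 h6
      rw [if_pos h5] at h3
      have := h3 (by rw [h6]; simp)
      norm_num at this
    rw [hR] at h4
    rcases hi : α k with _ | _ <;> rcases hj : α (k + 1) with _ | _ <;> rcases hw : w with _ | _ <;>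
      rcases i with _ | _ <;> rcases j with _ | _ <;> simp [hi, hj, hw] at h1 h4 ⊢ <;> omega
  have dQ : ∀ a < n, ∀ b < n, ∀ σ τ,
      0 ≤ stz τ (s b - iz (α b)) r + stz τ (t b - iz (α b ^^ w)) r + stz σ (s a - iz (α a)) r +
        stz (!σ) (t a - iz (α a ^^ w)) r - r := by
    intro a ha b hb σ τ
    have h1 := hQ a ha b hb σ τ
    have h2 := st_par n s t c hps hpt a ha.le
    have h2' := st_par n s t c hps hpt b hb.le
    have h3 := hface (.q ⟨a, ha⟩ ⟨b, hb⟩ σ τ)
    rw [eq, LL_q_cut] at h3
    simp only at h3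
    simp only [stz_shift]
    have h4 : (if w then α a = σ else α b = τ) →
        stz τ (s b) R + stz τ (t b) R + stz σ (s a) R + stz (!σ) (t a) R - R ≠ 0 := by
      intro h5 h6
      rw [if_pos h5] at h3
      have := h3 (by rw [h6]; simp)
      norm_num at this
    rw [hR] at h4
    rcases hi : α a with _ | _ <;> rcases hj : α b with _ | _ <;> rcases hw : w with _ | _ <;>
      rcases σ with _ | _ <;> rcases τ with _ | _ <;> simp [hi, hj, hw] at h1 h4 ⊢ <;> omega
  have dps : ∀ k < n, ((s k - iz (α k)) + (s (k + 1) - iz (α (k + 1))) +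
      (c k - iz (α k ^^ α (k + 1)))) % 2 = 0 := by
    intro k hk
    have h2 := hps k hk
    rcases hi : α k with _ | _ <;> rcases hj : α (k + 1) with _ | _ <;> simp <;> omega
  have dpt : ∀ k < n, ((t k - iz (α k ^^ w)) + (t (k + 1) - iz (α (k + 1) ^^ w)) +
      (c k - iz (α k ^^ α (k + 1)))) % 2 = 0 := by
    intro k hk
    have h2 := hpt k hk
    rcases hi : α k with _ | _ <;> rcases hj : α (k + 1) with _ | _ <;> rcases hw : w with _ | _ <;>
      simp <;> omega
  -- bounds for single rim edges
  have dc0 : ∀ k < n, 0 ≤ c k - iz (α k ^^ α (k + 1)) := by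
    intro k hk
    have h1 := dTu k hk true false
    have h2 := dTu k hk false true
    simp at h1 h2
    omega
  have dcr : ∀ k < n, c k - iz (α k ^^ α (k + 1)) ≤ r := by
    intro k hk
    have h1 := dTu k hk true true
    have h2 := dTu k hk false false
    simp at h1 h2
    omega
  -- the rim inequalities
  have drim : ∀ θ : ℕ → Bool, θ n = !(θ 0) →
      (r : ℤ) ≤ ∑ k ∈ range n, stz (θ k == θ (k + 1)) (c k - iz (α k ^^ α (k + 1))) r := by
    intro θ hθ
    have hpar : ((∑ k ∈ range n, stz (θ k == θ (k + 1)) (c k - iz (α k ^^ α (k + 1))) r) + r) % 2 =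
        0 := by
      have h1 := rim_par n r (fun k => s k - iz (α k)) (fun k => c k - iz (α k ^^ α (k + 1)))
        dps θ n le_rfl
      simp only [hs, hα, hθ] at h1
      generalize (∑ k ∈ range n, stz (θ k == θ (k + 1)) (c k - iz (α k ^^ α (k + 1))) r) = S at h1 ⊢
      rcases θ 0 with _ | _ <;> simp at h1 <;> omega
    -- the minimiser
    have hval1 : (r : ℤ) ≤ ∑ k ∈ range n,
        stz (ex θ1 k == ex θ1 (k + 1)) (c k - iz (α k ^^ α (k + 1))) r := by
      rw [LL_rim_cut n _ θ1 hθ1c, erim θ1 hθ1c, ry] at hstep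
      simp only at hstep
      have h1 : R * ((fl n (fun k => ex θ1 k ^^ α k) : ℤ) - 1) ≤
          (∑ k ∈ range n, stz (ex θ1 k == ex θ1 (k + 1)) (c k) R) - R := by
        exact_mod_cast hstep
      have h2 : ∑ k ∈ range n,
          stz (ex θ1 k == ex θ1 (k + 1)) (c k - iz (α k ^^ α (k + 1))) r =
          (∑ k ∈ range n, stz (ex θ1 k == ex θ1 (k + 1)) (c k) R) -
            (fl n (fun k => ex θ1 k ^^ α k) : ℤ) := by
        rw [fl]
        push_cast
        rw [← Finset.sum_sub_distrib]
        apply Finset.sum_congr rfl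
        intro k _
        rw [stz_shift, ← hR]
        rcases ex θ1 k with _ | _ <;> rcases ex θ1 (k + 1) with _ | _ <;>
          rcases α k with _ | _ <;> rcases α (k + 1) with _ | _ <;> simp
      rw [h2]
      have h3 : 1 ≤ fl n (fun k => ex θ1 k ^^ α k) := by
        have : fl n (fun k => ex θ1 k ^^ α k) % 2 = 1 := by
          apply fl_odd
          simp only [hθ1c, hα]
          rcases ex θ1 0 with _ | _ <;> rcases α 0 with _ | _ <;> simp
        omega
      have h4 : (1 : ℤ) ≤ (fl n (fun k => ex θ1 k ^^ α k) : ℤ) := by exact_mod_cast h3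
      have h5 : (0 : ℤ) ≤ (r : ℤ) := by positivity
      nlinarith
    -- the difference set
    let D := (range n).filter (fun k => (θ k == θ (k + 1)) ≠ (ex θ1 k == ex θ1 (k + 1)))
    by_cases hD : D = ∅
    · refine le_trans hval1 (le_of_eq ?_)
      apply Finset.sum_congr rfl
      intro k hk
      have : k ∉ D := by rw [hD]; simp
      simp only [D, Finset.mem_filter, hk, true_and, not_not] at this
      rw [this]
    · have hDcard : D.card = fl n (fun k => θ k ^^ ex θ1 k) := by
        rw [fl, Finset.card_filter]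
        apply Finset.sum_congr rfl
        intro k _
        rcases θ k with _ | _ <;> rcases θ (k + 1) with _ | _ <;>
          rcases ex θ1 k with _ | _ <;> rcases ex θ1 (k + 1) with _ | _ <;> simp
      have hDeven : D.card % 2 = 0 := by
        rw [hDcard]
        apply fl_even
        simp only [hθ, hθ1c]
        rcases θ 0 with _ | _ <;> rcases ex θ1 0 with _ | _ <;> simp
      have hDpos : 0 < D.card := Finset.card_pos.2 (Finset.nonempty_iff_ne_empty.2 hD)
      have hD2 : 2 ≤ D.card := by omega
      -- pairwise bound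
      have hpair : ∀ i ∈ D, ∀ j ∈ D, i ≠ j →
          stz (ex θ1 i == ex θ1 (i + 1)) (c i) R + stz (ex θ1 j == ex θ1 (j + 1)) (c j) R ≤ R := by
        have main : ∀ i j, i < j → j < n →
            stz (ex θ1 i == ex θ1 (i + 1)) (c i) R + stz (ex θ1 j == ex θ1 (j + 1)) (c j) R ≤ R := by
          intro i j hij hjn
          have h1 := hmin (fun k => ex θ1 k ^^ (decide (i < k) && decide (k ≤ j))) (by
            have e1 : ¬ n ≤ j := by omega
            have e2 : ¬ i < 0 := by omega
            simp only [e1, e2, decide_false, Bool.and_false, Bool.false_and, Bool.xor_false]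
            exact hθ1c)
          have h2 : ∑ k ∈ range n, stz ((ex θ1 k ^^ (decide (i < k) && decide (k ≤ j))) ==
              (ex θ1 (k + 1) ^^ (decide (i < k + 1) && decide (k + 1 ≤ j)))) (c k) R =
              ∑ k ∈ range n, (stz (ex θ1 k == ex θ1 (k + 1)) (c k) R +
                ((if k = i then R - 2 * stz (ex θ1 k == ex θ1 (k + 1)) (c k) R else 0) +
                (if k = j then R - 2 * stz (ex θ1 k == ex θ1 (k + 1)) (c k) R else 0))) := by
            apply Finset.sum_congr rfl
            intro k _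
            rcases lt_trichotomy k i with h3 | h3 | h3
            · have e1 : ¬ i < k := by omega
              have e2 : ¬ i < k + 1 := by omega
              have e3 : ¬ k = i := by omega
              have e4 : ¬ k = j := by omega
              simp [e1, e2, e3, e4]
            · subst h3
              have e1 : ¬ k < k := by omega
              have e2 : k < k + 1 := by omega
              have e5 : k + 1 ≤ j := by omega
              have e4 : ¬ k = j := by omega
              simp only [e1, e2, e5, e4, decide_true, decide_false, Bool.false_and,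
                Bool.and_true, Bool.xor_false, Bool.xor_true, if_true, if_false, add_zero]
              rcases ex θ1 k with _ | _ <;> rcases ex θ1 (k + 1) with _ | _ <;>
                simp only [beq_self_eq_true, stz_true, stz_false, beq_true, beq_false,
                  Bool.not_true, Bool.not_false] <;> ring
            · rcases lt_trichotomy k j with h4 | h4 | h4
              · have e2 : i < k + 1 := by omega
                have e3 : ¬ k = i := by omega
                have e4 : ¬ k = j := by omega
                have e5 : k ≤ j := by omega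
                have e6 : k + 1 ≤ j := by omega
                simp only [h3, e2, e3, e4, e5, e6, decide_true, Bool.and_true, Bool.xor_true,
                  if_false, add_zero]
                rcases ex θ1 k with _ | _ <;> rcases ex θ1 (k + 1) with _ | _ <;> simp
              · have e2 : i < k + 1 := by omega
                have e3 : ¬ k = i := by omega
                have e5 : k ≤ j := by omega
                have e6 : ¬ k + 1 ≤ j := by omega
                simp only [h3, e2, e3, e5, e6, decide_true, decide_false, Bool.and_true,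
                  Bool.and_false, Bool.xor_true, Bool.xor_false, if_false, zero_add]
                rw [if_pos h4]
                rcases ex θ1 k with _ | _ <;> rcases ex θ1 (k + 1) with _ | _ <;> simp <;> ring
              · have e3 : ¬ k = i := by omega
                have e4 : ¬ k = j := by omega
                have e5 : ¬ k ≤ j := by omega
                have e6 : ¬ k + 1 ≤ j := by omega
                simp [e3, e4, e5, e6]
          rw [h2, Finset.sum_add_distrib, Finset.sum_add_distrib, Finset.sum_ite_eq',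
            Finset.sum_ite_eq', if_pos (Finset.mem_range.2 hjn),
            if_pos (Finset.mem_range.2 (by omega : i < n))] at h1
          linarith
        intro i hi j hj hij
        have hi' : i < n := Finset.mem_range.1 (Finset.mem_filter.1 hi).1
        have hj' : j < n := Finset.mem_range.1 (Finset.mem_filter.1 hj).1
        rcases lt_or_gt_of_ne hij with h1 | h1
        · exact main i j h1 hj'
        · have := main j i h1 hi'
          linarith
      -- values
      have hsumsplit : ∑ k ∈ range n, stz (θ k == θ (k + 1)) (c k - iz (α k ^^ α (k + 1))) r =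
          (∑ k ∈ (range n).filter (fun k => ¬ ((θ k == θ (k + 1)) ≠ (ex θ1 k == ex θ1 (k + 1)))),
            stz (θ k == θ (k + 1)) (c k - iz (α k ^^ α (k + 1))) r) +
          ∑ k ∈ D, stz (θ k == θ (k + 1)) (c k - iz (α k ^^ α (k + 1))) r := by
        rw [add_comm]
        exact (Finset.sum_filter_add_sum_filter_not _ _ _).symm
      have hnn : ∀ k < n, ∀ b, 0 ≤ stz b (c k - iz (α k ^^ α (k + 1))) r := by
        intro k hk b
        have h1 := dc0 k hk
        have h2 := dcr k hk
        rcases b with _ | _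
        · simp only [stz_false]; omega
        · simp only [stz_true]; omega
      have hA : 0 ≤ ∑ k ∈ (range n).filter
          (fun k => ¬ ((θ k == θ (k + 1)) ≠ (ex θ1 k == ex θ1 (k + 1)))),
            stz (θ k == θ (k + 1)) (c k - iz (α k ^^ α (k + 1))) r :=
        Finset.sum_nonneg (fun k hk => hnn k (Finset.mem_range.1 (Finset.mem_filter.1 hk).1) _)
      have hB : ∑ k ∈ D, ((r : ℤ) - stz (ex θ1 k == ex θ1 (k + 1)) (c k) R) ≤
          ∑ k ∈ D, stz (θ k == θ (k + 1)) (c k - iz (α k ^^ α (k + 1))) r := by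
        apply Finset.sum_le_sum
        intro k hk
        have h1 : (θ k == θ (k + 1)) = !(ex θ1 k == ex θ1 (k + 1)) := by
          have := (Finset.mem_filter.1 hk).2
          rcases h2 : (θ k == θ (k + 1)) with _ | _ <;>
            rcases h3 : (ex θ1 k == ex θ1 (k + 1)) with _ | _ <;> simp_all
        rw [h1, stz_shift, ← hR]
        have h4 : ∀ b : Bool, stz (!b) (c k) R = R - stz b (c k) R := by
          intro b; rcases b with _ | _ <;> simp
        rw [h4]
        have h5 : ∀ b : Bool, iz b ≤ 1 := by intro b; rcases b with _ | _ <;> simp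
        have h6 := h5 ((α k ^^ α (k + 1)) == !(ex θ1 k == ex θ1 (k + 1)))
        omega
      have hC := pair_bound D (fun k => stz (ex θ1 k == ex θ1 (k + 1)) (c k) R) R hD2 hpair
      rw [Finset.sum_sub_distrib, Finset.sum_const, nsmul_eq_mul] at hB
      have hB0 : 0 ≤ ∑ k ∈ D, stz (θ k == θ (k + 1)) (c k - iz (α k ^^ α (k + 1))) r :=
        Finset.sum_nonneg (fun k hk => hnn k (Finset.mem_range.1 (Finset.mem_filter.1 hk).1) _)
      rw [hsumsplit] at hpar ⊢
      rcases Nat.eq_zero_or_pos r with hr0 | hr0
      · subst hr0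
        exact le_trans (by simp) (add_nonneg hA hB0)
      · have hcard : (2 : ℤ) ≤ (D.card : ℤ) := by exact_mod_cast hD2
        have hr1 : (1 : ℤ) ≤ (r : ℤ) := by exact_mod_cast hr0
        have hkey : ((r : ℤ) - 1) * 2 ≤ ((r : ℤ) - 1) * (D.card : ℤ) :=
          mul_le_mul_of_nonneg_left hcard (by linarith)
        have hfin : (r : ℤ) - 1 ≤
            ∑ k ∈ D, stz (θ k == θ (k + 1)) (c k - iz (α k ^^ α (k + 1))) r := by
          rw [hR] at hB hC
          nlinarith
        omega
  exact ⟨by simp only [hs, hα], by simp only [ht, hα], dTu, dTv, dQ, drim, dps, dpt⟩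

theorem sys_real (n : ℕ) (hn : 0 < n) : ∀ (r : ℕ) (s t c : ℕ → ℤ), Sys n r s t c →
    ∃ φ : Fin r → Cut n, (∀ k ≤ n, s k = ∑ m, iz ((φ m).1.1 k)) ∧
      (∀ k ≤ n, t k = ∑ m, iz ((φ m).1.1 k ^^ (φ m).1.2)) ∧
      (∀ k < n, c k = ∑ m, iz ((φ m).1.1 k ^^ (φ m).1.1 (k + 1))) := by
  intro r
  induction r with
  | zero =>
    intro s t c h
    refine ⟨Fin.elim0, ?_, ?_, ?_⟩
    · have h0 : ∀ k < n, s k = 0 := by
        intro k hk
        have h1 := h.hTu k hk true true
        have h2 := h.hTu k hk true false
        have h3 := h.hTu k hk false true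
        have h4 := h.hTu k hk false false
        simp at h1 h2 h3 h4
        omega
      intro k hk
      simp only [Finset.univ_eq_empty, Finset.sum_empty]
      rcases Nat.lt_or_eq_of_le hk with h1 | h1
      · exact h0 k h1
      · rw [h1, h.hs]; exact h0 0 hn
    · have h0 : ∀ k < n, t k = 0 := by
        intro k hk
        have h1 := h.hTv k hk true true
        have h2 := h.hTv k hk true false
        have h3 := h.hTv k hk false true
        have h4 := h.hTv k hk false false
        simp at h1 h2 h3 h4
        omega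
      intro k hk
      simp only [Finset.univ_eq_empty, Finset.sum_empty]
      rcases Nat.lt_or_eq_of_le hk with h1 | h1
      · exact h0 k h1
      · rw [h1, h.ht]; exact h0 0 hn
    · intro k hk
      simp only [Finset.univ_eq_empty, Finset.sum_empty]
      have h1 := h.hTu k hk true true
      have h2 := h.hTu k hk true false
      have h3 := h.hTu k hk false true
      have h4 := h.hTu k hk false false
      simp at h1 h2 h3 h4
      omega
  | succ r ih =>
    intro s t c h
    have h' : Sys n ((r : ℤ) + 1) s t c := by exact_mod_cast h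
    obtain ⟨x, hx⟩ := sys_step n hn r s t c h'
    obtain ⟨φ, h1, h2, h3⟩ := ih _ _ _ hx
    refine ⟨Fin.cons x φ, ?_, ?_, ?_⟩
    · intro k hk
      rw [Fin.sum_univ_succ]
      simp only [Fin.cons_zero, Fin.cons_succ]
      rw [← h1 k hk]; ring
    · intro k hk
      rw [Fin.sum_univ_succ]
      simp only [Fin.cons_zero, Fin.cons_succ]
      rw [← h2 k hk]; ring
    · intro k hk
      rw [Fin.sum_univ_succ]
      simp only [Fin.cons_zero, Fin.cons_succ]
      rw [← h3 k hk]; ring

end SPK
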