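import Pool.Agent.SPK.RingDefs

/-! The cone of a ring with two hubs: constraints and cuts. -/

namespace SPK

open Finset

abbrev RP := (ℕ → ℝ) × (ℕ → ℝ) × (ℕ → ℝ) × ℝ

def sL (k : ℕ) : RP →ₗ[ℝ] ℝ := (LinearMap.proj k) ∘ₗ LinearMap.fst ℝ _ _
def tL (k : ℕ) : RP →ₗ[ℝ] ℝ := (LinearMap.proj k) ∘ₗ LinearMap.fst ℝ _ _ ∘ₗ LinearMap.snd ℝ _ _
def cL (k : ℕ) : RP →ₗ[ℝ] ℝ :=
  (LinearMap.proj k) ∘ₗ LinearMap.fst ℝ _ _ ∘ₗ LinearMap.snd ℝ _ _ ∘ₗ LinearMap.snd ℝ _ _
def rL : RP →ₗ[ℝ] ℝ := LinearMap.snd ℝ _ _ ∘ₗ LinearMap.snd ℝ _ _ ∘ₗ LinearMap.snd ℝ _ _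

@[simp] theorem sL_apply (k : ℕ) (s t c : ℕ → ℝ) (r : ℝ) : sL k (s, t, c, r) = s k := rfl
@[simp] theorem tL_apply (k : ℕ) (s t c : ℕ → ℝ) (r : ℝ) : tL k (s, t, c, r) = t k := rfl
@[simp] theorem cL_apply (k : ℕ) (s t c : ℕ → ℝ) (r : ℝ) : cL k (s, t, c, r) = c k := rfl
@[simp] theorem rL_apply (s t c : ℕ → ℝ) (r : ℝ) : rL (s, t, c, r) = r := rfl

def stL (b : Bool) (x : RP →ₗ[ℝ] ℝ) : RP →ₗ[ℝ] ℝ := if b then x else rL - x

theorem stL_apply (b : Bool) (x : RP →ₗ[ℝ] ℝ) (y : RP) : stL b x y = stv b (x y) (rL y) := by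
  cases b <;> simp [stL, stv]

inductive Idx (n : ℕ) : Type
  | tu (k : Fin n) (i j : Bool)
  | tv (k : Fin n) (i j : Bool)
  | q (a b : Fin n) (σ τ : Bool)
  | rim (θ : Fin (n + 1) → Bool)
  | cl (i j : Bool)
  deriving Fintype

/-- Extend a sign vector to all natural positions. -/
def ex {n : ℕ} (θ : Fin (n + 1) → Bool) (k : ℕ) : Bool := θ (Fin.ofNat (n + 1) k)

theorem ex_of (n : ℕ) (θ : ℕ → Bool) (k : ℕ) (hk : k ≤ n) :
    ex (fun i : Fin (n + 1) => θ i.1) k = θ k := by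
  simp [ex, Nat.mod_eq_of_lt (Nat.lt_succ_of_le hk)]

def LL (n : ℕ) : Idx n → (RP →ₗ[ℝ] ℝ)
  | .tu k i j => stL i (sL k.1) + stL j (sL (k.1 + 1)) - stL (i == j) (cL k.1)
  | .tv k i j => stL i (tL k.1) + stL j (tL (k.1 + 1)) - stL (i == j) (cL k.1)
  | .q a b σ τ => stL τ (sL b.1) + stL τ (tL b.1) + stL σ (sL a.1) + stL (!σ) (tL a.1) - rL
  | .rim θ => if ex θ n = !(ex θ 0) then
      (∑ k ∈ Finset.range n, stL (ex θ k == ex θ (k + 1)) (cL k)) - rL else 0
  | .cl i j => if i then (if j then sL n - sL 0 else sL 0 - sL n)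
      else (if j then tL n - tL 0 else tL 0 - tL n)

theorem LL_congr (n : ℕ) (y y' : RP) (h1 : ∀ j ≤ n, sL j y = sL j y')
    (h2 : ∀ j ≤ n, tL j y = tL j y') (h3 : ∀ j < n, cL j y = cL j y') (h4 : rL y = rL y')
    (i : Idx n) : LL n i y = LL n i y' := by
  cases i with
  | tu k i j =>
    have hk := k.2
    simp only [LL, LinearMap.sub_apply, LinearMap.add_apply, stL_apply]
    rw [h1 k hk.le, h1 (k + 1) hk, h3 k hk, h4]
  | tv k i j =>
    have hk := k.2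
    simp only [LL, LinearMap.sub_apply, LinearMap.add_apply, stL_apply]
    rw [h2 k hk.le, h2 (k + 1) hk, h3 k hk, h4]
  | q a b σ τ =>
    have ha := a.2
    have hb := b.2
    simp only [LL, LinearMap.sub_apply, LinearMap.add_apply, stL_apply]
    rw [h1 a ha.le, h1 b hb.le, h2 a ha.le, h2 b hb.le, h4]
  | rim θ =>
    simp only [LL]
    split_ifs with hθ
    · simp only [LinearMap.sub_apply, LinearMap.sum_apply, stL_apply]
      rw [h4]
      congr 1
      apply Finset.sum_congr rfl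
      intro k hk
      rw [h3 k (Finset.mem_range.1 hk)]
    · simp
  | cl i j =>
    cases i <;> cases j <;> simp [LL, h1 n le_rfl, h1 0 (Nat.zero_le _), h2 n le_rfl,
      h2 0 (Nat.zero_le _)]

/-- Indicator. -/
def ind (b : Bool) : ℝ := if b then 1 else 0

@[simp] theorem ind_true : ind true = 1 := rfl
@[simp] theorem ind_false : ind false = 0 := rfl

/-- Closed sign patterns on the rim together with the side of the second hub. -/
abbrev Cut (n : ℕ) := {p : (ℕ → Bool) × Bool // p.1 n = p.1 0}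

def vc (n : ℕ) (x : Cut n) : RP :=
  (fun k => ind (x.1.1 k), fun k => ind (x.1.1 k ^^ x.1.2),
    fun k => ind (x.1.1 k ^^ x.1.1 (k + 1)), 1)

/-- Number of sign changes. -/
def fl (n : ℕ) (γ : ℕ → Bool) : ℕ := ∑ k ∈ Finset.range n, (if γ k ^^ γ (k + 1) then 1 else 0)

theorem fl_mod (n : ℕ) (γ : ℕ → Bool) : fl n γ % 2 = if γ 0 ^^ γ n then 1 else 0 := by
  induction n with
  | zero => simp [fl]
  | succ n ih =>
    have h : fl (n + 1) γ = fl n γ + (if γ n ^^ γ (n + 1) then 1 else 0) := by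
      simp [fl, Finset.sum_range_succ]
    rw [h, Nat.add_mod, ih]
    rcases γ 0 with _ | _ <;> rcases γ n with _ | _ <;> rcases γ (n + 1) with _ | _ <;> simp

theorem fl_odd (n : ℕ) (γ : ℕ → Bool) (h : γ n = !(γ 0)) : fl n γ % 2 = 1 := by
  rw [fl_mod, h]
  rcases γ 0 with _ | _ <;> simp

theorem fl_even (n : ℕ) (γ : ℕ → Bool) (h : γ n = γ 0) : fl n γ % 2 = 0 := by
  rw [fl_mod, h]
  rcases γ 0 with _ | _ <;> simp

/-- Value of a rim function at a cut. -/
theorem rim_cut (n : ℕ) (θ α : ℕ → Bool) :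
    ∑ k ∈ Finset.range n, stv (θ k == θ (k + 1)) (ind (α k ^^ α (k + 1))) 1 =
      (fl n (fun k => θ k ^^ α k) : ℝ) := by
  rw [fl]
  push_cast
  apply Finset.sum_congr rfl
  intro k _
  rcases θ k with _ | _ <;> rcases θ (k + 1) with _ | _ <;> rcases α k with _ | _ <;>
    rcases α (k + 1) with _ | _ <;> simp

theorem LL_tu_cut (n : ℕ) (x : Cut n) (k : Fin n) (i j : Bool) :
    LL n (.tu k i j) (vc n x) = if x.1.1 k = i ∧ x.1.1 (k + 1) = j then 2 else 0 := by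
  simp only [LL, LinearMap.sub_apply, LinearMap.add_apply, stL_apply, vc, sL_apply, cL_apply,
    rL_apply]
  rcases x.1.1 k with _ | _ <;> rcases x.1.1 (k + 1) with _ | _ <;> rcases i with _ | _ <;>
    rcases j with _ | _ <;> simp <;> norm_num

theorem LL_tv_cut (n : ℕ) (x : Cut n) (k : Fin n) (i j : Bool) :
    LL n (.tv k i j) (vc n x) =
      if (x.1.1 k ^^ x.1.2) = i ∧ (x.1.1 (k + 1) ^^ x.1.2) = j then 2 else 0 := by
  simp only [LL, LinearMap.sub_apply, LinearMap.add_apply, stL_apply, vc, tL_apply, cL_apply,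
    rL_apply]
  rcases x.1.1 k with _ | _ <;> rcases x.1.1 (k + 1) with _ | _ <;> rcases x.1.2 with _ | _ <;>
    rcases i with _ | _ <;> rcases j with _ | _ <;> simp <;> norm_num

theorem LL_q_cut (n : ℕ) (x : Cut n) (a b : Fin n) (σ τ : Bool) :
    LL n (.q a b σ τ) (vc n x) =
      if (if x.1.2 then x.1.1 a = σ else x.1.1 b = τ) then 2 else 0 := by
  simp only [LL, LinearMap.sub_apply, LinearMap.add_apply, stL_apply, vc, sL_apply, tL_apply,
    rL_apply]
  rcases x.1.1 a with _ | _ <;> rcases x.1.1 b with _ | _ <;> rcases x.1.2 with _ | _ <;>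
    rcases σ with _ | _ <;> rcases τ with _ | _ <;> simp <;> norm_num

theorem LL_rim_cut (n : ℕ) (x : Cut n) (θ : Fin (n + 1) → Bool) (h : ex θ n = !(ex θ 0)) :
    LL n (.rim θ) (vc n x) = (fl n (fun k => ex θ k ^^ x.1.1 k) : ℝ) - 1 := by
  simp only [LL, h, if_true, LinearMap.sub_apply, LinearMap.sum_apply, stL_apply, vc, cL_apply,
    rL_apply]
  rw [rim_cut]

theorem LL_cut_nonneg (n : ℕ) (x : Cut n) (i : Idx n) : 0 ≤ LL n i (vc n x) := by
  cases i with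
  | tu k i j => rw [LL_tu_cut]; split_ifs <;> norm_num
  | tv k i j => rw [LL_tv_cut]; split_ifs <;> norm_num
  | q a b σ τ => rw [LL_q_cut]; split_ifs <;> norm_num
  | rim θ =>
    by_cases h : ex θ n = !(ex θ 0)
    · rw [LL_rim_cut n x θ h]
      have h1 : fl n (fun k => ex θ k ^^ x.1.1 k) % 2 = 1 := by
        apply fl_odd
        simp only [h, x.2]
        rcases ex θ 0 with _ | _ <;> rcases x.1.1 0 with _ | _ <;> simp
      have h2 : 1 ≤ fl n (fun k => ex θ k ^^ x.1.1 k) := by omega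
      have h3 : (1 : ℝ) ≤ (fl n (fun k => ex θ k ^^ x.1.1 k) : ℝ) := by exact_mod_cast h2
      linarith
    · simp [LL, h]
  | cl i j =>
    have h := x.2
    cases i <;> cases j <;> simp [LL, vc, h]

end SPK
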