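import Mathlib

/-! Closed walks of positive mass in a ring of two by two transition tables, or rigidity. -/

namespace SPK

theorem ring_walk_from (n : ℕ) (m : ℕ → Bool → Bool → ℝ) (A : ℕ → Bool → ℝ)
    (hm : ∀ k < n, ∀ i j, 0 ≤ m k i j)
    (hrow : ∀ k < n, ∀ i, A k i = m k i true + m k i false)
    (hcol : ∀ k < n, ∀ j, A (k + 1) j = m k true j + m k false j)
    (i0 : Bool) (h0 : 0 < A 0 i0) :
    ∃ W : ℕ → Bool, W 0 = i0 ∧ (∀ k < n, 0 < m k (W k) (W (k + 1))) ∧ ∀ k ≤ n, 0 < A k (W k) := by
  classical
  let nx : ℕ → Bool → Bool := fun k i => if 0 < m k i true then true else false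
  let W : ℕ → Bool := fun k => Nat.rec (motive := fun _ => Bool) i0 (fun k w => nx k w) k
  have hW0 : W 0 = i0 := rfl
  have hWs : ∀ k, W (k + 1) = nx k (W k) := fun k => rfl
  have step : ∀ k < n, 0 < A k (W k) → 0 < m k (W k) (W (k + 1)) := by
    intro k hk hA
    rw [hWs]
    by_cases h : 0 < m k (W k) true
    · simp only [nx, h, if_true]
    · simp only [nx, h, if_false]
      have h1 : m k (W k) true = 0 := le_antisymm (not_lt.mp h) (hm k hk _ _)
      rw [hrow k hk, h1, zero_add] at hA
      exact hA
  have hA : ∀ k ≤ n, 0 < A k (W k) := by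
    intro k
    induction k with
    | zero => intro _; rw [hW0]; exact h0
    | succ k ih =>
      intro hk
      have hk' : k < n := hk
      have h1 := step k hk' (ih hk'.le)
      rw [hcol k hk']
      rcases hb : W k with _ | _
      · rw [hb] at h1
        linarith [hm k hk' true (W (k + 1))]
      · rw [hb] at h1
        linarith [hm k hk' false (W (k + 1))]
  exact ⟨W, hW0, fun k hk => step k hk (hA k hk.le), hA⟩

theorem ring_walk (n : ℕ) (m : ℕ → Bool → Bool → ℝ) (A : ℕ → Bool → ℝ)
    (hm : ∀ k < n, ∀ i j, 0 ≤ m k i j)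
    (hrow : ∀ k < n, ∀ i, A k i = m k i true + m k i false)
    (hcol : ∀ k < n, ∀ j, A (k + 1) j = m k true j + m k false j)
    (hn : ∀ i, A n i = A 0 i) (i0 : Bool) (h0 : 0 < A 0 i0) :
    (∃ α : ℕ → Bool, α n = α 0 ∧ ∀ k < n, 0 < m k (α k) (α (k + 1))) ∨
    (∃ w : ℕ → Bool, w n = !(w 0) ∧ (∀ k ≤ n, ∀ i, 0 < A k i) ∧
      ∀ k < n, m k (w k) (!(w (k + 1))) = 0 ∧ m k (!(w k)) (w (k + 1)) = 0) := by
  classical
  by_cases hc : ∃ α : ℕ → Bool, α n = α 0 ∧ ∀ k < n, 0 < m k (α k) (α (k + 1))
  · exact Or.inl hc
  right
  obtain ⟨W, hW0, hWs, hWA⟩ := ring_walk_from n m A hm hrow hcol i0 h0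
  have hWn : W n = !(W 0) := by
    by_contra hne
    apply hc
    refine ⟨W, ?_, hWs⟩
    rcases h1 : W n with _ | _ <;> rcases h2 : W 0 with _ | _ <;> simp_all
  have h0' : 0 < A 0 (!i0) := by
    have := hWA n le_rfl
    rw [hWn, hW0, hn] at this
    exact this
  obtain ⟨U, hU0, hUs, hUA⟩ := ring_walk_from n m A hm hrow hcol (!i0) h0'
  have hUn : U n = !(U 0) := by
    by_contra hne
    apply hc
    refine ⟨U, ?_, hUs⟩
    rcases h1 : U n with _ | _ <;> rcases h2 : U 0 with _ | _ <;> simp_all
  have hUn' : U n = i0 := by rw [hUn, hU0, Bool.not_not]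
  have hWn' : W n = !i0 := by rw [hWn, hW0]
  -- splices
  have spl1 : ∀ k ≤ n, W k ≠ U k := by
    intro k hk heq
    apply hc
    refine ⟨fun j => if j ≤ k then W j else U j, ?_, ?_⟩
    · have e0 : (if (0:ℕ) ≤ k then W 0 else U 0) = i0 := by simp [hW0]
      simp only [e0]
      by_cases hnk : n ≤ k
      · have : n = k := le_antisymm hnk hk
        subst this
        simp only [le_refl, if_true]
        rw [heq, hUn']
      · simp only [hnk, if_false]
        exact hUn'
    · intro j hj
      by_cases h1 : j + 1 ≤ k
      · have h2 : j ≤ k := by omega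
        simp only [h1, h2, if_true]
        exact hWs j hj
      · by_cases h2 : j ≤ k
        · have h3 : j = k := by omega
          subst h3
          simp only [le_refl, if_true, h1, if_false]
          rw [heq]
          exact hUs j hj
        · simp only [h1, h2, if_false]
          exact hUs j hj
  have hUW : ∀ k ≤ n, U k = !(W k) := by
    intro k hk
    have := spl1 k hk
    rcases h1 : U k with _ | _ <;> rcases h2 : W k with _ | _ <;> simp_all
  refine ⟨W, hWn, ?_, ?_⟩
  · intro k hk i
    have h1 := hWA k hk
    have h2 := hUA k hk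
    rw [hUW k hk] at h2
    rcases h3 : W k with _ | _ <;> rcases i with _ | _ <;> simp_all
  · intro k hk
    have hk1 : k + 1 ≤ n := hk
    constructor
    · by_contra hne
      have hpos : 0 < m k (W k) (!(W (k + 1))) := lt_of_le_of_ne (hm k hk _ _) (Ne.symm hne)
      rw [← hUW (k + 1) hk1] at hpos
      apply hc
      refine ⟨fun j => if j ≤ k then W j else U j, ?_, ?_⟩
      · have e0 : (if (0:ℕ) ≤ k then W 0 else U 0) = i0 := by simp [hW0]
        simp only [e0]
        have hnk : ¬ n ≤ k := by omega
        simp only [hnk, if_false]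
        exact hUn'
      · intro j hj
        by_cases h1 : j + 1 ≤ k
        · have h2 : j ≤ k := by omega
          simp only [h1, h2, if_true]
          exact hWs j hj
        · by_cases h2 : j ≤ k
          · have h3 : j = k := by omega
            subst h3
            simp only [le_refl, if_true, h1, if_false]
            exact hpos
          · simp only [h1, h2, if_false]
            exact hUs j hj
    · by_contra hne
      have hpos : 0 < m k (!(W k)) (W (k + 1)) := lt_of_le_of_ne (hm k hk _ _) (Ne.symm hne)
      rw [← hUW k hk.le] at hpos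
      apply hc
      refine ⟨fun j => if j ≤ k then U j else W j, ?_, ?_⟩
      · have e0 : (if (0:ℕ) ≤ k then U 0 else W 0) = !i0 := by simp [hU0]
        simp only [e0]
        have hnk : ¬ n ≤ k := by omega
        simp only [hnk, if_false]
        exact hWn'
      · intro j hj
        by_cases h1 : j + 1 ≤ k
        · have h2 : j ≤ k := by omega
          simp only [h1, h2, if_true]
          exact hUs j hj
        · by_cases h2 : j ≤ k
          · have h3 : j = k := by omega
            subst h3
            simp only [le_refl, if_true, h1, if_false]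
            exact hpos
          · simp only [h1, h2, if_false]
            exact hWs j hj

end SPK
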