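import Pool.Agent.SPK.TwoDim

/-! The slab lemma: composing two transport hexagons. -/

namespace SPK

theorem box_sum (e f : ℤ) (PL PU QL QU : List ℤ) (K G : ℤ)
    (nPL : PL ≠ []) (nPU : PU ≠ []) (nQL : QL ≠ []) (nQU : QU ≠ [])
    (pPL : ∀ a ∈ PL, (a - e) % 2 = 0) (pPU : ∀ a ∈ PU, (a - e) % 2 = 0)
    (pQL : ∀ a ∈ QL, (a - f) % 2 = 0) (pQU : ∀ a ∈ QU, (a - f) % 2 = 0)
    (pK : (K - e - f) % 2 = 0)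
    (hP : ∀ a ∈ PL, ∀ b ∈ PU, a ≤ b) (hQ : ∀ a ∈ QL, ∀ b ∈ QU, a ≤ b) (hK : K ≤ G)
    (h1 : ∀ a ∈ PL, ∀ b ∈ QL, a + b ≤ G) (h2 : ∀ a ∈ PU, ∀ b ∈ QU, K ≤ a + b) :
    ∃ x y : ℤ, (x - e) % 2 = 0 ∧ (y - f) % 2 = 0 ∧ (∀ a ∈ PL, a ≤ x) ∧ (∀ a ∈ PU, x ≤ a) ∧
      (∀ a ∈ QL, a ≤ y) ∧ (∀ a ∈ QU, y ≤ a) ∧ K ≤ x + y ∧ x + y ≤ G := by
  obtain ⟨pl, mpl, Hpl⟩ := exists_list_max PL nPL
  obtain ⟨pu, mpu, Hpu⟩ := exists_list_min PU nPU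
  obtain ⟨ql, mql, Hql⟩ := exists_list_max QL nQL
  obtain ⟨qu, mqu, Hqu⟩ := exists_list_min QU nQU
  have a1 := pPL _ mpl
  have a2 := pPU _ mpu
  have a3 := pQL _ mql
  have a4 := pQU _ mqu
  have b1 := hP _ mpl _ mpu
  have b2 := hQ _ mql _ mqu
  have b3 := h1 _ mpl _ mql
  have b4 := h2 _ mpu _ mqu
  have key : ∃ x y : ℤ, (x - e) % 2 = 0 ∧ (y - f) % 2 = 0 ∧ pl ≤ x ∧ x ≤ pu ∧ ql ≤ y ∧ y ≤ qu ∧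
      K ≤ x + y ∧ x + y ≤ G := by
    rcases le_or_gt K (pl + ql) with c | c
    · exact ⟨pl, ql, a1, a3, le_refl _, b1, le_refl _, b2, c, b3⟩
    · rcases le_or_gt K (pu + ql) with c' | c'
      · exact ⟨K - ql, ql, by omega, a3, by omega, by omega, le_refl _, b2, by omega, by omega⟩
      · exact ⟨pu, K - pu, a2, by omega, b1, le_refl _, by omega, by omega, by omega, by omega⟩
  obtain ⟨x, y, c1, c2, c3, c4, c5, c6, c7, c8⟩ := key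
  exact ⟨x, y, c1, c2, fun a ha => (Hpl a ha).trans c3, fun a ha => c4.trans (Hpu a ha),
    fun a ha => (Hql a ha).trans c5, fun a ha => c6.trans (Hqu a ha), c7, c8⟩

/-- The inequalities of one piece in one slab. -/
structure SlabOK (r N0 N1 e1 e2 e3 e4 V1 V2 V3 V4 L U : ℤ) : Prop where
  n1 : 0 ≤ e1
  n2 : 0 ≤ e2
  n3 : 0 ≤ e3
  n4 : 0 ≤ e4
  b1 : e1 ≤ V1
  b2 : e2 ≤ V2
  b3 : e3 ≤ V3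
  b4 : e4 ≤ V4
  c1 : e1 + e3 ≤ N0
  c2 : e2 + e4 ≤ N1
  c3 : N0 ≤ V1 + V3
  c4 : N1 ≤ V2 + V4
  d1 : r - L ≤ V1 + V2
  d2 : U ≤ V3 + V4
  d3 : r - e2 - e3 ≤ V1 + V4
  d4 : r - e1 - e4 ≤ V2 + V3
  f1 : L ≤ V3 + e4
  f2 : V3 + e4 ≤ U
  f3 : L ≤ V4 + e3
  f4 : V4 + e3 ≤ U
  g1 : r - U ≤ V1 + e2
  g2 : V1 + e2 ≤ r - L
  g3 : r - U ≤ V2 + e1
  g4 : V2 + e1 ≤ r - L
  l1 : L ≤ U
  l2 : e3 + e4 ≤ L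
  l3 : e1 + e2 ≤ r - U
  p1 : (V1 - e1) % 2 = 0
  p2 : (V2 - e2) % 2 = 0
  p3 : (V3 - e3) % 2 = 0
  p4 : (V4 - e4) % 2 = 0
  p5 : (L - e3 - e4) % 2 = 0
  p6 : (U - e3 - e4) % 2 = 0
  p7 : (N0 - e1 - e3) % 2 = 0
  p8 : (N1 - e2 - e4) % 2 = 0

/-- Triangle inequalities for three numbers. -/
structure Tri3 (a b c : ℤ) : Prop where
  t1 : a ≤ b + c
  t2 : b ≤ a + c
  t3 : c ≤ a + b
  t4 : (a + b + c) % 2 = 0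

/-- The composition inequalities in one class. -/
structure Comp (u1 u3 v1 v3 x1 x3 : ℤ) : Prop where
  h1 : x3 ≤ u3 + v3
  h2 : x3 ≤ u1 + v1
  h3 : x1 ≤ u1 + v3
  h4 : x1 ≤ u3 + v1

theorem slab_cX (r N0 N1 e1 e2 e3 e4 V1 V2 V3 V4 L U f1 f2 f3 f4 W1 W2 W3 W4 K G
    c1 c2 c3 c4 x1 x2 x3 x4 : ℤ) (hr : N0 + N1 = r)
    (hp : SlabOK r N0 N1 e1 e2 e3 e4 V1 V2 V3 V4 L U)
    (hq : SlabOK r N0 N1 f1 f2 f3 f4 W1 W2 W3 W4 K G)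
    (t1 : Tri3 e1 f1 c3) (t2 : Tri3 e1 f3 c1) (t3 : Tri3 e3 f1 c1) (t4 : Tri3 e3 f3 c3)
    (t5 : Tri3 e2 f2 c4) (t6 : Tri3 e2 f4 c2) (t7 : Tri3 e4 f2 c2) (t8 : Tri3 e4 f4 c4)
    (q1 : c1 ≤ x1) (q2 : c2 ≤ x2) (q3 : c3 ≤ x3) (q4 : c4 ≤ x4)
    (s0 : x1 + x3 = N0) (s1 : x2 + x4 = N1)
    (h1 : Comp V1 V3 W1 W3 x1 x3) (h2 : Comp V2 V4 W2 W4 x2 x4)
    (y1 : x3 + x4 ≤ U + G) (y2 : x3 + x4 ≤ (r - L) + (r - K))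
    (y3 : x1 + x2 ≤ (r - L) + G) (y4 : x1 + x2 ≤ U + (r - K)) :
    ∀ a ∈ [e3, N0 - V1, x3 - W3, N0 - W1 - x3], ∀ b ∈ [V3, N0 - e1, x3 + W3, N0 + W1 - x3], a ≤ b := by
  obtain ⟨pn1, pn2, pn3, pn4, pb1, pb2, pb3, pb4, pc1, pc2, pc3, pc4, pd1, pd2, pd3, pd4, pf1,
    pf2, pf3, pf4, pg1, pg2, pg3, pg4, pl1, pl2, pl3, -, -, -, -, -, -, -, -⟩ := hp
  obtain ⟨qn1, qn2, qn3, qn4, qb1, qb2, qb3, qb4, qc1, qc2, qc3, qc4, qd1, qd2, qd3, qd4, qf1,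
    qf2, qf3, qf4, qg1, qg2, qg3, qg4, ql1, ql2, ql3, -, -, -, -, -, -, -, -⟩ := hq
  obtain ⟨t11, t12, t13, -⟩ := t1
  obtain ⟨t21, t22, t23, -⟩ := t2
  obtain ⟨t31, t32, t33, -⟩ := t3
  obtain ⟨t41, t42, t43, -⟩ := t4
  obtain ⟨t51, t52, t53, -⟩ := t5
  obtain ⟨t61, t62, t63, -⟩ := t6
  obtain ⟨t71, t72, t73, -⟩ := t7
  obtain ⟨t81, t82, t83, -⟩ := t8
  obtain ⟨h11, h12, h13, h14⟩ := h1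
  obtain ⟨h21, h22, h23, h24⟩ := h2
  subst s0
  subst s1
  subst hr
  intro a ha b hb
  simp only [List.mem_cons, List.not_mem_nil, or_false] at ha hb
  rcases ha with rfl | rfl | rfl | rfl <;>
    rcases hb with rfl | rfl | rfl | rfl <;> linarith

theorem slab_cY (r N0 N1 e1 e2 e3 e4 V1 V2 V3 V4 L U f1 f2 f3 f4 W1 W2 W3 W4 K G
    c1 c2 c3 c4 x1 x2 x3 x4 : ℤ) (hr : N0 + N1 = r)
    (hp : SlabOK r N0 N1 e1 e2 e3 e4 V1 V2 V3 V4 L U)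
    (hq : SlabOK r N0 N1 f1 f2 f3 f4 W1 W2 W3 W4 K G)
    (t1 : Tri3 e1 f1 c3) (t2 : Tri3 e1 f3 c1) (t3 : Tri3 e3 f1 c1) (t4 : Tri3 e3 f3 c3)
    (t5 : Tri3 e2 f2 c4) (t6 : Tri3 e2 f4 c2) (t7 : Tri3 e4 f2 c2) (t8 : Tri3 e4 f4 c4)
    (q1 : c1 ≤ x1) (q2 : c2 ≤ x2) (q3 : c3 ≤ x3) (q4 : c4 ≤ x4)
    (s0 : x1 + x3 = N0) (s1 : x2 + x4 = N1)
    (h1 : Comp V1 V3 W1 W3 x1 x3) (h2 : Comp V2 V4 W2 W4 x2 x4)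
    (y1 : x3 + x4 ≤ U + G) (y2 : x3 + x4 ≤ (r - L) + (r - K))
    (y3 : x1 + x2 ≤ (r - L) + G) (y4 : x1 + x2 ≤ U + (r - K)) :
    ∀ a ∈ [e4, N1 - V2, x4 - W4, N1 - W2 - x4], ∀ b ∈ [V4, N1 - e2, x4 + W4, N1 + W2 - x4], a ≤ b := by
  obtain ⟨pn1, pn2, pn3, pn4, pb1, pb2, pb3, pb4, pc1, pc2, pc3, pc4, pd1, pd2, pd3, pd4, pf1,
    pf2, pf3, pf4, pg1, pg2, pg3, pg4, pl1, pl2, pl3, -, -, -, -, -, -, -, -⟩ := hp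
  obtain ⟨qn1, qn2, qn3, qn4, qb1, qb2, qb3, qb4, qc1, qc2, qc3, qc4, qd1, qd2, qd3, qd4, qf1,
    qf2, qf3, qf4, qg1, qg2, qg3, qg4, ql1, ql2, ql3, -, -, -, -, -, -, -, -⟩ := hq
  obtain ⟨t11, t12, t13, -⟩ := t1
  obtain ⟨t21, t22, t23, -⟩ := t2
  obtain ⟨t31, t32, t33, -⟩ := t3
  obtain ⟨t41, t42, t43, -⟩ := t4
  obtain ⟨t51, t52, t53, -⟩ := t5
  obtain ⟨t61, t62, t63, -⟩ := t6
  obtain ⟨t71, t72, t73, -⟩ := t7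
  obtain ⟨t81, t82, t83, -⟩ := t8
  obtain ⟨h11, h12, h13, h14⟩ := h1
  obtain ⟨h21, h22, h23, h24⟩ := h2
  subst s0
  subst s1
  subst hr
  intro a ha b hb
  simp only [List.mem_cons, List.not_mem_nil, or_false] at ha hb
  rcases ha with rfl | rfl | rfl | rfl <;>
    rcases hb with rfl | rfl | rfl | rfl <;> linarith

theorem slab_cS (r N0 N1 e1 e2 e3 e4 V1 V2 V3 V4 L U f1 f2 f3 f4 W1 W2 W3 W4 K G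
    c1 c2 c3 c4 x1 x2 x3 x4 : ℤ) (hr : N0 + N1 = r)
    (hp : SlabOK r N0 N1 e1 e2 e3 e4 V1 V2 V3 V4 L U)
    (hq : SlabOK r N0 N1 f1 f2 f3 f4 W1 W2 W3 W4 K G)
    (t1 : Tri3 e1 f1 c3) (t2 : Tri3 e1 f3 c1) (t3 : Tri3 e3 f1 c1) (t4 : Tri3 e3 f3 c3)
    (t5 : Tri3 e2 f2 c4) (t6 : Tri3 e2 f4 c2) (t7 : Tri3 e4 f2 c2) (t8 : Tri3 e4 f4 c4)
    (q1 : c1 ≤ x1) (q2 : c2 ≤ x2) (q3 : c3 ≤ x3) (q4 : c4 ≤ x4)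
    (s0 : x1 + x3 = N0) (s1 : x2 + x4 = N1)
    (h1 : Comp V1 V3 W1 W3 x1 x3) (h2 : Comp V2 V4 W2 W4 x2 x4)
    (y1 : x3 + x4 ≤ U + G) (y2 : x3 + x4 ≤ (r - L) + (r - K))
    (y3 : x1 + x2 ≤ (r - L) + G) (y4 : x1 + x2 ≤ U + (r - K)) :
    ∀ a ∈ [L, x3 + x4 - G, K - x3 - x4], ∀ b ∈ [U, G + x3 + x4, 2 * r - K - x3 - x4], a ≤ b := by
  obtain ⟨pn1, pn2, pn3, pn4, pb1, pb2, pb3, pb4, pc1, pc2, pc3, pc4, pd1, pd2, pd3, pd4, pf1,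
    pf2, pf3, pf4, pg1, pg2, pg3, pg4, pl1, pl2, pl3, -, -, -, -, -, -, -, -⟩ := hp
  obtain ⟨qn1, qn2, qn3, qn4, qb1, qb2, qb3, qb4, qc1, qc2, qc3, qc4, qd1, qd2, qd3, qd4, qf1,
    qf2, qf3, qf4, qg1, qg2, qg3, qg4, ql1, ql2, ql3, -, -, -, -, -, -, -, -⟩ := hq
  obtain ⟨t11, t12, t13, -⟩ := t1
  obtain ⟨t21, t22, t23, -⟩ := t2
  obtain ⟨t31, t32, t33, -⟩ := t3
  obtain ⟨t41, t42, t43, -⟩ := t4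
  obtain ⟨t51, t52, t53, -⟩ := t5
  obtain ⟨t61, t62, t63, -⟩ := t6
  obtain ⟨t71, t72, t73, -⟩ := t7
  obtain ⟨t81, t82, t83, -⟩ := t8
  obtain ⟨h11, h12, h13, h14⟩ := h1
  obtain ⟨h21, h22, h23, h24⟩ := h2
  subst s0
  subst s1
  subst hr
  intro a ha b hb
  simp only [List.mem_cons, List.not_mem_nil, or_false] at ha hb
  rcases ha with rfl | rfl | rfl <;>
    rcases hb with rfl | rfl | rfl <;> linarith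

theorem slab_cD (r N0 N1 e1 e2 e3 e4 V1 V2 V3 V4 L U f1 f2 f3 f4 W1 W2 W3 W4 K G
    c1 c2 c3 c4 x1 x2 x3 x4 : ℤ) (hr : N0 + N1 = r)
    (hp : SlabOK r N0 N1 e1 e2 e3 e4 V1 V2 V3 V4 L U)
    (hq : SlabOK r N0 N1 f1 f2 f3 f4 W1 W2 W3 W4 K G)
    (t1 : Tri3 e1 f1 c3) (t2 : Tri3 e1 f3 c1) (t3 : Tri3 e3 f1 c1) (t4 : Tri3 e3 f3 c3)
    (t5 : Tri3 e2 f2 c4) (t6 : Tri3 e2 f4 c2) (t7 : Tri3 e4 f2 c2) (t8 : Tri3 e4 f4 c4)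
    (q1 : c1 ≤ x1) (q2 : c2 ≤ x2) (q3 : c3 ≤ x3) (q4 : c4 ≤ x4)
    (s0 : x1 + x3 = N0) (s1 : x2 + x4 = N1)
    (h1 : Comp V1 V3 W1 W3 x1 x3) (h2 : Comp V2 V4 W2 W4 x2 x4)
    (y1 : x3 + x4 ≤ U + G) (y2 : x3 + x4 ≤ (r - L) + (r - K))
    (y3 : x1 + x2 ≤ (r - L) + G) (y4 : x1 + x2 ≤ U + (r - K)) :
    ∀ a ∈ [x3 - x4 - G, K - 2 * N1 - x3 + x4], ∀ b ∈ [G + x3 - x4, 2 * N0 - K - x3 + x4], a ≤ b := by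
  obtain ⟨pn1, pn2, pn3, pn4, pb1, pb2, pb3, pb4, pc1, pc2, pc3, pc4, pd1, pd2, pd3, pd4, pf1,
    pf2, pf3, pf4, pg1, pg2, pg3, pg4, pl1, pl2, pl3, -, -, -, -, -, -, -, -⟩ := hp
  obtain ⟨qn1, qn2, qn3, qn4, qb1, qb2, qb3, qb4, qc1, qc2, qc3, qc4, qd1, qd2, qd3, qd4, qf1,
    qf2, qf3, qf4, qg1, qg2, qg3, qg4, ql1, ql2, ql3, -, -, -, -, -, -, -, -⟩ := hq
  obtain ⟨t11, t12, t13, -⟩ := t1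
  obtain ⟨t21, t22, t23, -⟩ := t2
  obtain ⟨t31, t32, t33, -⟩ := t3
  obtain ⟨t41, t42, t43, -⟩ := t4
  obtain ⟨t51, t52, t53, -⟩ := t5
  obtain ⟨t61, t62, t63, -⟩ := t6
  obtain ⟨t71, t72, t73, -⟩ := t7
  obtain ⟨t81, t82, t83, -⟩ := t8
  obtain ⟨h11, h12, h13, h14⟩ := h1
  obtain ⟨h21, h22, h23, h24⟩ := h2
  subst s0
  subst s1
  subst hr
  intro a ha b hb
  simp only [List.mem_cons, List.not_mem_nil, or_false] at ha hb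
  rcases ha with rfl | rfl <;>
    rcases hb with rfl | rfl <;> linarith

theorem slab_c1 (r N0 N1 e1 e2 e3 e4 V1 V2 V3 V4 L U f1 f2 f3 f4 W1 W2 W3 W4 K G
    c1 c2 c3 c4 x1 x2 x3 x4 : ℤ) (hr : N0 + N1 = r)
    (hp : SlabOK r N0 N1 e1 e2 e3 e4 V1 V2 V3 V4 L U)
    (hq : SlabOK r N0 N1 f1 f2 f3 f4 W1 W2 W3 W4 K G)
    (t1 : Tri3 e1 f1 c3) (t2 : Tri3 e1 f3 c1) (t3 : Tri3 e3 f1 c1) (t4 : Tri3 e3 f3 c3)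
    (t5 : Tri3 e2 f2 c4) (t6 : Tri3 e2 f4 c2) (t7 : Tri3 e4 f2 c2) (t8 : Tri3 e4 f4 c4)
    (q1 : c1 ≤ x1) (q2 : c2 ≤ x2) (q3 : c3 ≤ x3) (q4 : c4 ≤ x4)
    (s0 : x1 + x3 = N0) (s1 : x2 + x4 = N1)
    (h1 : Comp V1 V3 W1 W3 x1 x3) (h2 : Comp V2 V4 W2 W4 x2 x4)
    (y1 : x3 + x4 ≤ U + G) (y2 : x3 + x4 ≤ (r - L) + (r - K))
    (y3 : x1 + x2 ≤ (r - L) + G) (y4 : x1 + x2 ≤ U + (r - K)) :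
    ∀ a ∈ [e3, N0 - V1, x3 - W3, N0 - W1 - x3], ∀ b ∈ [e4, N1 - V2, x4 - W4, N1 - W2 - x4], ∀ c ∈ [U, G + x3 + x4, 2 * r - K - x3 - x4], a + b ≤ c := by
  obtain ⟨pn1, pn2, pn3, pn4, pb1, pb2, pb3, pb4, pc1, pc2, pc3, pc4, pd1, pd2, pd3, pd4, pf1,
    pf2, pf3, pf4, pg1, pg2, pg3, pg4, pl1, pl2, pl3, -, -, -, -, -, -, -, -⟩ := hp
  obtain ⟨qn1, qn2, qn3, qn4, qb1, qb2, qb3, qb4, qc1, qc2, qc3, qc4, qd1, qd2, qd3, qd4, qf1,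
    qf2, qf3, qf4, qg1, qg2, qg3, qg4, ql1, ql2, ql3, -, -, -, -, -, -, -, -⟩ := hq
  obtain ⟨t11, t12, t13, -⟩ := t1
  obtain ⟨t21, t22, t23, -⟩ := t2
  obtain ⟨t31, t32, t33, -⟩ := t3
  obtain ⟨t41, t42, t43, -⟩ := t4
  obtain ⟨t51, t52, t53, -⟩ := t5
  obtain ⟨t61, t62, t63, -⟩ := t6
  obtain ⟨t71, t72, t73, -⟩ := t7
  obtain ⟨t81, t82, t83, -⟩ := t8
  obtain ⟨h11, h12, h13, h14⟩ := h1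
  obtain ⟨h21, h22, h23, h24⟩ := h2
  subst s0
  subst s1
  subst hr
  intro a ha b hb c hc
  simp only [List.mem_cons, List.not_mem_nil, or_false] at ha hb hc
  rcases ha with rfl | rfl | rfl | rfl <;>
    rcases hb with rfl | rfl | rfl | rfl <;>
    rcases hc with rfl | rfl | rfl <;> linarith

theorem slab_c2 (r N0 N1 e1 e2 e3 e4 V1 V2 V3 V4 L U f1 f2 f3 f4 W1 W2 W3 W4 K G
    c1 c2 c3 c4 x1 x2 x3 x4 : ℤ) (hr : N0 + N1 = r)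
    (hp : SlabOK r N0 N1 e1 e2 e3 e4 V1 V2 V3 V4 L U)
    (hq : SlabOK r N0 N1 f1 f2 f3 f4 W1 W2 W3 W4 K G)
    (t1 : Tri3 e1 f1 c3) (t2 : Tri3 e1 f3 c1) (t3 : Tri3 e3 f1 c1) (t4 : Tri3 e3 f3 c3)
    (t5 : Tri3 e2 f2 c4) (t6 : Tri3 e2 f4 c2) (t7 : Tri3 e4 f2 c2) (t8 : Tri3 e4 f4 c4)
    (q1 : c1 ≤ x1) (q2 : c2 ≤ x2) (q3 : c3 ≤ x3) (q4 : c4 ≤ x4)
    (s0 : x1 + x3 = N0) (s1 : x2 + x4 = N1)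
    (h1 : Comp V1 V3 W1 W3 x1 x3) (h2 : Comp V2 V4 W2 W4 x2 x4)
    (y1 : x3 + x4 ≤ U + G) (y2 : x3 + x4 ≤ (r - L) + (r - K))
    (y3 : x1 + x2 ≤ (r - L) + G) (y4 : x1 + x2 ≤ U + (r - K)) :
    ∀ a ∈ [V3, N0 - e1, x3 + W3, N0 + W1 - x3], ∀ b ∈ [V4, N1 - e2, x4 + W4, N1 + W2 - x4], ∀ c ∈ [L, x3 + x4 - G, K - x3 - x4], c ≤ a + b := by
  obtain ⟨pn1, pn2, pn3, pn4, pb1, pb2, pb3, pb4, pc1, pc2, pc3, pc4, pd1, pd2, pd3, pd4, pf1,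
    pf2, pf3, pf4, pg1, pg2, pg3, pg4, pl1, pl2, pl3, -, -, -, -, -, -, -, -⟩ := hp
  obtain ⟨qn1, qn2, qn3, qn4, qb1, qb2, qb3, qb4, qc1, qc2, qc3, qc4, qd1, qd2, qd3, qd4, qf1,
    qf2, qf3, qf4, qg1, qg2, qg3, qg4, ql1, ql2, ql3, -, -, -, -, -, -, -, -⟩ := hq
  obtain ⟨t11, t12, t13, -⟩ := t1
  obtain ⟨t21, t22, t23, -⟩ := t2
  obtain ⟨t31, t32, t33, -⟩ := t3
  obtain ⟨t41, t42, t43, -⟩ := t4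
  obtain ⟨t51, t52, t53, -⟩ := t5
  obtain ⟨t61, t62, t63, -⟩ := t6
  obtain ⟨t71, t72, t73, -⟩ := t7
  obtain ⟨t81, t82, t83, -⟩ := t8
  obtain ⟨h11, h12, h13, h14⟩ := h1
  obtain ⟨h21, h22, h23, h24⟩ := h2
  subst s0
  subst s1
  subst hr
  intro a ha b hb c hc
  simp only [List.mem_cons, List.not_mem_nil, or_false] at ha hb hc
  rcases ha with rfl | rfl | rfl | rfl <;>
    rcases hb with rfl | rfl | rfl | rfl <;>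
    rcases hc with rfl | rfl | rfl <;> linarith

theorem slab_c3 (r N0 N1 e1 e2 e3 e4 V1 V2 V3 V4 L U f1 f2 f3 f4 W1 W2 W3 W4 K G
    c1 c2 c3 c4 x1 x2 x3 x4 : ℤ) (hr : N0 + N1 = r)
    (hp : SlabOK r N0 N1 e1 e2 e3 e4 V1 V2 V3 V4 L U)
    (hq : SlabOK r N0 N1 f1 f2 f3 f4 W1 W2 W3 W4 K G)
    (t1 : Tri3 e1 f1 c3) (t2 : Tri3 e1 f3 c1) (t3 : Tri3 e3 f1 c1) (t4 : Tri3 e3 f3 c3)
    (t5 : Tri3 e2 f2 c4) (t6 : Tri3 e2 f4 c2) (t7 : Tri3 e4 f2 c2) (t8 : Tri3 e4 f4 c4)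
    (q1 : c1 ≤ x1) (q2 : c2 ≤ x2) (q3 : c3 ≤ x3) (q4 : c4 ≤ x4)
    (s0 : x1 + x3 = N0) (s1 : x2 + x4 = N1)
    (h1 : Comp V1 V3 W1 W3 x1 x3) (h2 : Comp V2 V4 W2 W4 x2 x4)
    (y1 : x3 + x4 ≤ U + G) (y2 : x3 + x4 ≤ (r - L) + (r - K))
    (y3 : x1 + x2 ≤ (r - L) + G) (y4 : x1 + x2 ≤ U + (r - K)) :
    ∀ a ∈ [e3, N0 - V1, x3 - W3, N0 - W1 - x3], ∀ b ∈ [V4, N1 - e2, x4 + W4, N1 + W2 - x4], ∀ c ∈ [G + x3 - x4, 2 * N0 - K - x3 + x4], a - b ≤ c := by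
  obtain ⟨pn1, pn2, pn3, pn4, pb1, pb2, pb3, pb4, pc1, pc2, pc3, pc4, pd1, pd2, pd3, pd4, pf1,
    pf2, pf3, pf4, pg1, pg2, pg3, pg4, pl1, pl2, pl3, -, -, -, -, -, -, -, -⟩ := hp
  obtain ⟨qn1, qn2, qn3, qn4, qb1, qb2, qb3, qb4, qc1, qc2, qc3, qc4, qd1, qd2, qd3, qd4, qf1,
    qf2, qf3, qf4, qg1, qg2, qg3, qg4, ql1, ql2, ql3, -, -, -, -, -, -, -, -⟩ := hq
  obtain ⟨t11, t12, t13, -⟩ := t1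
  obtain ⟨t21, t22, t23, -⟩ := t2
  obtain ⟨t31, t32, t33, -⟩ := t3
  obtain ⟨t41, t42, t43, -⟩ := t4
  obtain ⟨t51, t52, t53, -⟩ := t5
  obtain ⟨t61, t62, t63, -⟩ := t6
  obtain ⟨t71, t72, t73, -⟩ := t7
  obtain ⟨t81, t82, t83, -⟩ := t8
  obtain ⟨h11, h12, h13, h14⟩ := h1
  obtain ⟨h21, h22, h23, h24⟩ := h2
  subst s0
  subst s1
  subst hr
  intro a ha b hb c hc
  simp only [List.mem_cons, List.not_mem_nil, or_false] at ha hb hc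
  rcases ha with rfl | rfl | rfl | rfl <;>
    rcases hb with rfl | rfl | rfl | rfl <;>
    rcases hc with rfl | rfl <;> linarith

theorem slab_c4 (r N0 N1 e1 e2 e3 e4 V1 V2 V3 V4 L U f1 f2 f3 f4 W1 W2 W3 W4 K G
    c1 c2 c3 c4 x1 x2 x3 x4 : ℤ) (hr : N0 + N1 = r)
    (hp : SlabOK r N0 N1 e1 e2 e3 e4 V1 V2 V3 V4 L U)
    (hq : SlabOK r N0 N1 f1 f2 f3 f4 W1 W2 W3 W4 K G)
    (t1 : Tri3 e1 f1 c3) (t2 : Tri3 e1 f3 c1) (t3 : Tri3 e3 f1 c1) (t4 : Tri3 e3 f3 c3)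
    (t5 : Tri3 e2 f2 c4) (t6 : Tri3 e2 f4 c2) (t7 : Tri3 e4 f2 c2) (t8 : Tri3 e4 f4 c4)
    (q1 : c1 ≤ x1) (q2 : c2 ≤ x2) (q3 : c3 ≤ x3) (q4 : c4 ≤ x4)
    (s0 : x1 + x3 = N0) (s1 : x2 + x4 = N1)
    (h1 : Comp V1 V3 W1 W3 x1 x3) (h2 : Comp V2 V4 W2 W4 x2 x4)
    (y1 : x3 + x4 ≤ U + G) (y2 : x3 + x4 ≤ (r - L) + (r - K))
    (y3 : x1 + x2 ≤ (r - L) + G) (y4 : x1 + x2 ≤ U + (r - K)) :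
    ∀ a ∈ [V3, N0 - e1, x3 + W3, N0 + W1 - x3], ∀ b ∈ [e4, N1 - V2, x4 - W4, N1 - W2 - x4], ∀ c ∈ [x3 - x4 - G, K - 2 * N1 - x3 + x4], c ≤ a - b := by
  obtain ⟨pn1, pn2, pn3, pn4, pb1, pb2, pb3, pb4, pc1, pc2, pc3, pc4, pd1, pd2, pd3, pd4, pf1,
    pf2, pf3, pf4, pg1, pg2, pg3, pg4, pl1, pl2, pl3, -, -, -, -, -, -, -, -⟩ := hp
  obtain ⟨qn1, qn2, qn3, qn4, qb1, qb2, qb3, qb4, qc1, qc2, qc3, qc4, qd1, qd2, qd3, qd4, qf1,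
    qf2, qf3, qf4, qg1, qg2, qg3, qg4, ql1, ql2, ql3, -, -, -, -, -, -, -, -⟩ := hq
  obtain ⟨t11, t12, t13, -⟩ := t1
  obtain ⟨t21, t22, t23, -⟩ := t2
  obtain ⟨t31, t32, t33, -⟩ := t3
  obtain ⟨t41, t42, t43, -⟩ := t4
  obtain ⟨t51, t52, t53, -⟩ := t5
  obtain ⟨t61, t62, t63, -⟩ := t6
  obtain ⟨t71, t72, t73, -⟩ := t7
  obtain ⟨t81, t82, t83, -⟩ := t8
  obtain ⟨h11, h12, h13, h14⟩ := h1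
  obtain ⟨h21, h22, h23, h24⟩ := h2
  subst s0
  subst s1
  subst hr
  intro a ha b hb c hc
  simp only [List.mem_cons, List.not_mem_nil, or_false] at ha hb hc
  rcases ha with rfl | rfl | rfl | rfl <;>
    rcases hb with rfl | rfl | rfl | rfl <;>
    rcases hc with rfl | rfl <;> linarith

theorem slab_c5 (r N0 N1 e1 e2 e3 e4 V1 V2 V3 V4 L U f1 f2 f3 f4 W1 W2 W3 W4 K G
    c1 c2 c3 c4 x1 x2 x3 x4 : ℤ) (hr : N0 + N1 = r)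
    (hp : SlabOK r N0 N1 e1 e2 e3 e4 V1 V2 V3 V4 L U)
    (hq : SlabOK r N0 N1 f1 f2 f3 f4 W1 W2 W3 W4 K G)
    (t1 : Tri3 e1 f1 c3) (t2 : Tri3 e1 f3 c1) (t3 : Tri3 e3 f1 c1) (t4 : Tri3 e3 f3 c3)
    (t5 : Tri3 e2 f2 c4) (t6 : Tri3 e2 f4 c2) (t7 : Tri3 e4 f2 c2) (t8 : Tri3 e4 f4 c4)
    (q1 : c1 ≤ x1) (q2 : c2 ≤ x2) (q3 : c3 ≤ x3) (q4 : c4 ≤ x4)
    (s0 : x1 + x3 = N0) (s1 : x2 + x4 = N1)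
    (h1 : Comp V1 V3 W1 W3 x1 x3) (h2 : Comp V2 V4 W2 W4 x2 x4)
    (y1 : x3 + x4 ≤ U + G) (y2 : x3 + x4 ≤ (r - L) + (r - K))
    (y3 : x1 + x2 ≤ (r - L) + G) (y4 : x1 + x2 ≤ U + (r - K)) :
    ∀ a ∈ [e3, N0 - V1, x3 - W3, N0 - W1 - x3], ∀ b ∈ [U, G + x3 + x4, 2 * r - K - x3 - x4], ∀ c ∈ [G + x3 - x4, 2 * N0 - K - x3 + x4], 2 * a ≤ b + c := by
  obtain ⟨pn1, pn2, pn3, pn4, pb1, pb2, pb3, pb4, pc1, pc2, pc3, pc4, pd1, pd2, pd3, pd4, pf1,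
    pf2, pf3, pf4, pg1, pg2, pg3, pg4, pl1, pl2, pl3, -, -, -, -, -, -, -, -⟩ := hp
  obtain ⟨qn1, qn2, qn3, qn4, qb1, qb2, qb3, qb4, qc1, qc2, qc3, qc4, qd1, qd2, qd3, qd4, qf1,
    qf2, qf3, qf4, qg1, qg2, qg3, qg4, ql1, ql2, ql3, -, -, -, -, -, -, -, -⟩ := hq
  obtain ⟨t11, t12, t13, -⟩ := t1
  obtain ⟨t21, t22, t23, -⟩ := t2
  obtain ⟨t31, t32, t33, -⟩ := t3
  obtain ⟨t41, t42, t43, -⟩ := t4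
  obtain ⟨t51, t52, t53, -⟩ := t5
  obtain ⟨t61, t62, t63, -⟩ := t6
  obtain ⟨t71, t72, t73, -⟩ := t7
  obtain ⟨t81, t82, t83, -⟩ := t8
  obtain ⟨h11, h12, h13, h14⟩ := h1
  obtain ⟨h21, h22, h23, h24⟩ := h2
  subst s0
  subst s1
  subst hr
  intro a ha b hb c hc
  simp only [List.mem_cons, List.not_mem_nil, or_false] at ha hb hc
  rcases ha with rfl | rfl | rfl | rfl <;>
    rcases hb with rfl | rfl | rfl <;>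
    rcases hc with rfl | rfl <;> linarith

theorem slab_c6 (r N0 N1 e1 e2 e3 e4 V1 V2 V3 V4 L U f1 f2 f3 f4 W1 W2 W3 W4 K G
    c1 c2 c3 c4 x1 x2 x3 x4 : ℤ) (hr : N0 + N1 = r)
    (hp : SlabOK r N0 N1 e1 e2 e3 e4 V1 V2 V3 V4 L U)
    (hq : SlabOK r N0 N1 f1 f2 f3 f4 W1 W2 W3 W4 K G)
    (t1 : Tri3 e1 f1 c3) (t2 : Tri3 e1 f3 c1) (t3 : Tri3 e3 f1 c1) (t4 : Tri3 e3 f3 c3)
    (t5 : Tri3 e2 f2 c4) (t6 : Tri3 e2 f4 c2) (t7 : Tri3 e4 f2 c2) (t8 : Tri3 e4 f4 c4)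
    (q1 : c1 ≤ x1) (q2 : c2 ≤ x2) (q3 : c3 ≤ x3) (q4 : c4 ≤ x4)
    (s0 : x1 + x3 = N0) (s1 : x2 + x4 = N1)
    (h1 : Comp V1 V3 W1 W3 x1 x3) (h2 : Comp V2 V4 W2 W4 x2 x4)
    (y1 : x3 + x4 ≤ U + G) (y2 : x3 + x4 ≤ (r - L) + (r - K))
    (y3 : x1 + x2 ≤ (r - L) + G) (y4 : x1 + x2 ≤ U + (r - K)) :
    ∀ a ∈ [V3, N0 - e1, x3 + W3, N0 + W1 - x3], ∀ b ∈ [L, x3 + x4 - G, K - x3 - x4], ∀ c ∈ [x3 - x4 - G, K - 2 * N1 - x3 + x4], b + c ≤ 2 * a := by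
  obtain ⟨pn1, pn2, pn3, pn4, pb1, pb2, pb3, pb4, pc1, pc2, pc3, pc4, pd1, pd2, pd3, pd4, pf1,
    pf2, pf3, pf4, pg1, pg2, pg3, pg4, pl1, pl2, pl3, -, -, -, -, -, -, -, -⟩ := hp
  obtain ⟨qn1, qn2, qn3, qn4, qb1, qb2, qb3, qb4, qc1, qc2, qc3, qc4, qd1, qd2, qd3, qd4, qf1,
    qf2, qf3, qf4, qg1, qg2, qg3, qg4, ql1, ql2, ql3, -, -, -, -, -, -, -, -⟩ := hq
  obtain ⟨t11, t12, t13, -⟩ := t1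
  obtain ⟨t21, t22, t23, -⟩ := t2
  obtain ⟨t31, t32, t33, -⟩ := t3
  obtain ⟨t41, t42, t43, -⟩ := t4
  obtain ⟨t51, t52, t53, -⟩ := t5
  obtain ⟨t61, t62, t63, -⟩ := t6
  obtain ⟨t71, t72, t73, -⟩ := t7
  obtain ⟨t81, t82, t83, -⟩ := t8
  obtain ⟨h11, h12, h13, h14⟩ := h1
  obtain ⟨h21, h22, h23, h24⟩ := h2
  subst s0
  subst s1
  subst hr
  intro a ha b hb c hc
  simp only [List.mem_cons, List.not_mem_nil, or_false] at ha hb hc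
  rcases ha with rfl | rfl | rfl | rfl <;>
    rcases hb with rfl | rfl | rfl <;>
    rcases hc with rfl | rfl <;> linarith

theorem slab_c7 (r N0 N1 e1 e2 e3 e4 V1 V2 V3 V4 L U f1 f2 f3 f4 W1 W2 W3 W4 K G
    c1 c2 c3 c4 x1 x2 x3 x4 : ℤ) (hr : N0 + N1 = r)
    (hp : SlabOK r N0 N1 e1 e2 e3 e4 V1 V2 V3 V4 L U)
    (hq : SlabOK r N0 N1 f1 f2 f3 f4 W1 W2 W3 W4 K G)
    (t1 : Tri3 e1 f1 c3) (t2 : Tri3 e1 f3 c1) (t3 : Tri3 e3 f1 c1) (t4 : Tri3 e3 f3 c3)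
    (t5 : Tri3 e2 f2 c4) (t6 : Tri3 e2 f4 c2) (t7 : Tri3 e4 f2 c2) (t8 : Tri3 e4 f4 c4)
    (q1 : c1 ≤ x1) (q2 : c2 ≤ x2) (q3 : c3 ≤ x3) (q4 : c4 ≤ x4)
    (s0 : x1 + x3 = N0) (s1 : x2 + x4 = N1)
    (h1 : Comp V1 V3 W1 W3 x1 x3) (h2 : Comp V2 V4 W2 W4 x2 x4)
    (y1 : x3 + x4 ≤ U + G) (y2 : x3 + x4 ≤ (r - L) + (r - K))
    (y3 : x1 + x2 ≤ (r - L) + G) (y4 : x1 + x2 ≤ U + (r - K)) :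
    ∀ a ∈ [e4, N1 - V2, x4 - W4, N1 - W2 - x4], ∀ b ∈ [U, G + x3 + x4, 2 * r - K - x3 - x4], ∀ c ∈ [x3 - x4 - G, K - 2 * N1 - x3 + x4], 2 * a ≤ b - c := by
  obtain ⟨pn1, pn2, pn3, pn4, pb1, pb2, pb3, pb4, pc1, pc2, pc3, pc4, pd1, pd2, pd3, pd4, pf1,
    pf2, pf3, pf4, pg1, pg2, pg3, pg4, pl1, pl2, pl3, -, -, -, -, -, -, -, -⟩ := hp
  obtain ⟨qn1, qn2, qn3, qn4, qb1, qb2, qb3, qb4, qc1, qc2, qc3, qc4, qd1, qd2, qd3, qd4, qf1,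
    qf2, qf3, qf4, qg1, qg2, qg3, qg4, ql1, ql2, ql3, -, -, -, -, -, -, -, -⟩ := hq
  obtain ⟨t11, t12, t13, -⟩ := t1
  obtain ⟨t21, t22, t23, -⟩ := t2
  obtain ⟨t31, t32, t33, -⟩ := t3
  obtain ⟨t41, t42, t43, -⟩ := t4
  obtain ⟨t51, t52, t53, -⟩ := t5
  obtain ⟨t61, t62, t63, -⟩ := t6
  obtain ⟨t71, t72, t73, -⟩ := t7
  obtain ⟨t81, t82, t83, -⟩ := t8
  obtain ⟨h11, h12, h13, h14⟩ := h1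
  obtain ⟨h21, h22, h23, h24⟩ := h2
  subst s0
  subst s1
  subst hr
  intro a ha b hb c hc
  simp only [List.mem_cons, List.not_mem_nil, or_false] at ha hb hc
  rcases ha with rfl | rfl | rfl | rfl <;>
    rcases hb with rfl | rfl | rfl <;>
    rcases hc with rfl | rfl <;> linarith

theorem slab_c8 (r N0 N1 e1 e2 e3 e4 V1 V2 V3 V4 L U f1 f2 f3 f4 W1 W2 W3 W4 K G
    c1 c2 c3 c4 x1 x2 x3 x4 : ℤ) (hr : N0 + N1 = r)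
    (hp : SlabOK r N0 N1 e1 e2 e3 e4 V1 V2 V3 V4 L U)
    (hq : SlabOK r N0 N1 f1 f2 f3 f4 W1 W2 W3 W4 K G)
    (t1 : Tri3 e1 f1 c3) (t2 : Tri3 e1 f3 c1) (t3 : Tri3 e3 f1 c1) (t4 : Tri3 e3 f3 c3)
    (t5 : Tri3 e2 f2 c4) (t6 : Tri3 e2 f4 c2) (t7 : Tri3 e4 f2 c2) (t8 : Tri3 e4 f4 c4)
    (q1 : c1 ≤ x1) (q2 : c2 ≤ x2) (q3 : c3 ≤ x3) (q4 : c4 ≤ x4)
    (s0 : x1 + x3 = N0) (s1 : x2 + x4 = N1)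
    (h1 : Comp V1 V3 W1 W3 x1 x3) (h2 : Comp V2 V4 W2 W4 x2 x4)
    (y1 : x3 + x4 ≤ U + G) (y2 : x3 + x4 ≤ (r - L) + (r - K))
    (y3 : x1 + x2 ≤ (r - L) + G) (y4 : x1 + x2 ≤ U + (r - K)) :
    ∀ a ∈ [V4, N1 - e2, x4 + W4, N1 + W2 - x4], ∀ b ∈ [L, x3 + x4 - G, K - x3 - x4], ∀ c ∈ [G + x3 - x4, 2 * N0 - K - x3 + x4], b - c ≤ 2 * a := by
  obtain ⟨pn1, pn2, pn3, pn4, pb1, pb2, pb3, pb4, pc1, pc2, pc3, pc4, pd1, pd2, pd3, pd4, pf1,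
    pf2, pf3, pf4, pg1, pg2, pg3, pg4, pl1, pl2, pl3, -, -, -, -, -, -, -, -⟩ := hp
  obtain ⟨qn1, qn2, qn3, qn4, qb1, qb2, qb3, qb4, qc1, qc2, qc3, qc4, qd1, qd2, qd3, qd4, qf1,
    qf2, qf3, qf4, qg1, qg2, qg3, qg4, ql1, ql2, ql3, -, -, -, -, -, -, -, -⟩ := hq
  obtain ⟨t11, t12, t13, -⟩ := t1
  obtain ⟨t21, t22, t23, -⟩ := t2
  obtain ⟨t31, t32, t33, -⟩ := t3
  obtain ⟨t41, t42, t43, -⟩ := t4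
  obtain ⟨t51, t52, t53, -⟩ := t5
  obtain ⟨t61, t62, t63, -⟩ := t6
  obtain ⟨t71, t72, t73, -⟩ := t7
  obtain ⟨t81, t82, t83, -⟩ := t8
  obtain ⟨h11, h12, h13, h14⟩ := h1
  obtain ⟨h21, h22, h23, h24⟩ := h2
  subst s0
  subst s1
  subst hr
  intro a ha b hb c hc
  simp only [List.mem_cons, List.not_mem_nil, or_false] at ha hb hc
  rcases ha with rfl | rfl | rfl | rfl <;>
    rcases hb with rfl | rfl | rfl <;>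
    rcases hc with rfl | rfl <;> linarith

end SPK
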