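import Pool.Agent.SPK.Slab

/-! The slab lemma, second part. -/

namespace SPK

/-- The state `(u1, u2, u3, u4)` satisfies the bounds of a piece. -/
structure InSlab (r e1 e2 e3 e4 V1 V2 V3 V4 L U u1 u2 u3 u4 : ℤ) : Prop where
  sum : u1 + u2 + u3 + u4 = r
  a1 : e1 ≤ u1
  a2 : e2 ≤ u2
  a3 : e3 ≤ u3
  a4 : e4 ≤ u4
  m1 : (u1 - e1) % 2 = 0
  m2 : (u2 - e2) % 2 = 0
  m3 : (u3 - e3) % 2 = 0
  m4 : (u4 - e4) % 2 = 0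
  w1 : u1 ≤ V1
  w2 : u2 ≤ V2
  w3 : u3 ≤ V3
  w4 : u4 ≤ V4
  l : L ≤ u3 + u4
  u : u3 + u4 ≤ U

theorem slab_second (r N0 N1 e1 e2 e3 e4 V1 V2 V3 V4 L U f1 f2 f3 f4 W1 W2 W3 W4 K G
    c1 c2 c3 c4 x1 x2 x3 x4 : ℤ) (hr : N0 + N1 = r)
    (hp : SlabOK r N0 N1 e1 e2 e3 e4 V1 V2 V3 V4 L U)
    (hq : SlabOK r N0 N1 f1 f2 f3 f4 W1 W2 W3 W4 K G)
    (t1 : Tri3 e1 f1 c3) (t2 : Tri3 e1 f3 c1) (t3 : Tri3 e3 f1 c1) (t4 : Tri3 e3 f3 c3)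
    (t5 : Tri3 e2 f2 c4) (t6 : Tri3 e2 f4 c2) (t7 : Tri3 e4 f2 c2) (t8 : Tri3 e4 f4 c4)
    (q1 : c1 ≤ x1) (q2 : c2 ≤ x2) (q3 : c3 ≤ x3) (q4 : c4 ≤ x4)
    (s0 : x1 + x3 = N0) (s1 : x2 + x4 = N1)
    (h1 : Comp V1 V3 W1 W3 x1 x3) (h2 : Comp V2 V4 W2 W4 x2 x4)
    (y1 : x3 + x4 ≤ U + G) (y2 : x3 + x4 ≤ (r - L) + (r - K))
    (y3 : x1 + x2 ≤ (r - L) + G) (y4 : x1 + x2 ≤ U + (r - K))
    (x y : ℤ) (mx : (x - e3) % 2 = 0) (my : (y - e4) % 2 = 0)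
    (bXL : ∀ a ∈ [e3, N0 - V1, x3 - W3, N0 - W1 - x3], a ≤ x)
    (bXU : ∀ a ∈ [V3, N0 - e1, x3 + W3, N0 + W1 - x3], x ≤ a)
    (bYL : ∀ a ∈ [e4, N1 - V2, x4 - W4, N1 - W2 - x4], a ≤ y)
    (bYU : ∀ a ∈ [V4, N1 - e2, x4 + W4, N1 + W2 - x4], y ≤ a)
    (bSL : ∀ a ∈ [L, x3 + x4 - G, K - x3 - x4], a ≤ x + y)
    (bSU : ∀ a ∈ [U, G + x3 + x4, 2 * r - K - x3 - x4], x + y ≤ a)
    (bDL : ∀ a ∈ [x3 - x4 - G, K - 2 * N1 - x3 + x4], a ≤ x - y)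
    (bDU : ∀ a ∈ [G + x3 - x4, 2 * N0 - K - x3 + x4], x - y ≤ a)
    (mq : (x3 - c3) % 2 = 0) (mq' : (x4 - c4) % 2 = 0) :
    ∃ z w : ℤ, InSlab r f1 f2 f3 f4 W1 W2 W3 W4 K G (N0 - z) (N1 - w) z w ∧
      Comp (N0 - x) x (N0 - z) z x1 x3 ∧ Comp (N1 - y) y (N1 - w) w x2 x4 := by
  have hp' := hp
  have hq' := hq
  have t1' := t1
  have t2' := t2
  have t4' := t4
  have t8' := t8
  obtain ⟨pn1, pn2, pn3, pn4, pb1, pb2, pb3, pb4, pc1, pc2, pc3, pc4, pd1, pd2, pd3, pd4, pf1,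
    pf2, pf3, pf4, pg1, pg2, pg3, pg4, pl1, pl2, pl3, -, -, -, -, -, -, -, -⟩ := hp
  obtain ⟨qn1, qn2, qn3, qn4, qb1, qb2, qb3, qb4, qc1, qc2, qc3, qc4, qd1, qd2, qd3, qd4, qf1,
    qf2, qf3, qf4, qg1, qg2, qg3, qg4, ql1, ql2, ql3, -, -, -, -, -, -, -, -⟩ := hq
  obtain ⟨t11, t12, t13, -⟩ := t1
  obtain ⟨t21, t22, t23, -⟩ := t2
  obtain ⟨t31, t32, t33, -⟩ := t3
  obtain ⟨t41, t42, t43, -⟩ := t4
  obtain ⟨t51, t52, t53, -⟩ := t5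
  obtain ⟨t61, t62, t63, -⟩ := t6
  obtain ⟨t71, t72, t73, -⟩ := t7
  obtain ⟨t81, t82, t83, -⟩ := t8
  obtain ⟨h11, h12, h13, h14⟩ := h1
  obtain ⟨h21, h22, h23, h24⟩ := h2
  simp only [List.forall_mem_cons, List.not_mem_nil, false_implies, implies_true, and_true]
    at bXL bXU bYL bYU bSL bSU bDL bDU
  obtain ⟨bXL1, bXL2, bXL3, bXL4⟩ := bXL
  obtain ⟨bXU1, bXU2, bXU3, bXU4⟩ := bXU
  obtain ⟨bYL1, bYL2, bYL3, bYL4⟩ := bYL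
  obtain ⟨bYU1, bYU2, bYU3, bYU4⟩ := bYU
  obtain ⟨bSL1, bSL2, bSL3⟩ := bSL
  obtain ⟨bSU1, bSU2, bSU3⟩ := bSU
  obtain ⟨bDL1, bDL2⟩ := bDL
  obtain ⟨bDU1, bDU2⟩ := bDU
  have mW1 := hq'.p1
  have mW2 := hq'.p2
  have mW3 := hq'.p3
  have mW4 := hq'.p4
  have mK := hq'.p5
  have mN0 := hq'.p7
  have mN1 := hq'.p8
  have mt4 := t4'.t4
  have mt8 := t8'.t4
  have key := box_sum f3 f4 [f3, N0 - W1, x - x3, x3 - x] [W3, N0 - f1, x + x3, 2 * N0 - x - x3]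
    [f4, N1 - W2, y - x4, x4 - y] [W4, N1 - f2, y + x4, 2 * N1 - y - x4] K G (by simp) (by simp)
    (by simp) (by simp)
    (by
      simp only [List.forall_mem_cons, List.not_mem_nil, false_implies, implies_true, and_true]
      clear * - mW1 mN0 mt4 mx mq
      refine ⟨?_, ?_, ?_, ?_⟩ <;> omega)
    (by
      simp only [List.forall_mem_cons, List.not_mem_nil, false_implies, implies_true, and_true]
      clear * - mW3 mN0 mt4 mx mq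
      refine ⟨?_, ?_, ?_, ?_⟩ <;> omega)
    (by
      simp only [List.forall_mem_cons, List.not_mem_nil, false_implies, implies_true, and_true]
      clear * - mW2 mN1 mt8 my mq'
      refine ⟨?_, ?_, ?_, ?_⟩ <;> omega)
    (by
      simp only [List.forall_mem_cons, List.not_mem_nil, false_implies, implies_true, and_true]
      clear * - mW4 mN1 mt8 my mq'
      refine ⟨?_, ?_, ?_, ?_⟩ <;> omega)
    mK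
    (by
      subst s0
      subst s1
      subst hr
      intro a ha b hb
      simp only [List.mem_cons, List.not_mem_nil, or_false] at ha hb
      rcases ha with rfl | rfl | rfl | rfl <;> rcases hb with rfl | rfl | rfl | rfl <;> linarith)
    (by
      subst s0
      subst s1
      subst hr
      intro a ha b hb
      simp only [List.mem_cons, List.not_mem_nil, or_false] at ha hb
      rcases ha with rfl | rfl | rfl | rfl <;> rcases hb with rfl | rfl | rfl | rfl <;> linarith)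
    ql1
    (by
      subst s0
      subst s1
      subst hr
      intro a ha b hb
      simp only [List.mem_cons, List.not_mem_nil, or_false] at ha hb
      rcases ha with rfl | rfl | rfl | rfl <;> rcases hb with rfl | rfl | rfl | rfl <;> linarith)
    (by
      subst s0
      subst s1
      subst hr
      intro a ha b hb
      simp only [List.mem_cons, List.not_mem_nil, or_false] at ha hb
      rcases ha with rfl | rfl | rfl | rfl <;> rcases hb with rfl | rfl | rfl | rfl <;> linarith)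
  obtain ⟨z, w, mz, mw, k1, k2, k3, k4, k5, k6⟩ := key
  simp only [List.forall_mem_cons, List.not_mem_nil, false_implies, implies_true, and_true]
    at k1 k2 k3 k4
  obtain ⟨k11, k12, k13, k14⟩ := k1
  obtain ⟨k21, k22, k23, k24⟩ := k2
  obtain ⟨k31, k32, k33, k34⟩ := k3
  obtain ⟨k41, k42, k43, k44⟩ := k4
  refine ⟨z, w, ⟨?_, ?_, ?_, ?_, ?_, ?_, ?_, mz, mw, ?_, ?_, ?_, ?_, ?_, ?_⟩, ⟨?_, ?_, ?_, ?_⟩,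
    ⟨?_, ?_, ?_, ?_⟩⟩
  · linarith
  · linarith
  · linarith
  · linarith
  · linarith
  · clear * - mz mN0
    omega
  · clear * - mw mN1
    omega
  all_goals linarith

/-- Degenerate case, first type. -/
structure Deg (r N0 N1 e1 e2 e3 e4 V1 V2 V3 V4 L f1 f2 f3 f4 W1 W2 W3 W4 K
    c1 c2 c3 c4 x1 x2 x3 x4 : ℤ) : Prop where
  z2 : x2 = 0
  z3 : x3 = 0
  i1 : e1 + e3 + 2 ≤ N0
  i2 : e2 + e4 + 2 ≤ N1
  i3 : f1 + f3 + 2 ≤ N0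
  i4 : f2 + f4 + 2 ≤ N1
  j1 : 2 ≤ V3 + W3
  j2 : 2 ≤ V1 + W1
  j3 : 2 ≤ V2 + W4
  j4 : 2 ≤ V4 + W2
  k1 : N1 + 2 ≤ L + K
  k2 : N1 + 2 ≤ 2 * r - L - K
  k3 : N0 + 2 ≤ r - L + K
  k4 : N0 + 2 ≤ L + r - K
  l1 : N1 + 2 ≤ V2 + V4
  l2 : N0 + 2 ≤ V1 + V3
  l3 : N1 + 2 ≤ W2 + W4
  l4 : N0 + 2 ≤ W1 + W3
  o1 : c1 + 2 ≤ x1
  o4 : c4 + 2 ≤ x4

/-- Degenerate case, second type. -/
structure Deg' (r N0 N1 e1 e2 e3 e4 V1 V2 V3 V4 L f1 f2 f3 f4 W1 W2 W3 W4 K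
    c1 c2 c3 c4 x1 x2 x3 x4 : ℤ) : Prop where
  z1 : x1 = 0
  z4 : x4 = 0
  i1 : e1 + e3 + 2 ≤ N0
  i2 : e2 + e4 + 2 ≤ N1
  i3 : f1 + f3 + 2 ≤ N0
  i4 : f2 + f4 + 2 ≤ N1
  j1 : 2 ≤ V1 + W3
  j2 : 2 ≤ V3 + W1
  j3 : 2 ≤ V4 + W4
  j4 : 2 ≤ V2 + W2
  k1 : N0 + 2 ≤ L + K
  k2 : N0 + 2 ≤ 2 * r - L - K
  k3 : N1 + 2 ≤ r - L + K
  k4 : N1 + 2 ≤ L + r - K
  l1 : N1 + 2 ≤ V2 + V4
  l2 : N0 + 2 ≤ V1 + V3
  l3 : N1 + 2 ≤ W2 + W4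
  l4 : N0 + 2 ≤ W1 + W3
  o2 : c2 + 2 ≤ x2
  o3 : c3 + 2 ≤ x3

theorem slab_deg (r N0 N1 e1 e2 e3 e4 V1 V2 V3 V4 L U f1 f2 f3 f4 W1 W2 W3 W4 K G
    c1 c2 c3 c4 x1 x2 x3 x4 : ℤ) (hr : N0 + N1 = r)
    (hp : SlabOK r N0 N1 e1 e2 e3 e4 V1 V2 V3 V4 L U)
    (hq : SlabOK r N0 N1 f1 f2 f3 f4 W1 W2 W3 W4 K G)
    (t1 : Tri3 e1 f1 c3) (t2 : Tri3 e1 f3 c1) (t3 : Tri3 e3 f1 c1) (t4 : Tri3 e3 f3 c3)
    (t5 : Tri3 e2 f2 c4) (t6 : Tri3 e2 f4 c2) (t7 : Tri3 e4 f2 c2) (t8 : Tri3 e4 f4 c4)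
    (q1 : c1 ≤ x1) (q2 : c2 ≤ x2) (q3 : c3 ≤ x3) (q4 : c4 ≤ x4)
    (s0 : x1 + x3 = N0) (s1 : x2 + x4 = N1)
    (h1 : Comp V1 V3 W1 W3 x1 x3) (h2 : Comp V2 V4 W2 W4 x2 x4)
    (y1 : x3 + x4 ≤ U + G) (y2 : x3 + x4 ≤ (r - L) + (r - K))
    (y3 : x1 + x2 ≤ (r - L) + G) (y4 : x1 + x2 ≤ U + (r - K))
    (mq : (x3 - c3) % 2 = 0) (mq' : (x4 - c4) % 2 = 0)
    (s d : ℤ) (hsL : s ∈ [L, x3 + x4 - G, K - x3 - x4]) (hsU : s ∈ [U, G + x3 + x4, 2 * r - K - x3 - x4]) (hdL : d ∈ [x3 - x4 - G, K - 2 * N1 - x3 + x4]) (hdU : d ∈ [G + x3 - x4, 2 * N0 - K - x3 + x4])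
    (hmod : (s + d - 2 * e3) % 4 = 2)
    (bXL : ∀ a ∈ [e3, N0 - V1, x3 - W3, N0 - W1 - x3], 2 * a ≤ s + d) (bXU : ∀ a ∈ [V3, N0 - e1, x3 + W3, N0 + W1 - x3], s + d ≤ 2 * a)
    (bYL : ∀ a ∈ [e4, N1 - V2, x4 - W4, N1 - W2 - x4], 2 * a ≤ s - d) (bYU : ∀ a ∈ [V4, N1 - e2, x4 + W4, N1 + W2 - x4], s - d ≤ 2 * a) :
    (K = G ∧ L = U ∧
      (Deg r N0 N1 e1 e2 e3 e4 V1 V2 V3 V4 L f1 f2 f3 f4 W1 W2 W3 W4 K c1 c2 c3 c4 x1 x2 x3 x4 ∨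
      Deg' r N0 N1 e1 e2 e3 e4 V1 V2 V3 V4 L f1 f2 f3 f4 W1 W2 W3 W4 K c1 c2 c3 c4 x1 x2 x3 x4)) := by
  have mV1 := hp.p1
  have mV2 := hp.p2
  have mV3 := hp.p3
  have mV4 := hp.p4
  have mL := hp.p5
  have mN0 := hp.p7
  have mN1 := hp.p8
  have mM0 := hq.p7
  have mM1 := hq.p8
  have mW1 := hq.p1
  have mW2 := hq.p2
  have mW3 := hq.p3
  have mW4 := hq.p4
  have mK := hq.p5
  have mU := hp.p6
  have mG := hq.p6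
  have mt4 := t4.t4
  have mt8 := t8.t4
  have ms : (s - e3 - e4) % 2 = 0 := by
    simp only [List.mem_cons, List.not_mem_nil, or_false] at hsL
    clear * - hsL mL mG mK mt4 mt8 mq mq'
    rcases hsL with h | h | h <;> omega
  have md : (d - e3 - e4) % 2 = 0 := by
    simp only [List.mem_cons, List.not_mem_nil, or_false] at hdL
    clear * - hdL mL mG mK mt4 mt8 mq mq'
    rcases hdL with h | h <;> omega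
  have hmod' : (s - d - 2 * e4) % 4 = 2 := by
    clear * - ms md hmod
    omega
  have up : ∀ u : ℤ, (u - e3) % 2 = 0 → s + d ≤ 2 * u → s + d + 2 ≤ 2 * u :=
    fun u h h' => up_par _ u e3 hmod h h'
  have up' : ∀ u : ℤ, (u - e4) % 2 = 0 → s - d ≤ 2 * u → s - d + 2 ≤ 2 * u :=
    fun u h h' => up_par _ u e4 hmod' h h'
  have lo : ∀ u : ℤ, (u - e3) % 2 = 0 → 2 * u ≤ s + d → 2 * u + 2 ≤ s + d := by
    intro u h h'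
    clear * - h h' hmod
    omega
  have lo' : ∀ u : ℤ, (u - e4) % 2 = 0 → 2 * u ≤ s - d → 2 * u + 2 ≤ s - d := by
    intro u h h'
    clear * - h h' hmod'
    omega
  simp only [List.forall_mem_cons, List.not_mem_nil, false_implies, implies_true, and_true]
    at bXL bXU bYL bYU
  obtain ⟨bXL1, bXL2, bXL3, bXL4⟩ := bXL
  obtain ⟨bXU1, bXU2, bXU3, bXU4⟩ := bXU
  obtain ⟨bYL1, bYL2, bYL3, bYL4⟩ := bYL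
  obtain ⟨bYU1, bYU2, bYU3, bYU4⟩ := bYU
  replace bXL1 := lo _ (by clear * - mV1 mV2 mV3 mV4 mN0 mN1 mM0 mM1 mW1 mW2 mW3 mW4 mt4 mt8 mq mq'; omega) bXL1
  replace bXL2 := lo _ (by clear * - mV1 mV2 mV3 mV4 mN0 mN1 mM0 mM1 mW1 mW2 mW3 mW4 mt4 mt8 mq mq'; omega) bXL2
  replace bXL3 := lo _ (by clear * - mV1 mV2 mV3 mV4 mN0 mN1 mM0 mM1 mW1 mW2 mW3 mW4 mt4 mt8 mq mq'; omega) bXL3
  replace bXL4 := lo _ (by clear * - mV1 mV2 mV3 mV4 mN0 mN1 mM0 mM1 mW1 mW2 mW3 mW4 mt4 mt8 mq mq'; omega) bXL4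
  replace bXU1 := up _ (by clear * - mV1 mV2 mV3 mV4 mN0 mN1 mM0 mM1 mW1 mW2 mW3 mW4 mt4 mt8 mq mq'; omega) bXU1
  replace bXU2 := up _ (by clear * - mV1 mV2 mV3 mV4 mN0 mN1 mM0 mM1 mW1 mW2 mW3 mW4 mt4 mt8 mq mq'; omega) bXU2
  replace bXU3 := up _ (by clear * - mV1 mV2 mV3 mV4 mN0 mN1 mM0 mM1 mW1 mW2 mW3 mW4 mt4 mt8 mq mq'; omega) bXU3
  replace bXU4 := up _ (by clear * - mV1 mV2 mV3 mV4 mN0 mN1 mM0 mM1 mW1 mW2 mW3 mW4 mt4 mt8 mq mq'; omega) bXU4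
  replace bYL1 := lo' _ (by clear * - mV1 mV2 mV3 mV4 mN0 mN1 mM0 mM1 mW1 mW2 mW3 mW4 mt4 mt8 mq mq'; omega) bYL1
  replace bYL2 := lo' _ (by clear * - mV1 mV2 mV3 mV4 mN0 mN1 mM0 mM1 mW1 mW2 mW3 mW4 mt4 mt8 mq mq'; omega) bYL2
  replace bYL3 := lo' _ (by clear * - mV1 mV2 mV3 mV4 mN0 mN1 mM0 mM1 mW1 mW2 mW3 mW4 mt4 mt8 mq mq'; omega) bYL3
  replace bYL4 := lo' _ (by clear * - mV1 mV2 mV3 mV4 mN0 mN1 mM0 mM1 mW1 mW2 mW3 mW4 mt4 mt8 mq mq'; omega) bYL4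
  replace bYU1 := up' _ (by clear * - mV1 mV2 mV3 mV4 mN0 mN1 mM0 mM1 mW1 mW2 mW3 mW4 mt4 mt8 mq mq'; omega) bYU1
  replace bYU2 := up' _ (by clear * - mV1 mV2 mV3 mV4 mN0 mN1 mM0 mM1 mW1 mW2 mW3 mW4 mt4 mt8 mq mq'; omega) bYU2
  replace bYU3 := up' _ (by clear * - mV1 mV2 mV3 mV4 mN0 mN1 mM0 mM1 mW1 mW2 mW3 mW4 mt4 mt8 mq mq'; omega) bYU3
  replace bYU4 := up' _ (by clear * - mV1 mV2 mV3 mV4 mN0 mN1 mM0 mM1 mW1 mW2 mW3 mW4 mt4 mt8 mq mq'; omega) bYU4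
  obtain ⟨pn1, pn2, pn3, pn4, pb1, pb2, pb3, pb4, pc1, pc2, pc3, pc4, pd1, pd2, pd3, pd4, pf1,
    pf2, pf3, pf4, pg1, pg2, pg3, pg4, pl1, pl2, pl3, -, -, -, -, -, -, -, -⟩ := hp
  obtain ⟨qn1, qn2, qn3, qn4, qb1, qb2, qb3, qb4, qc1, qc2, qc3, qc4, qd1, qd2, qd3, qd4, qf1,
    qf2, qf3, qf4, qg1, qg2, qg3, qg4, ql1, ql2, ql3, -, -, -, -, -, -, -, -⟩ := hq
  obtain ⟨t11, t12, t13, -⟩ := t1
  obtain ⟨t21, t22, t23, -⟩ := t2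
  obtain ⟨t31, t32, t33, -⟩ := t3
  obtain ⟨t41, t42, t43, -⟩ := t4
  obtain ⟨t51, t52, t53, -⟩ := t5
  obtain ⟨t61, t62, t63, -⟩ := t6
  obtain ⟨t71, t72, t73, -⟩ := t7
  obtain ⟨t81, t82, t83, -⟩ := t8
  obtain ⟨h11, h12, h13, h14⟩ := h1
  obtain ⟨h21, h22, h23, h24⟩ := h2
  clear mV1 mV2 mV3 mV4 mL mN0 mN1 mM0 mM1 mW1 mW2 mW3 mW4 mK mU mG mt4 mt8 ms md hmod' up up' lo lo' hmod
  simp only [List.mem_cons, List.not_mem_nil, or_false] at hsL hsU hdL hdU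
  rcases hdL with hdL | hdL
  · rcases hdU with hdU | hdU
    · exfalso
      linarith
    · have e0 : x4 = 0 := by linarith
      have e0' : x1 = 0 := by linarith
      have e1' : K = G := by linarith
      have e2' : L = U := by
        rcases hsL with hsL | hsL | hsL <;> rcases hsU with hsU | hsU | hsU <;> linarith
      have e3' : s = L := by
        rcases hsL with hsL | hsL | hsL <;> rcases hsU with hsU | hsU | hsU <;> linarith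
      refine ⟨e1', e2', Or.inr ⟨e0', e0, ?_, ?_, ?_, ?_, ?_, ?_, ?_, ?_, ?_, ?_, ?_, ?_, ?_, ?_, ?_,
        ?_, ?_, ?_⟩⟩
      all_goals linarith
  · rcases hdU with hdU | hdU
    · have e0 : x3 = 0 := by linarith
      have e0' : x2 = 0 := by linarith
      have e1' : K = G := by linarith
      have e2' : L = U := by
        rcases hsL with hsL | hsL | hsL <;> rcases hsU with hsU | hsU | hsU <;> linarith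
      have e3' : s = L := by
        rcases hsL with hsL | hsL | hsL <;> rcases hsU with hsU | hsU | hsU <;> linarith
      refine ⟨e1', e2', Or.inl ⟨e0', e0, ?_, ?_, ?_, ?_, ?_, ?_, ?_, ?_, ?_, ?_, ?_, ?_, ?_, ?_, ?_,
        ?_, ?_, ?_⟩⟩
      all_goals linarith
    · exfalso
      linarith

theorem slab_main (r N0 N1 e1 e2 e3 e4 V1 V2 V3 V4 L U f1 f2 f3 f4 W1 W2 W3 W4 K G
    c1 c2 c3 c4 x1 x2 x3 x4 : ℤ) (hr : N0 + N1 = r)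
    (hp : SlabOK r N0 N1 e1 e2 e3 e4 V1 V2 V3 V4 L U)
    (hq : SlabOK r N0 N1 f1 f2 f3 f4 W1 W2 W3 W4 K G)
    (t1 : Tri3 e1 f1 c3) (t2 : Tri3 e1 f3 c1) (t3 : Tri3 e3 f1 c1) (t4 : Tri3 e3 f3 c3)
    (t5 : Tri3 e2 f2 c4) (t6 : Tri3 e2 f4 c2) (t7 : Tri3 e4 f2 c2) (t8 : Tri3 e4 f4 c4)
    (q1 : c1 ≤ x1) (q2 : c2 ≤ x2) (q3 : c3 ≤ x3) (q4 : c4 ≤ x4)
    (s0 : x1 + x3 = N0) (s1 : x2 + x4 = N1)
    (h1 : Comp V1 V3 W1 W3 x1 x3) (h2 : Comp V2 V4 W2 W4 x2 x4)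
    (y1 : x3 + x4 ≤ U + G) (y2 : x3 + x4 ≤ (r - L) + (r - K))
    (y3 : x1 + x2 ≤ (r - L) + G) (y4 : x1 + x2 ≤ U + (r - K))
    (mq1 : (x1 - c1) % 2 = 0) (mq2 : (x2 - c2) % 2 = 0) (mq : (x3 - c3) % 2 = 0)
    (mq' : (x4 - c4) % 2 = 0) :
    (∃ u1 u2 u3 u4 v1 v2 v3 v4 : ℤ, InSlab r e1 e2 e3 e4 V1 V2 V3 V4 L U u1 u2 u3 u4 ∧
      InSlab r f1 f2 f3 f4 W1 W2 W3 W4 K G v1 v2 v3 v4 ∧ u1 + u3 = N0 ∧ u2 + u4 = N1 ∧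
      v1 + v3 = N0 ∧ v2 + v4 = N1 ∧ Comp u1 u3 v1 v3 x1 x3 ∧ Comp u2 u4 v2 v4 x2 x4) ∨
    (K = G ∧ L = U ∧
      (Deg r N0 N1 e1 e2 e3 e4 V1 V2 V3 V4 L f1 f2 f3 f4 W1 W2 W3 W4 K c1 c2 c3 c4 x1 x2 x3 x4 ∨
      Deg' r N0 N1 e1 e2 e3 e4 V1 V2 V3 V4 L f1 f2 f3 f4 W1 W2 W3 W4 K c1 c2 c3 c4 x1 x2 x3 x4)) := by
  have mV1 := hp.p1
  have mV2 := hp.p2
  have mV3 := hp.p3
  have mV4 := hp.p4
  have mL := hp.p5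
  have mN0 := hp.p7
  have mN1 := hp.p8
  have mM0 := hq.p7
  have mM1 := hq.p8
  have mW1 := hq.p1
  have mW2 := hq.p2
  have mW3 := hq.p3
  have mW4 := hq.p4
  have mK := hq.p5
  have mU := hp.p6
  have mG := hq.p6
  have mt4 := t4.t4
  have mt8 := t8.t4
  have key := two_dim e3 e4 [e3, N0 - V1, x3 - W3, N0 - W1 - x3] [V3, N0 - e1, x3 + W3, N0 + W1 - x3]
    [e4, N1 - V2, x4 - W4, N1 - W2 - x4] [V4, N1 - e2, x4 + W4, N1 + W2 - x4]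
    [L, x3 + x4 - G, K - x3 - x4] [U, G + x3 + x4, 2 * r - K - x3 - x4]
    [x3 - x4 - G, K - 2 * N1 - x3 + x4] [G + x3 - x4, 2 * N0 - K - x3 + x4]
    (by simp) (by simp) (by simp) (by simp) (by simp) (by simp) (by simp) (by simp)
    (by
      simp only [List.forall_mem_cons, List.not_mem_nil, false_implies, implies_true, and_true]
      clear * - mV1 mV2 mV3 mV4 mL mN0 mN1 mM0 mM1 mW1 mW2 mW3 mW4 mK mU mG mt4 mt8 mq mq' hr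
      refine ⟨?_, ?_, ?_, ?_⟩ <;> omega)
    (by
      simp only [List.forall_mem_cons, List.not_mem_nil, false_implies, implies_true, and_true]
      clear * - mV1 mV2 mV3 mV4 mL mN0 mN1 mM0 mM1 mW1 mW2 mW3 mW4 mK mU mG mt4 mt8 mq mq' hr
      refine ⟨?_, ?_, ?_, ?_⟩ <;> omega)
    (by
      simp only [List.forall_mem_cons, List.not_mem_nil, false_implies, implies_true, and_true]
      clear * - mV1 mV2 mV3 mV4 mL mN0 mN1 mM0 mM1 mW1 mW2 mW3 mW4 mK mU mG mt4 mt8 mq mq' hr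
      refine ⟨?_, ?_, ?_, ?_⟩ <;> omega)
    (by
      simp only [List.forall_mem_cons, List.not_mem_nil, false_implies, implies_true, and_true]
      clear * - mV1 mV2 mV3 mV4 mL mN0 mN1 mM0 mM1 mW1 mW2 mW3 mW4 mK mU mG mt4 mt8 mq mq' hr
      refine ⟨?_, ?_, ?_, ?_⟩ <;> omega)
    (by
      simp only [List.forall_mem_cons, List.not_mem_nil, false_implies, implies_true, and_true]
      clear * - mV1 mV2 mV3 mV4 mL mN0 mN1 mM0 mM1 mW1 mW2 mW3 mW4 mK mU mG mt4 mt8 mq mq' hr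
      refine ⟨?_, ?_, ?_⟩ <;> omega)
    (by
      simp only [List.forall_mem_cons, List.not_mem_nil, false_implies, implies_true, and_true]
      clear * - mV1 mV2 mV3 mV4 mL mN0 mN1 mM0 mM1 mW1 mW2 mW3 mW4 mK mU mG mt4 mt8 mq mq' hr
      refine ⟨?_, ?_, ?_⟩ <;> omega)
    (by
      simp only [List.forall_mem_cons, List.not_mem_nil, false_implies, implies_true, and_true]
      clear * - mV1 mV2 mV3 mV4 mL mN0 mN1 mM0 mM1 mW1 mW2 mW3 mW4 mK mU mG mt4 mt8 mq mq' hr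
      refine ⟨?_, ?_⟩ <;> omega)
    (by
      simp only [List.forall_mem_cons, List.not_mem_nil, false_implies, implies_true, and_true]
      clear * - mV1 mV2 mV3 mV4 mL mN0 mN1 mM0 mM1 mW1 mW2 mW3 mW4 mK mU mG mt4 mt8 mq mq' hr
      refine ⟨?_, ?_⟩ <;> omega)
    (slab_cX r N0 N1 e1 e2 e3 e4 V1 V2 V3 V4 L U f1 f2 f3 f4 W1 W2 W3 W4 K G c1 c2 c3 c4 x1 x2 x3 x4 hr hp hq t1 t2 t3 t4 t5 t6 t7 t8 q1 q2 q3 q4 s0 s1 h1 h2 y1 y2 y3 y4)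
    (slab_cY r N0 N1 e1 e2 e3 e4 V1 V2 V3 V4 L U f1 f2 f3 f4 W1 W2 W3 W4 K G c1 c2 c3 c4 x1 x2 x3 x4 hr hp hq t1 t2 t3 t4 t5 t6 t7 t8 q1 q2 q3 q4 s0 s1 h1 h2 y1 y2 y3 y4)
    (slab_cS r N0 N1 e1 e2 e3 e4 V1 V2 V3 V4 L U f1 f2 f3 f4 W1 W2 W3 W4 K G c1 c2 c3 c4 x1 x2 x3 x4 hr hp hq t1 t2 t3 t4 t5 t6 t7 t8 q1 q2 q3 q4 s0 s1 h1 h2 y1 y2 y3 y4)
    (slab_cD r N0 N1 e1 e2 e3 e4 V1 V2 V3 V4 L U f1 f2 f3 f4 W1 W2 W3 W4 K G c1 c2 c3 c4 x1 x2 x3 x4 hr hp hq t1 t2 t3 t4 t5 t6 t7 t8 q1 q2 q3 q4 s0 s1 h1 h2 y1 y2 y3 y4)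
    (slab_c1 r N0 N1 e1 e2 e3 e4 V1 V2 V3 V4 L U f1 f2 f3 f4 W1 W2 W3 W4 K G c1 c2 c3 c4 x1 x2 x3 x4 hr hp hq t1 t2 t3 t4 t5 t6 t7 t8 q1 q2 q3 q4 s0 s1 h1 h2 y1 y2 y3 y4)
    (slab_c2 r N0 N1 e1 e2 e3 e4 V1 V2 V3 V4 L U f1 f2 f3 f4 W1 W2 W3 W4 K G c1 c2 c3 c4 x1 x2 x3 x4 hr hp hq t1 t2 t3 t4 t5 t6 t7 t8 q1 q2 q3 q4 s0 s1 h1 h2 y1 y2 y3 y4)
    (slab_c3 r N0 N1 e1 e2 e3 e4 V1 V2 V3 V4 L U f1 f2 f3 f4 W1 W2 W3 W4 K G c1 c2 c3 c4 x1 x2 x3 x4 hr hp hq t1 t2 t3 t4 t5 t6 t7 t8 q1 q2 q3 q4 s0 s1 h1 h2 y1 y2 y3 y4)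
    (slab_c4 r N0 N1 e1 e2 e3 e4 V1 V2 V3 V4 L U f1 f2 f3 f4 W1 W2 W3 W4 K G c1 c2 c3 c4 x1 x2 x3 x4 hr hp hq t1 t2 t3 t4 t5 t6 t7 t8 q1 q2 q3 q4 s0 s1 h1 h2 y1 y2 y3 y4)
    (slab_c5 r N0 N1 e1 e2 e3 e4 V1 V2 V3 V4 L U f1 f2 f3 f4 W1 W2 W3 W4 K G c1 c2 c3 c4 x1 x2 x3 x4 hr hp hq t1 t2 t3 t4 t5 t6 t7 t8 q1 q2 q3 q4 s0 s1 h1 h2 y1 y2 y3 y4)
    (slab_c6 r N0 N1 e1 e2 e3 e4 V1 V2 V3 V4 L U f1 f2 f3 f4 W1 W2 W3 W4 K G c1 c2 c3 c4 x1 x2 x3 x4 hr hp hq t1 t2 t3 t4 t5 t6 t7 t8 q1 q2 q3 q4 s0 s1 h1 h2 y1 y2 y3 y4)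
    (slab_c7 r N0 N1 e1 e2 e3 e4 V1 V2 V3 V4 L U f1 f2 f3 f4 W1 W2 W3 W4 K G c1 c2 c3 c4 x1 x2 x3 x4 hr hp hq t1 t2 t3 t4 t5 t6 t7 t8 q1 q2 q3 q4 s0 s1 h1 h2 y1 y2 y3 y4)
    (slab_c8 r N0 N1 e1 e2 e3 e4 V1 V2 V3 V4 L U f1 f2 f3 f4 W1 W2 W3 W4 K G c1 c2 c3 c4 x1 x2 x3 x4 hr hp hq t1 t2 t3 t4 t5 t6 t7 t8 q1 q2 q3 q4 s0 s1 h1 h2 y1 y2 y3 y4)
  rcases key with ⟨x, y, mx, my, k1, k2, k3, k4, k5, k6, k7, k8⟩ |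
    ⟨s, hsL, hsU, d, hdL, hdU, hmod, -, -, -, -, b1, b2, b3, b4⟩
  · left
    obtain ⟨z, w, g1, g2, g3⟩ := slab_second r N0 N1 e1 e2 e3 e4 V1 V2 V3 V4 L U f1 f2 f3 f4 W1 W2 W3 W4 K G c1 c2 c3 c4 x1 x2 x3 x4 hr hp hq t1 t2 t3 t4 t5 t6 t7 t8 q1 q2 q3 q4 s0 s1 h1 h2 y1 y2 y3 y4 x y mx my k1 k2 k3 k4 k5 k6 k7 k8 mq mq'
    simp only [List.forall_mem_cons, List.not_mem_nil, false_implies, implies_true, and_true]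
      at k1 k2 k3 k4 k5 k6
    refine ⟨N0 - x, N1 - y, x, y, N0 - z, N1 - w, z, w, ⟨?_, ?_, ?_, ?_, ?_, ?_, ?_, mx, my, ?_, ?_,
      ?_, ?_, ?_, ?_⟩, g1, by ring, by ring, by ring, by ring, g2, g3⟩
    · linarith
    · linarith [k2.2.1]
    · linarith [k4.2.1]
    · linarith [k1.1]
    · linarith [k3.1]
    · clear * - mx mN0
      omega
    · clear * - my mN1
      omega
    · linarith [k1.2.1]
    · linarith [k3.2.1]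
    · linarith [k2.1]
    · linarith [k4.1]
    · linarith [k5.1]
    · linarith [k6.1]
  · right
    exact slab_deg r N0 N1 e1 e2 e3 e4 V1 V2 V3 V4 L U f1 f2 f3 f4 W1 W2 W3 W4 K G c1 c2 c3 c4 x1 x2 x3 x4 hr hp hq t1 t2 t3 t4 t5 t6 t7 t8 q1 q2 q3 q4 s0 s1 h1 h2 y1 y2 y3 y4 mq mq' s d hsL hsU hdL hdU hmod b1 b2 b3 b4

end SPK
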