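import Pool.Agent.SPK.SlabTwo

/-! State sets of pieces bounded by a ring of length four. -/

namespace SPK

/-- A state: the number of colours by whether they separate the first (second) pair of opposite
ring vertices. -/
abbrev St := Bool → Bool → ℤ

/-- Number of colours separating the first pair. -/
def sN (x : St) : ℤ := x true false + x true true

/-- Number of colours separating the second pair. -/
def sR (x : St) : ℤ := x false true + x true true

structure Valid (r : ℤ) (e x : St) : Prop where
  sum : x false false + x true false + x false true + x true true = r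
  le : ∀ α β, e α β ≤ x α β
  par : ∀ α β, (x α β - e α β) % 2 = 0

/-- Move two colours from class `(a, b)` to class `(!a, b)`. -/
def mvA (x : St) (a b : Bool) : St := fun α β =>
  x α β - (if α = a ∧ β = b then 2 else 0) + (if α = !a ∧ β = b then 2 else 0)

/-- Move two colours from class `(a, b)` to class `(a, !b)`. -/
def mvB (x : St) (a b : Bool) : St := fun α β =>
  x α β - (if α = a ∧ β = b then 2 else 0) + (if α = a ∧ β = !b then 2 else 0)

/-- The state with four given values. -/
def mk (x1 x2 x3 x4 : ℤ) : St := fun α β =>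
  if α then (if β then x4 else x2) else (if β then x3 else x1)

@[simp] theorem mk1 (x1 x2 x3 x4 : ℤ) : mk x1 x2 x3 x4 false false = x1 := rfl
@[simp] theorem mk2 (x1 x2 x3 x4 : ℤ) : mk x1 x2 x3 x4 true false = x2 := rfl
@[simp] theorem mk3 (x1 x2 x3 x4 : ℤ) : mk x1 x2 x3 x4 false true = x3 := rfl
@[simp] theorem mk4 (x1 x2 x3 x4 : ℤ) : mk x1 x2 x3 x4 true true = x4 := rfl

theorem eq_mk (x : St) :
    x = mk (x false false) (x true false) (x false true) (x true true) := by
  funext α β
  rcases α with _ | _ <;> rcases β with _ | _ <;> rfl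

theorem st_ext {x y : St} (h1 : x false false = y false false) (h2 : x true false = y true false)
    (h3 : x false true = y false true) (h4 : x true true = y true true) : x = y := by
  funext α β
  rcases α with _ | _ <;> rcases β with _ | _ <;> assumption

/-- An exceptional state. -/
def Exc (e : St) (P : Set St) (x : St) : Prop :=
  ∃ s : Bool, (∀ α β, (α ^^ β) = s → x α β = 0) ∧
    ∀ α β, (α ^^ β) = !s → e α β + 2 ≤ x α β ∧ mvA x α β ∈ P ∧ mvB x α β ∈ P

/-- The state is bounded by members of the set. -/
def InHull (P : Set St) (x : St) : Prop :=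
  (∀ α β, ∃ u ∈ P, x α β ≤ u α β) ∧ (∃ u ∈ P, sN u ≤ sN x) ∧ (∃ u ∈ P, sN x ≤ sN u) ∧
    (∃ u ∈ P, sR u ≤ sR x) ∧ (∃ u ∈ P, sR x ≤ sR u)

/-- A good set of states. -/
structure GoodSet (r : ℤ) (e : St) (P : Set St) : Prop where
  nn : ∀ α β, 0 ≤ e α β
  val : ∀ x ∈ P, Valid r e x
  ne : P.Nonempty
  kem : ∀ x ∈ P, ∀ α β, e α β + 2 ≤ x α β → mvA x α β ∈ P ∨ mvB x α β ∈ P
  full : ∀ x, Valid r e x → InHull P x → x ∈ P ∨ Exc e P x

structure HullPar (r : ℤ) (e : St) (P : Set St) (V : St) (A1 A2 L U : ℤ) : Prop where
  good : GoodSet r e P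
  memV : ∀ x ∈ P, ∀ α β, x α β ≤ V α β
  memA : ∀ x ∈ P, A1 ≤ sN x ∧ sN x ≤ A2
  memR : ∀ x ∈ P, L ≤ sR x ∧ sR x ≤ U
  attA1 : ∃ x ∈ P, sN x = A1
  attA2 : ∃ x ∈ P, sN x = A2
  attL : ∃ x ∈ P, sR x = L
  attU : ∃ x ∈ P, sR x = U
  desc : ∀ α β, ∃ x ∈ P, x α β = V α β ∧ x (!α) β = e (!α) β ∧ x α (!β) = e α (!β)

theorem exists_max_of {P : Set St} (hne : P.Nonempty) (F : St → ℤ) (B : ℤ)
    (hB : ∀ x ∈ P, F x ≤ B) : ∃ x ∈ P, ∀ y ∈ P, F y ≤ F x := by
  obtain ⟨x0, hx0⟩ := hne
  obtain ⟨m, hm, hmax⟩ := Int.exists_greatest_of_bdd (P := fun z => ∃ x ∈ P, F x = z)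
    ⟨B, fun z ⟨x, hx, h⟩ => h ▸ hB x hx⟩ ⟨F x0, x0, hx0, rfl⟩
  obtain ⟨x, hx, rfl⟩ := hm
  exact ⟨x, hx, fun y hy => hmax (F y) ⟨y, hy, rfl⟩⟩

theorem GoodSet.desc {r : ℤ} {e : St} {P : Set St} (h : GoodSet r e P) (V : ℤ) (α β : Bool)
    (hV : ∀ x ∈ P, x α β ≤ V) : ∀ n : ℕ, ∀ x ∈ P, x α β = V →
    (x (!α) β - e (!α) β) + (x α (!β) - e α (!β)) ≤ n →
    ∃ y ∈ P, y α β = V ∧ y (!α) β = e (!α) β ∧ y α (!β) = e α (!β) := by
  intro n
  induction n using Nat.strong_induction_on with
  | _ n ih =>
    intro x hx hxV hn
    have v := h.val x hx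
    have l1 := v.le (!α) β
    have l2 := v.le α (!β)
    have p1 := v.par (!α) β
    have p2 := v.par α (!β)
    by_cases c1 : e (!α) β + 2 ≤ x (!α) β
    · rcases h.kem x hx (!α) β c1 with h1 | h1
      · exfalso
        have := hV _ h1
        simp only [mvA] at this
        have e1 : ¬ (α = !α) := by rcases α with _ | _ <;> simp
        simp [e1] at this
        omega
      · have e1 : ¬ (α = !α) := by rcases α with _ | _ <;> simp
        have e2 : ¬ (β = !β) := by rcases β with _ | _ <;> simp
        refine ih (n - 1) (by omega) _ h1 ?_ ?_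
        · simp [mvB, e1, hxV]
        · have e3 : mvB x (!α) β (!α) β = x (!α) β - 2 := by simp [mvB, e2]
          have e4 : mvB x (!α) β α (!β) = x α (!β) := by simp [mvB, e1]
          rw [e3, e4]
          omega
    · by_cases c2 : e α (!β) + 2 ≤ x α (!β)
      · rcases h.kem x hx α (!β) c2 with h1 | h1
        · have e1 : ¬ (α = !α) := by rcases α with _ | _ <;> simp
          have e2 : ¬ (β = !β) := by rcases β with _ | _ <;> simp
          refine ih (n - 1) (by omega) _ h1 ?_ ?_
          · simp [mvA, e2, hxV]
          · have e3 : mvA x α (!β) (!α) β = x (!α) β := by simp [mvA, e2]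
            have e4 : mvA x α (!β) α (!β) = x α (!β) - 2 := by simp [mvA, e1]
            rw [e3, e4]
            omega
        · exfalso
          have := hV _ h1
          simp only [mvB] at this
          have e1 : ¬ (β = !β) := by rcases β with _ | _ <;> simp
          simp [e1] at this
          omega
      · exact ⟨x, hx, hxV, by omega, by omega⟩

theorem GoodSet.params {r : ℤ} {e : St} {P : Set St} (h : GoodSet r e P) :
    ∃ V A1 A2 L U, HullPar r e P V A1 A2 L U := by
  classical
  have bd : ∀ x ∈ P, ∀ α β, x α β ≤ r := by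
    intro x hx α β
    have v := h.val x hx
    have s := v.sum
    have l1 := (h.nn false false).trans (v.le false false)
    have l2 := (h.nn true false).trans (v.le true false)
    have l3 := (h.nn false true).trans (v.le false true)
    have l4 := (h.nn true true).trans (v.le true true)
    rcases α with _ | _ <;> rcases β with _ | _ <;> omega
  have nn : ∀ x ∈ P, ∀ α β, 0 ≤ x α β := by
    intro x hx α β
    exact (h.nn α β).trans ((h.val x hx).le α β)
  have key : ∀ α β, ∃ x ∈ P, ∀ y ∈ P, y α β ≤ x α β := fun α β =>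
    exists_max_of h.ne (fun x => x α β) r (fun x hx => bd x hx α β)
  choose X hX hmax using key
  obtain ⟨a1, ha1, hA1⟩ := exists_max_of h.ne (fun x => - sN x) 0 (by
    intro x hx
    have h1 := nn x hx true false
    have h2 := nn x hx true true
    simp only [sN]
    omega)
  obtain ⟨a2, ha2, hA2⟩ := exists_max_of h.ne (fun x => sN x) (2 * r) (by
    intro x hx
    have h1 := bd x hx true false
    have h2 := bd x hx true true
    simp only [sN]
    omega)
  obtain ⟨l1, hl1, hL1⟩ := exists_max_of h.ne (fun x => - sR x) 0 (by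
    intro x hx
    have h1 := nn x hx false true
    have h2 := nn x hx true true
    simp only [sR]
    omega)
  obtain ⟨l2, hl2, hL2⟩ := exists_max_of h.ne (fun x => sR x) (2 * r) (by
    intro x hx
    have h1 := bd x hx false true
    have h2 := bd x hx true true
    simp only [sR]
    omega)
  refine ⟨fun α β => X α β α β, sN a1, sN a2, sR l1, sR l2, h, ?_, ?_, ?_, ⟨a1, ha1, rfl⟩,
    ⟨a2, ha2, rfl⟩, ⟨l1, hl1, rfl⟩, ⟨l2, hl2, rfl⟩, ?_⟩
  · intro x hx α β
    exact hmax α β x hx
  · intro x hx
    have h1 := hA1 x hx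
    have h2 := hA2 x hx
    exact ⟨by omega, h2⟩
  · intro x hx
    have h1 := hL1 x hx
    have h2 := hL2 x hx
    exact ⟨by omega, h2⟩
  · intro α β
    have v := h.val (X α β) (hX α β)
    have l1 := v.le (!α) β
    have l2 := v.le α (!β)
    exact h.desc (X α β α β) α β (fun x hx => hmax α β x hx)
      ((X α β (!α) β - e (!α) β) + (X α β α (!β) - e α (!β))).toNat (X α β) (hX α β) rfl
      (by omega)

namespace HullPar

variable {r : ℤ} {e : St} {P : Set St} {V : St} {A1 A2 L U : ℤ}

theorem mem (h : HullPar r e P V A1 A2 L U) (x : St) (hx : Valid r e x)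
    (hV : ∀ α β, x α β ≤ V α β) (h1 : A1 ≤ sN x) (h2 : sN x ≤ A2) (h3 : L ≤ sR x)
    (h4 : sR x ≤ U) : x ∈ P ∨ Exc e P x := by
  refine h.good.full x hx ⟨?_, ?_, ?_, ?_, ?_⟩
  · intro α β
    obtain ⟨u, hu, h5, -⟩ := h.desc α β
    exact ⟨u, hu, by rw [h5]; exact hV α β⟩
  · obtain ⟨u, hu, h5⟩ := h.attA1
    exact ⟨u, hu, by rw [h5]; exact h1⟩
  · obtain ⟨u, hu, h5⟩ := h.attA2
    exact ⟨u, hu, by rw [h5]; exact h2⟩
  · obtain ⟨u, hu, h5⟩ := h.attL
    exact ⟨u, hu, by rw [h5]; exact h3⟩
  · obtain ⟨u, hu, h5⟩ := h.attU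
    exact ⟨u, hu, by rw [h5]; exact h4⟩

theorem slabOK (h : HullPar r e P V A1 A2 L U) (n : ℤ) (hn1 : A1 ≤ n) (hn2 : n ≤ A2)
    (hn : (n - e true false - e true true) % 2 = 0) :
    SlabOK r (r - n) n (e false false) (e true false) (e false true) (e true true)
      (V false false) (V true false) (V false true) (V true true) L U := by
  obtain ⟨a, ha, ha'⟩ := h.attA1
  obtain ⟨b, hb, hb'⟩ := h.attA2
  obtain ⟨c, hc, hc'⟩ := h.attL
  obtain ⟨d, hd, hd'⟩ := h.attU
  obtain ⟨x1, hx1, x11, x12, x13⟩ := h.desc false false
  obtain ⟨x2, hx2, x21, x22, x23⟩ := h.desc true false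
  obtain ⟨x3, hx3, x31, x32, x33⟩ := h.desc false true
  obtain ⟨x4, hx4, x41, x42, x43⟩ := h.desc true true
  simp only [Bool.not_false, Bool.not_true] at x12 x13 x22 x23 x32 x33 x42 x43
  have G := h.good
  have va := G.val a ha
  have vb := G.val b hb
  have vc := G.val c hc
  have vd := G.val d hd
  have v1 := G.val x1 hx1
  have v2 := G.val x2 hx2
  have v3 := G.val x3 hx3
  have v4 := G.val x4 hx4
  have r1 := h.memR x1 hx1
  have r2 := h.memR x2 hx2
  have r3 := h.memR x3 hx3
  have r4 := h.memR x4 hx4
  have s1 := v1.sum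
  have s2 := v2.sum
  have s3 := v3.sum
  have s4 := v4.sum
  have sa := va.sum
  have sb := vb.sum
  have sc := vc.sum
  have sd := vd.sum
  have w1 := h.memV x1 hx1 true true
  have w2 := h.memV x2 hx2 false true
  have ka1 := h.memV a ha false false
  have ka3 := h.memV a ha false true
  have kb2 := h.memV b hb true false
  have kb4 := h.memV b hb true true
  have kc1 := h.memV c hc false false
  have kc2 := h.memV c hc true false
  have kd3 := h.memV d hd false true
  have kd4 := h.memV d hd true true
  simp only [sR, sN] at r1 r2 r3 r4 ha' hb' hc' hd'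
  refine ⟨G.nn _ _, G.nn _ _, G.nn _ _, G.nn _ _, ?_, ?_, ?_, ?_, ?_, ?_, ?_, ?_, ?_, ?_, ?_, ?_,
    ?_, ?_, ?_, ?_, ?_, ?_, ?_, ?_, ?_, ?_, ?_, ?_, ?_, ?_, ?_, ?_, ?_, ?_, ?_⟩
  · have := v1.le false false; omega
  · have := v2.le true false; omega
  · have := v3.le false true; omega
  · have := v4.le true true; omega
  · have := vb.le false false; have := vb.le false true; omega
  · have := va.le true false; have := va.le true true; omega
  · omega
  · omega
  · omega
  · omega
  · omega
  · omega
  · omega
  · omega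
  · omega
  · omega
  · omega
  · omega
  · omega
  · omega
  · have := h.memR c hc; simp only [sR] at this; omega
  · have := vc.le false true; have := vc.le true true; omega
  · have := vd.le false false; have := vd.le true false; omega
  · have := v1.par false false; rw [x11] at this; exact this
  · have := v2.par true false; rw [x21] at this; exact this
  · have := v3.par false true; rw [x31] at this; exact this
  · have := v4.par true true; rw [x41] at this; exact this
  · have := vc.par false true; have := vc.par true true; omega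
  · have := vd.par false true; have := vd.par true true; omega
  · have := va.par false false; have := va.par false true; have := va.par true false
    have := va.par true true; omega
  · exact hn

/-- The bounds for the number of colours separating the first pair. -/
structure AFacts (r : ℤ) (e V : St) (A1 A2 : ℤ) : Prop where
  a1 : A1 ≤ r - V false false - e false true
  a1' : r - V false false - e false true ≤ A2
  a2 : A1 ≤ V true false + e true true
  a2' : V true false + e true true ≤ A2
  a3 : A1 ≤ r - V false true - e false false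
  a3' : r - V false true - e false false ≤ A2
  a4 : A1 ≤ V true true + e true false
  a4' : V true true + e true false ≤ A2
  b1 : e true false + e true true ≤ A1
  b2 : A2 ≤ r - e false false - e false true
  b3 : A1 ≤ A2
  p1 : (A1 - e true false - e true true) % 2 = 0
  p2 : (A2 - e true false - e true true) % 2 = 0

theorem aFacts (h : HullPar r e P V A1 A2 L U) : AFacts r e V A1 A2 := by
  obtain ⟨a, ha, ha'⟩ := h.attA1
  obtain ⟨b, hb, hb'⟩ := h.attA2
  obtain ⟨x1, hx1, x11, x12, x13⟩ := h.desc false false
  obtain ⟨x2, hx2, x21, x22, x23⟩ := h.desc true false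
  obtain ⟨x3, hx3, x31, x32, x33⟩ := h.desc false true
  obtain ⟨x4, hx4, x41, x42, x43⟩ := h.desc true true
  simp only [Bool.not_false, Bool.not_true] at x12 x13 x22 x23 x32 x33 x42 x43
  have G := h.good
  have va := G.val a ha
  have vb := G.val b hb
  have s1 := (G.val x1 hx1).sum
  have s2 := (G.val x2 hx2).sum
  have s3 := (G.val x3 hx3).sum
  have s4 := (G.val x4 hx4).sum
  have sa := va.sum
  have sb := vb.sum
  have r1 := h.memA x1 hx1
  have r2 := h.memA x2 hx2
  have r3 := h.memA x3 hx3
  have r4 := h.memA x4 hx4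
  have rb := h.memA b hb
  simp only [sN] at r1 r2 r3 r4 ha' hb' rb
  have a1 := va.le true false
  have a2 := va.le true true
  have b1 := vb.le false false
  have b2 := vb.le false true
  refine ⟨?_, ?_, ?_, ?_, ?_, ?_, ?_, ?_, ?_, ?_, ?_, ?_, ?_⟩
  · omega
  · omega
  · omega
  · omega
  · omega
  · omega
  · omega
  · omega
  · omega
  · omega
  · omega
  · have := va.par true false; have := va.par true true; omega
  · have := vb.par true false; have := vb.par true true; omega

/-- If the second distance is fixed then the first distance is free. -/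
theorem free (h : HullPar r e P V A1 A2 L U) (hLU : L = U) :
    A1 = e true false + e true true ∧ A2 = r - e false false - e false true := by
  obtain ⟨a, ha, ha'⟩ := h.attA1
  obtain ⟨b, hb, hb'⟩ := h.attA2
  have G := h.good
  have va := G.val a ha
  have vb := G.val b hb
  have ra := h.memR a ha
  have rb := h.memR b hb
  have no : ∀ x ∈ P, ∀ α β, mvB x α β ∉ P := by
    intro x hx α β hm
    have h1 := h.memR x hx
    have h2 := h.memR _ hm
    rcases α with _ | _ <;> rcases β with _ | _ <;> simp [sR, mvB] at h1 h2 <;> omega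
  have hA : ∀ β, a true β = e true β := by
    intro β
    by_contra hne
    have h1 := va.le true β
    have h2 := va.par true β
    rcases G.kem a ha true β (by omega) with h3 | h3
    · have h4 := h.memA _ h3
      rcases β with _ | _ <;> simp [sN, mvA] at h4 ha' <;> omega
    · exact no a ha _ _ h3
  have hB : ∀ β, b false β = e false β := by
    intro β
    by_contra hne
    have h1 := vb.le false β
    have h2 := vb.par false β
    rcases G.kem b hb false β (by omega) with h3 | h3
    · have h4 := h.memA _ h3
      rcases β with _ | _ <;> simp [sN, mvA] at h4 hb' <;> omega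
    · exact no b hb _ _ h3
  have h1 := hA false
  have h2 := hA true
  have h3 := hB false
  have h4 := hB true
  have h5 := vb.sum
  simp only [sN] at ha' hb'
  constructor <;> omega

end HullPar

end SPK
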