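import Mathlib

/-! Integer points in a plane region bounded by lines in four directions. -/

namespace SPK

theorem exists_list_max (l : List ℤ) (h : l ≠ []) : ∃ m ∈ l, ∀ a ∈ l, a ≤ m := by
  induction l with
  | nil => exact absurd rfl h
  | cons a l ih =>
    by_cases hl : l = []
    · subst hl
      exact ⟨a, by simp, by simp⟩
    · obtain ⟨m, hm, hmax⟩ := ih hl
      rcases le_total m a with h1 | h1
      · refine ⟨a, by simp, ?_⟩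
        intro b hb
        rcases List.mem_cons.1 hb with h2 | h2
        · exact h2.le
        · exact (hmax b h2).trans h1
      · refine ⟨m, List.mem_cons_of_mem _ hm, ?_⟩
        intro b hb
        rcases List.mem_cons.1 hb with h2 | h2
        · rw [h2]; exact h1
        · exact hmax b h2

theorem exists_list_min (l : List ℤ) (h : l ≠ []) : ∃ m ∈ l, ∀ a ∈ l, m ≤ a := by
  induction l with
  | nil => exact absurd rfl h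
  | cons a l ih =>
    by_cases hl : l = []
    · subst hl
      exact ⟨a, by simp, by simp⟩
    · obtain ⟨m, hm, hmax⟩ := ih hl
      rcases le_total a m with h1 | h1
      · refine ⟨a, by simp, ?_⟩
        intro b hb
        rcases List.mem_cons.1 hb with h2 | h2
        · exact h2.ge
        · exact h1.trans (hmax b h2)
      · refine ⟨m, List.mem_cons_of_mem _ hm, ?_⟩
        intro b hb
        rcases List.mem_cons.1 hb with h2 | h2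
        · rw [h2]; exact h1
        · exact hmax b h2

theorem up_par (s u e : ℤ) (h : (s - 2 * e) % 4 = 2) (hu : (u - e) % 2 = 0) (h1 : s ≤ 2 * u) :
    s + 2 ≤ 2 * u := by omega

theorem two_dim_scalar (e f XL XU YL YU SL SU DL DU : ℤ)
    (pXL : (XL - e) % 2 = 0) (pXU : (XU - e) % 2 = 0) (pYL : (YL - f) % 2 = 0)
    (pYU : (YU - f) % 2 = 0) (pSL : (SL - e - f) % 2 = 0) (pSU : (SU - e - f) % 2 = 0)
    (pDL : (DL - e - f) % 2 = 0) (pDU : (DU - e - f) % 2 = 0)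
    (hX : XL ≤ XU) (hY : YL ≤ YU) (hS : SL ≤ SU) (hD : DL ≤ DU)
    (h1 : XL + YL ≤ SU) (h2 : SL ≤ XU + YU) (h3 : XL - YU ≤ DU) (h4 : DL ≤ XU - YL)
    (h5 : 2 * XL ≤ SU + DU) (h6 : SL + DL ≤ 2 * XU) (h7 : 2 * YL ≤ SU - DL)
    (h8 : SL - DU ≤ 2 * YU) :
    (∃ x y : ℤ, (x - e) % 2 = 0 ∧ (y - f) % 2 = 0 ∧ XL ≤ x ∧ x ≤ XU ∧ YL ≤ y ∧ y ≤ YU ∧
      SL ≤ x + y ∧ x + y ≤ SU ∧ DL ≤ x - y ∧ x - y ≤ DU) ∨
    (SL = SU ∧ DL = DU ∧ (SL + DL - 2 * e) % 4 = 2) := by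
  by_cases hdeg : SL = SU ∧ DL = DU ∧ (SL + DL - 2 * e) % 4 = 2
  · exact Or.inr hdeg
  left
  -- the rounded half sum
  obtain ⟨h, hpar, hlow, hup, hsd⟩ : ∃ h : ℤ, (h - e) % 2 = 0 ∧ SL + DL ≤ 2 * h ∧
      (∀ u : ℤ, (u - e) % 2 = 0 → SL + DL ≤ 2 * u → h ≤ u) ∧ 2 * h ≤ SU + DU := by
    by_cases hc : (SL + DL - 2 * e) % 4 = 2
    · refine ⟨(SL + DL) / 2 + 1, by omega, by omega, ?_, ?_⟩
      · intro u hu h'
        have := up_par (SL + DL) u e hc hu h'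
        omega
      · have h9 : ¬ (SL = SU ∧ DL = DU) := fun h' => hdeg ⟨h'.1, h'.2, hc⟩
        have h10 : SL + DL < SU + DU := by
          rcases lt_or_eq_of_le hS with h11 | h11
          · linarith
          · rcases lt_or_eq_of_le hD with h12 | h12
            · linarith
            · exact absurd ⟨h11, h12⟩ h9
        omega
    · refine ⟨(SL + DL) / 2, by omega, by omega, ?_, by omega⟩
      intro u hu h'
      omega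
  obtain ⟨T, hTm, hTl⟩ := exists_list_max [XL, SL - YU, YL + DL, h] (by simp)
  have t1 := hTl XL (by simp)
  have t2 := hTl (SL - YU) (by simp)
  have t3 := hTl (YL + DL) (by simp)
  have t4 := hTl h (by simp)
  have hTc : T = XL ∨ T = SL - YU ∨ T = YL + DL ∨ T = h := by simpa using hTm
  obtain ⟨W, hWm, hWl⟩ := exists_list_max [YL, SL - T, T - DU] (by simp)
  have w1 := hWl YL (by simp)
  have w2 := hWl (SL - T) (by simp)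
  have w3 := hWl (T - DU) (by simp)
  have hWc : W = YL ∨ W = SL - T ∨ W = T - DU := by simpa using hWm
  clear hTm hTl hWm hWl
  have u1 : h ≤ XU := hup XU pXU h6
  have u2 : h ≤ SU - YL := hup _ (by omega) (by linarith)
  have u3 : h ≤ YU + DU := hup _ (by omega) (by linarith)
  have pT : (T - e) % 2 = 0 := by
    clear h1 h2 h3 h4 h5 h6 h7 h8 hX hY hS hD t1 t2 t3 t4 w1 w2 w3 hWc u1 u2 u3 hup hsd hlow
    rcases hTc with h' | h' | h' | h' <;> omega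
  have pW : (W - f) % 2 = 0 := by
    clear h1 h2 h3 h4 h5 h6 h7 h8 hX hY hS hD t1 t2 t3 t4 w1 w2 w3 hTc u1 u2 u3 hup hsd hlow
    rcases hWc with h' | h' | h' <;> omega
  have T1 : T ≤ XU := by rcases hTc with h' | h' | h' | h' <;> linarith
  have T2 : T ≤ SU - YL := by rcases hTc with h' | h' | h' | h' <;> linarith
  have T3 : T ≤ YU + DU := by rcases hTc with h' | h' | h' | h' <;> linarith
  have T4 : 2 * T ≤ SU + DU := by rcases hTc with h' | h' | h' | h' <;> linarith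
  have T5 : SL + DL ≤ 2 * T := by linarith
  refine ⟨T, W, pT, pW, t1, T1, w1, ?_, by linarith, ?_, ?_, by linarith⟩
  · rcases hWc with h' | h' | h' <;> linarith
  · rcases hWc with h' | h' | h' <;> linarith
  · rcases hWc with h' | h' | h' <;> linarith

theorem two_dim (e f : ℤ) (XL XU YL YU SL SU DL DU : List ℤ)
    (nXL : XL ≠ []) (nXU : XU ≠ []) (nYL : YL ≠ []) (nYU : YU ≠ []) (nSL : SL ≠ [])
    (nSU : SU ≠ []) (nDL : DL ≠ []) (nDU : DU ≠ [])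
    (pXL : ∀ a ∈ XL, (a - e) % 2 = 0) (pXU : ∀ a ∈ XU, (a - e) % 2 = 0)
    (pYL : ∀ a ∈ YL, (a - f) % 2 = 0) (pYU : ∀ a ∈ YU, (a - f) % 2 = 0)
    (pSL : ∀ a ∈ SL, (a - e - f) % 2 = 0) (pSU : ∀ a ∈ SU, (a - e - f) % 2 = 0)
    (pDL : ∀ a ∈ DL, (a - e - f) % 2 = 0) (pDU : ∀ a ∈ DU, (a - e - f) % 2 = 0)
    (hX : ∀ a ∈ XL, ∀ b ∈ XU, a ≤ b) (hY : ∀ a ∈ YL, ∀ b ∈ YU, a ≤ b)
    (hS : ∀ a ∈ SL, ∀ b ∈ SU, a ≤ b) (hD : ∀ a ∈ DL, ∀ b ∈ DU, a ≤ b)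
    (h1 : ∀ a ∈ XL, ∀ b ∈ YL, ∀ c ∈ SU, a + b ≤ c)
    (h2 : ∀ a ∈ XU, ∀ b ∈ YU, ∀ c ∈ SL, c ≤ a + b)
    (h3 : ∀ a ∈ XL, ∀ b ∈ YU, ∀ c ∈ DU, a - b ≤ c)
    (h4 : ∀ a ∈ XU, ∀ b ∈ YL, ∀ c ∈ DL, c ≤ a - b)
    (h5 : ∀ a ∈ XL, ∀ b ∈ SU, ∀ c ∈ DU, 2 * a ≤ b + c)
    (h6 : ∀ a ∈ XU, ∀ b ∈ SL, ∀ c ∈ DL, b + c ≤ 2 * a)
    (h7 : ∀ a ∈ YL, ∀ b ∈ SU, ∀ c ∈ DL, 2 * a ≤ b - c)
    (h8 : ∀ a ∈ YU, ∀ b ∈ SL, ∀ c ∈ DU, b - c ≤ 2 * a) :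
    (∃ x y : ℤ, (x - e) % 2 = 0 ∧ (y - f) % 2 = 0 ∧ (∀ a ∈ XL, a ≤ x) ∧ (∀ a ∈ XU, x ≤ a) ∧
      (∀ a ∈ YL, a ≤ y) ∧ (∀ a ∈ YU, y ≤ a) ∧ (∀ a ∈ SL, a ≤ x + y) ∧ (∀ a ∈ SU, x + y ≤ a) ∧
      (∀ a ∈ DL, a ≤ x - y) ∧ (∀ a ∈ DU, x - y ≤ a)) ∨
    (∃ s ∈ SL, s ∈ SU ∧ ∃ d ∈ DL, d ∈ DU ∧ (s + d - 2 * e) % 4 = 2 ∧
      (∀ a ∈ SL, a ≤ s) ∧ (∀ a ∈ SU, s ≤ a) ∧ (∀ a ∈ DL, a ≤ d) ∧ (∀ a ∈ DU, d ≤ a) ∧
      (∀ a ∈ XL, 2 * a ≤ s + d) ∧ (∀ a ∈ XU, s + d ≤ 2 * a) ∧ (∀ a ∈ YL, 2 * a ≤ s - d) ∧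
      (∀ a ∈ YU, s - d ≤ 2 * a)) := by
  obtain ⟨xl, mxl, Hxl⟩ := exists_list_max XL nXL
  obtain ⟨xu, mxu, Hxu⟩ := exists_list_min XU nXU
  obtain ⟨yl, myl, Hyl⟩ := exists_list_max YL nYL
  obtain ⟨yu, myu, Hyu⟩ := exists_list_min YU nYU
  obtain ⟨sl, msl, Hsl⟩ := exists_list_max SL nSL
  obtain ⟨su, msu, Hsu⟩ := exists_list_min SU nSU
  obtain ⟨dl, mdl, Hdl⟩ := exists_list_max DL nDL
  obtain ⟨du, mdu, Hdu⟩ := exists_list_min DU nDU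
  rcases two_dim_scalar e f xl xu yl yu sl su dl du (pXL _ mxl) (pXU _ mxu) (pYL _ myl)
    (pYU _ myu) (pSL _ msl) (pSU _ msu) (pDL _ mdl) (pDU _ mdu) (hX _ mxl _ mxu)
    (hY _ myl _ myu) (hS _ msl _ msu) (hD _ mdl _ mdu) (h1 _ mxl _ myl _ msu)
    (h2 _ mxu _ myu _ msl) (h3 _ mxl _ myu _ mdu) (h4 _ mxu _ myl _ mdl)
    (h5 _ mxl _ msu _ mdu) (h6 _ mxu _ msl _ mdl) (h7 _ myl _ msu _ mdl)
    (h8 _ myu _ msl _ mdu) with ⟨x, y, a1, a2, a3, a4, a5, a6, a7, a8, a9, a10⟩ | ⟨a1, a2, a3⟩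
  · left
    exact ⟨x, y, a1, a2, fun a ha => (Hxl a ha).trans a3, fun a ha => a4.trans (Hxu a ha),
      fun a ha => (Hyl a ha).trans a5, fun a ha => a6.trans (Hyu a ha),
      fun a ha => (Hsl a ha).trans a7, fun a ha => a8.trans (Hsu a ha),
      fun a ha => (Hdl a ha).trans a9, fun a ha => a10.trans (Hdu a ha)⟩
  · right
    subst a1
    subst a2
    exact ⟨sl, msl, msu, dl, mdl, mdu, a3, Hsl, Hsu, Hdl, Hdu,
      fun a ha => h5 a ha _ msu _ mdu, fun a ha => h6 a ha _ msl _ mdl,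
      fun a ha => h7 a ha _ msu _ mdl, fun a ha => h8 a ha _ msl _ mdu⟩

end SPK
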