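import Mathlib

/-! Walking lemma: if every point of a cone has a vertex in its minimal face, then every linear
functional is beaten on average by a vertex of the minimal face. -/

namespace SPK

theorem walking {P ι X : Type*} [AddCommGroup P] [Module ℝ P] [Fintype ι]
    (L : ι → P →ₗ[ℝ] ℝ) (R : P →ₗ[ℝ] ℝ) (v : X → P)
    (hR : ∀ x, R (v x) = 1)
    (hv : ∀ i x, 0 ≤ L i (v x))
    (hV : ∀ y, 0 < R y → (∀ i, 0 ≤ L i y) → ∃ x, ∀ i, L i y = 0 → L i (v x) = 0)
    (i0 : ι) :
    ∀ (N : ℕ) (y : P), (Finset.univ.filter (fun i => 0 < L i y)).card = N → 0 < R y →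
      (∀ i, 0 ≤ L i y) →
      ∃ x, (∀ i, L i y = 0 → L i (v x) = 0) ∧ R y * L i0 (v x) ≤ L i0 y := by
  classical
  intro N
  induction N using Nat.strong_induction_on with
  | _ N ih =>
    intro y hN hy hLy
    obtain ⟨x, hx⟩ := hV y hy hLy
    by_cases h : R y * L i0 (v x) ≤ L i0 y
    · exact ⟨x, hx, h⟩
    push Not at h
    have hl0 : 0 < L i0 (v x) := by
      by_contra hneg
      push Not at hneg
      have h0 : L i0 (v x) = 0 := le_antisymm hneg (hv i0 x)
      rw [h0, mul_zero] at h
      exact absurd h (not_lt.mpr (hLy i0))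
    set S := Finset.univ.filter (fun i => 0 < L i (v x)) with hS
    have hSne : S.Nonempty := ⟨i0, by simp [hS, hl0]⟩
    obtain ⟨j, hjS, hjmin⟩ := Finset.exists_min_image S (fun i => L i y / L i (v x)) hSne
    have hj : 0 < L j (v x) := by simpa [hS] using hjS
    set t := L j y / L j (v x) with ht
    have hjy : 0 < L j y := by
      rcases lt_or_eq_of_le (hLy j) with h1 | h1
      · exact h1
      · exact absurd (hx j h1.symm) hj.ne'
    have ht0 : 0 < t := div_pos hjy hj
    have htR : t < R y := by
      have h1 : t ≤ L i0 y / L i0 (v x) := hjmin i0 (by simp [hS, hl0])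
      have h2 : L i0 y / L i0 (v x) < R y := by
        rw [div_lt_iff₀ hl0]; exact h
      exact lt_of_le_of_lt h1 h2
    set y' := y - t • v x with hy'
    have hLy' : ∀ i, L i y' = L i y - t * L i (v x) := by
      intro i; simp [hy']
    have hRy' : R y' = R y - t := by
      simp [hy', hR]
    have hnn : ∀ i, 0 ≤ L i y' := by
      intro i
      rw [hLy']
      rcases lt_or_eq_of_le (hv i x) with h1 | h1
      · have h2 : t ≤ L i y / L i (v x) := hjmin i (by simp [hS, h1])
        rw [le_div_iff₀ h1] at h2
        linarith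
      · rw [← h1, mul_zero, sub_zero]; exact hLy i
    have hjz : L j y' = 0 := by
      rw [hLy', ht, div_mul_cancel₀ _ hj.ne', sub_self]
    have hface : ∀ i, L i y = 0 → L i y' = 0 := by
      intro i hi
      rw [hLy', hi, hx i hi]; ring
    have hcard : (Finset.univ.filter (fun i => 0 < L i y')).card < N := by
      rw [← hN]
      apply Finset.card_lt_card
      rw [Finset.ssubset_iff_of_subset]
      · exact ⟨j, by simp [hjy], by simp [hjz]⟩
      · intro i hi
        simp only [Finset.mem_filter, Finset.mem_univ, true_and] at hi ⊢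
        rcases lt_or_eq_of_le (hLy i) with h1 | h1
        · exact h1
        · rw [hface i h1.symm] at hi; exact absurd hi (lt_irrefl _)
    obtain ⟨x', hx', hle⟩ := ih _ hcard y' rfl (by rw [hRy']; linarith) hnn
    refine ⟨x', fun i hi => hx' i (hface i hi), ?_⟩
    rw [hRy', hLy'] at hle
    have hpos : 0 < R y - t := by linarith
    have h3 : (R y - t) * (R y * L i0 (v x')) ≤ (R y - t) * L i0 y := by
      have e1 : (R y - t) * (R y * L i0 (v x')) = R y * ((R y - t) * L i0 (v x')) := by ring
      rw [e1]
      have e2 : R y * ((R y - t) * L i0 (v x')) ≤ R y * (L i0 y - t * L i0 (v x)) :=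
        mul_le_mul_of_nonneg_left hle hy.le
      nlinarith
    exact le_of_mul_le_mul_left h3 hpos

end SPK
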